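import Pool.Agent.XPS.St

/-! **BJ**: mean of the off-diagonal power sum. -/

set_option autoImplicit false

namespace Pool.Agent.XPS

open Finset MeasureTheory

private theorem BJ_sv (e : ℤˣ) : sv e * sv e = 1 := by
  rcases Int.units_eq_one_or e with h | h <;> subst h <;> norm_num [sv]

private theorem BJ_chi {I : Type} (A : Finset I) (η : I → ℤˣ) : chi A η * chi A η = 1 := by
  unfold chi
  rw [← Finset.prod_mul_distrib]
  exact Finset.prod_eq_one fun i _ => BJ_sv _

private theorem BJ_off {N : ℕ} (g : Fin N → Fin N → ℝ) :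
    ∑ a, ∑ b, (if a = b then 0 else g a b) = ∑ a, ∑ b, g a b - ∑ a, g a a := by
  rw [← Finset.sum_sub_distrib]
  refine Finset.sum_congr rfl fun a _ => ?_
  have h : ∀ b, (if a = b then (0 : ℝ) else g a b) = g a b - (if a = b then g a a else 0) := by
    intro b
    by_cases hab : a = b
    · subst hab
      rw [if_pos rfl, if_pos rfl, sub_self]
    · rw [if_neg hab, if_neg hab, sub_zero]
  rw [Finset.sum_congr rfl fun b _ => h b, Finset.sum_sub_distrib, Finset.sum_ite_eq,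
    if_pos (Finset.mem_univ a)]

/-- **BJ** -/
theorem thm_BJ (hW1 : St_W1) : St_BJ := by
  classical
  intro d K s N0 δ Z _ f ν j hd hδ hf hp hu hs
  have hcard : Fintype.card (Fin d × Fin K) = d * K := by
    rw [Fintype.card_prod, Fintype.card_fin, Fintype.card_fin]
  obtain ⟨h1, h2, h3⟩ := hW1 d (Fin d × Fin K) ν j hd hp hu (by rw [hcard]; exact hs)
  rw [hcard] at h1
  set w : Finset (Fin d × Fin K) → ℝ := fun A => ww ν j A with hw
  have hw0 : ∀ A, 0 ≤ w A := fun A => Finset.sum_nonneg fun J _ => sq_nonneg _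
  have hLHS : ∑ z, ∑ σ : (Fin d × Fin K) → ℤˣ, ∑ a, ∑ b, (if a = b then 0 else
      ∫ x, ∫ x', (inner ℝ x x' : ℝ) ^ j ∂(ν (σ * f z b)) ∂(ν (σ * f z a))) =
      ∑ z, (2 : ℝ) ^ (d * K) * (∑ A, w A * (∑ a, chi A (f z a)) ^ 2 - N0 * ∑ A, w A) := by
    refine Finset.sum_congr rfl fun z _ => ?_
    rw [Finset.sum_comm]
    have e1 : ∀ a : Fin N0, ∑ σ : (Fin d × Fin K) → ℤˣ, ∑ b, (if a = b then (0 : ℝ) else
        ∫ x, ∫ x', (inner ℝ x x' : ℝ) ^ j ∂(ν (σ * f z b)) ∂(ν (σ * f z a))) =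
        ∑ b, (if a = b then 0 else
          2 ^ (d * K) * ∑ A, w A * (chi A (f z a) * chi A (f z b))) := by
      intro a
      rw [Finset.sum_comm]
      refine Finset.sum_congr rfl fun b _ => ?_
      by_cases hab : a = b
      · rw [if_pos hab]
        exact Finset.sum_eq_zero fun σ _ => by rw [if_pos hab]
      · rw [if_neg hab, ← h1 (f z a) (f z b)]
        exact Finset.sum_congr rfl fun σ _ => by rw [if_neg hab]
    rw [Finset.sum_congr rfl fun a _ => e1 a, BJ_off]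
    have e2 : ∑ a, ∑ b, (2 : ℝ) ^ (d * K) * ∑ A, w A * (chi A (f z a) * chi A (f z b)) =
        2 ^ (d * K) * ∑ A, w A * (∑ a, chi A (f z a)) ^ 2 := by
      have e3 : ∀ A : Finset (Fin d × Fin K), w A * (∑ a, chi A (f z a)) ^ 2 =
          ∑ a, ∑ b, w A * (chi A (f z a) * chi A (f z b)) := by
        intro A
        rw [sq, Finset.sum_mul_sum, Finset.mul_sum]
        refine Finset.sum_congr rfl fun a _ => ?_
        rw [Finset.mul_sum]
      have e5 : ∑ A : Finset (Fin d × Fin K), ∑ a, ∑ b, w A * (chi A (f z a) * chi A (f z b)) =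
          ∑ a, ∑ b, ∑ A : Finset (Fin d × Fin K), w A * (chi A (f z a) * chi A (f z b)) := by
        rw [Finset.sum_comm]
        exact Finset.sum_congr rfl fun a _ => Finset.sum_comm
      rw [Finset.sum_congr rfl fun A _ => e3 A, e5]
      simp only [Finset.mul_sum]
    have e4 : ∑ a : Fin N0, (2 : ℝ) ^ (d * K) * ∑ A, w A * (chi A (f z a) * chi A (f z a)) =
        2 ^ (d * K) * (N0 * ∑ A, w A) := by
      rw [Finset.sum_congr rfl (g := fun _ : Fin N0 => (2 : ℝ) ^ (d * K) * ∑ A, w A)]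
      · rw [Finset.sum_const, Finset.card_univ, Fintype.card_fin, nsmul_eq_mul]
        ring
      · intro a _
        simp only [BJ_chi, mul_one]
    rw [e2, e4]
    ring
  rw [hLHS, ← Finset.mul_sum, Finset.sum_sub_distrib]
  have hT : ∑ z, ∑ A, w A * (∑ a, chi A (f z a)) ^ 2 =
      ∑ A, w A * ∑ z, (∑ a, chi A (f z a)) ^ 2 := by
    rw [Finset.sum_comm]
    exact Finset.sum_congr rfl fun A _ => by rw [Finset.mul_sum]
  rw [hT, Finset.sum_const, Finset.card_univ, nsmul_eq_mul]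
  set c : ℝ := (Fintype.card Z : ℝ) with hc
  have hc0 : 0 ≤ c := Nat.cast_nonneg _
  have hN0 : (0 : ℝ) ≤ N0 := Nat.cast_nonneg _
  have hpt : ∀ A : Finset (Fin d × Fin K), w A * ∑ z, (∑ a, chi A (f z a)) ^ 2 ≤
      (if A = ∅ then mu d j * (N0 : ℝ) ^ 2 * c else 0) +
      (if A.card ≤ 2 * s + 1 then 0 else w A * ((1 + δ) * N0 * c)) := by
    intro A
    rcases A.eq_empty_or_nonempty with hA | hA
    · subst hA
      rw [if_pos rfl, if_pos (by rw [Finset.card_empty]; omega), add_zero]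
      have e1 : ∀ z, (∑ a, chi (∅ : Finset (Fin d × Fin K)) (f z a)) = N0 := by
        intro z
        unfold chi
        simp
      rw [Finset.sum_congr rfl fun z _ => by rw [e1 z], Finset.sum_const, Finset.card_univ,
        nsmul_eq_mul, hw]
      show ww ν j ∅ * _ ≤ _
      rw [h2]
      exact le_of_eq (by ring)
    · rw [if_neg hA.ne_empty, zero_add]
      obtain ⟨g1, g2⟩ := hf A hA
      by_cases hcd : A.card ≤ 2 * s + 1
      · rw [if_pos hcd, g1 hcd, mul_zero]
      · rw [if_neg hcd]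
        exact mul_le_mul_of_nonneg_left g2 (hw0 A)
  have hsum := Finset.sum_le_sum fun A (_ : A ∈ (univ : Finset (Finset (Fin d × Fin K)))) => hpt A
  rw [Finset.sum_add_distrib, Finset.sum_ite_eq' univ ∅, if_pos (Finset.mem_univ _)] at hsum
  have hsplit : ∑ A, w A = ∑ A ∈ univ.filter (fun A : Finset (Fin d × Fin K) =>
      A.card ≤ 2 * s + 1), w A + ∑ A ∈ univ.filter (fun A : Finset (Fin d × Fin K) =>
      ¬ A.card ≤ 2 * s + 1), w A := (Finset.sum_filter_add_sum_filter_not _ _ _).symm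
  have hbig : ∑ A, (if A.card ≤ 2 * s + 1 then 0 else w A * ((1 + δ) * N0 * c)) =
      (∑ A ∈ univ.filter (fun A : Finset (Fin d × Fin K) => ¬ A.card ≤ 2 * s + 1), w A) *
        ((1 + δ) * N0 * c) := by
    rw [Finset.sum_filter, Finset.sum_mul]
    refine Finset.sum_congr rfl fun A _ => ?_
    by_cases hcd : A.card ≤ 2 * s + 1
    · rw [if_pos hcd, if_neg (not_not.2 hcd), zero_mul]
    · rw [if_neg hcd, if_pos hcd]
  rw [hbig] at hsum
  set P := ∑ A ∈ univ.filter (fun A : Finset (Fin d × Fin K) => A.card ≤ 2 * s + 1), w A with hP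
  set Q := ∑ A ∈ univ.filter (fun A : Finset (Fin d × Fin K) => ¬ A.card ≤ 2 * s + 1), w A with hQ
  have hP0 : 0 ≤ P := Finset.sum_nonneg fun A _ => hw0 A
  have hQ1 : Q ≤ 1 := by
    have h4 : ∑ A, w A ≤ 1 := h3
    rw [hsplit] at h4
    linarith
  rw [hsplit]
  have hkey : ∑ A, w A * ∑ z, (∑ a, chi A (f z a)) ^ 2 - c * (N0 * (P + Q)) ≤
      c * (mu d j * (N0 : ℝ) ^ 2 + δ * N0 - N0 * P) := by
    have h5 : δ * N0 * c * Q ≤ δ * N0 * c * 1 :=
      mul_le_mul_of_nonneg_left hQ1 (by positivity)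
    nlinarith
  calc (2 : ℝ) ^ (d * K) * (∑ A, w A * ∑ z, (∑ a, chi A (f z a)) ^ 2 - c * (N0 * (P + Q)))
      ≤ 2 ^ (d * K) * (c * (mu d j * (N0 : ℝ) ^ 2 + δ * N0 - N0 * P)) :=
        mul_le_mul_of_nonneg_left hkey (by positivity)
    _ = c * 2 ^ (d * K) * (mu d j * (N0 : ℝ) ^ 2 + δ * N0 - N0 * P) := by ring

end Pool.Agent.XPS
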