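import Pool.Agent.XPS.St

/-!
# XPS, modules C0 and CO (MP_b22a07_co)

Character of a field of characteristic 2, orthogonality.
-/

set_option autoImplicit false

namespace Pool.Agent.XPS

open Finset

private theorem C0_zmod : ∀ a b : ZMod 2, (if a + b = 0 then (1 : ℤˣ) else -1) =
    (if a = 0 then 1 else -1) * (if b = 0 then 1 else -1) := by decide

theorem thm_C0 : St_C0 := by
  classical
  intro F _ _ _
  let _ := ZMod.algebra F 2
  obtain ⟨f, hf⟩ : ∃ f : Module.Dual (ZMod 2) F, f 1 ≠ 0 := by
    by_contra h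
    push Not at h
    exact one_ne_zero ((Module.forall_dual_apply_eq_zero_iff (ZMod 2) (1 : F)).1 h)
  refine ⟨fun x => if f x = 0 then 1 else -1, fun x y => ?_, 1, ?_⟩
  · simp only [map_add]
    exact C0_zmod (f x) (f y)
  · simp only [if_neg hf]
    decide

theorem thm_CO : St_CO := by
  intro F _ _ _ ψ n v hψ
  obtain ⟨hadd, x0, hx0⟩ := hψ
  have h0 : ψ 0 = 1 := by
    have h := hadd 0 0
    rw [add_zero] at h
    exact (mul_eq_left.1 h.symm)
  have hx1 : ψ x0 = -1 := (Int.units_eq_one_or (ψ x0)).resolve_left hx0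
  split_ifs with hv
  · subst hv
    simp only [Pi.zero_apply, mul_zero, Finset.sum_const_zero, h0, sv]
    simp
  · obtain ⟨l, hl⟩ : ∃ l, v l ≠ 0 := by
      by_contra h
      push Not at h
      exact hv (funext h)
    set S := ∑ a : Fin n → F, sv (ψ (∑ j, a j * v j)) with hS
    have h1 : S = ∑ a : Fin n → F, sv (ψ (∑ j, (a + (Pi.single l (x0 / v l) : Fin n → F)) j * v j)) :=
      (Equiv.sum_comp (Equiv.addRight (Pi.single l (x0 / v l) : Fin n → F))
        (fun a : Fin n → F => sv (ψ (∑ j, a j * v j)))).symm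
    have h2 : ∀ a : Fin n → F, sv (ψ (∑ j, (a + (Pi.single l (x0 / v l) : Fin n → F)) j * v j)) =
        - sv (ψ (∑ j, a j * v j)) := by
      intro a
      have h3 : ∑ j, (a + (Pi.single l (x0 / v l) : Fin n → F)) j * v j = ∑ j, a j * v j + x0 := by
        simp only [Pi.add_apply, add_mul, Finset.sum_add_distrib]
        congr 1
        rw [Finset.sum_eq_single l]
        · rw [Pi.single_eq_same, div_mul_cancel₀ _ hl]
        · intro j _ hj
          rw [Pi.single_eq_of_ne hj, zero_mul]
        · intro h
          exact absurd (Finset.mem_univ l) h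
      rw [h3, hadd, hx1]
      simp only [sv]
      push_cast
      ring
    simp only [h2, Finset.sum_neg_distrib] at h1
    linarith

end Pool.Agent.XPS
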