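import Pool.Agent.XPS.St

/-! Module C1 of XPS (MP_b22a07_co): the BCH bound. -/

set_option autoImplicit false

namespace Pool.Agent.XPS

open Finset

/-- all power sums of order `1, ..., 2 n` vanish -/
theorem C1_pow (F : Type) [Field F] [DecidableEq F] [CharP F 2] (n : ℕ) (A : Finset F)
    (h : ∑ x ∈ A, hv n x = 0) : ∀ k : ℕ, 1 ≤ k → k ≤ 2 * n → ∑ x ∈ A, x ^ k = 0 := by
  intro k
  induction k using Nat.strong_induction_on with
  | _ k ih =>
    intro h1 h2
    rcases Nat.even_or_odd' k with ⟨l, hl | hl⟩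
    · have h3 := ih l (by omega) (by omega) (by omega)
      have h4 : ∑ x ∈ A, x ^ k = (∑ x ∈ A, x ^ l) ^ 2 := by
        have hex : ExpChar F 2 := ExpChar.prime Nat.prime_two
        rw [sum_pow_char 2]
        refine Finset.sum_congr rfl fun x _ => ?_
        rw [← pow_mul, hl, mul_comm]
      rw [h4, h3]
      ring
    · have h3 := congrFun h ⟨l, by omega⟩
      rw [Finset.sum_apply] at h3
      rw [hl]
      exact h3

theorem thm_C1 : St_C1 := by
  intro F _ _ _ n A hA h0 hs
  rcases A.eq_empty_or_nonempty with h | ⟨x0, hx0⟩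
  · exact h
  exfalso
  have hp := C1_pow F n A hs
  obtain ⟨P, hP⟩ : ∃ P : Polynomial F, P = Polynomial.X * ∏ y ∈ A.erase x0,
    (Polynomial.X - Polynomial.C y) := ⟨_, rfl⟩
  have hdeg : P.natDegree ≤ 2 * n := by
    rw [hP]
    refine Polynomial.natDegree_mul_le.trans ?_
    rw [Polynomial.natDegree_prod_of_monic _ _ fun i _ => Polynomial.monic_X_sub_C _]
    simp only [Polynomial.natDegree_X_sub_C, Polynomial.natDegree_X, Finset.sum_const, smul_eq_mul,
      mul_one]
    rw [Finset.card_erase_of_mem hx0]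
    have : 1 ≤ A.card := Finset.card_pos.2 ⟨x0, hx0⟩
    omega
  have hc : P.coeff 0 = 0 := by
    rw [hP, Polynomial.mul_coeff_zero, Polynomial.coeff_X_zero, zero_mul]
  have h1 : ∑ x ∈ A, P.eval x = 0 := by
    have h2 : ∀ x ∈ A, P.eval x = ∑ i ∈ range (P.natDegree + 1), P.coeff i * x ^ i :=
      fun x _ => Polynomial.eval_eq_sum_range x
    rw [Finset.sum_congr rfl h2, Finset.sum_comm]
    refine Finset.sum_eq_zero fun i hi => ?_
    rw [← Finset.mul_sum]
    rcases Nat.eq_zero_or_pos i with h3 | h3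
    · rw [h3, hc, zero_mul]
    · rw [hp i h3 (by have := Finset.mem_range.1 hi; omega), mul_zero]
  have h2 : ∑ x ∈ A, P.eval x = P.eval x0 := by
    refine Finset.sum_eq_single_of_mem x0 hx0 fun x hx hne => ?_
    rw [hP, Polynomial.eval_mul, Polynomial.eval_prod]
    have h3 : ∏ y ∈ A.erase x0, (Polynomial.X - Polynomial.C y).eval x = 0 :=
      Finset.prod_eq_zero (Finset.mem_erase.2 ⟨hne, hx⟩) (by simp)
    rw [h3, mul_zero]
  have h3 : P.eval x0 ≠ 0 := by
    rw [hP, Polynomial.eval_mul, Polynomial.eval_prod, Polynomial.eval_X]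
    refine mul_ne_zero (fun h => h0 (h ▸ hx0)) (Finset.prod_ne_zero_iff.2 fun y hy => ?_)
    simp only [Polynomial.eval_sub, Polynomial.eval_X, Polynomial.eval_C]
    exact sub_ne_zero.2 fun h => (Finset.mem_erase.1 hy).1 h.symm
  exact h3 (h2.symm.trans h1)

end Pool.Agent.XPS
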