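import Pool.Agent.XPS.St

/-!
[C2] Count of the zero odd power sums.
-/

set_option autoImplicit false

namespace Pool.Agent.XPS

open Finset

private lemma C2_smul {F : Type} [Field F] [CharP F 2] {n : ℕ} (k : ℕ) (v : Fin n → F) :
    k • v = if Odd k then v else 0 := by
  split_ifs with h
  · obtain ⟨m, rfl⟩ := h
    funext j
    have h2 : ((2 : ℕ) : F) = 0 := CharP.cast_eq_zero F 2
    rw [Pi.smul_apply, nsmul_eq_mul, Nat.cast_add, Nat.cast_mul, h2, zero_mul, zero_add,
      Nat.cast_one, one_mul]
  · have h' : Even k := Nat.not_odd_iff_even.1 h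
    funext j
    have h2 : ((k : ℕ) : F) = 0 := (CharP.cast_eq_zero_iff F 2 k).2 h'.two_dvd
    rw [Pi.smul_apply, nsmul_eq_mul, h2, zero_mul, Pi.zero_apply]

private lemma C2_image (h1 : St_C1) (F : Type) [Field F] [Fintype F] [DecidableEq F] [CharP F 2]
    (n : ℕ) (x : Fin (2 * n) → F) (hx : ∑ i, hv n (x i) = 0) : (univ.image x).card ≤ n := by
  have hev : ∀ y : F, y ≠ 0 → Even (univ.filter (fun i => x i = y)).card := by
    have hA := h1 F n (univ.filter (fun y => y ≠ 0 ∧ Odd (univ.filter (fun i => x i = y)).card))
      (by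
        refine le_trans (card_le_card (t := univ.image x) ?_) (le_trans card_image_le (by simp))
        intro y hy
        have hy2 := (mem_filter.1 hy).2.2
        have hpos : 0 < (univ.filter (fun i => x i = y)).card := hy2.pos
        obtain ⟨i, hi⟩ := card_pos.1 hpos
        exact mem_image.2 ⟨i, mem_univ i, (mem_filter.1 hi).2⟩)
      (by simp)
      (by
        rw [← hx, ← sum_fiberwise (s := univ) (g := x), sum_filter]
        refine sum_congr rfl fun y _ => ?_
        rw [sum_congr rfl (g := fun _ => hv n y) (fun i hi => by rw [(mem_filter.1 hi).2]),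
          sum_const, C2_smul]
        by_cases hy : y = 0
        · subst hy
          rw [if_neg (fun h => h.1 rfl)]
          split_ifs
          · funext j
            simp [hv]
          · rfl
        · by_cases ho : Odd (univ.filter (fun i => x i = y)).card
          · rw [if_pos ⟨hy, ho⟩, if_pos ho]
          · rw [if_neg (fun h => ho h.2), if_neg ho])
    intro y hy
    by_contra hne
    have : y ∈ (∅ : Finset F) := by
      rw [← hA]
      exact mem_filter.2 ⟨mem_univ y, hy, Nat.not_even_iff_odd.1 hne⟩
    exact absurd this (notMem_empty y)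
  have htot : ∑ y : F, (univ.filter (fun i => x i = y)).card = 2 * n := by
    have := card_eq_sum_card_fiberwise (f := x) (s := univ) (t := univ) (fun _ _ => mem_univ _)
    rw [card_univ, Fintype.card_fin] at this
    exact this.symm
  have hev0 : Even (univ.filter (fun i => x i = 0)).card := by
    rw [← add_sum_erase univ _ (mem_univ (0 : F))] at htot
    have h2 : Even (∑ y ∈ univ.erase (0 : F), (univ.filter (fun i => x i = y)).card) :=
      even_sum _ fun y hy => hev y (ne_of_mem_erase hy)
    have h3 : Even ((univ.filter (fun i => x i = 0)).card +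
        ∑ y ∈ univ.erase (0 : F), (univ.filter (fun i => x i = y)).card) := by
      rw [htot]
      exact even_two_mul n
    exact (Nat.even_add.1 h3).2 h2
  have hev1 : ∀ y : F, Even (univ.filter (fun i => x i = y)).card := by
    intro y
    by_cases hy : y = 0
    · rw [hy]
      exact hev0
    · exact hev y hy
  have h2 : ∀ y ∈ univ.image x, 2 ≤ (univ.filter (fun i => x i = y)).card := by
    intro y hy
    obtain ⟨i, _, hi⟩ := mem_image.1 hy
    have hpos : 0 < (univ.filter (fun i => x i = y)).card :=
      card_pos.2 ⟨i, mem_filter.2 ⟨mem_univ i, hi⟩⟩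
    obtain ⟨k, hk⟩ := hev1 y
    omega
  have h3 : (univ.image x).card * 2 ≤ ∑ y ∈ univ.image x, (univ.filter (fun i => x i = y)).card := by
    rw [← smul_eq_mul]
    exact card_nsmul_le_sum _ _ _ h2
  have h4 : ∑ y ∈ univ.image x, (univ.filter (fun i => x i = y)).card ≤ 2 * n := by
    refine le_trans (sum_le_sum_of_subset (subset_univ _)) (le_of_eq htot)
  omega

theorem thm_C2 (h1 : St_C1) : St_C2 := by
  intro F _ _ _ _ n
  have hsub : (univ : Finset (Fin (2 * n) → F)).filter (fun x => ∑ i, hv n (x i) = 0) ⊆
      (univ : Finset ((Fin (2 * n) → Fin n) × (Fin n → F))).image (fun p => p.2 ∘ p.1) := by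
    intro x hx
    have hc := C2_image h1 F n x (mem_filter.1 hx).2
    obtain ⟨e⟩ := Function.Embedding.nonempty_of_card_le
      (α := (univ.image x : Finset F)) (β := Fin n) (by
        rw [Fintype.card_coe, Fintype.card_fin]
        exact hc)
    refine mem_image.2 ⟨⟨fun i => e ⟨x i, mem_image.2 ⟨i, mem_univ i, rfl⟩⟩,
      Function.extend e (fun y => (y : F)) 0⟩, mem_univ _, ?_⟩
    funext i
    exact e.injective.extend_apply _ _ _
  refine le_trans (card_le_card hsub) (le_trans card_image_le ?_)
  rw [card_univ, Fintype.card_prod, Fintype.card_fun, Fintype.card_fun, Fintype.card_fin,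
    Fintype.card_fin]

end Pool.Agent.XPS
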