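import Pool.Agent.XPS.St

/-! **C3**: the orbit bound for the sums `SS`. -/

set_option autoImplicit false

namespace Pool.Agent.XPS

open Finset

private theorem C3_scale {F : Type} [Field F] [Fintype F] (ψ : F → ℤˣ) (n : ℕ) (a : Fin n → F)
    (c : F) (hc : c ≠ 0) :
    SS ψ n (fun j => a j * c ^ (2 * (j : ℕ) + 1)) = SS ψ n a := by
  unfold SS
  refine Fintype.sum_equiv (Equiv.mulLeft₀ c hc) _ _ fun x => ?_
  congr 2
  refine Finset.sum_congr rfl fun j _ => ?_
  unfold hv
  rw [Equiv.mulLeft₀_apply, mul_pow]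
  ring

private theorem C3_fiber {F : Type} [Field F] [Fintype F] [DecidableEq F] (n : ℕ) (a b : Fin n → F)
    (l : Fin n) (hl : a l ≠ 0) :
    ((univ.filter fun c : F => c ≠ 0).filter
      (fun c => (fun j : Fin n => a j * c ^ (2 * (j : ℕ) + 1)) = b)).card ≤ 2 * n - 1 := by
  classical
  have h1 : ((univ.filter fun c : F => c ≠ 0).filter
      (fun c => (fun j : Fin n => a j * c ^ (2 * (j : ℕ) + 1)) = b)) ⊆
      (Polynomial.nthRoots (2 * (l : ℕ) + 1) (b l / a l)).toFinset := by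
    intro c hc
    rw [mem_filter] at hc
    rw [Multiset.mem_toFinset, Polynomial.mem_nthRoots (Nat.succ_pos _)]
    have h2 := congrFun hc.2 l
    rw [← h2]
    exact (mul_div_cancel_left₀ _ hl).symm
  have h2 := (Finset.card_le_card h1).trans ((Multiset.toFinset_card_le _).trans
    (Polynomial.card_nthRoots _ _))
  have h3 := l.2
  omega

/-- **C3** -/
theorem thm_C3 (hCM : St_CM) (hC2 : St_C2) : St_C3 := by
  intro F _ _ _ _ ψ n a hψ hn ha
  obtain ⟨l, hl⟩ : ∃ l, a l ≠ 0 := by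
    by_contra h
    push Not at h
    exact ha (funext h)
  have hψ0 : ψ 0 = 1 := by
    have h := hψ.1 0 0
    rw [add_zero] at h
    exact (mul_eq_left.1 h.symm)
  have hsum := hCM F ψ univ n (2 * n) 0 hψ
  have hsum' : ∑ b : Fin n → F, SS ψ n b ^ (2 * n) = (Fintype.card F : ℝ) ^ n *
      ((univ : Finset (Fin (2 * n) → F)).filter (fun x => ∑ i, hv n (x i) = 0)).card := by
    have e1 : ((univ : Finset (Fin (2 * n) → F)).filter
        (fun x => (∀ i, x i ∈ (univ : Finset F)) ∧ ∑ i, hv n (x i) = 0)) =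
        ((univ : Finset (Fin (2 * n) → F)).filter (fun x => ∑ i, hv n (x i) = 0)) := by
      refine Finset.filter_congr fun x _ => ?_
      exact ⟨fun h => h.2, fun h => ⟨fun i => mem_univ _, h⟩⟩
    rw [e1] at hsum
    rw [← hsum]
    refine Finset.sum_congr rfl fun b _ => ?_
    have e2 : ∑ j, b j * (0 : Fin n → F) j = 0 :=
      Finset.sum_eq_zero fun j _ => by rw [Pi.zero_apply, mul_zero]
    rw [e2, hψ0]
    unfold SS sv
    simp
  have hcount := hC2 F n
  set C : Finset F := univ.filter fun c : F => c ≠ 0 with hC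
  have hCcard : (C.card : ℝ) = (Fintype.card F : ℝ) - 1 := by
    have h : C = univ.erase (0 : F) := by
      ext c
      rw [hC, mem_filter, mem_erase]
      tauto
    rw [h, card_erase_of_mem (mem_univ _), card_univ, Nat.cast_sub Fintype.card_pos, Nat.cast_one]
  have hpos : ∀ b : Fin n → F, 0 ≤ SS ψ n b ^ (2 * n) := fun b => by
    rw [pow_mul]
    exact pow_nonneg (sq_nonneg _) _
  have h1 : ((Fintype.card F : ℝ) - 1) * SS ψ n a ^ (2 * n) =
      ∑ c ∈ C, SS ψ n (fun j => a j * c ^ (2 * (j : ℕ) + 1)) ^ (2 * n) := by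
    rw [← hCcard, Finset.sum_congr rfl (g := fun _ => SS ψ n a ^ (2 * n)), sum_const, nsmul_eq_mul]
    intro c hc
    rw [C3_scale ψ n a c (mem_filter.1 hc).2]
  have h2 : ∑ c ∈ C, SS ψ n (fun j => a j * c ^ (2 * (j : ℕ) + 1)) ^ (2 * n) ≤
      (2 * (n : ℝ) - 1) * ∑ b : Fin n → F, SS ψ n b ^ (2 * n) := by
    rw [← Finset.sum_fiberwise_of_maps_to (s := C) (t := (univ : Finset (Fin n → F)))
      (g := fun c => (fun j : Fin n => a j * c ^ (2 * (j : ℕ) + 1))) (fun c _ => mem_univ _),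
      Finset.mul_sum]
    refine Finset.sum_le_sum fun b _ => ?_
    have h3 : ∀ c ∈ C.filter (fun c => (fun j : Fin n => a j * c ^ (2 * (j : ℕ) + 1)) = b),
        SS ψ n (fun j => a j * c ^ (2 * (j : ℕ) + 1)) ^ (2 * n) = SS ψ n b ^ (2 * n) := by
      intro c hc
      rw [(mem_filter.1 hc).2]
    rw [Finset.sum_congr rfl h3, sum_const, nsmul_eq_mul]
    refine mul_le_mul_of_nonneg_right ?_ (hpos b)
    have h4 := C3_fiber n a b l hl
    have h5 : ((C.filter (fun c => (fun j : Fin n => a j * c ^ (2 * (j : ℕ) + 1)) = b)).card : ℝ) ≤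
        ((2 * n - 1 : ℕ) : ℝ) := by exact_mod_cast h4
    refine h5.trans (le_of_eq ?_)
    rw [Nat.cast_sub (by omega)]
    push_cast
    ring
  have hn1 : (0 : ℝ) ≤ 2 * (n : ℝ) - 1 := by
    have : (1 : ℝ) ≤ n := by exact_mod_cast hn
    linarith
  rw [h1]
  refine h2.trans ?_
  rw [hsum', mul_assoc]
  refine mul_le_mul_of_nonneg_left ?_ hn1
  have h6 : (((univ : Finset (Fin (2 * n) → F)).filter
      (fun x => ∑ i, hv n (x i) = 0)).card : ℝ) ≤ (n : ℝ) ^ (2 * n) * (Fintype.card F : ℝ) ^ n := by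
    exact_mod_cast hcount
  calc (Fintype.card F : ℝ) ^ n * _ ≤ (Fintype.card F : ℝ) ^ n *
        ((n : ℝ) ^ (2 * n) * (Fintype.card F : ℝ) ^ n) :=
        mul_le_mul_of_nonneg_left h6 (by positivity)
    _ = (n : ℝ) ^ (2 * n) * (Fintype.card F : ℝ) ^ (2 * n) := by
        rw [two_mul n, pow_add (Fintype.card F : ℝ) n n]
        ring

end Pool.Agent.XPS
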