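import Pool.Agent.XPS.St

set_option autoImplicit false

namespace Pool.Agent.XPS

open Finset

private lemma C4_ch0 {F : Type} [Field F] {ψ : F → ℤˣ} (h : IsCh ψ) : ψ 0 = 1 := by
  have h1 := h.1 0 0
  rw [add_zero] at h1
  exact (mul_eq_left.1 h1.symm)

private lemma C4_sv (e : ℤˣ) : sv e ≤ 1 ∧ |sv e| = 1 := by
  rcases Int.units_eq_one_or e with rfl | rfl <;> simp [sv]

theorem thm_C4 (hC3 : St_C3) : St_C4 := by
  intro n δ hn hδ
  obtain ⟨K, hK⟩ : ∃ K : ℝ, K = (2 * (n : ℝ) - 1) * (n : ℝ) ^ (2 * n) := ⟨_, rfl⟩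
  have hδ2 : 0 < δ ^ (2 * n) := by positivity
  obtain ⟨q1, hq1⟩ := exists_nat_gt (K / δ ^ (2 * n))
  refine ⟨q1 + 2, ?_⟩
  intro F _ _ _ _ ψ a hq hψ ha
  have hq' : ((q1 + 2 : ℕ) : ℝ) ≤ (Fintype.card F : ℝ) := by exact_mod_cast hq
  push_cast at hq'
  have hq1' : (0 : ℝ) ≤ (q1 : ℝ) := Nat.cast_nonneg _
  have h1 := hC3 F ψ n a hψ hn ha
  rw [← hK] at h1
  have hqp : (0 : ℝ) < (Fintype.card F : ℝ) - 1 := by linarith
  have hqp0 : (0 : ℝ) ≤ (Fintype.card F : ℝ) := Nat.cast_nonneg _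
  have h2 : K ≤ δ ^ (2 * n) * ((Fintype.card F : ℝ) - 1) := by
    rw [div_lt_iff₀ hδ2] at hq1
    have : (q1 : ℝ) * δ ^ (2 * n) ≤ ((Fintype.card F : ℝ) - 1) * δ ^ (2 * n) :=
      mul_le_mul_of_nonneg_right (by linarith) hδ2.le
    linarith
  have h3 : ((Fintype.card F : ℝ) - 1) * SS ψ n a ^ (2 * n)
      ≤ ((Fintype.card F : ℝ) - 1) * (δ * Fintype.card F) ^ (2 * n) := by
    refine h1.trans ?_
    rw [mul_pow, ← mul_assoc]
    refine mul_le_mul_of_nonneg_right ?_ (by positivity)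
    linarith
  have h4 : SS ψ n a ^ (2 * n) ≤ (δ * Fintype.card F) ^ (2 * n) := le_of_mul_le_mul_left h3 hqp
  have h5 : |SS ψ n a| ^ (2 * n) ≤ (δ * Fintype.card F) ^ (2 * n) := by
    rwa [(even_two_mul n).pow_abs]
  exact (pow_le_pow_iff_left₀ (abs_nonneg _) (by positivity) (by omega)).1 h5

theorem thm_C5 (hC0 : St_C0) (hCM : St_CM) (hC2 : St_C2) (hC4 : St_C4) : St_C5 := by
  intro n δ hn hδ
  have hn0 : (0 : ℝ) < (n : ℝ) ^ (2 * n) := by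
    have : (0 : ℝ) < (n : ℝ) := by exact_mod_cast hn
    positivity
  obtain ⟨δ', hδ'⟩ : ∃ δ' : ℝ, δ' = √(δ / (n : ℝ) ^ (2 * n)) := ⟨_, rfl⟩
  have hδ'p : 0 < δ' := by rw [hδ']; exact Real.sqrt_pos.2 (by positivity)
  have hδ'2 : δ' ^ 2 * (n : ℝ) ^ (2 * n) = δ := by
    rw [hδ', Real.sq_sqrt (by positivity)]
    field_simp
  obtain ⟨q0, hq0⟩ := hC4 n δ' hn hδ'p
  refine ⟨q0, ?_⟩
  intro F _ _ _ _ v hq
  obtain ⟨ψ, hψ⟩ := hC0 F
  have hψ0 := C4_ch0 hψ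
  obtain ⟨q, hqd⟩ : ∃ q : ℝ, q = (Fintype.card F : ℝ) := ⟨_, rfl⟩
  have hqp : 0 < q := by
    rw [hqd]
    exact_mod_cast Fintype.card_pos
  have e1 := hCM F ψ univ n (2 * n + 2) v hψ
  have e2 := hCM F ψ univ n (2 * n) 0 hψ
  simp only [mem_univ, implies_true, true_and] at e1 e2
  have hSS : ∀ a : Fin n → F, ∑ x : F, sv (ψ (∑ j, a j * hv n x j)) = SS ψ n a := fun a => rfl
  simp only [hSS, Pi.zero_apply, mul_zero, sum_const_zero, hψ0] at e1 e2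
  have hsv1 : sv 1 = 1 := by simp [sv]
  simp only [hsv1, one_mul] at e2
  -- the bound for the sum of the powers `2 n`
  have b2 : ∑ a : Fin n → F, SS ψ n a ^ (2 * n) ≤ q ^ n * ((n : ℝ) ^ (2 * n) * q ^ n) := by
    rw [e2, ← hqd]
    refine mul_le_mul_of_nonneg_left ?_ (by positivity)
    have := hC2 F n
    rw [hqd]
    exact_mod_cast this
  have hS0 : SS ψ n (0 : Fin n → F) = q := by
    unfold SS
    simp [hψ0, hsv1, hqd]
  have b3 : ∀ a : Fin n → F, a ≠ 0 →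
      sv (ψ (∑ j, a j * v j)) * SS ψ n a ^ (2 * n + 2) ≤ (δ' * q) ^ 2 * SS ψ n a ^ (2 * n) := by
    intro a ha
    have h1 := hq0 F ψ a hq hψ ha
    rw [← hqd] at h1
    have h2 : SS ψ n a ^ 2 ≤ (δ' * q) ^ 2 := by
      rw [← sq_abs]
      exact pow_le_pow_left₀ (abs_nonneg _) h1 2
    have h3 : 0 ≤ SS ψ n a ^ (2 * n) := (even_two_mul n).pow_nonneg _
    have h4 : 0 ≤ SS ψ n a ^ (2 * n + 2) := by
      rw [pow_add]
      exact mul_nonneg h3 (sq_nonneg _)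
    calc sv (ψ (∑ j, a j * v j)) * SS ψ n a ^ (2 * n + 2)
        ≤ 1 * SS ψ n a ^ (2 * n + 2) := mul_le_mul_of_nonneg_right (C4_sv _).1 h4
      _ = SS ψ n a ^ 2 * SS ψ n a ^ (2 * n) := by rw [one_mul, pow_add, mul_comm]
      _ ≤ (δ' * q) ^ 2 * SS ψ n a ^ (2 * n) := mul_le_mul_of_nonneg_right h2 h3
  have b4 : ∑ a : Fin n → F, sv (ψ (∑ j, a j * v j)) * SS ψ n a ^ (2 * n + 2)
      ≤ q ^ (2 * n + 2) + (δ' * q) ^ 2 * ∑ a : Fin n → F, SS ψ n a ^ (2 * n) := by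
    rw [← add_sum_erase _ _ (mem_univ (0 : Fin n → F))]
    refine add_le_add ?_ ?_
    · rw [hS0]
      have : 0 ≤ q ^ (2 * n + 2) := by positivity
      calc _ ≤ 1 * q ^ (2 * n + 2) := mul_le_mul_of_nonneg_right (C4_sv _).1 this
        _ = _ := one_mul _
    · rw [mul_sum]
      calc _ ≤ ∑ a ∈ univ.erase (0 : Fin n → F), (δ' * q) ^ 2 * SS ψ n a ^ (2 * n) :=
            sum_le_sum fun a ha => b3 a (ne_of_mem_erase ha)
        _ ≤ _ := sum_le_sum_of_subset_of_nonneg (erase_subset _ _) fun a _ _ =>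
            mul_nonneg (sq_nonneg _) ((even_two_mul n).pow_nonneg _)
  rw [e1, ← hqd] at b4
  have b5 : q ^ n * ((((univ : Finset (Fin (2 * n + 2) → F)).filter
      (fun x => ∑ i, hv n (x i) = v)).card : ℕ) : ℝ) ≤ q ^ n * ((1 + δ) * q ^ (n + 2)) := by
    refine b4.trans ?_
    have h1 : (δ' * q) ^ 2 * ∑ a : Fin n → F, SS ψ n a ^ (2 * n)
        ≤ (δ' * q) ^ 2 * (q ^ n * ((n : ℝ) ^ (2 * n) * q ^ n)) :=
      mul_le_mul_of_nonneg_left b2 (sq_nonneg _)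
    have h2 : (δ' * q) ^ 2 * (q ^ n * ((n : ℝ) ^ (2 * n) * q ^ n)) = δ * q ^ (2 * n + 2) := by
      calc _ = (δ' ^ 2 * (n : ℝ) ^ (2 * n)) * (q ^ 2 * q ^ n * q ^ n) := by ring
        _ = _ := by rw [hδ'2]; ring
    have h3 : q ^ n * ((1 + δ) * q ^ (n + 2)) = q ^ (2 * n + 2) + δ * q ^ (2 * n + 2) := by ring
    rw [h3]
    linarith
  have b6 := le_of_mul_le_mul_left b5 (by positivity : 0 < q ^ n)
  rw [hqd] at b6
  exact b6

end Pool.Agent.XPS
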