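import Pool.Agent.XPS.St

set_option autoImplicit false

namespace Pool.Agent.XPS

open Finset

private lemma C6_desc (X D e b : ℕ) (h : e + b ≤ D) :
    X.descFactorial e * (X - D) ^ b ≤ X.descFactorial (e + b) := by
  induction b with
  | zero => simp
  | succ b ih =>
    have h1 := ih (by omega)
    rw [← add_assoc, Nat.descFactorial_succ, pow_succ, ← mul_assoc, mul_comm (X - (e + b))]
    exact Nat.mul_le_mul h1 (by omega)

theorem thm_C6 : St_C6 := by
  intro F V I _ _ _ _ _ _ h b T A hbA hIF hT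
  classical
  obtain ⟨B, hBA, hBb⟩ := Finset.exists_subset_card_eq hbA
  let e : Fin b ≃ B := (Finset.equivFinOfCardEq hBb).symm
  have hsumB : ∀ z : I ↪ F, ∑ i : Fin b, h (z (e i)) = ∑ i ∈ B, h (z i) := by
    intro z
    rw [← Finset.sum_coe_sort B fun i => h (z i)]
    exact Equiv.sum_comp e fun i : B => h (z i)
  set S := (univ : Finset (I ↪ F)).filter (fun z => ∑ i ∈ A, h (z i) = 0) with hS
  let res : (I ↪ F) → ({i // i ∉ B} ↪ F) := fun z =>
    (Function.Embedding.subtype fun i => i ∉ B).trans z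
  have hcard : S.card ≤ T * (univ : Finset ({i // i ∉ B} ↪ F)).card := by
    refine Finset.card_le_mul_card_image_of_maps_to (f := res) (fun _ _ => mem_univ _) T ?_
    intro u _
    rcases (S.filter fun z => res z = u).eq_empty_or_nonempty with h0 | ⟨z₀, hz₀⟩
    · rw [h0, card_empty]
      exact Nat.zero_le _
    have hz₀' := mem_filter.1 hz₀
    have hz₀S := (mem_filter.1 hz₀'.1).2
    refine le_trans ?_ (hT (∑ i : Fin b, h (z₀ (e i))))
    have hout : ∀ z, res z = u → ∀ (i : I) (hi : i ∉ B), z i = u.toFun ⟨i, hi⟩ := by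
      intro z hz i hi
      rw [← hz]
      rfl
    refine Finset.card_le_card_of_injOn (fun z i => z (e i)) ?_ ?_
    · intro z hz
      have hz' := mem_filter.1 (mem_coe.1 hz)
      have hzS := (mem_filter.1 hz'.1).2
      refine mem_coe.2 (mem_filter.2 ⟨mem_univ _, ?_⟩)
      show ∑ i : Fin b, h (z (e i)) = ∑ i : Fin b, h (z₀ (e i))
      rw [hsumB, hsumB]
      rw [← Finset.sum_sdiff hBA] at hzS hz₀S
      have h1 : ∑ i ∈ A \ B, h (z i) = ∑ i ∈ A \ B, h (z₀ i) := by
        refine Finset.sum_congr rfl fun i hi => ?_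
        have hiB := (mem_sdiff.1 hi).2
        rw [hout z hz'.2 i hiB, hout z₀ hz₀'.2 i hiB]
      rw [h1, ← hz₀S] at hzS
      exact add_left_cancel hzS
    · intro z hz z' hz' hzz
      have hz1 := (mem_filter.1 (mem_coe.1 hz)).2
      have hz2 := (mem_filter.1 (mem_coe.1 hz')).2
      refine Function.Embedding.ext fun i => ?_
      by_cases hi : i ∈ B
      · have h1 := congrFun hzz (e.symm ⟨i, hi⟩)
        simpa using h1
      · rw [hout z hz1 i hi, hout z' hz2 i hi]
  have hJ : Fintype.card {i // i ∉ B} = Fintype.card I - b := by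
    rw [Fintype.card_subtype_compl fun i => i ∈ B]
    rw [← hBb, Fintype.card_coe B]
  have hb : b ≤ Fintype.card I := hbA.trans (Finset.card_le_univ A)
  have hd := C6_desc (Fintype.card F) (Fintype.card I) (Fintype.card I - b) b (by omega)
  rw [Nat.sub_add_cancel hb, ← hJ, ← Fintype.card_embedding_eq, ← Fintype.card_embedding_eq] at hd
  rw [Finset.card_univ] at hcard
  calc S.card * (Fintype.card F - Fintype.card I) ^ b
      ≤ T * Fintype.card ({i // i ∉ B} ↪ F) * (Fintype.card F - Fintype.card I) ^ b :=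
        Nat.mul_le_mul_right _ hcard
    _ = T * (Fintype.card ({i // i ∉ B} ↪ F) * (Fintype.card F - Fintype.card I) ^ b) :=
        mul_assoc _ _ _
    _ ≤ T * Fintype.card (I ↪ F) := Nat.mul_le_mul_left _ hd

end Pool.Agent.XPS
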