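import Pool.Agent.XPS.St

set_option autoImplicit false

/-! XPS, module C8 (helper99): two sets of points with small character sums. -/

namespace Pool.Agent.XPS

open Finset

private theorem C8_psi_zero {F : Type} [Field F] {ψ : F → ℤˣ} (h : IsCh ψ) : ψ 0 = 1 := by
  have h1 := h.1 0 0
  rw [add_zero] at h1
  exact (mul_eq_left.1 h1.symm)

private theorem C8_psi_sum {F I : Type} [Field F] {ψ : F → ℤˣ} (h : IsCh ψ) (A : Finset I) (x : I → F) :
    ψ (∑ i ∈ A, x i) = ∏ i ∈ A, ψ (x i) := by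
  classical
  induction A using Finset.induction_on with
  | empty => simp [C8_psi_zero h]
  | insert a s ha ih => rw [sum_insert ha, prod_insert ha, h.1, ih]

private theorem C8_sv_prod {I : Type} (A : Finset I) (x : I → ℤˣ) :
    sv (∏ i ∈ A, x i) = ∏ i ∈ A, sv (x i) := by
  simp [sv, Units.coe_prod]

private theorem C8_sv_mul (e f : ℤˣ) : sv (e * f) = sv e * sv f := by
  simp [sv]

private theorem C8_sv_one : sv 1 = 1 := by simp [sv]

private theorem C8_sv_abs (e : ℤˣ) : |sv e| = 1 := by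
  rcases Int.units_eq_one_or e with rfl | rfl <;> simp [sv]

variable {F : Type} [Field F] [Fintype F] [DecidableEq F] [CharP F 2]

/-- the character sum over `U` -/
private def C8_V (ψ : F → ℤˣ) (U : Finset F) (n : ℕ) (a : Fin n → F) : ℝ :=
  ∑ x ∈ U, sv (ψ (∑ j, a j * hv n x j))

private theorem C8_V_zero {ψ : F → ℤˣ} (h : IsCh ψ) (U : Finset F) (n : ℕ) :
    C8_V ψ U n 0 = U.card := by
  simp [C8_V, C8_psi_zero h, C8_sv_one]

/-- the expansion of the number of solutions -/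
private theorem C8_expand (hCM : St_CM) {ψ : F → ℤˣ} (h : IsCh ψ) (U0 U1 : Finset F) (n m : ℕ)
    (v : Fin n → F) :
    (Fintype.card F : ℝ) ^ n * ((univ : Finset (Fin m → U0 × U1)).filter
      (fun w => ∑ i, (hv n ((w i).1 : F) + hv n ((w i).2 : F)) = v)).card =
    ∑ a : Fin n → F, sv (ψ (∑ j, a j * v j)) * (C8_V ψ U0 n a * C8_V ψ U1 n a) ^ m := by
  have hCO : ∀ u : Fin n → F, ∑ a : Fin n → F, sv (ψ (∑ j, a j * u j)) =
      if u = 0 then (Fintype.card F : ℝ) ^ n else 0 := by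
    intro u
    have h1 := hCM F ψ ∅ n 0 u h
    simp only [pow_zero, mul_one] at h1
    rw [h1]
    by_cases hu : u = 0
    · subst hu
      simp
    · have h2 : (univ : Finset (Fin 0 → F)).filter (fun x => (∀ i, x i ∈ (∅ : Finset F)) ∧
          ∑ i, hv n (x i) = u) = ∅ := by
        rw [Finset.filter_eq_empty_iff]
        rintro x _ ⟨_, hx⟩
        simp at hx
        exact hu hx.symm
      rw [h2, if_neg hu]
      simp
  have h2 : ∀ x : Fin n → F, x + x = 0 := fun x => by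
    funext j
    exact CharTwo.add_self_eq_zero (x j)
  have hV : ∀ a : Fin n → F, C8_V ψ U0 n a * C8_V ψ U1 n a =
      ∑ u : U0 × U1, sv (ψ (∑ j, a j * (hv n (u.1 : F) + hv n (u.2 : F)) j)) := by
    intro a
    rw [C8_V, C8_V, Finset.sum_mul_sum, Fintype.sum_prod_type, ← Finset.sum_coe_sort U0]
    refine Finset.sum_congr rfl fun x _ => ?_
    rw [← Finset.sum_coe_sort U1]
    refine Finset.sum_congr rfl fun y _ => ?_
    rw [← C8_sv_mul, ← h.1, ← Finset.sum_add_distrib]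
    simp only [Pi.add_apply, mul_add]
  have hr : ∀ a : Fin n → F, sv (ψ (∑ j, a j * v j)) * (C8_V ψ U0 n a * C8_V ψ U1 n a) ^ m =
      ∑ w : Fin m → U0 × U1, sv (ψ (∑ j, a j *
        (v + ∑ i, (hv n ((w i).1 : F) + hv n ((w i).2 : F))) j)) := by
    intro a
    rw [hV, Fintype.sum_pow, Finset.mul_sum]
    refine Finset.sum_congr rfl fun w _ => ?_
    rw [← C8_sv_prod, ← C8_psi_sum h, ← C8_sv_mul, ← h.1, Finset.sum_comm,
      ← Finset.sum_add_distrib]
    congr 2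
    refine Finset.sum_congr rfl fun j _ => ?_
    rw [Pi.add_apply, Finset.sum_apply, mul_add, Finset.mul_sum]
  rw [Finset.sum_congr rfl fun a _ => hr a, Finset.sum_comm, Finset.card_filter]
  push_cast
  rw [Finset.mul_sum]
  refine Finset.sum_congr rfl fun w _ => ?_
  rw [hCO]
  have h3 : (v + ∑ i, (hv n ((w i).1 : F) + hv n ((w i).2 : F)) = 0) ↔
      (∑ i, (hv n ((w i).1 : F) + hv n ((w i).2 : F)) = v) := by
    constructor
    · intro h4
      have h5 : v + ∑ i, (hv n ((w i).1 : F) + hv n ((w i).2 : F)) = v + v := by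
        rw [h4, h2]
      exact add_left_cancel h5
    · intro h4
      rw [h4, h2]
  by_cases h4 : ∑ i, (hv n ((w i).1 : F) + hv n ((w i).2 : F)) = v
  · rw [if_pos (h3.2 h4), if_pos h4, mul_one]
  · rw [if_neg (fun h5 => h4 (h3.1 h5)), if_neg h4, mul_zero]

/-- even moments of the character sums -/
private theorem C8_moment (hCM : St_CM) (hC2 : St_C2) {ψ : F → ℤˣ} (h : IsCh ψ) (U : Finset F)
    (n : ℕ) : ∑ a : Fin n → F, C8_V ψ U n a ^ (2 * n) ≤
      (Fintype.card F : ℝ) ^ n * ((n : ℝ) ^ (2 * n) * (Fintype.card F : ℝ) ^ n) := by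
  have h1 := hCM F ψ U n (2 * n) 0 h
  have h2 : ∀ a : Fin n → F, sv (ψ (∑ j, a j * (0 : Fin n → F) j)) = 1 := by
    intro a
    simp [C8_psi_zero h, C8_sv_one]
  simp only [h2, one_mul] at h1
  have h3 : ∑ a : Fin n → F, C8_V ψ U n a ^ (2 * n) = (Fintype.card F : ℝ) ^ n *
      (((univ : Finset (Fin (2 * n) → F)).filter (fun x => (∀ i, x i ∈ U) ∧
        ∑ i, hv n (x i) = 0)).card : ℝ) := h1
  rw [h3]
  refine mul_le_mul_of_nonneg_left ?_ (by positivity)
  have h4 : ((univ : Finset (Fin (2 * n) → F)).filter (fun x => (∀ i, x i ∈ U) ∧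
        ∑ i, hv n (x i) = 0)).card ≤ n ^ (2 * n) * Fintype.card F ^ n := by
    refine (Finset.card_le_card ?_).trans (hC2 F n)
    intro x hx
    rw [Finset.mem_filter] at hx ⊢
    exact ⟨hx.1, hx.2.2⟩
  exact_mod_cast h4

/-- the main estimate -/
private theorem C8_main (hCM : St_CM) (hC2 : St_C2) {ψ : F → ℤˣ} (h : IsCh ψ) (U0 U1 : Finset F)
    (S : ℕ) (v : Fin S → F) (b : ℝ) (hb0 : 0 ≤ b)
    (h0 : ∀ a : Fin S → F, a ≠ 0 → |C8_V ψ U0 S a| ≤ b)
    (h1 : ∀ a : Fin S → F, a ≠ 0 → |C8_V ψ U1 S a| ≤ b) :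
    (Fintype.card F : ℝ) ^ S * ((univ : Finset (Fin (S + 1) → U0 × U1)).filter
      (fun w => ∑ i, (hv S ((w i).1 : F) + hv S ((w i).2 : F)) = v)).card ≤
    ((U0.card : ℝ) * U1.card) ^ (S + 1) +
      b ^ 2 * ((Fintype.card F : ℝ) ^ S * ((S : ℝ) ^ (2 * S) * (Fintype.card F : ℝ) ^ S)) := by
  classical
  rw [C8_expand hCM h, ← Finset.add_sum_erase _ _ (Finset.mem_univ (0 : Fin S → F))]
  have e0 : sv (ψ (∑ j, (0 : Fin S → F) j * v j)) * (C8_V ψ U0 S 0 * C8_V ψ U1 S 0) ^ (S + 1) =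
      ((U0.card : ℝ) * U1.card) ^ (S + 1) := by
    rw [C8_V_zero h, C8_V_zero h]
    simp [C8_psi_zero h, C8_sv_one]
  rw [e0]
  refine add_le_add le_rfl ?_
  have e1 : ∀ a ∈ (univ : Finset (Fin S → F)).erase 0, sv (ψ (∑ j, a j * v j)) *
      (C8_V ψ U0 S a * C8_V ψ U1 S a) ^ (S + 1) ≤
      b ^ 2 / 2 * (C8_V ψ U0 S a ^ (2 * S) + C8_V ψ U1 S a ^ (2 * S)) := by
    intro a ha
    have ha0 : a ≠ 0 := (Finset.mem_erase.1 ha).1
    have f0 := h0 a ha0
    have f1 := h1 a ha0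
    set p := C8_V ψ U0 S a
    set r := C8_V ψ U1 S a
    have g0 : p ^ 2 ≤ b ^ 2 := by
      rw [← sq_abs]
      exact pow_le_pow_left₀ (abs_nonneg _) f0 2
    have g1 : r ^ 2 ≤ b ^ 2 := by
      rw [← sq_abs]
      exact pow_le_pow_left₀ (abs_nonneg _) f1 2
    calc sv (ψ (∑ j, a j * v j)) * (p * r) ^ (S + 1)
        ≤ |sv (ψ (∑ j, a j * v j)) * (p * r) ^ (S + 1)| := le_abs_self _
      _ = |p ^ (S + 1)| * |r ^ (S + 1)| := by
          rw [abs_mul, C8_sv_abs, one_mul, mul_pow, abs_mul]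
      _ ≤ ((p ^ (S + 1)) ^ 2 + (r ^ (S + 1)) ^ 2) / 2 := by
          rw [← sq_abs (p ^ (S + 1)), ← sq_abs (r ^ (S + 1))]
          nlinarith [sq_nonneg (|p ^ (S + 1)| - |r ^ (S + 1)|)]
      _ = (p ^ 2 * p ^ (2 * S) + r ^ 2 * r ^ (2 * S)) / 2 := by ring
      _ ≤ (b ^ 2 * p ^ (2 * S) + b ^ 2 * r ^ (2 * S)) / 2 := by
          have k0 : 0 ≤ p ^ (2 * S) := by rw [pow_mul]; positivity
          have k1 : 0 ≤ r ^ (2 * S) := by rw [pow_mul]; positivity
          have := mul_le_mul_of_nonneg_right g0 k0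
          have := mul_le_mul_of_nonneg_right g1 k1
          linarith
      _ = _ := by ring
  refine (Finset.sum_le_sum e1).trans ?_
  have e2 : ∀ a : Fin S → F, 0 ≤ b ^ 2 / 2 * (C8_V ψ U0 S a ^ (2 * S) + C8_V ψ U1 S a ^ (2 * S)) := by
    intro a
    have k0 : 0 ≤ C8_V ψ U0 S a ^ (2 * S) := by rw [pow_mul]; positivity
    have k1 : 0 ≤ C8_V ψ U1 S a ^ (2 * S) := by rw [pow_mul]; positivity
    positivity
  refine (Finset.sum_le_univ_sum_of_nonneg e2).trans ?_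
  rw [← Finset.mul_sum, Finset.sum_add_distrib]
  have m0 := C8_moment hCM hC2 h U0 S
  have m1 := C8_moment hCM hC2 h U1 S
  have : 0 ≤ b ^ 2 / 2 := by positivity
  have := mul_le_mul_of_nonneg_left (add_le_add m0 m1) this
  linarith

private theorem C8_SS (ψ : F → ℤˣ) (S : ℕ) (a : Fin S → F) (e : F) :
    SS ψ (S + 1) (Fin.snoc a e : Fin (S + 1) → F) =
      ∑ x : F, sv (ψ (∑ j, a j * hv S x j + e * x ^ (2 * S + 1))) := by
  rw [SS]
  refine Finset.sum_congr rfl fun x _ => ?_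
  rw [Fin.sum_univ_castSucc]
  simp [hv]

/-- the two sets -/
private theorem C8_sets (hC4 : St_C4) (S : ℕ) (δ : ℝ) (hδ : 0 < δ) (hδ4 : δ ≤ 1 / 4) :
    ∃ q0 : ℕ, ∀ (F : Type) [Field F] [Fintype F] [DecidableEq F] [CharP F 2] (ψ : F → ℤˣ),
      q0 ≤ Fintype.card F → IsCh ψ → ∃ U0 U1 : Finset F, Disjoint U0 U1 ∧ (0 : F) ∉ U0 ∧
        (0 : F) ∉ U1 ∧ (Fintype.card F : ℝ) / 4 ≤ U0.card ∧ (Fintype.card F : ℝ) / 4 ≤ U1.card ∧
        (∀ a : Fin S → F, a ≠ 0 → |C8_V ψ U0 S a| ≤ 2 * δ * Fintype.card F) ∧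
        (∀ a : Fin S → F, a ≠ 0 → |C8_V ψ U1 S a| ≤ 2 * δ * Fintype.card F) := by
  obtain ⟨q1, hq1⟩ := hC4 (S + 1) δ (by omega) hδ
  refine ⟨max q1 (max 8 ⌈1 / δ⌉₊), ?_⟩
  intro F _ _ _ _ ψ hq hψ
  have hqa : q1 ≤ Fintype.card F := (le_max_left _ _).trans hq
  have hqb : (8 : ℝ) ≤ Fintype.card F := by
    exact_mod_cast ((le_max_left _ _).trans (le_max_right _ _)).trans hq
  have hqc : 1 ≤ δ * Fintype.card F := by
    have h1 : ((⌈1 / δ⌉₊ : ℕ) : ℝ) ≤ Fintype.card F := by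
      exact_mod_cast ((le_max_right _ _).trans (le_max_right _ _)).trans hq
    have h2 : 1 / δ ≤ Fintype.card F := (Nat.le_ceil _).trans h1
    rwa [div_le_iff₀' hδ] at h2
  let T : (Fin S → F) → F → ℝ := fun a e => SS ψ (S + 1) (Fin.snoc a e : Fin (S + 1) → F)
  have hT : ∀ a e, (a ≠ 0 ∨ e ≠ 0) → |T a e| ≤ δ * Fintype.card F := by
    intro a e hae
    refine hq1 F ψ _ hqa hψ ?_
    intro h0
    rcases hae with h1 | h1
    · apply h1
      funext j
      have := congrFun h0 (Fin.castSucc j)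
      simpa using this
    · apply h1
      have := congrFun h0 (Fin.last S)
      simpa using this
  have hT0 : ∀ a, T a 0 = ∑ x : F, sv (ψ (∑ j, a j * hv S x j)) := by
    intro a
    simp only [T, C8_SS, zero_mul, add_zero]
  have hT1 : ∀ a, T a 1 = ∑ x : F, sv (ψ (∑ j, a j * hv S x j)) * sv (ψ (x ^ (2 * S + 1))) := by
    intro a
    simp only [T, C8_SS, one_mul]
    refine Finset.sum_congr rfl fun x _ => ?_
    rw [hψ.1, C8_sv_mul]
  have hcard : T 0 0 = Fintype.card F := by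
    rw [hT0]
    simp [C8_psi_zero hψ, C8_sv_one]
  let U0 : Finset F := univ.filter (fun u => u ≠ 0 ∧ ψ (u ^ (2 * S + 1)) = 1)
  let U1 : Finset F := univ.filter (fun u => ψ (u ^ (2 * S + 1)) = -1)
  have hU1 : ∀ a, C8_V ψ U1 S a = (T a 0 - T a 1) / 2 := by
    intro a
    rw [hT0, hT1, ← Finset.sum_sub_distrib, Finset.sum_div, C8_V, Finset.sum_filter]
    refine Finset.sum_congr rfl fun x _ => ?_
    rcases Int.units_eq_one_or (ψ (x ^ (2 * S + 1))) with h1 | h1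
    · rw [h1, if_neg (by decide)]
      simp [sv]
    · rw [h1, if_pos rfl]
      simp [sv]
  have hU0 : ∀ a, C8_V ψ U0 S a = (T a 0 + T a 1) / 2 - 1 := by
    intro a
    have hz : ∀ a : Fin S → F, sv (ψ (∑ j, a j * hv S (0 : F) j)) = 1 := by
      intro a
      simp [hv, C8_psi_zero hψ, C8_sv_one]
    rw [hT0, hT1, ← Finset.sum_add_distrib, Finset.sum_div, C8_V, Finset.sum_filter,
      ← Finset.add_sum_erase _ _ (Finset.mem_univ (0 : F)),
      ← Finset.add_sum_erase univ (fun x => (sv (ψ (∑ j, a j * hv S x j)) +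
        sv (ψ (∑ j, a j * hv S x j)) * sv (ψ (x ^ (2 * S + 1)))) / 2) (Finset.mem_univ (0 : F))]
    have h1 : (if (0 : F) ≠ 0 ∧ ψ ((0 : F) ^ (2 * S + 1)) = 1 then
        sv (ψ (∑ j, a j * hv S (0 : F) j)) else 0) = 0 := if_neg (fun h => h.1 rfl)
    have h2 : (sv (ψ (∑ j, a j * hv S (0 : F) j)) +
        sv (ψ (∑ j, a j * hv S (0 : F) j)) * sv (ψ ((0 : F) ^ (2 * S + 1)))) / 2 = 1 := by
      rw [hz, zero_pow (by omega), C8_psi_zero hψ, C8_sv_one]
      norm_num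
    rw [h1, h2, zero_add, add_sub_cancel_left]
    refine Finset.sum_congr rfl fun x hx => ?_
    have hx0 : x ≠ 0 := (Finset.mem_erase.1 hx).1
    rcases Int.units_eq_one_or (ψ (x ^ (2 * S + 1))) with h3 | h3
    · rw [h3, if_pos ⟨hx0, rfl⟩]
      simp [sv]
    · rw [h3, if_neg (fun h => absurd h.2 (by decide))]
      simp [sv]
  have hb1 := abs_le.1 (hT 0 1 (Or.inr one_ne_zero))
  have hq0 : (0 : ℝ) < Fintype.card F := by linarith
  have hδq : δ * Fintype.card F ≤ 1 / 4 * Fintype.card F :=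
    mul_le_mul_of_nonneg_right hδ4 hq0.le
  refine ⟨U0, U1, ?_, ?_, ?_, ?_, ?_, ?_, ?_⟩
  · rw [Finset.disjoint_left]
    intro x h0 h1
    have h2 := (Finset.mem_filter.1 h0).2.2
    have h3 := (Finset.mem_filter.1 h1).2
    rw [h2] at h3
    exact absurd h3 (by decide)
  · intro h0
    exact (Finset.mem_filter.1 h0).2.1 rfl
  · intro h0
    have h1 := (Finset.mem_filter.1 h0).2
    rw [zero_pow (by omega), C8_psi_zero hψ] at h1
    exact absurd h1 (by decide)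
  · rw [← C8_V_zero hψ U0 S, hU0, hcard]
    linarith [hb1.1]
  · rw [← C8_V_zero hψ U1 S, hU1, hcard]
    linarith [hb1.2]
  · intro a ha
    rw [hU0, abs_le]
    have h0 := abs_le.1 (hT a 0 (Or.inl ha))
    have h1 := abs_le.1 (hT a 1 (Or.inl ha))
    constructor <;> linarith [h0.1, h0.2, h1.1, h1.2]
  · intro a ha
    rw [hU1, abs_le]
    have h0 := abs_le.1 (hT a 0 (Or.inl ha))
    have h1 := abs_le.1 (hT a 1 (Or.inl ha))
    constructor <;> linarith [h0.1, h0.2, h1.1, h1.2]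

theorem thm_C8 (hC0 : St_C0) (hCM : St_CM) (hC2 : St_C2) (hC4 : St_C4) : St_C8 := by
  intro S δ hS hδ
  have hS0 : (0 : ℝ) < S := by exact_mod_cast hS
  set D : ℝ := 4 * (S : ℝ) ^ (2 * S) * 16 ^ (S + 1) with hD
  have hD0 : 0 < D := by positivity
  set δ1 : ℝ := min (1 / 4) (δ / D) with hδ1
  have h1 : 0 < δ1 := lt_min (by norm_num) (by positivity)
  have h2 : δ1 ≤ 1 / 4 := min_le_left _ _
  have h3 : D * δ1 ≤ δ := by
    have : δ1 ≤ δ / D := min_le_right _ _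
    rwa [le_div_iff₀' hD0] at this
  obtain ⟨q0, hq0⟩ := C8_sets hC4 S δ1 h1 h2
  -- the field
  let m : ℕ := q0 + 1
  have hm : m ≠ 0 := Nat.succ_ne_zero _
  have : Fact (Nat.Prime 2) := ⟨Nat.prime_two⟩
  let _ : Fintype (GaloisField 2 m) := Fintype.ofFinite _
  let _ : DecidableEq (GaloisField 2 m) := Classical.decEq _
  have hcard : Fintype.card (GaloisField 2 m) = 2 ^ m := by
    rw [← Nat.card_eq_fintype_card, GaloisField.card 2 m hm]
  have hqc : q0 ≤ Fintype.card (GaloisField 2 m) := by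
    rw [hcard]
    exact (Nat.le_succ q0).trans (Nat.lt_two_pow_self (n := m)).le
  obtain ⟨ψ, hψ⟩ := hC0 (GaloisField 2 m)
  obtain ⟨U0, U1, hd, hz0, hz1, hc0, hc1, hb0, hb1⟩ := hq0 (GaloisField 2 m) ψ hqc hψ
  have hq : (0 : ℝ) < Fintype.card (GaloisField 2 m) := by
    exact_mod_cast (Fintype.card_pos : 0 < Fintype.card (GaloisField 2 m))
  have hU0 : (0 : ℝ) < U0.card := by linarith
  have hU1 : (0 : ℝ) < U1.card := by linarith
  refine ⟨GaloisField 2 m, inferInstance, inferInstance, inferInstance, inferInstance, U0, U1,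
    Finset.card_pos.1 (by exact_mod_cast hU0), Finset.card_pos.1 (by exact_mod_cast hU1), hd, hz0,
    hz1, ?_⟩
  intro v
  refine (C8_main hCM hC2 hψ U0 U1 S v (2 * δ1 * Fintype.card (GaloisField 2 m)) (by positivity)
    hb0 hb1).trans ?_
  set q : ℝ := ((Fintype.card (GaloisField 2 m) : ℕ) : ℝ) with hqdef
  have h4 : (q ^ 2 / 16) ^ (S + 1) ≤ ((U0.card : ℝ) * U1.card) ^ (S + 1) := by
    refine pow_le_pow_left₀ (by positivity) ?_ _
    calc q ^ 2 / 16 = (q / 4) * (q / 4) := by ring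
      _ ≤ (U0.card : ℝ) * U1.card := mul_le_mul hc0 hc1 (by positivity) hU0.le
  have h5 : (2 * δ1 * q) ^ 2 * (q ^ S * ((S : ℝ) ^ (2 * S) * q ^ S)) =
      (D * δ1) * δ1 * (q ^ 2 / 16) ^ (S + 1) := by
    rw [hD, div_pow]
    have h16 : (16 : ℝ) ^ (S + 1) ≠ 0 := by positivity
    field_simp
    ring
  have h6 : (D * δ1) * δ1 ≤ δ := by
    have : (D * δ1) * δ1 ≤ δ * 1 := mul_le_mul h3 (by linarith) h1.le hδ.le
    linarith
  have h7 : (D * δ1) * δ1 * (q ^ 2 / 16) ^ (S + 1) ≤ δ * ((U0.card : ℝ) * U1.card) ^ (S + 1) :=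
    mul_le_mul h6 h4 (by positivity) hδ.le
  rw [h5]
  linarith

end Pool.Agent.XPS
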