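import Pool.Agent.XPS.St

set_option autoImplicit false

/-! XPS, module C9 (helper99): the family over `Γ`. -/

namespace Pool.Agent.XPS

open Finset

private theorem C9_psi_zero {F : Type} [Field F] {ψ : F → ℤˣ} (h : IsCh ψ) : ψ 0 = 1 := by
  have h1 := h.1 0 0
  rw [add_zero] at h1
  exact (mul_eq_left.1 h1.symm)

private theorem C9_psi_sum {F I : Type} [Field F] {ψ : F → ℤˣ} (h : IsCh ψ) (A : Finset I) (x : I → F) :
    ψ (∑ i ∈ A, x i) = ∏ i ∈ A, ψ (x i) := by
  classical
  induction A using Finset.induction_on with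
  | empty => simp [C9_psi_zero h]
  | insert a s ha ih => rw [sum_insert ha, prod_insert ha, h.1, ih]

private theorem C9_sv_prod {I : Type} (A : Finset I) (x : I → ℤˣ) :
    sv (∏ i ∈ A, x i) = ∏ i ∈ A, sv (x i) := by
  simp [sv, Units.coe_prod]

/-- the number of occurrences of `y` -/
private def C9_n {F I : Type} [DecidableEq F] (A : Finset I) (x : I → F) (y : F) : ℕ :=
  (A.filter (fun i => x i = y)).card

/-- a sum of values in characteristic 2 is the sum over the values which occur an odd number of times -/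
private theorem C9_odd {F I V : Type} [DecidableEq F] [AddCommGroup V] (h2 : ∀ v : V, v + v = 0)
    (A : Finset I) (x : I → F) (U : Finset F) (hU : ∀ i ∈ A, x i ∈ U) (g : F → V) :
    ∑ i ∈ A, g (x i) = ∑ y ∈ U.filter (fun y => Odd (C9_n A x y)), g y := by
  rw [← Finset.sum_fiberwise_of_maps_to (s := A) (t := U) (g := x) hU]
  rw [Finset.sum_filter]
  refine Finset.sum_congr rfl fun y _ => ?_
  have h1 : ∑ i ∈ A with x i = y, g (x i) = (C9_n A x y) • g y := by
    rw [C9_n, ← Finset.sum_const]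
    refine Finset.sum_congr rfl fun i hi => ?_
    rw [(Finset.mem_filter.1 hi).2]
  rw [h1]
  split_ifs with ho
  · obtain ⟨k, hk⟩ := ho
    rw [hk, add_smul, mul_smul, one_smul, two_smul, h2, zero_add]
  · rw [Nat.not_odd_iff_even] at ho
    obtain ⟨k, hk⟩ := ho
    rw [hk, add_smul, h2]

private theorem C9_card_odd {F I : Type} [DecidableEq F] (A : Finset I) (x : I → F) (U : Finset F) :
    (U.filter (fun y => Odd (C9_n A x y))).card ≤ A.card := by
  classical
  refine (Finset.card_le_card (t := A.image x) ?_).trans Finset.card_image_le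
  intro y hy
  rw [Finset.mem_filter] at hy
  have h1 : 0 < C9_n A x y := hy.2.pos
  obtain ⟨i, hi⟩ := Finset.card_pos.1 h1
  rw [Finset.mem_filter] at hi
  exact Finset.mem_image.2 ⟨i, hi.1, hi.2⟩

/-- no zero sums of odd length -/
private theorem C9_nz (hC1 : St_C1) {F I : Type} [Field F] [Fintype F] [DecidableEq F] [CharP F 2]
    (S : ℕ) (U0 U1 : Finset F) (hd : Disjoint U0 U1) (h0 : (0 : F) ∉ U0) (h1 : (0 : F) ∉ U1)
    (A : Finset I) (hA : A.card = S) (hS : Odd S) (x y : I → F) (hx : ∀ i ∈ A, x i ∈ U0)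
    (hy : ∀ i ∈ A, y i ∈ U1) : ∑ i ∈ A, (hv S (x i) + hv S (y i)) ≠ 0 := by
  intro h
  have h2 : ∀ v : Fin S → F, v + v = 0 := fun v => by
    funext j
    exact CharTwo.add_self_eq_zero (v j)
  rw [Finset.sum_add_distrib, C9_odd h2 A x U0 hx, C9_odd h2 A y U1 hy] at h
  set T0 := U0.filter (fun t => Odd (C9_n A x t)) with hT0
  set T1 := U1.filter (fun t => Odd (C9_n A y t)) with hT1
  have hdT : Disjoint T0 T1 :=
    Finset.disjoint_of_subset_left (Finset.filter_subset _ _)
      (Finset.disjoint_of_subset_right (Finset.filter_subset _ _) hd)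
  rw [← Finset.sum_union hdT] at h
  have hc : (T0 ∪ T1).card ≤ 2 * S := by
    have a0 := C9_card_odd A x U0
    have a1 := C9_card_odd A y U1
    have a2 := Finset.card_union_le T0 T1
    rw [← hT0] at a0
    rw [← hT1] at a1
    omega
  have hz : (0 : F) ∉ T0 ∪ T1 := by
    rw [Finset.mem_union]
    rintro (hm | hm)
    · exact h0 (Finset.mem_filter.1 hm).1
    · exact h1 (Finset.mem_filter.1 hm).1
  have hE := hC1 F S (T0 ∪ T1) hc hz h
  have hE0 : T0 = ∅ := (Finset.union_eq_empty.1 hE).1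
  have hsum : A.card = ∑ t ∈ U0, C9_n A x t :=
    Finset.card_eq_sum_card_fiberwise (f := x) (t := U0) (fun i hi => hx i hi)
  have hev : Even (∑ t ∈ U0, C9_n A x t) := by
    refine Finset.even_sum _ fun t ht => ?_
    by_contra hc
    rw [Nat.not_even_iff_odd] at hc
    have : t ∈ T0 := Finset.mem_filter.2 ⟨ht, hc⟩
    rw [hE0] at this
    exact absurd this (Finset.notMem_empty t)
  rw [← hsum, hA] at hev
  exact (Nat.not_even_iff_odd.2 hS) hev

/-- counting with `B ⊆ A` -/
private theorem C9_count {W V I : Type} [Fintype W] [AddCommGroup V] [DecidableEq V] [Fintype I]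
    [DecidableEq I] (c : W → V) (b : ℕ) (T : ℝ) (A : Finset I) (hb : b ≤ A.card)
    (hT : ∀ v : V, (((univ : Finset (Fin b → W)).filter (fun w => ∑ i, c (w i) = v)).card : ℝ) ≤
      T * (Fintype.card W : ℝ) ^ b) :
    (((univ : Finset (I → W)).filter (fun z => ∑ i ∈ A, c (z i) = 0)).card : ℝ) ≤
      T * Fintype.card (I → W) := by
  classical
  obtain ⟨B, hBA, hB⟩ := Finset.exists_subset_card_eq hb
  let e : (I → W) ≃ ({i // i ∈ B} → W) × ({i // i ∉ B} → W) :=
    Equiv.piEquivPiSubtypeProd (fun i => i ∈ B) (fun _ => W)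
  let eB : Fin b ≃ {i // i ∈ B} := (Finset.equivFinOfCardEq hB).symm
  let e2 : ({i // i ∈ B} → W) ≃ (Fin b → W) := Equiv.arrowCongr eB.symm (Equiv.refl W)
  -- the sum over the rest
  let rest : ({i // i ∉ B} → W) → V := fun v => ∑ i ∈ (A \ B).attach,
    c (v ⟨i.1, (Finset.mem_sdiff.1 i.2).2⟩)
  have hsplit : ∀ z : I → W, ∑ i ∈ A, c (z i) = ∑ i : Fin b, c (e2 (e z).1 i) + rest (e z).2 := by
    intro z
    have h1 : ∑ i ∈ B, c (z i) = ∑ i : Fin b, c (e2 (e z).1 i) := by
      rw [← Finset.sum_coe_sort B (fun i => c (z i))]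
      rw [← Equiv.sum_comp eB]
      rfl
    have h2 : ∑ i ∈ A \ B, c (z i) = rest (e z).2 := by
      rw [← Finset.sum_attach (A \ B) (fun i => c (z i))]
      rfl
    rw [← h1, ← h2, add_comm, Finset.sum_sdiff hBA]
  have hcard : (((univ : Finset (I → W)).filter (fun z => ∑ i ∈ A, c (z i) = 0)).card : ℝ) =
      ∑ v : ({i // i ∉ B} → W), (((univ : Finset (Fin b → W)).filter
        (fun w => ∑ i, c (w i) = - rest v)).card : ℝ) := by
    rw [Finset.card_filter]
    push_cast
    rw [← Equiv.sum_comp e.symm, Fintype.sum_prod_type, Finset.sum_comm]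
    refine Finset.sum_congr rfl fun v _ => ?_
    rw [Finset.card_filter]
    push_cast
    rw [← Equiv.sum_comp e2]
    refine Finset.sum_congr rfl fun u _ => ?_
    rw [hsplit (e.symm (u, v)), Equiv.apply_symm_apply]
    simp only [eq_neg_iff_add_eq_zero]
  rw [hcard]
  calc ∑ v : ({i // i ∉ B} → W), (((univ : Finset (Fin b → W)).filter
        (fun w => ∑ i, c (w i) = - rest v)).card : ℝ)
      ≤ ∑ _v : ({i // i ∉ B} → W), T * (Fintype.card W : ℝ) ^ b :=
        Finset.sum_le_sum fun v _ => hT _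
    _ = T * ((Fintype.card ({i // i ∉ B} → W) : ℝ) * (Fintype.card W : ℝ) ^ b) := by
        rw [Finset.sum_const, Finset.card_univ, nsmul_eq_mul]
        ring
    _ = T * Fintype.card (I → W) := by
        congr 1
        have h3 : Fintype.card (I → W) = Fintype.card (Fin b → W) *
            Fintype.card ({i // i ∉ B} → W) := by
          rw [← Fintype.card_congr e2, ← Fintype.card_prod, Fintype.card_congr e]
        have h8 : Fintype.card (Fin b → W) = Fintype.card W ^ b := by
          rw [Fintype.card_fun, Fintype.card_fin]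
        rw [h3, h8]
        push_cast
        ring

theorem thm_C9 (hC0 : St_C0) (hCO : St_CO) (hC1 : St_C1) (hC8 : St_C8) : St_C9 := by
  intro s δ hδ
  obtain ⟨F, _, _, _, _, U0, U1, hU0, hU1, hd, h0, h1, hcnt⟩ := hC8 (2 * s + 1) δ (by omega) hδ
  obtain ⟨ψ, hψ⟩ := hC0 F
  have hq0 : 0 < Fintype.card F := Fintype.card_pos
  refine ⟨Fintype.card F ^ (2 * s + 1), Nat.one_le_iff_ne_zero.2 (pow_pos hq0 _).ne', ?_⟩
  intro I _ _
  have eG : Fin (Fintype.card F ^ (2 * s + 1)) ≃ (Fin (2 * s + 1) → F) :=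
    (Fintype.equivFinOfCardEq (by rw [Fintype.card_fun, Fintype.card_fin])).symm
  have : Nonempty U0 := hU0.to_subtype
  have : Nonempty U1 := hU1.to_subtype
  let c : U0 × U1 → (Fin (2 * s + 1) → F) := fun w =>
    hv (2 * s + 1) (w.1 : F) + hv (2 * s + 1) (w.2 : F)
  let f : (I → U0 × U1) → Fin (Fintype.card F ^ (2 * s + 1)) → I → ℤˣ :=
    fun z a i => ψ (∑ j, eG a j * c (z i) j)
  have hchi : ∀ (A : Finset I) (z : I → U0 × U1), ∑ a, chi A (f z a) =
      if ∑ i ∈ A, c (z i) = 0 then (Fintype.card F : ℝ) ^ (2 * s + 1) else 0 := by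
    intro A z
    rw [← hCO F ψ (2 * s + 1) (∑ i ∈ A, c (z i)) hψ, ← Equiv.sum_comp eG]
    refine Finset.sum_congr rfl fun a _ => ?_
    have h3 : ∑ j, eG a j * (∑ i ∈ A, c (z i)) j = ∑ i ∈ A, ∑ j, eG a j * c (z i) j := by
      rw [Finset.sum_comm]
      refine Finset.sum_congr rfl fun j _ => ?_
      rw [Finset.sum_apply, Finset.mul_sum]
    rw [h3, C9_psi_sum hψ, C9_sv_prod]
    rfl
  refine ⟨I → U0 × U1, inferInstance, inferInstance, f, fun A => ⟨fun hA z => ?_, fun hA => ?_⟩⟩
  · rw [hchi, if_neg]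
    exact C9_nz hC1 (2 * s + 1) U0 U1 hd h0 h1 A hA (odd_two_mul_add_one s)
      (fun i => ((z i).1 : F)) (fun i => ((z i).2 : F)) (fun i _ => (z i).1.2) (fun i _ => (z i).2.2)
  · have hq : (0 : ℝ) < (Fintype.card F : ℝ) ^ (2 * s + 1) := by positivity
    have h4 : ∑ z : I → U0 × U1, (∑ a, chi A (f z a)) ^ 2 =
        ((Fintype.card F : ℝ) ^ (2 * s + 1)) ^ 2 *
          ((univ : Finset (I → U0 × U1)).filter (fun z => ∑ i ∈ A, c (z i) = 0)).card := by
      rw [Finset.card_filter]
      push_cast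
      rw [Finset.mul_sum]
      refine Finset.sum_congr rfl fun z _ => ?_
      rw [hchi]
      split_ifs <;> simp
    have h5 := C9_count c (2 * s + 1 + 1) ((1 + δ) / (Fintype.card F : ℝ) ^ (2 * s + 1)) A hA
      (fun v => by
        have h6 := hcnt v
        have h7 : (Fintype.card (U0 × U1) : ℝ) = (U0.card : ℝ) * U1.card := by
          rw [Fintype.card_prod, Fintype.card_coe, Fintype.card_coe]
          push_cast
          ring
        rw [h7, div_mul_eq_mul_div, le_div_iff₀ hq, mul_comm]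
        exact h6)
    rw [h4]
    calc ((Fintype.card F : ℝ) ^ (2 * s + 1)) ^ 2 *
          ((univ : Finset (I → U0 × U1)).filter (fun z => ∑ i ∈ A, c (z i) = 0)).card
        ≤ ((Fintype.card F : ℝ) ^ (2 * s + 1)) ^ 2 *
          ((1 + δ) / (Fintype.card F : ℝ) ^ (2 * s + 1) * Fintype.card (I → U0 × U1)) :=
          mul_le_mul_of_nonneg_left h5 (by positivity)
      _ = _ := by
          push_cast
          field_simp

end Pool.Agent.XPS
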