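import Pool.Agent.XPS.St

set_option autoImplicit false

/-! XPS, module CD (helper15): the product family. -/

namespace Pool.Agent.XPS

open Finset

private theorem CD_sv_mul (a b : ℤˣ) : sv (a * b) = sv a * sv b := by
  unfold sv
  push_cast
  rfl

private theorem CD_chi_mul {I : Type} (A : Finset I) (η θ : I → ℤˣ) :
    chi A (fun i => η i * θ i) = chi A η * chi A θ := by
  unfold chi
  rw [← Finset.prod_mul_distrib]
  exact Finset.prod_congr rfl fun i _ => CD_sv_mul _ _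

private theorem CD_sum {I : Type} (A : Finset I) (M G : ℕ) (f : Fin M → I → ℤˣ) (g : Fin G → I → ℤˣ) :
    ∑ a : Fin (M * G), chi A (fun i => f (finProdFinEquiv.symm a).1 i * g (finProdFinEquiv.symm a).2 i)
      = (∑ a, chi A (f a)) * ∑ b, chi A (g b) := by
  rw [← Equiv.sum_comp finProdFinEquiv, Fintype.sum_prod_type, Finset.sum_mul_sum]
  refine Finset.sum_congr rfl fun a _ => Finset.sum_congr rfl fun b _ => ?_
  simp only [Equiv.symm_apply_apply]
  exact CD_chi_mul A (f a) (g b)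

theorem thm_CD (h7 : St_C7) (h9 : St_C9) : St_CD := by
  intro s K δ hs hK hδ
  set δ' : ℝ := min 1 (δ / 3) with hδ'
  have hd0 : 0 < δ' := lt_min one_pos (by positivity)
  have hd1 : δ' ≤ 1 := min_le_left _ _
  have hd3 : 3 * δ' ≤ δ := by
    have := min_le_right (1 : ℝ) (δ / 3)
    rw [← hδ'] at this
    linarith
  have hsq : (1 + δ') * (1 + δ') ≤ 1 + δ := by nlinarith
  obtain ⟨L, hL2, hL⟩ := h7 s δ' hs hd0
  obtain ⟨G, hG1, hG⟩ := h9 s δ' hd0
  have hGp : (0 : ℝ) < G := by exact_mod_cast hG1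
  have hLp : (0 : ℝ) < L := by
    have : 0 < L := by omega
    exact_mod_cast this
  have hKp : (0 : ℝ) < K := by exact_mod_cast hK
  refine ⟨(2 * L * K) ^ s * G, by positivity, fun d hd => ?_⟩
  set n : ℕ := L * (d * K) with hn
  have hdK : 1 ≤ d * K := Nat.mul_pos hd hK
  have hn2 : 1 < n := by
    calc 1 < L := by omega
      _ = L * 1 := (mul_one _).symm
      _ ≤ L * (d * K) := Nat.mul_le_mul_left _ hdK
  set m : ℕ := Nat.clog 2 n with hm
  have hle : n ≤ 2 ^ m := Nat.le_pow_clog (by norm_num) n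
  have hlt : 2 ^ (m - 1) < n := Nat.pow_pred_clog_lt_self (by norm_num) hn2
  have hmpos : 0 < m := Nat.clog_pos (by norm_num) hn2
  have hub : 2 ^ m ≤ 2 * n := by
    obtain ⟨t, ht⟩ : ∃ t, m = t + 1 := ⟨m - 1, by omega⟩
    rw [ht] at hlt ⊢
    rw [Nat.add_sub_cancel] at hlt
    rw [pow_succ]
    omega
  have : Nonempty (Fin d × Fin K) := ⟨(⟨0, hd⟩, ⟨0, hK⟩)⟩
  have hcard : Fintype.card (Fin d × Fin K) = d * K := by
    rw [Fintype.card_prod, Fintype.card_fin, Fintype.card_fin]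
  obtain ⟨Z, iZ, nZ, f, hf⟩ := hL m (Fin d × Fin K) (by rw [hcard]; exact hle)
  obtain ⟨Z', iZ', nZ', g, hg⟩ := hG (Fin d × Fin K)
  refine ⟨(2 ^ m) ^ s * G, Nat.mul_pos (pow_pos (pow_pos (by norm_num) _) _) hG1, ?_, Z × Z',
    inferInstance, inferInstance,
    fun z a i => f z.1 (finProdFinEquiv.symm a).1 i * g z.2 (finProdFinEquiv.symm a).2 i, ?_⟩
  · push_cast
    have h1 : ((2 : ℝ) ^ m) ≤ 2 * L * K * d := by
      have : ((2 ^ m : ℕ) : ℝ) ≤ ((2 * n : ℕ) : ℝ) := by exact_mod_cast hub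
      rw [hn] at this
      push_cast at this
      linarith
    calc ((2 : ℝ) ^ m) ^ s * G ≤ (2 * L * K * d) ^ s * G := by gcongr
      _ = (2 * L * K) ^ s * G * d ^ s := by rw [mul_pow (2 * (L : ℝ) * K)]; ring
  · intro A hA
    have hsum : ∀ z : Z × Z', ∑ a : Fin ((2 ^ m) ^ s * G),
        chi A ((fun (z : Z × Z') a i => f z.1 (finProdFinEquiv.symm a).1 i
          * g z.2 (finProdFinEquiv.symm a).2 i) z a)
        = (∑ a, chi A (f z.1 a)) * ∑ b, chi A (g z.2 b) := fun z => CD_sum A _ _ _ _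
    have hzero : A.card ≤ 2 * s + 1 → ∑ z : Z × Z', (∑ a : Fin ((2 ^ m) ^ s * G),
        chi A ((fun (z : Z × Z') a i => f z.1 (finProdFinEquiv.symm a).1 i
          * g z.2 (finProdFinEquiv.symm a).2 i) z a)) ^ 2 = 0 := by
      intro hc
      refine Finset.sum_eq_zero fun z _ => ?_
      rw [hsum z]
      rcases Nat.lt_or_ge A.card (2 * s + 1) with hc' | hc'
      · rw [(hf A).1 hA (by omega) z.1]; ring
      · rw [(hg A).1 (by omega) z.2]; ring
    refine ⟨hzero, ?_⟩
    rcases Nat.lt_or_ge A.card (2 * s + 2) with hc | hc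
    · rw [hzero (by omega)]
      positivity
    · have h1 := (hf A).2 hc
      have h2 := (hg A).2 hc
      have e1 : ∑ z : Z × Z', (∑ a : Fin ((2 ^ m) ^ s * G),
          chi A ((fun (z : Z × Z') a i => f z.1 (finProdFinEquiv.symm a).1 i
            * g z.2 (finProdFinEquiv.symm a).2 i) z a)) ^ 2
          = (∑ z, (∑ a, chi A (f z a)) ^ 2) * ∑ z, (∑ a, chi A (g z a)) ^ 2 := by
        rw [Fintype.sum_prod_type, Finset.sum_mul_sum]
        refine Finset.sum_congr rfl fun z _ => Finset.sum_congr rfl fun z' _ => ?_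
        rw [hsum (z, z')]
        ring
      rw [e1]
      have p1 : 0 ≤ ∑ z, (∑ a, chi A (g z a)) ^ 2 := Finset.sum_nonneg fun z _ => sq_nonneg _
      have q1 : 0 ≤ (1 + δ') * (((2 ^ m) ^ s : ℕ) : ℝ) * Fintype.card Z := by positivity
      calc (∑ z, (∑ a, chi A (f z a)) ^ 2) * ∑ z, (∑ a, chi A (g z a)) ^ 2
          ≤ ((1 + δ') * (((2 ^ m) ^ s : ℕ) : ℝ) * Fintype.card Z)
            * ((1 + δ') * G * Fintype.card Z') := mul_le_mul h1 h2 p1 q1
        _ = ((1 + δ') * (1 + δ')) * ((((2 ^ m) ^ s : ℕ) : ℝ) * G * (Fintype.card Z * Fintype.card Z')) := by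
            ring
        _ ≤ (1 + δ) * ((((2 ^ m) ^ s : ℕ) : ℝ) * G * (Fintype.card Z * Fintype.card Z')) := by
            gcongr
        _ = _ := by
            rw [Fintype.card_prod]
            push_cast
            ring

end Pool.Agent.XPS
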