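import Pool.Agent.XPS.St

set_option autoImplicit false

/-!
MP_b22a07_co, THEOREM S, module CM: moments of character sums.
-/

namespace Pool.Agent.XPS

open Finset

private theorem CM_sv_mul (e f : ℤˣ) : sv (e * f) = sv e * sv f := by
  simp [sv]

private theorem CM_sv_one : sv 1 = 1 := by
  simp [sv]

private theorem CM_psi_zero {F : Type} [Field F] {ψ : F → ℤˣ} (h : IsCh ψ) : ψ 0 = 1 := by
  have h1 := h.1 0 0
  rw [add_zero] at h1
  exact (mul_eq_left).1 h1.symm

private theorem CM_psi_sum {F I : Type} [Field F] {ψ : F → ℤˣ} (h : IsCh ψ) (s : Finset I)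
    (g : I → F) : sv (ψ (∑ i ∈ s, g i)) = ∏ i ∈ s, sv (ψ (g i)) := by
  classical
  induction s using Finset.induction_on with
  | empty => simp [CM_psi_zero h, CM_sv_one]
  | insert a s ha ih => rw [Finset.sum_insert ha, Finset.prod_insert ha, h.1, CM_sv_mul, ih]

/-- moments of character sums -/
theorem thm_CM (hCO : St_CO) : St_CM := by
  intro F _ _ _ _ ψ U n m v hψ
  have h1 : ∀ a : Fin n → F, sv (ψ (∑ j, a j * v j)) *
      (∑ x ∈ U, sv (ψ (∑ j, a j * hv n x j))) ^ m
      = ∑ p ∈ Fintype.piFinset (fun _ : Fin m => U),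
        sv (ψ (∑ j, a j * (v + ∑ i, hv n (p i)) j)) := by
    intro a
    have e1 : (∑ x ∈ U, sv (ψ (∑ j, a j * hv n x j))) ^ m
        = ∏ _i : Fin m, ∑ x ∈ U, sv (ψ (∑ j, a j * hv n x j)) := by
      rw [Finset.prod_const, Finset.card_univ, Fintype.card_fin]
    rw [e1, Finset.prod_univ_sum, Finset.mul_sum]
    refine Finset.sum_congr rfl (fun p _ => ?_)
    rw [← CM_psi_sum hψ, ← CM_sv_mul, ← hψ.1]
    congr 2
    rw [Finset.sum_comm, ← Finset.sum_add_distrib]
    refine Finset.sum_congr rfl (fun j _ => ?_)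
    rw [Pi.add_apply, Finset.sum_apply, mul_add, Finset.mul_sum]
  rw [Finset.sum_congr rfl (fun a _ => h1 a), Finset.sum_comm,
    Finset.sum_congr rfl (fun p _ => hCO F ψ n (v + ∑ i, hv n (p i)) hψ)]
  rw [← Finset.sum_filter, Finset.sum_const, nsmul_eq_mul, mul_comm]
  congr 2
  congr 1
  ext p
  simp only [Finset.mem_filter, Fintype.mem_piFinset, Finset.mem_univ, true_and]
  refine and_congr_right (fun _ => ?_)
  constructor
  · intro h
    funext j
    have h2 := congrFun h j
    rw [Pi.add_apply, Pi.zero_apply, CharTwo.add_eq_zero] at h2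
    exact h2.symm
  · intro h
    funext j
    rw [Pi.add_apply, h, Pi.zero_apply, CharTwo.add_self_eq_zero]

end Pool.Agent.XPS
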