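import Pool.Agent.XPS.St

set_option autoImplicit false

/-!
MP_b22a07_co, module D1: the central limit theorem for signs.
-/

namespace Pool.Agent.XPS

open Finset MeasureTheory ProbabilityTheory Filter Topology
open scoped ENNReal

/-- The law of the normalised sum of `K` signs. -/
private noncomputable def D1_mu (K : ℕ) : Measure ℝ :=
  ((2 : ℝ≥0∞) ^ K)⁻¹ • ∑ e : Fin K → ℤˣ, Measure.dirac (BB e)

/-- The law of one sign. -/
private noncomputable def D1_nu : Measure ℝ :=
  (2 : ℝ≥0∞)⁻¹ • ∑ e : ℤˣ, Measure.dirac (sv e)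

private lemma D1_card (K : ℕ) : Fintype.card (Fin K → ℤˣ) = 2 ^ K := by
  simp

private lemma D1_apply (K : ℕ) (s : Set ℝ) [DecidablePred (fun e : Fin K → ℤˣ => BB e ∈ s)]
    (hs : MeasurableSet s) :
    D1_mu K s = ((2 : ℝ≥0∞) ^ K)⁻¹ *
      (((univ : Finset (Fin K → ℤˣ)).filter (fun e => BB e ∈ s)).card : ℝ≥0∞) := by
  unfold D1_mu
  rw [Measure.smul_apply, Measure.finsetSum_apply, smul_eq_mul]
  congr 1
  rw [Finset.card_filter]
  push_cast
  refine Finset.sum_congr rfl fun e _ => ?_
  rw [Measure.dirac_apply' _ hs]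
  simp [Set.indicator_apply]

private instance D1_prob (K : ℕ) : IsProbabilityMeasure (D1_mu K) := by
  classical
  refine ⟨?_⟩
  rw [D1_apply K Set.univ MeasurableSet.univ]
  simp only [Set.mem_univ, Finset.filter_true, Finset.card_univ, D1_card]
  push_cast
  exact ENNReal.inv_mul_cancel (by simp) (by simp)

private instance D1_probnu : IsProbabilityMeasure D1_nu := by
  refine ⟨?_⟩
  unfold D1_nu
  rw [Measure.smul_apply, Measure.finsetSum_apply, smul_eq_mul]
  simp [ENNReal.inv_mul_cancel]

private lemma D1_charnu (t : ℝ) :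
    charFun D1_nu t = (2 : ℂ)⁻¹ * ∑ e : ℤˣ, Complex.exp (t * (sv e : ℝ) * Complex.I) := by
  unfold D1_nu
  rw [charFun_apply_real, integral_smul_measure, integral_finsetSum_measure]
  · simp [integral_dirac, mul_add]
  · intro e _
    exact integrable_dirac (by simp)

private lemma D1_charmu (K : ℕ) (t : ℝ) :
    charFun (D1_mu K) t = (charFun D1_nu ((√K)⁻¹ * t)) ^ K := by
  classical
  unfold D1_mu
  rw [D1_charnu, charFun_apply_real, integral_smul_measure, integral_finsetSum_measure]
  · rw [mul_pow, ← Fin.prod_const K (∑ e : ℤˣ, _), Finset.prod_univ_sum, Fintype.piFinset_univ]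
    simp only [integral_dirac]
    rw [show (((2 : ℝ≥0∞) ^ K)⁻¹).toReal = ((2 : ℝ)⁻¹) ^ K by simp]
    rw [Complex.real_smul]
    push_cast
    congr 1
    refine Finset.sum_congr rfl fun e _ => ?_
    rw [← Complex.exp_sum]
    congr 1
    unfold BB
    push_cast
    rw [Finset.sum_div, Finset.mul_sum, Finset.sum_mul]
    refine Finset.sum_congr rfl fun k _ => ?_
    ring
  · intro e _
    exact integrable_dirac (by simp)

private lemma D1_mean : ∫ x, x ∂D1_nu = 0 := by
  unfold D1_nu
  rw [integral_smul_measure, integral_finsetSum_measure]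
  · simp [integral_dirac, sv]
  · intro e _
    exact integrable_dirac (by simp)

private lemma D1_sq : ∫ x, x ^ 2 ∂D1_nu = 1 := by
  unfold D1_nu
  rw [integral_smul_measure, integral_finsetSum_measure]
  · simp [integral_dirac, sv]
    norm_num
  · intro e _
    exact integrable_dirac (by simp)

theorem thm_D1 : St_D1 := by
  intro a
  have h1 : Tendsto (β := ProbabilityMeasure ℝ)
      (fun K : ℕ => (⟨D1_mu K, inferInstance⟩ : ProbabilityMeasure ℝ)) atTop
      (𝓝 (⟨gaussianReal 0 1, inferInstance⟩ : ProbabilityMeasure ℝ)) := by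
    rw [ProbabilityMeasure.tendsto_iff_tendsto_charFun]
    intro t
    have h := tendsto_charFun_inv_sqrt_mul_pow (P := D1_nu) (X := fun x => x) aemeasurable_id'
      D1_mean (by simpa using D1_sq) t
    simp only [Measure.map_id'] at h
    simp only [ProbabilityMeasure.coe_mk, D1_charmu]
    convert h using 2
    rw [charFun_gaussianReal]
    simp [neg_div]
  have hna : NullSingletonClass (gaussianReal 0 1) := nullSingletonClass_gaussianReal one_ne_zero
  have h2 := ProbabilityMeasure.tendsto_measure_of_null_frontier_of_tendsto' h1 (E := Set.Iic a)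
    (by simp)
  have h3 := (ENNReal.tendsto_toReal (measure_ne_top _ _)).comp h2
  refine h3.congr fun K => ?_
  classical
  simp only [Function.comp_apply, ProbabilityMeasure.coe_mk]
  rw [D1_apply K _ measurableSet_Iic]
  simp only [Set.mem_Iic, ENNReal.toReal_mul, ENNReal.toReal_inv, ENNReal.toReal_pow,
    ENNReal.toReal_ofNat, ENNReal.toReal_natCast]
  rw [div_eq_inv_mul]

end Pool.Agent.XPS
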