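import Pool.Agent.XPS.St

/-!
# XPS, module D2 (helper81): second and fourth moments of sums of signs, the Gaussian tail
-/

set_option autoImplicit false

namespace Pool.Agent.XPS

open Finset MeasureTheory ProbabilityTheory Filter Topology
open scoped ENNReal NNReal

/-! ### signs -/

theorem D2_sum_units (F : ℤˣ → ℝ) : ∑ u : ℤˣ, F u = F 1 + F (-1) := by
  rw [show (Finset.univ : Finset ℤˣ) = {1, -1} from rfl, Finset.sum_pair (by decide)]

theorem D2_succ (K p : ℕ) : ∑ e : Fin (K + 1) → ℤˣ, (∑ k, sv (e k)) ^ p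
    = ∑ e : Fin K → ℤˣ, ((1 + ∑ k, sv (e k)) ^ p + (-1 + ∑ k, sv (e k)) ^ p) := by
  rw [← (Fin.consEquiv (fun _ : Fin (K + 1) => ℤˣ)).sum_comp, Fintype.sum_prod_type, D2_sum_units,
    ← Finset.sum_add_distrib]
  refine Finset.sum_congr rfl fun e _ => ?_
  simp [Fin.sum_univ_succ, sv]

theorem D2_card (K : ℕ) : ∑ _e : Fin K → ℤˣ, (1 : ℝ) = 2 ^ K := by
  simp

theorem D2_two (K : ℕ) : ∑ e : Fin K → ℤˣ, (∑ k, sv (e k)) ^ 2 = K * 2 ^ K := by
  induction K with
  | zero => simp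
  | succ K ih =>
    rw [D2_succ]
    have h1 : ∀ e : Fin K → ℤˣ, (1 + ∑ k, sv (e k)) ^ 2 + (-1 + ∑ k, sv (e k)) ^ 2
        = 2 * (∑ k, sv (e k)) ^ 2 + 2 * 1 := fun e => by ring
    rw [Finset.sum_congr rfl fun e _ => h1 e, Finset.sum_add_distrib, ← Finset.mul_sum,
      ← Finset.mul_sum, ih, D2_card]
    push_cast
    ring

theorem D2_four (K : ℕ) :
    ∑ e : Fin K → ℤˣ, (∑ k, sv (e k)) ^ 4 = (3 * (K : ℝ) ^ 2 - 2 * K) * 2 ^ K := by
  induction K with
  | zero => simp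
  | succ K ih =>
    rw [D2_succ]
    have h1 : ∀ e : Fin K → ℤˣ, (1 + ∑ k, sv (e k)) ^ 4 + (-1 + ∑ k, sv (e k)) ^ 4
        = 2 * (∑ k, sv (e k)) ^ 4 + 12 * (∑ k, sv (e k)) ^ 2 + 2 * 1 := fun e => by ring
    rw [Finset.sum_congr rfl fun e _ => h1 e, Finset.sum_add_distrib, Finset.sum_add_distrib,
      ← Finset.mul_sum, ← Finset.mul_sum, ← Finset.mul_sum, ih, D2_two, D2_card]
    push_cast
    ring

/-! ### the Gaussian -/

theorem D2_moment (v : ℝ≥0) (n : ℕ) :
    ∫ x, x ^ n ∂gaussianReal 0 v = iteratedDeriv n (fun t : ℝ => Real.exp (v * t ^ 2 / 2)) 0 := by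
  have h := iteratedDeriv_mgf_zero (X := (id : ℝ → ℝ)) (μ := gaussianReal 0 v) (by
    rw [integrableExpSet_id_gaussianReal]; simp) n
  rw [mgf_id_gaussianReal] at h
  simp only [zero_mul, zero_add] at h
  rw [h]
  simp

theorem D2_der (v : ℝ) (p : ℝ → ℝ) (p' : ℝ) (t : ℝ) (hp : HasDerivAt p p' t) :
    HasDerivAt (fun t : ℝ => p t * Real.exp (v * t ^ 2 / 2))
      ((p' + p t * v * t) * Real.exp (v * t ^ 2 / 2)) t := by
  have h1 : HasDerivAt (fun t : ℝ => Real.exp (v * t ^ 2 / 2))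
      (Real.exp (v * t ^ 2 / 2) * (v * (2 * t) / 2)) t := by
    apply HasDerivAt.exp
    have h2 := ((hasDerivAt_pow 2 t).const_mul v).div_const 2
    simpa using h2
  exact (hp.mul h1).congr_deriv (by ring)

theorem D2_deriv (v : ℝ) : iteratedDeriv 4 (fun t : ℝ => Real.exp (v * t ^ 2 / 2)) 0 = 3 * v ^ 2 := by
  have h1 : deriv (fun t : ℝ => Real.exp (v * t ^ 2 / 2))
      = fun t => v * t * Real.exp (v * t ^ 2 / 2) := by
    funext t
    have := (D2_der v (fun _ => 1) 0 t (hasDerivAt_const t 1)).deriv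
    simp only [one_mul, zero_add] at this
    rw [this]
  have h2 : deriv (fun t : ℝ => v * t * Real.exp (v * t ^ 2 / 2))
      = fun t => (v + v ^ 2 * t ^ 2) * Real.exp (v * t ^ 2 / 2) := by
    funext t
    have := (D2_der v (fun t => v * t) v t (by simpa using (hasDerivAt_id t).const_mul v)).deriv
    rw [this]
    ring
  have h3 : deriv (fun t : ℝ => (v + v ^ 2 * t ^ 2) * Real.exp (v * t ^ 2 / 2))
      = fun t => (3 * v ^ 2 * t + v ^ 3 * t ^ 3) * Real.exp (v * t ^ 2 / 2) := by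
    funext t
    have := (D2_der v (fun t => v + v ^ 2 * t ^ 2) (v ^ 2 * (2 * t)) t (by
      simpa using ((hasDerivAt_pow 2 t).const_mul (v ^ 2)).const_add v)).deriv
    rw [this]
    ring
  have h4 : deriv (fun t : ℝ => (3 * v ^ 2 * t + v ^ 3 * t ^ 3) * Real.exp (v * t ^ 2 / 2))
      = fun t => (3 * v ^ 2 + 6 * v ^ 3 * t ^ 2 + v ^ 4 * t ^ 4) * Real.exp (v * t ^ 2 / 2) := by
    funext t
    have := (D2_der v (fun t => 3 * v ^ 2 * t + v ^ 3 * t ^ 3) (3 * v ^ 2 + v ^ 3 * (3 * t ^ 2)) t (by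
      simpa using ((hasDerivAt_id t).const_mul (3 * v ^ 2)).fun_add
        ((hasDerivAt_pow 3 t).const_mul (v ^ 3)))).deriv
    rw [this]
    ring
  rw [iteratedDeriv_succ', iteratedDeriv_succ', iteratedDeriv_succ', iteratedDeriv_succ',
    iteratedDeriv_zero, h1, h2, h3, h4]
  simp

theorem D2_gauss : ∫ x, x ^ 4 ∂gaussianReal 0 1 = 3 := by
  rw [D2_moment, D2_deriv]
  simp

theorem D2_gauss_int : Integrable (fun x : ℝ => x ^ 4) (gaussianReal 0 1) := by
  by_contra h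
  have h1 := integral_undef h
  rw [D2_gauss] at h1
  norm_num at h1

theorem thm_D2 : St_D2 := by
  refine ⟨fun K hK => ?_, fun K hK => ?_, fun R hR => ?_⟩
  · have h0 : (0 : ℝ) < K := by exact_mod_cast hK
    simp only [BB, div_pow]
    rw [Real.sq_sqrt h0.le, ← Finset.sum_div, D2_two]
    field_simp
  · have h0 : (0 : ℝ) < K := by exact_mod_cast hK
    have h1 : √(K : ℝ) ^ 4 = (K : ℝ) ^ 2 := by
      rw [show (4 : ℕ) = 2 * 2 from rfl, pow_mul, Real.sq_sqrt h0.le]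
    simp only [BB, div_pow]
    rw [h1, ← Finset.sum_div, D2_four, div_le_iff₀ (by positivity)]
    have h2 : (0 : ℝ) < 2 ^ K := by positivity
    nlinarith [mul_pos h0 h2]
  · have hm : MeasurableSet {g : ℝ | R ≤ |g|} := measurableSet_le measurable_const measurable_abs
    have hR2 : 0 < R ^ 2 := by positivity
    calc ∫⁻ g in {g : ℝ | R ≤ |g|}, ENNReal.ofReal (g ^ 2) ∂(gaussianReal 0 1)
        ≤ ∫⁻ g in {g : ℝ | R ≤ |g|}, ENNReal.ofReal (g ^ 4 / R ^ 2) ∂(gaussianReal 0 1) := by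
          refine setLIntegral_mono' hm fun g hg => ENNReal.ofReal_le_ofReal ?_
          have h1 : R ^ 2 ≤ g ^ 2 := by
            rw [← sq_abs g]
            exact pow_le_pow_left₀ hR.le hg 2
          rw [le_div_iff₀ hR2]
          nlinarith [sq_nonneg g]
      _ ≤ ∫⁻ g, ENNReal.ofReal (g ^ 4 / R ^ 2) ∂(gaussianReal 0 1) := setLIntegral_le_lintegral _ _
      _ = ENNReal.ofReal (∫ g, g ^ 4 / R ^ 2 ∂(gaussianReal 0 1)) := by
          rw [ofReal_integral_eq_lintegral_ofReal (D2_gauss_int.div_const _)]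
          exact Filter.Eventually.of_forall fun g => by positivity
      _ = ENNReal.ofReal (3 / R ^ 2) := by
          rw [integral_div, D2_gauss]

end Pool.Agent.XPS
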