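import Pool.Agent.XPS.St

/-! MP_b22a07_co, XPS: module D3 (the coupling built from cells). -/

set_option autoImplicit false

namespace Pool.Agent.XPS

open Finset MeasureTheory ProbabilityTheory Filter Topology
open scoped ENNReal

private lemma D3_lint {m : ℕ} (cell : ℝ → Fin m) (hc : Measurable cell) (r : Fin m → ℝ)
    (hr : ∀ i, 0 ≤ r i) :
    ∫⁻ g, ENNReal.ofReal (r (cell g)) ∂(gaussianReal 0 1)
      = ENNReal.ofReal (∑ i, (gaussianReal 0 1).real (cell ⁻¹' {i}) * r i) := by
  have h1 : ∫⁻ i, ENNReal.ofReal (r i) ∂((gaussianReal 0 1).map cell)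
      = ∫⁻ g, ENNReal.ofReal (r (cell g)) ∂(gaussianReal 0 1) :=
    lintegral_map (measurable_of_finite _) hc
  rw [← h1, lintegral_fintype, ENNReal.ofReal_sum_of_nonneg (fun i _ => mul_nonneg measureReal_nonneg (hr i))]
  refine Finset.sum_congr rfl fun i _ => ?_
  rw [Measure.map_apply hc (measurableSet_singleton i), mul_comm,
    ENNReal.ofReal_mul measureReal_nonneg, ofReal_measureReal]

/-- **D3.** -/
theorem thm_D3 (h2 : St_D2) : St_D3 := by
  intro K R w α m cell inn hK hR hw hα hα1 hcell hin hout hq hcount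
  classical
  obtain ⟨hB2, hB4, hT⟩ := h2
  set γ : Measure ℝ := gaussianReal 0 1 with hγ
  set q : Fin m → ℝ := fun i => γ.real (cell ⁻¹' {i}) with hqdef
  set c : Fin m → ℝ := fun i => (((univ : Finset (Fin K → ℤˣ)).filter (fun e => cell (BB e) = i)).card : ℝ)
    with hcdef
  have hqpos : ∀ i, 0 < q i := hq
  have hcq : ∀ i, α * c i ≤ 2 ^ K * q i := hcount
  have h2K : (0 : ℝ) < 2 ^ K := by positivity
  have hcard : (Fintype.card (Fin K → ℤˣ) : ℝ) = 2 ^ K := by
    rw [Fintype.card_fun]
    simp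
  -- the total mass of `q` and `c`
  have hqsum : ∑ i, q i = 1 := by
    have h := D3_lint cell hcell (fun _ => (1 : ℝ)) (fun _ => zero_le_one)
    simp only [ENNReal.ofReal_one, lintegral_const, measure_univ, mul_one] at h
    have h' : ENNReal.ofReal (∑ i, q i) = ENNReal.ofReal 1 := by
      rw [ENNReal.ofReal_one]
      exact h.symm
    have h0 : (0 : ℝ) ≤ ∑ i, q i := Finset.sum_nonneg fun i _ => (hqpos i).le
    exact (ENNReal.ofReal_eq_ofReal_iff h0 zero_le_one).1 h'
  have hcsum : ∑ i, c i = 2 ^ K := by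
    rw [← hcard]
    have := Finset.card_eq_sum_card_fiberwise (s := (univ : Finset (Fin K → ℤˣ)))
      (t := (univ : Finset (Fin m))) (f := fun e => cell (BB e)) (fun _ _ => Finset.mem_coe.2 (Finset.mem_univ _))
    rw [Finset.card_univ] at this
    rw [this]
    push_cast
    rfl
  -- the densities
  set s : Fin m → ℝ := fun i => q i - α * c i / 2 ^ K with hs
  have hs0 : ∀ i, 0 ≤ s i := by
    intro i
    have h1 : α * c i / 2 ^ K ≤ q i := by
      rw [div_le_iff₀ h2K]
      linarith [hcq i]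
    simp only [hs]
    linarith
  have hssum : ∑ i, s i = 1 - α := by
    simp only [hs, Finset.sum_sub_distrib, hqsum]
    rw [← Finset.sum_div, ← Finset.mul_sum, hcsum]
    field_simp
  set r : (Fin K → ℤˣ) → Fin m → ℝ := fun e i => ((if cell (BB e) = i then α else 0) + s i) / q i with hr
  have hr0 : ∀ e i, 0 ≤ r e i := by
    intro e i
    simp only [hr]
    refine div_nonneg (add_nonneg ?_ (hs0 i)) (hqpos i).le
    split_ifs
    · exact hα.le
    · exact le_rfl
  have hmeasr : ∀ e, Measurable fun g => ENNReal.ofReal (r e (cell g)) := fun e =>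
    (measurable_of_finite (fun i => ENNReal.ofReal (r e i))).comp hcell
  have hmass : ∀ e, ∑ i, q i * r e i = 1 := by
    intro e
    have h1 : ∀ i, q i * r e i = (if cell (BB e) = i then α else 0) + s i := by
      intro i
      simp only [hr]
      field_simp [(hqpos i).ne']
    simp only [h1, Finset.sum_add_distrib, hssum]
    simp
  have hcsum2 : ∀ (φ : (Fin K → ℤˣ) → ℝ) (i : Fin m),
      ∑ e, φ e * (if cell (BB e) = i then α else 0)
        = α * ∑ e ∈ (univ : Finset (Fin K → ℤˣ)).filter (fun e => cell (BB e) = i), φ e := by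
    intro φ i
    rw [Finset.sum_filter, Finset.mul_sum]
    refine Finset.sum_congr rfl fun e _ => ?_
    split_ifs <;> ring
  have hrsum : ∀ i, ∑ e, r e i = 2 ^ K := by
    intro i
    have h1 : ∑ e, r e i = ((∑ e : Fin K → ℤˣ, 1 * (if cell (BB e) = i then α else 0)) + 2 ^ K * s i) / q i := by
      simp only [hr]
      rw [← Finset.sum_div, Finset.sum_add_distrib]
      simp only [Finset.sum_const, Finset.card_univ, nsmul_eq_mul, one_mul, hcard]
    rw [h1, hcsum2]
    simp only [Finset.sum_const, nsmul_eq_mul, mul_one]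
    change (α * c i + 2 ^ K * s i) / q i = 2 ^ K
    simp only [hs]
    have := (hqpos i).ne'
    field_simp
    ring
  refine ⟨fun e => γ.withDensity fun g => ENNReal.ofReal (r e (cell g)), ?_, ?_, ?_⟩
  · intro e
    refine ⟨?_⟩
    rw [withDensity_apply _ MeasurableSet.univ, Measure.restrict_univ, D3_lint cell hcell (r e) (hr0 e)]
    have h1 : ∑ i, (gaussianReal 0 1).real (cell ⁻¹' {i}) * r e i = 1 := hmass e
    rw [h1, ENNReal.ofReal_one]
  · refine Measure.ext fun S hS => ?_
    rw [Measure.finsetSum_apply]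
    simp only [withDensity_apply _ hS]
    rw [← lintegral_finsetSum _ fun e _ => hmeasr e]
    have h1 : ∀ g, ∑ e, ENNReal.ofReal (r e (cell g)) = (2 : ℝ≥0∞) ^ K := by
      intro g
      rw [← ENNReal.ofReal_sum_of_nonneg fun e _ => hr0 e _, hrsum, ENNReal.ofReal_pow zero_le_two]
      simp
    simp only [h1]
    simp [hγ]
  · -- the error
    have h1 : ∀ e, ∫⁻ g, ENNReal.ofReal ((BB e - g) ^ 2) ∂(γ.withDensity fun g => ENNReal.ofReal (r e (cell g)))
        = ∫⁻ g, ENNReal.ofReal (r e (cell g) * (BB e - g) ^ 2) ∂γ := by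
      intro e
      rw [lintegral_withDensity_eq_lintegral_mul _ (hmeasr e) (by fun_prop)]
      refine lintegral_congr fun g => ?_
      rw [Pi.mul_apply, ENNReal.ofReal_mul (hr0 e _)]
    have hmr : ∀ e, Measurable fun g => ENNReal.ofReal (r e (cell g) * (BB e - g) ^ 2) := by
      intro e
      refine Measurable.ennreal_ofReal (Measurable.mul ?_ (by fun_prop))
      exact (measurable_of_finite (r e)).comp hcell
    simp only [h1]
    rw [← lintegral_finsetSum _ fun e _ => hmr e]
    -- fourth moments by cells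
    set b4 : Fin m → ℝ := fun i =>
      ∑ e ∈ (univ : Finset (Fin K → ℤˣ)).filter (fun e => cell (BB e) = i), BB e ^ 4 with hb4
    have hb40 : ∀ i, 0 ≤ b4 i := fun i => Finset.sum_nonneg fun e _ => by positivity
    have hb4sum : ∑ i, b4 i = ∑ e : Fin K → ℤˣ, BB e ^ 4 := by
      simp only [hb4]
      rw [Finset.sum_fiberwise]
    set u : Fin m → ℝ := fun i =>
      (α * c i * w ^ 2 + s i * (2 ^ K * (2 + 2 * R ^ 2)) + 2 * α / R ^ 2 * b4 i) / q i with hu
    have hc0 : ∀ i, 0 ≤ c i := fun i => Nat.cast_nonneg _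
    have hu0 : ∀ i, 0 ≤ u i := by
      intro i
      simp only [hu]
      have := hs0 i
      have := hb40 i
      have := hc0 i
      have := (hqpos i).le
      positivity
    -- pointwise bound
    have hpt : ∀ g, ∑ e, r e (cell g) * (BB e - g) ^ 2
        ≤ u (cell g) + Set.indicator {g : ℝ | R ≤ |g|} (fun g => 2 * 2 ^ K * g ^ 2) g := by
      intro g
      set i := cell g with hi
      have hqi := hqpos i
      have e1 : ∑ e, r e i * (BB e - g) ^ 2
          = (α * (∑ e ∈ (univ : Finset (Fin K → ℤˣ)).filter (fun e => cell (BB e) = i), (BB e - g) ^ 2)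
            + s i * ∑ e : Fin K → ℤˣ, (BB e - g) ^ 2) / q i := by
        rw [← hcsum2 (fun e => (BB e - g) ^ 2) i, Finset.mul_sum, ← Finset.sum_add_distrib, Finset.sum_div]
        refine Finset.sum_congr rfl fun e _ => ?_
        simp only [hr]
        ring
      have e2 : ∑ e : Fin K → ℤˣ, (BB e - g) ^ 2 ≤ 2 * 2 ^ K + 2 * 2 ^ K * g ^ 2 := by
        have : ∀ e : Fin K → ℤˣ, (BB e - g) ^ 2 ≤ 2 * BB e ^ 2 + 2 * g ^ 2 := fun e => by
          nlinarith [sq_nonneg (BB e + g)]
        refine (Finset.sum_le_sum fun e _ => this e).trans ?_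
        rw [Finset.sum_add_distrib, ← Finset.mul_sum, hB2 K hK]
        simp only [Finset.sum_const, Finset.card_univ, nsmul_eq_mul, hcard]
        linarith
      rw [e1]
      by_cases hinn : inn i
      · have hgR : |g| ≤ R := (hin g g rfl hinn).2
        have hg2 : g ^ 2 ≤ R ^ 2 := by
          rw [← sq_abs]
          exact pow_le_pow_left₀ (abs_nonneg _) hgR 2
        have e3 : ∑ e ∈ (univ : Finset (Fin K → ℤˣ)).filter (fun e => cell (BB e) = i), (BB e - g) ^ 2
            ≤ c i * w ^ 2 := by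
          have : ∀ e ∈ (univ : Finset (Fin K → ℤˣ)).filter (fun e => cell (BB e) = i),
              (BB e - g) ^ 2 ≤ w ^ 2 := by
            intro e he
            have he' : cell (BB e) = i := (Finset.mem_filter.1 he).2
            have h3 := (hin (BB e) g (by rw [he', hi]) (by rw [he']; exact hinn)).1
            rw [← sq_abs]
            exact pow_le_pow_left₀ (abs_nonneg _) h3 2
          refine (Finset.sum_le_sum this).trans ?_
          rw [Finset.sum_const, nsmul_eq_mul]
        have hind : 0 ≤ Set.indicator {g : ℝ | R ≤ |g|} (fun g => 2 * 2 ^ K * g ^ 2) g :=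
          Set.indicator_nonneg (fun x _ => by positivity) g
        have e4 : (α * (∑ e ∈ (univ : Finset (Fin K → ℤˣ)).filter (fun e => cell (BB e) = i), (BB e - g) ^ 2)
            + s i * ∑ e : Fin K → ℤˣ, (BB e - g) ^ 2) / q i ≤ u i := by
          simp only [hu]
          refine div_le_div_of_nonneg_right ?_ hqi.le
          have f1 := mul_le_mul_of_nonneg_left e3 hα.le
          have f2 : s i * ∑ e : Fin K → ℤˣ, (BB e - g) ^ 2 ≤ s i * (2 ^ K * (2 + 2 * R ^ 2)) := by
            refine mul_le_mul_of_nonneg_left (e2.trans ?_) (hs0 i)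
            nlinarith [mul_le_mul_of_nonneg_left hg2 h2K.le]
          have f3 : 0 ≤ 2 * α / R ^ 2 * b4 i := by
            have := hb40 i
            positivity
          linarith
        linarith
      · have hgR : R ≤ |g| := hout g hinn
        rw [Set.indicator_of_mem (show g ∈ {g : ℝ | R ≤ |g|} from hgR)]
        have e3 : ∑ e ∈ (univ : Finset (Fin K → ℤˣ)).filter (fun e => cell (BB e) = i), (BB e - g) ^ 2
            ≤ 2 / R ^ 2 * b4 i + 2 * g ^ 2 * c i := by
          have : ∀ e ∈ (univ : Finset (Fin K → ℤˣ)).filter (fun e => cell (BB e) = i),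
              (BB e - g) ^ 2 ≤ 2 / R ^ 2 * BB e ^ 4 + 2 * g ^ 2 := by
            intro e he
            have he' : cell (BB e) = i := (Finset.mem_filter.1 he).2
            have h3 : R ≤ |BB e| := hout (BB e) (by rw [he']; exact hinn)
            have h4 : R ^ 2 ≤ BB e ^ 2 := by
              rw [← sq_abs (BB e)]
              exact pow_le_pow_left₀ hR.le h3 2
            have h5 : BB e ^ 2 ≤ BB e ^ 4 / R ^ 2 := by
              rw [le_div_iff₀ (by positivity)]
              nlinarith [sq_nonneg (BB e)]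
            have h6 : (BB e - g) ^ 2 ≤ 2 * BB e ^ 2 + 2 * g ^ 2 := by
              nlinarith [sq_nonneg (BB e + g)]
            have h7 : 2 / R ^ 2 * BB e ^ 4 = 2 * (BB e ^ 4 / R ^ 2) := by ring
            rw [h7]
            linarith
          refine (Finset.sum_le_sum this).trans ?_
          rw [Finset.sum_add_distrib, ← Finset.mul_sum, Finset.sum_const, nsmul_eq_mul]
          have : ((((univ : Finset (Fin K → ℤˣ)).filter (fun e => cell (BB e) = i)).card : ℝ)) = c i := rfl
          rw [this]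
          linarith
        have e4 : u i + 2 * 2 ^ K * g ^ 2
            = (α * c i * w ^ 2 + s i * (2 ^ K * (2 + 2 * R ^ 2)) + 2 * α / R ^ 2 * b4 i
              + 2 * 2 ^ K * g ^ 2 * q i) / q i := by
          simp only [hu]
          field_simp
        rw [e4]
        refine div_le_div_of_nonneg_right ?_ hqi.le
        have f1 := mul_le_mul_of_nonneg_left e3 hα.le
        have f2 : s i * ∑ e : Fin K → ℤˣ, (BB e - g) ^ 2 ≤ s i * (2 * 2 ^ K + 2 * 2 ^ K * g ^ 2) :=
          mul_le_mul_of_nonneg_left e2 (hs0 i)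
        have f3 : 2 ^ K * s i = 2 ^ K * q i - α * c i := by
          simp only [hs]
          field_simp
        have f4 : 0 ≤ α * c i * w ^ 2 := by
          have := hc0 i
          positivity
        have f5 : 0 ≤ s i * (2 ^ K * (2 * R ^ 2)) := by
          have := hs0 i
          positivity
        have f6 : α * (2 / R ^ 2 * b4 i + 2 * g ^ 2 * c i)
            = 2 * α / R ^ 2 * b4 i + 2 * g ^ 2 * (α * c i) := by ring
        have f7 : s i * (2 * 2 ^ K + 2 * 2 ^ K * g ^ 2)
            = s i * (2 ^ K * 2) + 2 * g ^ 2 * (2 ^ K * s i) := by ring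
        rw [f6] at f1
        rw [f7, f3] at f2
        nlinarith
    have hmono : ∫⁻ g, ∑ e, ENNReal.ofReal (r e (cell g) * (BB e - g) ^ 2) ∂γ
        ≤ ∫⁻ g, (ENNReal.ofReal (u (cell g))
          + Set.indicator {g : ℝ | R ≤ |g|} (fun g => ENNReal.ofReal (2 * 2 ^ K) * ENNReal.ofReal (g ^ 2)) g) ∂γ := by
      refine lintegral_mono fun g => ?_
      rw [← ENNReal.ofReal_sum_of_nonneg fun e _ => mul_nonneg (hr0 e _) (sq_nonneg _)]
      refine (ENNReal.ofReal_le_ofReal (hpt g)).trans ?_
      rw [ENNReal.ofReal_add (hu0 _) (Set.indicator_nonneg (fun x _ => by positivity) g)]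
      refine add_le_add le_rfl (le_of_eq ?_)
      by_cases hg : g ∈ {g : ℝ | R ≤ |g|}
      · rw [Set.indicator_of_mem hg, Set.indicator_of_mem hg, ENNReal.ofReal_mul (by positivity)]
      · rw [Set.indicator_of_notMem hg, Set.indicator_of_notMem hg, ENNReal.ofReal_zero]
    refine hmono.trans ?_
    have hmset : MeasurableSet {g : ℝ | R ≤ |g|} := measurableSet_le measurable_const (by fun_prop)
    have hmu : Measurable fun g => ENNReal.ofReal (u (cell g)) :=
      (measurable_of_finite (fun i => ENNReal.ofReal (u i))).comp hcell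
    rw [lintegral_add_left hmu, lintegral_indicator hmset, lintegral_const_mul _ (by fun_prop), D3_lint cell hcell u hu0]
    have hq6 : ∑ i, (gaussianReal 0 1).real (cell ⁻¹' {i}) * u i
        = α * 2 ^ K * w ^ 2 + (1 - α) * (2 ^ K * (2 + 2 * R ^ 2)) + 2 * α / R ^ 2 * ∑ e : Fin K → ℤˣ, BB e ^ 4 := by
      have : ∀ i, (gaussianReal 0 1).real (cell ⁻¹' {i}) * u i
          = α * c i * w ^ 2 + s i * (2 ^ K * (2 + 2 * R ^ 2)) + 2 * α / R ^ 2 * b4 i := by
        intro i
        change q i * u i = _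
        simp only [hu]
        rw [mul_div_cancel₀ _ (hqpos i).ne']
      simp only [this, Finset.sum_add_distrib]
      rw [← Finset.sum_mul, ← Finset.mul_sum, hcsum, ← Finset.sum_mul, hssum, ← Finset.mul_sum, hb4sum]
    rw [hq6]
    have hT' := hT R hR
    calc ENNReal.ofReal (α * 2 ^ K * w ^ 2 + (1 - α) * (2 ^ K * (2 + 2 * R ^ 2))
            + 2 * α / R ^ 2 * ∑ e : Fin K → ℤˣ, BB e ^ 4)
          + ENNReal.ofReal (2 * 2 ^ K) * ∫⁻ g in {g : ℝ | R ≤ |g|}, ENNReal.ofReal (g ^ 2) ∂γ
        ≤ ENNReal.ofReal (α * 2 ^ K * w ^ 2 + (1 - α) * (2 ^ K * (2 + 2 * R ^ 2))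
            + 2 * α / R ^ 2 * ∑ e : Fin K → ℤˣ, BB e ^ 4)
          + ENNReal.ofReal (2 * 2 ^ K) * ENNReal.ofReal (3 / R ^ 2) :=
          add_le_add le_rfl (mul_le_mul_right hT' _)
      _ = ENNReal.ofReal ((α * 2 ^ K * w ^ 2 + (1 - α) * (2 ^ K * (2 + 2 * R ^ 2))
            + 2 * α / R ^ 2 * ∑ e : Fin K → ℤˣ, BB e ^ 4) + 2 * 2 ^ K * (3 / R ^ 2)) := by
          have h9 : (0 : ℝ) ≤ 1 - α := by linarith
          have h10 : (0 : ℝ) ≤ ∑ e : Fin K → ℤˣ, BB e ^ 4 := Finset.sum_nonneg fun e _ => by positivity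
          rw [← ENNReal.ofReal_mul (by positivity), ← ENNReal.ofReal_add (by positivity) (by positivity)]
      _ ≤ ENNReal.ofReal (2 ^ K * (w ^ 2 + 18 / R ^ 2 + (2 + 2 * R ^ 2) * (1 - α))) := by
          refine ENNReal.ofReal_le_ofReal ?_
          have h9 : 2 * α / R ^ 2 * ∑ e : Fin K → ℤˣ, BB e ^ 4 ≤ 6 * 2 ^ K / R ^ 2 := by
            have h10 : 2 * α / R ^ 2 ≤ 2 / R ^ 2 := by
              refine div_le_div_of_nonneg_right ?_ (by positivity)
              linarith
            have h11 : (0 : ℝ) ≤ ∑ e : Fin K → ℤˣ, BB e ^ 4 := Finset.sum_nonneg fun e _ => by positivity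
            calc 2 * α / R ^ 2 * ∑ e : Fin K → ℤˣ, BB e ^ 4
                ≤ 2 / R ^ 2 * ∑ e : Fin K → ℤˣ, BB e ^ 4 := mul_le_mul_of_nonneg_right h10 h11
              _ ≤ 2 / R ^ 2 * (3 * 2 ^ K) := mul_le_mul_of_nonneg_left (hB4 K hK) (by positivity)
              _ = 6 * 2 ^ K / R ^ 2 := by ring
          have h12 : α * 2 ^ K * w ^ 2 ≤ 2 ^ K * w ^ 2 := by
            have : α * (2 ^ K * w ^ 2) ≤ 1 * (2 ^ K * w ^ 2) :=
              mul_le_mul_of_nonneg_right hα1.le (by positivity)
            linarith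
          have h13 : (2 : ℝ) ^ K * (18 / R ^ 2) = 6 * 2 ^ K / R ^ 2 + 2 * 2 ^ K * (3 / R ^ 2) + 6 * 2 ^ K / R ^ 2 := by
            ring
          have h14 : (0 : ℝ) ≤ 6 * 2 ^ K / R ^ 2 := by positivity
          nlinarith

end Pool.Agent.XPS
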