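import Pool.Agent.XPS.St

set_option autoImplicit false

/-!
XPS D4: choice of the cells (MP_b22a07_co).
-/

namespace Pool.Agent.XPS

open Finset MeasureTheory ProbabilityTheory Filter Topology
open scoped ENNReal

/-- number of the cell -/
private noncomputable def D4_c (R r : ℕ) (x : ℝ) : ℕ := min ⌈(x + R) * r⌉₊ (2 * R * r + 1)

private theorem D4_lt (R r : ℕ) (x : ℝ) : D4_c R r x < 2 * R * r + 2 :=
  Nat.lt_succ_of_le (min_le_right _ _)

/-- the cell -/
private noncomputable def D4_cell (R r : ℕ) (x : ℝ) : Fin (2 * R * r + 2) :=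
  ⟨D4_c R r x, D4_lt R r x⟩

private theorem D4_le (R r n : ℕ) (hr : 1 ≤ r) (hn : n ≤ 2 * R * r) (x : ℝ) :
    D4_c R r x ≤ n ↔ x ≤ -R + n / r := by
  have hr0 : (0 : ℝ) < r := by exact_mod_cast hr
  unfold D4_c
  rw [min_le_iff]
  have h1 : ¬ (2 * R * r + 1 ≤ n) := by omega
  rw [or_iff_left h1, Nat.ceil_le, ← le_div_iff₀ hr0]
  constructor
  · intro h
    linarith
  · intro h
    linarith

private theorem D4_meas (R r : ℕ) : Measurable (D4_c R r) := by
  unfold D4_c
  exact (Nat.measurable_ceil.comp (by fun_prop)).min measurable_const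

private theorem D4_pre (R r : ℕ) (i : Fin (2 * R * r + 2)) :
    D4_cell R r ⁻¹' {i} = {x | D4_c R r x = i.val} := by
  ext x
  simp only [Set.mem_preimage, Set.mem_singleton_iff, Set.mem_ofPred_eq]
  exact Fin.ext_iff

private theorem D4_measc (R r : ℕ) : Measurable (D4_cell R r) := by
  refine measurable_to_countable' fun i => ?_
  rw [D4_pre]
  exact D4_meas R r (measurableSet_singleton _)

private theorem D4_up (R r : ℕ) (hr : 1 ≤ r) : (-(R : ℝ) + ((2 * R * r : ℕ) : ℝ) / r) = R := by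
  have hr0 : (r : ℝ) ≠ 0 := by
    have : (0 : ℝ) < r := by exact_mod_cast hr
    exact this.ne'
  push_cast
  field_simp
  ring

private theorem D4_eq_zero (R r : ℕ) (hr : 1 ≤ r) (x : ℝ) : D4_c R r x = 0 ↔ x ≤ -R := by
  have h := D4_le R r 0 hr (Nat.zero_le _) x
  rw [Nat.le_zero] at h
  rw [h]
  simp

private theorem D4_eq_top (R r : ℕ) (hr : 1 ≤ r) (x : ℝ) : D4_c R r x = 2 * R * r + 1 ↔ R < x := by
  have h := D4_le R r (2 * R * r) hr le_rfl x
  rw [D4_up R r hr] at h
  have h2 := D4_lt R r x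
  rw [← not_le, ← h]
  omega

private theorem D4_eq_mid (R r n : ℕ) (hr : 1 ≤ r) (hn : n + 1 ≤ 2 * R * r) (x : ℝ) :
    D4_c R r x = n + 1 ↔ -R + n / r < x ∧ x ≤ -R + ((n + 1 : ℕ) : ℝ) / r := by
  have h1 := D4_le R r n hr (by omega) x
  have h2 := D4_le R r (n + 1) hr hn x
  rw [← not_le, ← h1, ← h2]
  omega

/-- positivity of the Gaussian measure of a set containing an interval -/
private theorem D4_pos (S : Set ℝ) (a b : ℝ) (hab : a < b) (h : Set.Ioc a b ⊆ S) :
    0 < (gaussianReal 0 1).real S := by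
  rw [Measure.real]
  refine ENNReal.toReal_pos ?_ (measure_ne_top _ _)
  intro h0
  have h1 : (gaussianReal 0 1) (Set.Ioc a b) = 0 := measure_mono_null h h0
  have h2 : (volume : Measure ℝ) (Set.Ioc a b) = 0 :=
    gaussianReal_absolutelyContinuous' 0 (one_ne_zero) h1
  rw [Real.volume_Ioc] at h2
  have h3 : (0 : ℝ) < b - a := sub_pos.mpr hab
  exact (ENNReal.ofReal_pos.mpr h3).ne' h2

private theorem D4_cellpos (R r : ℕ) (hr : 1 ≤ r) (i : Fin (2 * R * r + 2)) :
    0 < (gaussianReal 0 1).real (D4_cell R r ⁻¹' {i}) := by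
  rw [D4_pre]
  have hr0 : (0 : ℝ) < r := by exact_mod_cast hr
  rcases Nat.eq_zero_or_pos i.val with h0 | h0
  · refine D4_pos _ (-R - 1) (-R) (by linarith) fun x hx => ?_
    rw [Set.mem_ofPred_eq, h0, D4_eq_zero R r hr]
    exact hx.2
  · rcases Nat.lt_or_ge (2 * R * r) i.val with h1 | h1
    · refine D4_pos _ R (R + 1) (by linarith) fun x hx => ?_
      have h2 : i.val = 2 * R * r + 1 := by
        have := i.isLt
        omega
      rw [Set.mem_ofPred_eq, h2, D4_eq_top R r hr]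
      exact hx.1
    · obtain ⟨n, hn⟩ : ∃ n, i.val = n + 1 := ⟨i.val - 1, by omega⟩
      refine D4_pos _ (-R + n / r) (-R + ((n + 1 : ℕ) : ℝ) / r) ?_ fun x hx => ?_
      · have : (n : ℝ) / r < ((n + 1 : ℕ) : ℝ) / r := by
          apply div_lt_div_of_pos_right _ hr0
          push_cast
          linarith
        linarith
      · rw [Set.mem_ofPred_eq, hn, D4_eq_mid R r n hr (by omega)]
        exact hx

/-- number of sign vectors in a set -/
private noncomputable def D4_N (K : ℕ) (p : ℝ → Prop) [DecidablePred p] : ℝ :=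
  (((univ : Finset (Fin K → ℤˣ)).filter (fun e => p (BB e))).card : ℝ) / 2 ^ K

private theorem D4_card (K : ℕ) : ((univ : Finset (Fin K → ℤˣ)).card : ℝ) = 2 ^ K := by
  rw [Finset.card_univ, Fintype.card_fun, Fintype.card_fin, Fintype.card_units_int]
  push_cast
  rfl

private theorem D4_tle (h1 : St_D1) (R r n : ℕ) (hr : 1 ≤ r) :
    Tendsto (fun K : ℕ => (((univ : Finset (Fin K → ℤˣ)).filter
      (fun e => D4_c R r (BB e) ≤ n)).card : ℝ) / 2 ^ K) atTop
      (𝓝 ((gaussianReal 0 1).real {x | D4_c R r x ≤ n})) := by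
  rcases Nat.lt_or_ge (2 * R * r) n with h | h
  · have ha : ∀ x, D4_c R r x ≤ n := fun x => by
      have := D4_lt R r x
      omega
    have hs : {x | D4_c R r x ≤ n} = Set.univ := Set.eq_univ_of_forall ha
    rw [hs, probReal_univ]
    refine tendsto_const_nhds.congr fun K => ?_
    rw [Finset.filter_true_of_mem (fun e _ => ha (BB e)), D4_card, div_self]
    positivity
  · have hs : {x | D4_c R r x ≤ n} = Set.Iic (-(R : ℝ) + n / r) := by
      ext x
      exact D4_le R r n hr h x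
    rw [hs]
    refine (h1 (-(R : ℝ) + n / r)).congr fun K => ?_
    have : ((univ : Finset (Fin K → ℤˣ)).filter (fun e => BB e ≤ -(R : ℝ) + n / r)) =
        (univ : Finset (Fin K → ℤˣ)).filter (fun e => D4_c R r (BB e) ≤ n) := by
      ext e
      simp only [Finset.mem_filter, Finset.mem_univ, true_and]
      exact (D4_le R r n hr h (BB e)).symm
    rw [this]

private theorem D4_teq (h1 : St_D1) (R r n : ℕ) (hr : 1 ≤ r) :
    Tendsto (fun K : ℕ => (((univ : Finset (Fin K → ℤˣ)).filter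
      (fun e => D4_c R r (BB e) = n)).card : ℝ) / 2 ^ K) atTop
      (𝓝 ((gaussianReal 0 1).real {x | D4_c R r x = n})) := by
  rcases n with _ | n
  · have h := D4_tle h1 R r 0 hr
    simpa only [Nat.le_zero] using h
  · have ha := D4_tle h1 R r (n + 1) hr
    have hb := D4_tle h1 R r n hr
    have hab := ha.sub hb
    have hm : (gaussianReal 0 1).real {x | D4_c R r x = n + 1} =
        (gaussianReal 0 1).real {x | D4_c R r x ≤ n + 1} -
          (gaussianReal 0 1).real {x | D4_c R r x ≤ n} := by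
      have hsub : {x | D4_c R r x ≤ n} ⊆ {x | D4_c R r x ≤ n + 1} := fun x hx =>
        Nat.le_succ_of_le hx
      have hmeas : MeasurableSet {x | D4_c R r x ≤ n} :=
        D4_meas R r (measurableSet_Iic (a := n))
      rw [← measureReal_sdiff hsub hmeas]
      refine congrArg _ ?_
      ext x
      simp only [Set.mem_ofPred_eq, Set.mem_sdiff]
      omega
    rw [hm]
    refine hab.congr fun K => ?_
    rw [← sub_div]
    refine congrArg (fun t : ℝ => t / 2 ^ K) ?_
    have hsub : (univ : Finset (Fin K → ℤˣ)).filter (fun e => D4_c R r (BB e) ≤ n) ⊆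
        (univ : Finset (Fin K → ℤˣ)).filter (fun e => D4_c R r (BB e) ≤ n + 1) := by
      intro e he
      rw [Finset.mem_filter] at he ⊢
      exact ⟨he.1, Nat.le_succ_of_le he.2⟩
    have hc := Finset.card_sdiff_add_card_eq_card hsub
    have he : (univ : Finset (Fin K → ℤˣ)).filter (fun e => D4_c R r (BB e) ≤ n + 1) \
        (univ : Finset (Fin K → ℤˣ)).filter (fun e => D4_c R r (BB e) ≤ n) =
        (univ : Finset (Fin K → ℤˣ)).filter (fun e => D4_c R r (BB e) = n + 1) := by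
      ext e
      simp only [Finset.mem_sdiff, Finset.mem_filter, Finset.mem_univ, true_and]
      omega
    rw [he] at hc
    have hc' := congrArg (fun t : ℕ => (t : ℝ)) hc
    simp only [Nat.cast_add] at hc'
    linarith

private theorem D4_mono {K : ℕ} {κ : (Fin K → ℤˣ) → Measure ℝ} {τ τ' : ℝ} (h : Coup K κ τ)
    (hτ : τ ≤ τ') : Coup K κ τ' := by
  obtain ⟨h1, h2, h3⟩ := h
  refine ⟨h1, h2, h3.trans (ENNReal.ofReal_le_ofReal ?_)⟩
  exact mul_le_mul_of_nonneg_left hτ (by positivity)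

theorem thm_D4 (h1 : St_D1) (h3 : St_D3) : St_D4 := by
  intro τ hτ
  obtain ⟨R, hR1, hR⟩ : ∃ R : ℕ, 1 ≤ R ∧ 54 / τ ≤ R := by
    obtain ⟨n, hn⟩ := exists_nat_ge (54 / τ)
    exact ⟨n + 1, by omega, hn.trans (by push_cast; linarith)⟩
  obtain ⟨r, hr1, hr⟩ : ∃ r : ℕ, 1 ≤ r ∧ 3 / τ ≤ r := by
    obtain ⟨n, hn⟩ := exists_nat_ge (3 / τ)
    exact ⟨n + 1, by omega, hn.trans (by push_cast; linarith)⟩
  have hR0 : (1 : ℝ) ≤ R := by exact_mod_cast hR1
  have hr0 : (1 : ℝ) ≤ r := by exact_mod_cast hr1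
  have hRb : 18 / (R : ℝ) ^ 2 ≤ τ / 3 := by
    have ha : 54 ≤ R * τ := by
      rwa [div_le_iff₀ hτ] at hR
    rw [div_le_div_iff₀ (by positivity) (by norm_num)]
    nlinarith [mul_nonneg (sub_nonneg.mpr hR0) (mul_nonneg (le_trans zero_le_one hR0) hτ.le)]
  have hrb : (1 / (r : ℝ)) ^ 2 ≤ τ / 3 := by
    have ha : 3 ≤ r * τ := by
      rwa [div_le_iff₀ hτ] at hr
    rw [div_pow, one_pow, div_le_div_iff₀ (by positivity) (by norm_num)]
    nlinarith [mul_nonneg (sub_nonneg.mpr hr0) (mul_nonneg (le_trans zero_le_one hr0) hτ.le)]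
  set c : ℝ := 2 + 2 * (R : ℝ) ^ 2 with hc
  have hc0 : 0 < c := by positivity
  set δ : ℝ := min (1 / 2) (τ / (3 * c)) with hδ
  have hδ0 : 0 < δ := lt_min (by norm_num) (by positivity)
  have hδ1 : δ ≤ 1 / 2 := min_le_left _ _
  have hδ2 : c * δ ≤ τ / 3 := by
    have h : δ ≤ τ / (3 * c) := min_le_right _ _
    calc c * δ ≤ c * (τ / (3 * c)) := mul_le_mul_of_nonneg_left h hc0.le
      _ = τ / 3 := by field_simp
  -- the counts
  have hev : ∀ᶠ K : ℕ in atTop, ∀ i : Fin (2 * R * r + 2),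
      (1 - δ) * ((univ : Finset (Fin K → ℤˣ)).filter
        (fun e => D4_cell R r (BB e) = i)).card ≤
        2 ^ K * (gaussianReal 0 1).real (D4_cell R r ⁻¹' {i}) := by
    rw [eventually_all]
    intro i
    have hp := D4_cellpos R r hr1 i
    have ht := D4_teq h1 R r i.val hr1
    rw [← D4_pre] at ht
    have ht2 := ht.const_mul (1 - δ)
    have hlt : (1 - δ) * (gaussianReal 0 1).real (D4_cell R r ⁻¹' {i}) <
        (gaussianReal 0 1).real (D4_cell R r ⁻¹' {i}) := by
      nlinarith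
    filter_upwards [ht2.eventually_lt_const hlt] with K hK
    have he : (univ : Finset (Fin K → ℤˣ)).filter (fun e => D4_cell R r (BB e) = i) =
        (univ : Finset (Fin K → ℤˣ)).filter (fun e => D4_c R r (BB e) = i.val) := by
      ext e
      simp only [Finset.mem_filter, Finset.mem_univ, true_and]
      exact Fin.ext_iff
    rw [he]
    have h2K : (0 : ℝ) < 2 ^ K := by positivity
    rw [← mul_div_assoc, div_lt_iff₀ h2K] at hK
    rw [mul_comm (2 ^ K : ℝ)]
    exact hK.le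
  obtain ⟨K, hK, hK1⟩ := (hev.and (eventually_ge_atTop 1)).exists
  have hcond : ∀ x y, D4_cell R r x = D4_cell R r y →
      ((D4_cell R r x).val ≠ 0 ∧ (D4_cell R r x).val ≠ 2 * R * r + 1) →
      |x - y| ≤ 1 / (r : ℝ) ∧ |x| ≤ (R : ℝ) := by
    intro x y hxy hin
    have hxy' : D4_c R r x = D4_c R r y := congrArg Fin.val hxy
    have hin' : D4_c R r x ≠ 0 ∧ D4_c R r x ≠ 2 * R * r + 1 := hin
    have hlt := D4_lt R r x
    obtain ⟨n, hn⟩ : ∃ n, D4_c R r x = n + 1 := ⟨D4_c R r x - 1, by omega⟩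
    have hx := (D4_eq_mid R r n hr1 (by omega) x).mp hn
    have hy := (D4_eq_mid R r n hr1 (by omega) y).mp (hxy' ▸ hn)
    have hd : ((n + 1 : ℕ) : ℝ) / r = n / r + 1 / r := by
      push_cast
      rw [add_div]
    have hn0 : (0 : ℝ) ≤ n / r := by positivity
    have hup : ((n + 1 : ℕ) : ℝ) / r ≤ ((2 * R * r : ℕ) : ℝ) / r := by
      apply div_le_div_of_nonneg_right _ (by positivity)
      have : n + 1 ≤ 2 * R * r := by omega
      exact_mod_cast this
    have hUp := D4_up R r hr1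
    refine ⟨abs_le.mpr ⟨?_, ?_⟩, abs_le.mpr ⟨?_, ?_⟩⟩ <;> linarith [hx.1, hx.2, hy.1, hy.2]
  have hout : ∀ x, ¬ ((D4_cell R r x).val ≠ 0 ∧ (D4_cell R r x).val ≠ 2 * R * r + 1) →
      (R : ℝ) ≤ |x| := by
    intro x hx
    have hx' : D4_c R r x = 0 ∨ D4_c R r x = 2 * R * r + 1 := by
      by_contra hne
      exact hx ⟨fun h => hne (Or.inl h), fun h => hne (Or.inr h)⟩
    rcases hx' with h | h
    · have := (D4_eq_zero R r hr1 x).mp h
      exact le_abs.mpr (Or.inr (by linarith))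
    · have := (D4_eq_top R r hr1 x).mp h
      exact le_abs.mpr (Or.inl this.le)
  obtain ⟨κ, hκ⟩ := h3 K R (1 / r) (1 - δ) (2 * R * r + 2) (D4_cell R r)
    (fun i => i.val ≠ 0 ∧ i.val ≠ 2 * R * r + 1) hK1 (by linarith) (by positivity)
    (by linarith) (by linarith) (D4_measc R r) hcond hout (D4_cellpos R r hr1) hK
  refine ⟨K, κ, hK1, D4_mono hκ ?_⟩
  have h4 : (2 + 2 * (R : ℝ) ^ 2) * (1 - (1 - δ)) ≤ τ / 3 := by
    rw [sub_sub_cancel]
    exact hδ2
  linarith

end Pool.Agent.XPS
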