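import Pool.Agent.XPS.St

/-!
# XPS D5 (helper77): the product kernel, sum over the cube
-/

set_option autoImplicit false

namespace Pool.Agent.XPS

open Finset MeasureTheory ProbabilityTheory Filter Topology
open scoped ENNReal NNReal

private theorem D5_meas (d : ℕ) : Measurable fun x : Fin d → ℝ => nrm (WithLp.toLp 2 x : E d) := by
  have h : Measurable fun x : Fin d → ℝ => (WithLp.toLp 2 x : E d) := by fun_prop
  have h2 : Measurable fun x : E d => nrm x := by
    unfold nrm
    exact (measurable_norm.inv).smul measurable_id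
  exact h2.comp h

private theorem D5_sum (d K : ℕ) (κ : (Fin K → ℤˣ) → Measure ℝ)
    (h1 : ∀ e, IsProbabilityMeasure (κ e))
    (h2 : ∑ e, κ e = (2 : ℝ≥0∞) ^ K • gaussianReal 0 1) :
    ∑ η : Fin d × Fin K → ℤˣ, gm κ η =
      (2 : ℝ≥0∞) ^ (d * K) • Measure.pi (fun _ : Fin d => gaussianReal 0 1) := by
  have hfin : IsFiniteMeasure ((2 : ℝ≥0∞) ^ K • gaussianReal 0 1) := by
    refine ⟨?_⟩
    rw [Measure.smul_apply, measure_univ, smul_eq_mul, mul_one]
    exact ENNReal.pow_lt_top ENNReal.ofNat_lt_top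
  have e1 : Measure.pi (fun _ : Fin d => (2 : ℝ≥0∞) ^ K • gaussianReal 0 1) =
      ∑ η : Fin d × Fin K → ℤˣ, gm κ η := by
    refine Measure.pi_eq fun s hs => ?_
    rw [Measure.finsetSum_apply]
    have h3 : ∀ η : Fin d × Fin K → ℤˣ, gm κ η (Set.univ.pi s) =
        ∏ i, κ (fun k => η (i, k)) (s i) := by
      intro η
      unfold gm
      rw [Measure.pi_pi]
    rw [Finset.sum_congr rfl fun η _ => h3 η]
    have h4 : ∑ η : Fin d × Fin K → ℤˣ, ∏ i, κ (fun k => η (i, k)) (s i) =
        ∑ h : Fin d → (Fin K → ℤˣ), ∏ i, κ (h i) (s i) :=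
      Fintype.sum_equiv (Equiv.curry (Fin d) (Fin K) ℤˣ) _ _ fun η => rfl
    rw [h4, ← h2]
    have h5 := Finset.prod_univ_sum (fun _ : Fin d => (Finset.univ : Finset (Fin K → ℤˣ)))
      (fun i e => κ e (s i))
    rw [Fintype.piFinset_univ] at h5
    rw [← h5]
    refine Finset.prod_congr rfl fun i _ => ?_
    rw [Measure.finsetSum_apply]
  have e2 : Measure.pi (fun _ : Fin d => (2 : ℝ≥0∞) ^ K • gaussianReal 0 1) =
      (2 : ℝ≥0∞) ^ (d * K) • Measure.pi (fun _ : Fin d => gaussianReal 0 1) := by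
    refine Measure.pi_eq fun s hs => ?_
    rw [Measure.smul_apply, Measure.pi_pi, smul_eq_mul]
    have h3 : ∀ i : Fin d, ((2 : ℝ≥0∞) ^ K • gaussianReal 0 1) (s i) =
        (2 : ℝ≥0∞) ^ K * gaussianReal 0 1 (s i) := fun i => rfl
    rw [Finset.prod_congr rfl fun i _ => h3 i, Finset.prod_mul_distrib, Finset.prod_const,
      Finset.card_univ, Fintype.card_fin, ← pow_mul, mul_comm K d]
  rw [← e1, e2]

theorem thm_D5 (hS1 : St_S1) : St_D5 := by
  intro d K κ τ hd hκ
  obtain ⟨h1, h2, -⟩ := hκ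
  obtain ⟨-, hs2, -⟩ := hS1 d hd
  have hsum := D5_sum d K κ h1 h2
  have hsum2 : ∑ η : Fin d × Fin K → ℤˣ, nu κ η = (2 : ℝ≥0∞) ^ (d * K) • sph d := by
    have e1 : ∑ η : Fin d × Fin K → ℤˣ, nu κ η =
        (∑ η : Fin d × Fin K → ℤˣ, gm κ η).map (fun x => nrm (WithLp.toLp 2 x : E d)) := by
      rw [Measure.map_finset_sum' (D5_meas d).aemeasurable]
      rfl
    rw [e1, hsum, Measure.map_smul]
    congr 1
    unfold sph
    rw [← map_pi_eq_stdGaussian, Measure.map_map]
    · rfl
    · unfold nrm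
      exact (measurable_norm.inv).smul measurable_id
    · fun_prop
  refine ⟨hsum, fun η => ⟨?_, ?_⟩, hsum2⟩
  · have : ∀ i : Fin d, IsProbabilityMeasure (κ (fun k => η (i, k))) := fun i => h1 _
    have : IsProbabilityMeasure (gm κ η) := by
      unfold gm
      infer_instance
    unfold nu
    exact Measure.isProbabilityMeasure_map (D5_meas d).aemeasurable
  · have hle : nu κ η ≤ (2 : ℝ≥0∞) ^ (d * K) • sph d := by
      rw [← hsum2]
      exact Finset.single_le_sum (f := fun η : Fin d × Fin K → ℤˣ => nu κ η)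
        (fun _ _ => Measure.zero_le _) (Finset.mem_univ η)
    have hac : nu κ η ≪ sph d :=
      (Measure.absolutelyContinuous_of_le hle).trans Measure.smul_absolutelyContinuous
    exact hac.ae_le hs2

end Pool.Agent.XPS
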