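import Pool.Agent.XPS.St

/-!
# XPS D6: distance of the kernel from the sign point
-/

set_option autoImplicit false

namespace Pool.Agent.XPS

open Finset MeasureTheory ProbabilityTheory Filter Topology
open scoped ENNReal NNReal

/-! ### Gaussian moments -/

private theorem D6_moment (n : ℕ) :
    ∫ x, x ^ n ∂gaussianReal 0 1 = iteratedDeriv n (fun t : ℝ => Real.exp (t ^ 2 / 2)) 0 := by
  have h := iteratedDeriv_mgf_zero (X := (id : ℝ → ℝ)) (μ := gaussianReal 0 1) (by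
    rw [integrableExpSet_id_gaussianReal]; simp) n
  rw [mgf_id_gaussianReal] at h
  simp only [zero_mul, zero_add, NNReal.coe_one, one_mul] at h
  rw [h]
  simp

private theorem D6_gder (p : ℝ → ℝ) (p' : ℝ) (t : ℝ) (hp : HasDerivAt p p' t) :
    HasDerivAt (fun t : ℝ => p t * Real.exp (t ^ 2 / 2))
      ((p' + p t * t) * Real.exp (t ^ 2 / 2)) t := by
  have h1 : HasDerivAt (fun t : ℝ => Real.exp (t ^ 2 / 2))
      (Real.exp (t ^ 2 / 2) * (2 * t / 2)) t := by
    apply HasDerivAt.exp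
    have := (hasDerivAt_pow 2 t).div_const 2
    simpa using this
  have h2 := hp.mul h1
  have e : p' * Real.exp (t ^ 2 / 2) + p t * (Real.exp (t ^ 2 / 2) * (2 * t / 2)) =
      (p' + p t * t) * Real.exp (t ^ 2 / 2) := by ring
  rw [e] at h2
  exact h2

private theorem D6_deriv :
    iteratedDeriv 2 (fun t : ℝ => Real.exp (t ^ 2 / 2)) 0 = 1 ∧
    iteratedDeriv 4 (fun t : ℝ => Real.exp (t ^ 2 / 2)) 0 = 3 := by
  have h1 : deriv (fun t : ℝ => Real.exp (t ^ 2 / 2))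
      = fun t => t * Real.exp (t ^ 2 / 2) := by
    funext t
    have := (D6_gder (fun _ => 1) 0 t (hasDerivAt_const t 1)).deriv
    simp only [one_mul, zero_add] at this
    rw [this]
  have h2 : deriv (fun t : ℝ => t * Real.exp (t ^ 2 / 2))
      = fun t => (1 + t ^ 2) * Real.exp (t ^ 2 / 2) := by
    funext t
    have := (D6_gder (fun t => t) 1 t (hasDerivAt_id t)).deriv
    rw [this]
    ring
  have h3 : deriv (fun t : ℝ => (1 + t ^ 2) * Real.exp (t ^ 2 / 2))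
      = fun t => (3 * t + t ^ 3) * Real.exp (t ^ 2 / 2) := by
    funext t
    have := (D6_gder (fun t => 1 + t ^ 2) (2 * t) t (by
      simpa using (hasDerivAt_pow 2 t).const_add 1)).deriv
    rw [this]
    ring
  have h4 : deriv (fun t : ℝ => (3 * t + t ^ 3) * Real.exp (t ^ 2 / 2))
      = fun t => (3 + 6 * t ^ 2 + t ^ 4) * Real.exp (t ^ 2 / 2) := by
    funext t
    have := (D6_gder (fun t => 3 * t + t ^ 3) (3 + 3 * t ^ 2) t (by
      simpa using ((hasDerivAt_id t).const_mul 3).fun_add (hasDerivAt_pow 3 t))).deriv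
    rw [this]
    ring
  constructor
  · rw [iteratedDeriv_succ', iteratedDeriv_succ', iteratedDeriv_zero, h1, h2]
    simp
  · rw [iteratedDeriv_succ', iteratedDeriv_succ', iteratedDeriv_succ', iteratedDeriv_succ',
      iteratedDeriv_zero, h1, h2, h3, h4]
    simp

private theorem D6_memLp : MemLp (fun x : ℝ => x ^ 2) 2 (gaussianReal 0 1) := by
  have h := (memLp_id_gaussianReal (μ := 0) (v := 1) 4)
  have h2 := h.norm_rpow_div (q := 2)
  have e : (((4 : ℝ≥0) : ℝ≥0∞) / 2) = 2 := by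
    rw [show (((4 : ℝ≥0) : ℝ≥0∞)) = 2 * 2 by norm_num,
      ENNReal.mul_div_cancel_right (by norm_num) (by norm_num)]
  rw [e] at h2
  refine (memLp_congr_ae (ae_of_all _ fun x => ?_)).mp h2
  simp

private theorem D6_var : Var[fun x : ℝ => x ^ 2; gaussianReal 0 1] = 2 := by
  rw [variance_eq_sub D6_memLp]
  have h4 : ∫ x, ((fun x : ℝ => x ^ 2) ^ 2) x ∂gaussianReal 0 1 = 3 := by
    have := D6_moment 4
    rw [D6_deriv.2] at this
    rw [← this]
    congr 1
    funext x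
    simp only [Pi.pow_apply]
    ring
  have h2 : ∫ x, x ^ 2 ∂gaussianReal 0 1 = 1 := by
    rw [D6_moment, D6_deriv.1]
  rw [h4, h2]
  norm_num

private theorem D6_mean (d : ℕ) : ∫ x : Fin d → ℝ, ∑ i, x i ^ 2
    ∂(Measure.pi fun _ : Fin d => gaussianReal 0 1) = d := by
  have h2 : ∫ x, x ^ 2 ∂gaussianReal 0 1 = 1 := by
    rw [D6_moment, D6_deriv.1]
  have hi : Integrable (fun x : ℝ => x ^ 2) (gaussianReal 0 1) :=
    D6_memLp.integrable (by norm_num)
  have hmp := fun i : Fin d => measurePreserving_eval (fun _ : Fin d => gaussianReal 0 1) i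
  have h3 : ∀ i : Fin d, ∫ x : Fin d → ℝ, x i ^ 2
      ∂(Measure.pi fun _ : Fin d => gaussianReal 0 1) = 1 := by
    intro i
    have h4 := integral_map (μ := Measure.pi fun _ : Fin d => gaussianReal 0 1)
      (hmp i).measurable.aemeasurable (f := fun x : ℝ => x ^ 2)
      (by fun_prop : Measurable fun x : ℝ => x ^ 2).aestronglyMeasurable
    rw [(hmp i).map_eq, h2] at h4
    exact h4.symm
  rw [integral_finsetSum]
  · simp only [h3, Finset.sum_const, Finset.card_univ, Fintype.card_fin, nsmul_eq_mul, mul_one]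
  · intro i _
    exact (hmp i).integrable_comp_of_integrable hi

private theorem D6_gauss (d : ℕ) (hd : 1 ≤ d) :
    ∫⁻ x : Fin d → ℝ, ENNReal.ofReal (2 * (1 - (∑ i, x i ^ 2) / d) ^ 2)
      ∂(Measure.pi fun _ : Fin d => gaussianReal 0 1) = ENNReal.ofReal (4 / d) := by
  have hd0 : (0 : ℝ) < d := by exact_mod_cast hd
  set P := Measure.pi fun _ : Fin d => gaussianReal 0 1 with hP
  have hv := variance_sum_pi (μ := fun _ : Fin d => gaussianReal 0 1)
    (X := fun _ x => x ^ 2) (fun _ => D6_memLp)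
  simp only [D6_var, Finset.sum_const, Finset.card_univ, Fintype.card_fin, nsmul_eq_mul] at hv
  have hfun : (∑ i : Fin d, fun ω : Fin d → ℝ => ω i ^ 2) = fun ω => ∑ i, ω i ^ 2 := by
    funext ω
    rw [Finset.sum_apply]
  rw [hfun] at hv
  have hmem : MemLp (fun ω : Fin d → ℝ => ∑ i, ω i ^ 2) 2 P := by
    apply memLp_finsetSum
    intro i _
    exact D6_memLp.comp_measurePreserving
      (measurePreserving_eval (fun _ : Fin d => gaussianReal 0 1) i)
  have h1 := hmem.ofReal_variance_eq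
  rw [evariance_eq_lintegral_ofReal, hv, D6_mean] at h1
  have h2 : ∀ x : Fin d → ℝ, ENNReal.ofReal (2 * (1 - (∑ i, x i ^ 2) / d) ^ 2) =
      ENNReal.ofReal (2 / d ^ 2) * ENNReal.ofReal (((∑ i, x i ^ 2) - d) ^ 2) := by
    intro x
    rw [← ENNReal.ofReal_mul (by positivity)]
    congr 1
    field_simp
    ring
  simp_rw [h2]
  rw [lintegral_const_mul _ (by fun_prop), ← h1, ← ENNReal.ofReal_mul (by positivity)]
  congr 1
  field_simp
  ring

/-! ### the pointwise inequality -/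

private theorem D6_pt (d : ℕ) (hd : 1 ≤ d) (x b : Fin d → ℝ) :
    ‖nrm (WithLp.toLp 2 x : E d) - WithLp.toLp 2 (fun i => b i / √d)‖ ^ 2 ≤
      2 * (1 - (∑ i, x i ^ 2) / d) ^ 2 + 2 / d * ∑ i, (x i - b i) ^ 2 := by
  have hd0 : (0 : ℝ) < d := by exact_mod_cast hd
  have hs : (0 : ℝ) < √d := Real.sqrt_pos.mpr hd0
  have hs2 : √(d : ℝ) ^ 2 = d := Real.sq_sqrt hd0.le
  set g : E d := WithLp.toLp 2 x with hg
  set y : E d := WithLp.toLp 2 (fun i => b i / √d) with hy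
  have hgn : ‖g‖ ^ 2 = ∑ i, x i ^ 2 := by
    rw [EuclideanSpace.real_norm_sq_eq]
  have h2 : ‖(√(d : ℝ))⁻¹ • g - y‖ ^ 2 = 1 / d * ∑ i, (x i - b i) ^ 2 := by
    rw [EuclideanSpace.real_norm_sq_eq, Finset.mul_sum]
    refine Finset.sum_congr rfl fun i _ => ?_
    have : ((√(d : ℝ))⁻¹ • g - y) i = (x i - b i) / √d := by
      simp [hg, hy]
      ring
    rw [this, div_pow, hs2]
    ring
  have h1 : ‖nrm g - (√(d : ℝ))⁻¹ • g‖ ^ 2 ≤ (1 - (∑ i, x i ^ 2) / d) ^ 2 := by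
    by_cases hg0 : g = 0
    · rw [hg0]
      simp [nrm]
      positivity
    · have hgp : 0 < ‖g‖ := norm_pos_iff.mpr hg0
      have e1 : nrm g - (√(d : ℝ))⁻¹ • g = (‖g‖⁻¹ - (√(d : ℝ))⁻¹) • g := by
        rw [nrm, sub_smul]
      rw [e1, norm_smul, mul_pow, Real.norm_eq_abs, sq_abs, ← hgn]
      have e2 : (‖g‖⁻¹ - (√(d : ℝ))⁻¹) ^ 2 * ‖g‖ ^ 2 = (1 - ‖g‖ / √d) ^ 2 := by
        field_simp
      rw [e2]
      have e3 : ‖g‖ ^ 2 / d = (‖g‖ / √d) ^ 2 := by
        rw [div_pow, hs2]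
      rw [e3]
      have hr : 0 ≤ ‖g‖ / √d := by positivity
      generalize ‖g‖ / √d = r at hr
      have : (1 - r ^ 2) ^ 2 - (1 - r) ^ 2 = (1 - r) ^ 2 * (r * (2 + r)) := by ring
      have h5 : 0 ≤ (1 - r) ^ 2 * (r * (2 + r)) := by positivity
      linarith
  have h3 : ‖nrm g - y‖ ≤ ‖nrm g - (√(d : ℝ))⁻¹ • g‖ + ‖(√(d : ℝ))⁻¹ • g - y‖ :=
    norm_sub_le_norm_sub_add_norm_sub _ _ _
  have h4 : ‖nrm g - y‖ ^ 2 ≤
      2 * ‖nrm g - (√(d : ℝ))⁻¹ • g‖ ^ 2 + 2 * ‖(√(d : ℝ))⁻¹ • g - y‖ ^ 2 := by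
    have h0 := norm_nonneg (nrm g - y)
    nlinarith [sq_nonneg (‖nrm g - (√(d : ℝ))⁻¹ • g‖ - ‖(√(d : ℝ))⁻¹ • g - y‖)]
  rw [h2] at h4
  calc _ ≤ _ := h4
    _ ≤ 2 * (1 - (∑ i, x i ^ 2) / d) ^ 2 + 2 * (1 / d * ∑ i, (x i - b i) ^ 2) := by gcongr
    _ = _ := by ring

/-! ### counting -/

private theorem D6_count {d : ℕ} {A : Type} [Fintype A] [DecidableEq A] (F : A → ℝ≥0∞) (i : Fin d) :
    ∑ η : Fin d → A, F (η i) = (Fintype.card A : ℝ≥0∞) ^ (d - 1) * ∑ a, F a := by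
  have h1 : ∀ η : Fin d → A, F (η i) = ∏ j, (if j = i then F (η j) else 1) := by
    intro η
    rw [Finset.prod_ite_eq' univ i (fun j => F (η j))]
    simp
  simp_rw [h1]
  rw [← Fintype.prod_sum (f := fun j a => if j = i then F a else 1)]
  rw [← Finset.mul_prod_erase univ _ (Finset.mem_univ i)]
  have h2 : ∏ j ∈ univ.erase i, ∑ a : A, (if j = i then F a else 1) =
      (Fintype.card A : ℝ≥0∞) ^ (d - 1) := by
    rw [Finset.prod_congr rfl (g := fun _ => (Fintype.card A : ℝ≥0∞))]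
    · rw [Finset.prod_const, Finset.card_erase_of_mem (Finset.mem_univ i), Finset.card_univ,
        Fintype.card_fin]
    · intro j hj
      rw [Finset.mem_erase] at hj
      simp [hj.1]
  rw [h2]
  simp [mul_comm]

private theorem D6_count2 {d K : ℕ} (F : (Fin K → ℤˣ) → ℝ≥0∞) (i : Fin d) :
    ∑ η : Fin d × Fin K → ℤˣ, F (fun k => η (i, k)) = (2 : ℝ≥0∞) ^ (K * (d - 1)) * ∑ e, F e := by
  have h1 : ∑ η : Fin d × Fin K → ℤˣ, F (fun k => η (i, k)) =
      ∑ η : Fin d → Fin K → ℤˣ, F (η i) := by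
    refine Fintype.sum_equiv (Equiv.curry (Fin d) (Fin K) ℤˣ) _ _ fun η => rfl
  rw [h1, D6_count F i]
  congr 1
  rw [Fintype.card_fun, Fintype.card_fin, Fintype.card_units_int, Nat.cast_pow, ← pow_mul]
  norm_num

theorem thm_D6 (h : St_D5) : St_D6 := by
  intro d K κ τ hd hK hτ hC
  obtain ⟨hsum, -, -⟩ := h d K κ τ hd hC
  obtain ⟨hprob, -, herr⟩ := hC
  have hd0 : (0 : ℝ) < d := by exact_mod_cast hd
  have := hprob
  have : ∀ η : Fin d × Fin K → ℤˣ, IsProbabilityMeasure (gm κ η) := by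
    intro η
    unfold gm
    infer_instance
  have hmeas : Measurable (fun x : Fin d → ℝ => nrm (WithLp.toLp 2 x : E d)) := by
    unfold nrm
    fun_prop
  -- the error of one coordinate
  set Fe : (Fin K → ℤˣ) → ℝ≥0∞ := fun e => ∫⁻ g, ENNReal.ofReal ((BB e - g) ^ 2) ∂(κ e) with hFe
  have hA : ∀ η : Fin d × Fin K → ℤˣ, ∫⁻ x, ENNReal.ofReal (‖x - yv η‖ ^ 2) ∂(nu κ η) ≤
      ∫⁻ x : Fin d → ℝ, ENNReal.ofReal (2 * (1 - (∑ i, x i ^ 2) / d) ^ 2) ∂(gm κ η) +
      ENNReal.ofReal (2 / d) * ∑ i, Fe (fun k => η (i, k)) := by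
    intro η
    unfold nu
    rw [lintegral_map (by fun_prop) hmeas]
    have h1 : ∀ x : Fin d → ℝ, ENNReal.ofReal (‖nrm (WithLp.toLp 2 x : E d) - yv η‖ ^ 2) ≤
        ENNReal.ofReal (2 * (1 - (∑ i, x i ^ 2) / d) ^ 2) +
        ENNReal.ofReal (2 / d) * ∑ i, ENNReal.ofReal ((BB (fun k => η (i, k)) - x i) ^ 2) := by
      intro x
      rw [← ENNReal.ofReal_sum_of_nonneg (fun i _ => sq_nonneg _),
        ← ENNReal.ofReal_mul (by positivity), ← ENNReal.ofReal_add (by positivity)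
          (mul_nonneg (by positivity) (Finset.sum_nonneg fun i _ => sq_nonneg _))]
      apply ENNReal.ofReal_le_ofReal
      have h2 := D6_pt d hd x (fun i => BB (fun k => η (i, k)))
      have h3 : ∑ i, (BB (fun k => η (i, k)) - x i) ^ 2 =
          ∑ i, (x i - BB (fun k => η (i, k))) ^ 2 :=
        Finset.sum_congr rfl fun i _ => by ring
      rw [h3]
      exact h2
    refine (lintegral_mono h1).trans ?_
    rw [lintegral_add_left (by fun_prop), lintegral_const_mul _ (by fun_prop),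
      lintegral_finsetSum _ (by fun_prop)]
    gcongr with i _
    apply le_of_eq
    rw [hFe]
    have hmp := measurePreserving_eval (fun i : Fin d => κ (fun k => η (i, k))) i
    exact hmp.lintegral_comp (f := fun g => ENNReal.ofReal ((BB (fun k => η (i, k)) - g) ^ 2))
      (by fun_prop)
  have hB : ∑ η : Fin d × Fin K → ℤˣ, ∫⁻ x : Fin d → ℝ,
      ENNReal.ofReal (2 * (1 - (∑ i, x i ^ 2) / d) ^ 2) ∂(gm κ η) =
      ENNReal.ofReal (2 ^ (d * K) * (4 / d)) := by
    rw [← lintegral_finsetSum_measure, hsum, lintegral_smul_measure, D6_gauss d hd,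
      ENNReal.ofReal_mul (by positivity)]
    congr 1
    rw [ENNReal.ofReal_pow (by norm_num)]
    norm_num
  have hD : ∑ η : Fin d × Fin K → ℤˣ, ENNReal.ofReal (2 / d) * ∑ i, Fe (fun k => η (i, k)) ≤
      ENNReal.ofReal (2 ^ (d * K) * (2 * τ)) := by
    rw [← Finset.mul_sum, Finset.sum_comm]
    have h1 : ∀ i : Fin d, ∑ η : Fin d × Fin K → ℤˣ, Fe (fun k => η (i, k)) ≤
        ENNReal.ofReal (2 ^ (d * K) * τ) := by
      intro i
      rw [D6_count2 Fe i]
      have e : (2 : ℝ≥0∞) ^ (K * (d - 1)) = ENNReal.ofReal (2 ^ (K * (d - 1))) := by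
        rw [ENNReal.ofReal_pow (by norm_num)]
        norm_num
      calc _ ≤ (2 : ℝ≥0∞) ^ (K * (d - 1)) * ENNReal.ofReal (2 ^ K * τ) := by gcongr
        _ = ENNReal.ofReal (2 ^ (d * K) * τ) := by
          rw [e, ← ENNReal.ofReal_mul (by positivity), ← mul_assoc, ← pow_add]
          congr 3
          obtain ⟨m, rfl⟩ : ∃ m, d = m + 1 := ⟨d - 1, by omega⟩
          rw [Nat.add_sub_cancel]
          ring
    calc _ ≤ ENNReal.ofReal (2 / d) * ∑ _i : Fin d, ENNReal.ofReal (2 ^ (d * K) * τ) := by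
          gcongr with i _
          exact h1 i
      _ = ENNReal.ofReal (2 ^ (d * K) * (2 * τ)) := by
          rw [Finset.sum_const, Finset.card_univ, Fintype.card_fin, nsmul_eq_mul,
            ← ENNReal.ofReal_natCast, ← ENNReal.ofReal_mul (by positivity),
            ← ENNReal.ofReal_mul (by positivity)]
          congr 1
          field_simp
  have hT : ∑ η : Fin d × Fin K → ℤˣ, ∫⁻ x, ENNReal.ofReal (‖x - yv η‖ ^ 2) ∂(nu κ η) ≤
      ENNReal.ofReal (2 ^ (d * K) * (4 / d + 2 * τ)) := by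
    refine (Finset.sum_le_sum fun η _ => hA η).trans ?_
    rw [Finset.sum_add_distrib, hB, mul_add, ENNReal.ofReal_add (by positivity) (by positivity)]
    gcongr
  have hfin : ∀ η : Fin d × Fin K → ℤˣ,
      ∫⁻ x, ENNReal.ofReal (‖x - yv η‖ ^ 2) ∂(nu κ η) ≠ ⊤ := by
    intro η
    refine ne_top_of_le_ne_top ENNReal.ofReal_ne_top (le_trans ?_ hT)
    exact Finset.single_le_sum (f := fun η : Fin d × Fin K → ℤˣ =>
      ∫⁻ x, ENNReal.ofReal (‖x - yv η‖ ^ 2) ∂(nu κ η)) (fun _ _ => bot_le) (Finset.mem_univ η)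
  have hI : ∀ η : Fin d × Fin K → ℤˣ, ∫ x, ‖x - yv η‖ ^ 2 ∂(nu κ η) =
      (∫⁻ x, ENNReal.ofReal (‖x - yv η‖ ^ 2) ∂(nu κ η)).toReal := by
    intro η
    rw [integral_eq_lintegral_of_nonneg_ae (ae_of_all _ fun x => by positivity)]
    exact (by fun_prop : Measurable fun x : E d => ‖x - yv η‖ ^ 2).aestronglyMeasurable
  simp_rw [hI]
  rw [← ENNReal.toReal_sum (fun η _ => hfin η)]
  exact ENNReal.toReal_le_of_le_ofReal (by positivity) hT

end Pool.Agent.XPS
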