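import Pool.Agent.XPS.St

/-!
# The norm of the sign point
-/

set_option autoImplicit false

namespace Pool.Agent.XPS

open Finset MeasureTheory ProbabilityTheory Filter Topology
open Pool.Agent.XPM (ff)
open scoped ENNReal

private theorem D7_cross {ι A : Type} [Fintype ι] [DecidableEq ι] [Fintype A] (F : A → ℝ)
    (hF : ∑ a, F a = 0) {i j : ι} (hij : i ≠ j) : ∑ h : ι → A, F (h i) * F (h j) = 0 := by
  classical
  have h1 : ∀ h : ι → A, F (h i) * F (h j) =
      ∏ k, (if k = i then F (h k) else if k = j then F (h k) else 1) := by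
    intro h
    rw [← Finset.mul_prod_erase _ _ (Finset.mem_univ i)]
    rw [← Finset.mul_prod_erase _ _ (Finset.mem_erase.2 ⟨hij.symm, Finset.mem_univ j⟩)]
    rw [Finset.prod_eq_one]
    · simp [hij.symm]
    · intro k hk
      have h2 := Finset.mem_erase.1 hk
      have h3 := Finset.mem_erase.1 h2.2
      simp [h2.1, h3.1]
  rw [Finset.sum_congr rfl fun h _ => h1 h]
  have h2 := Finset.prod_univ_sum (fun _ : ι => (Finset.univ : Finset A))
    (fun (k : ι) (a : A) => (if k = i then F a else if k = j then F a else 1 : ℝ))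
  rw [Fintype.piFinset_univ] at h2
  rw [← h2]
  refine Finset.prod_eq_zero (Finset.mem_univ i) ?_
  simpa using hF

private theorem D7_sq {ι A : Type} [Fintype ι] [DecidableEq ι] [Fintype A] (F : A → ℝ)
    (hF : ∑ a, F a = 0) : ∑ h : ι → A, (∑ i, F (h i)) ^ 2 = ∑ h : ι → A, ∑ i, F (h i) ^ 2 := by
  classical
  have h1 : ∀ h : ι → A, (∑ i, F (h i)) ^ 2 = ∑ i, ∑ j, F (h i) * F (h j) := by
    intro h
    rw [sq, Finset.sum_mul_sum]
  rw [Finset.sum_congr rfl fun h _ => h1 h, Finset.sum_comm]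
  rw [Finset.sum_comm (f := fun (h : ι → A) (i : ι) => F (h i) ^ 2)]
  refine Finset.sum_congr rfl fun i _ => ?_
  rw [Finset.sum_comm]
  rw [Finset.sum_eq_single i]
  · exact Finset.sum_congr rfl fun h _ => (sq _).symm
  · intro j _ hj
    exact D7_cross F hF hj.symm
  · intro h
    exact absurd (Finset.mem_univ i) h

private theorem D7_sv_sum : ∑ u : ℤˣ, sv u = 0 := by
  have h : (Finset.univ : Finset ℤˣ) = {1, -1} := by decide
  rw [h, Finset.sum_insert (by decide), Finset.sum_singleton]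
  simp [sv]

private theorem D7_sv_sq (u : ℤˣ) : sv u ^ 2 = 1 := by
  rcases Int.units_eq_one_or u with rfl | rfl <;> simp [sv]

private theorem D7_sv_abs (u : ℤˣ) : |sv u| = 1 := by
  rcases Int.units_eq_one_or u with rfl | rfl <;> simp [sv]

private theorem D7_BB_sq {K : ℕ} (e : Fin K → ℤˣ) :
    BB e ^ 2 = (∑ k, sv (e k)) ^ 2 / K := by
  rw [BB, div_pow, Real.sq_sqrt (Nat.cast_nonneg K)]

private theorem D7_BB_le {K : ℕ} (hK : 1 ≤ K) (e : Fin K → ℤˣ) : BB e ^ 2 ≤ K := by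
  have hK0 : (0 : ℝ) < K := by exact_mod_cast hK
  rw [D7_BB_sq, div_le_iff₀ hK0, ← sq]
  have h1 : |∑ k, sv (e k)| ≤ K := by
    refine (Finset.abs_sum_le_sum_abs _ _).trans ?_
    simp [D7_sv_abs]
  rw [← sq_abs]
  gcongr

private theorem D7_BB_mean {K : ℕ} (hK : 1 ≤ K) :
    ∑ e : Fin K → ℤˣ, (BB e ^ 2 - 1) = 0 := by
  have hK0 : (K : ℝ) ≠ 0 := by
    have : 0 < K := hK
    positivity
  have h1 : ∑ e : Fin K → ℤˣ, BB e ^ 2 = (2 : ℝ) ^ K := by
    rw [Finset.sum_congr rfl fun e _ => D7_BB_sq e, ← Finset.sum_div, D7_sq sv D7_sv_sum]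
    simp only [D7_sv_sq, Finset.sum_const, Finset.card_univ, Fintype.card_fin, nsmul_eq_mul,
      mul_one, Fintype.card_fun, Fintype.card_units_int, Nat.cast_pow, Nat.cast_ofNat]
    field_simp
  rw [Finset.sum_sub_distrib, h1]
  simp

private theorem D7_norm {d K : ℕ} (η : Fin d × Fin K → ℤˣ) :
    ‖yv η‖ ^ 2 = (∑ i, BB (fun k => η (i, k)) ^ 2) / d := by
  rw [EuclideanSpace.norm_sq_eq, yv, Finset.sum_div]
  refine Finset.sum_congr rfl fun i _ => ?_
  simp only [Real.norm_eq_abs, sq_abs, div_pow]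
  rw [Real.sq_sqrt (Nat.cast_nonneg d)]

theorem thm_D7 : St_D7 := by
  intro d K hd hK
  have hd0 : (0 : ℝ) < d := by exact_mod_cast hd
  have hK1 : (1 : ℝ) ≤ K := by exact_mod_cast hK
  constructor
  · have h1 : ∀ η : Fin d × Fin K → ℤˣ, (‖yv η‖ ^ 2 - 1) ^ 2 =
        (∑ i, (BB (fun k => η (i, k)) ^ 2 - 1)) ^ 2 / (d : ℝ) ^ 2 := by
      intro η
      rw [D7_norm, ← div_pow]
      congr 1
      rw [Finset.sum_sub_distrib]
      simp only [Finset.sum_const, Finset.card_univ, Fintype.card_fin, nsmul_eq_mul, mul_one]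
      field_simp
    rw [Finset.sum_congr rfl fun η _ => h1 η, ← Finset.sum_div]
    have h2 : ∑ η : Fin d × Fin K → ℤˣ, (∑ i, (BB (fun k => η (i, k)) ^ 2 - 1)) ^ 2 =
        ∑ h : Fin d → Fin K → ℤˣ, (∑ i, (BB (h i) ^ 2 - 1)) ^ 2 :=
      Fintype.sum_equiv (Equiv.curry (Fin d) (Fin K) ℤˣ) _ _ fun η => rfl
    rw [h2, D7_sq (fun e : Fin K → ℤˣ => BB e ^ 2 - 1) (D7_BB_mean hK)]
    have h3 : ∀ e : Fin K → ℤˣ, (BB e ^ 2 - 1) ^ 2 ≤ (K : ℝ) ^ 2 := by
      intro e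
      have a := D7_BB_le hK e
      have b := sq_nonneg (BB e)
      have c : |BB e ^ 2 - 1| ≤ (K : ℝ) := abs_le.2 ⟨by linarith, by linarith⟩
      rw [← sq_abs]
      gcongr
    have h4 : ∑ h : Fin d → Fin K → ℤˣ, ∑ i, (BB (h i) ^ 2 - 1) ^ 2 ≤
        ∑ _h : Fin d → Fin K → ℤˣ, ∑ _i : Fin d, (K : ℝ) ^ 2 :=
      Finset.sum_le_sum fun h _ => Finset.sum_le_sum fun i _ => h3 (h i)
    have h5 : ∑ _h : Fin d → Fin K → ℤˣ, ∑ _i : Fin d, (K : ℝ) ^ 2 = 2 ^ (d * K) * (d * (K : ℝ) ^ 2) := by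
      simp only [Finset.sum_const, Finset.card_univ, Fintype.card_fun, Fintype.card_fin,
        Fintype.card_units_int, nsmul_eq_mul, Nat.cast_pow, Nat.cast_ofNat]
      rw [← pow_mul, mul_comm K d]
    rw [h5] at h4
    calc _ ≤ 2 ^ (d * K) * (d * (K : ℝ) ^ 2) / (d : ℝ) ^ 2 := by gcongr
      _ = _ := by field_simp
  · intro η
    rw [D7_norm, div_le_iff₀ hd0]
    calc ∑ i, BB (fun k => η (i, k)) ^ 2 ≤ ∑ _i : Fin d, (K : ℝ) :=
          Finset.sum_le_sum fun i _ => D7_BB_le hK _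
      _ = K * d := by simp [mul_comm]

end Pool.Agent.XPS
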