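import Pool.Agent.XPS.St

/-! Module D8 of XPS (MP_b22a07_co): an elementary inequality. -/

set_option autoImplicit false

namespace Pool.Agent.XPS

/-- one step of the induction -/
theorem D8_step (j : ℕ) (ρ u : ℝ) (hu : 0 ≤ u) (h : ρ ^ 2 ≤ u ^ 2) :
    1 - 2 * ρ ^ (j + 1) + u ^ (2 * (j + 1)) ≤
      2 * (1 - 2 * ρ + u ^ 2) + 2 * u ^ 2 * (1 - 2 * ρ ^ j + u ^ (2 * j)) := by
  have h1 : (1 - ρ ^ j) ^ 2 ≤ 1 - 2 * ρ ^ j + u ^ (2 * j) := by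
    have h2 : (ρ ^ 2) ^ j ≤ (u ^ 2) ^ j := pow_le_pow_left₀ (sq_nonneg ρ) h j
    rw [← pow_mul, ← pow_mul] at h2
    have h3 : ρ ^ (2 * j) = (ρ ^ j) ^ 2 := by rw [← pow_mul, mul_comm]
    nlinarith
  have h2 : (ρ - u ^ 2) ^ 2 ≤ u ^ 2 * (1 - 2 * ρ + u ^ 2) := by nlinarith
  have h3 : 0 ≤ 1 - 2 * ρ + u ^ 2 := by nlinarith [sq_nonneg (1 - ρ)]
  have key : 2 * (1 - ρ ^ j) * (ρ - u ^ 2) ≤
      u ^ 2 * (1 - 2 * ρ ^ j + u ^ (2 * j)) + (1 - 2 * ρ + u ^ 2) := by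
    rcases hu.eq_or_lt with h0 | h0
    · have hρ : ρ = 0 := by
        rw [← h0] at h
        have : ρ ^ 2 = 0 := le_antisymm (by simpa using h) (sq_nonneg ρ)
        exact pow_eq_zero_iff two_ne_zero |>.1 this
      rw [← h0, hρ]
      norm_num
    · have h4 : 2 * (1 - ρ ^ j) * (ρ - u ^ 2) ≤ u ^ 2 * (1 - ρ ^ j) ^ 2 + (ρ - u ^ 2) ^ 2 / u ^ 2 := by
        have h5 : 0 ≤ (u * (1 - ρ ^ j) - (ρ - u ^ 2) / u) ^ 2 := sq_nonneg _
        have h6 : (u * (1 - ρ ^ j) - (ρ - u ^ 2) / u) ^ 2 =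
            u ^ 2 * (1 - ρ ^ j) ^ 2 + (ρ - u ^ 2) ^ 2 / u ^ 2 - 2 * (1 - ρ ^ j) * (ρ - u ^ 2) := by
          field_simp
          ring
        linarith
      have h5 : (ρ - u ^ 2) ^ 2 / u ^ 2 ≤ 1 - 2 * ρ + u ^ 2 := by
        rw [div_le_iff₀ (by positivity)]
        linarith
      have h6 : u ^ 2 * (1 - ρ ^ j) ^ 2 ≤ u ^ 2 * (1 - 2 * ρ ^ j + u ^ (2 * j)) :=
        mul_le_mul_of_nonneg_left h1 (sq_nonneg u)
      linarith
  have h7 : 1 - 2 * ρ ^ (j + 1) + u ^ (2 * (j + 1)) =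
      u ^ 2 * (1 - 2 * ρ ^ j + u ^ (2 * j)) + (1 - 2 * ρ + u ^ 2) +
        2 * (1 - ρ ^ j) * (ρ - u ^ 2) := by
    have h8 : u ^ (2 * (j + 1)) = u ^ 2 * u ^ (2 * j) := by
      rw [← pow_add]
      congr 1
      ring
    rw [h8, pow_succ]
    ring
  linarith

theorem thm_D8 : St_D8 := by
  intro j K ρ u hj hu h hK
  have h3 : 0 ≤ 1 - 2 * ρ + u ^ 2 := by nlinarith [sq_nonneg (1 - ρ)]
  have hK0 : (0 : ℝ) ≤ (K : ℝ) ^ j * (u ^ 2 - 1) ^ 2 := by positivity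
  rcases le_or_gt (u ^ 2) 4 with h4 | h4
  · have hind : ∀ i : ℕ, 1 ≤ i → 1 - 2 * ρ ^ i + u ^ (2 * i) ≤ 9 ^ i * (1 - 2 * ρ + u ^ 2) := by
      intro i hi
      induction i, hi using Nat.le_induction with
      | base =>
        norm_num
        nlinarith
      | succ i hi ih =>
        have h5 := D8_step i ρ u hu h
        have h6 : (0 : ℝ) ≤ 9 ^ i * (1 - 2 * ρ + u ^ 2) := by positivity
        have h7 : 2 * u ^ 2 * (1 - 2 * ρ ^ i + u ^ (2 * i)) ≤ 8 * (9 ^ i * (1 - 2 * ρ + u ^ 2)) := by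
          have h8 : 2 * u ^ 2 * (1 - 2 * ρ ^ i + u ^ (2 * i)) ≤
              2 * u ^ 2 * (9 ^ i * (1 - 2 * ρ + u ^ 2)) :=
            mul_le_mul_of_nonneg_left ih (by positivity)
          nlinarith
        have h9 : (2 : ℝ) ≤ 9 ^ i := by
          have h10 : (9 : ℝ) ^ 1 ≤ 9 ^ i := pow_le_pow_right₀ (by norm_num) hi
          linarith
        have h10 : 2 * (1 - 2 * ρ + u ^ 2) ≤ 9 ^ i * (1 - 2 * ρ + u ^ 2) :=
          mul_le_mul_of_nonneg_right h9 h3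
        rw [pow_succ (9 : ℝ)]
        linarith
    have := hind j hj
    linarith
  · have hu1 : 1 ≤ u := by nlinarith
    have h5 : |ρ| ≤ u := abs_le_of_sq_le_sq h hu
    have h6 : |ρ ^ j| ≤ u ^ j := by
      rw [abs_pow]
      exact pow_le_pow_left₀ (abs_nonneg _) h5 j
    have h7 : 1 ≤ u ^ j := one_le_pow₀ hu1
    have h8 : u ^ (2 * j) = (u ^ j) ^ 2 := by rw [← pow_mul, mul_comm]
    have h9 : u ^ (2 * j) ≤ (K : ℝ) ^ j := by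
      rw [pow_mul]
      exact pow_le_pow_left₀ (sq_nonneg u) hK j
    have h10 := neg_abs_le (ρ ^ j)
    have h11 : 1 - 2 * ρ ^ j + u ^ (2 * j) ≤ 4 * (K : ℝ) ^ j := by nlinarith
    have h12 : (4 : ℝ) ≤ (u ^ 2 - 1) ^ 2 := by nlinarith
    have h13 : 4 * (K : ℝ) ^ j ≤ (K : ℝ) ^ j * (u ^ 2 - 1) ^ 2 := by
      have : (0 : ℝ) ≤ (K : ℝ) ^ j := by positivity
      nlinarith
    have h14 : (0 : ℝ) ≤ 9 ^ j * (1 - 2 * ρ + u ^ 2) := by positivity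
    linarith

end Pool.Agent.XPS
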