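import Pool.Agent.XPS.St

/-!
# XPS/D9 (helper79): the kernel is close to the sign point in all moments
-/

set_option autoImplicit false

namespace Pool.Agent.XPS

open Finset MeasureTheory ProbabilityTheory Filter Topology
open scoped ENNReal

/-- pointwise bound -/
private lemma D9_point {d : ℕ} (h8 : St_D8) (K J j : ℕ) (hK : 1 ≤ K) (hj : 1 ≤ j) (hjJ : j ≤ J)
    (x y : E d) (hx : ‖x‖ = 1) (hy : ‖y‖ ^ 2 ≤ K) :
    1 - 2 * (inner ℝ x y : ℝ) ^ j + ‖y‖ ^ (2 * j) ≤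
      9 ^ J * ‖x - y‖ ^ 2 + (K : ℝ) ^ J * (‖y‖ ^ 2 - 1) ^ 2 := by
  have h1 : (inner ℝ x y : ℝ) ^ 2 ≤ ‖y‖ ^ 2 := by
    have := abs_real_inner_le_norm x y
    rw [hx, one_mul] at this
    exact sq_le_sq' (by linarith [neg_abs_le (inner ℝ x y : ℝ)]) (le_trans (le_abs_self _) this)
  have h := h8 j K (inner ℝ x y) ‖y‖ hj (norm_nonneg _) h1 hy
  have h2 : ‖x - y‖ ^ 2 = 1 - 2 * (inner ℝ x y : ℝ) + ‖y‖ ^ 2 := by
    rw [norm_sub_sq_real, hx]; ring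
  rw [← h2] at h
  refine h.trans ?_
  have hK' : (1 : ℝ) ≤ K := by exact_mod_cast hK
  gcongr
  · norm_num

theorem thm_D9 (h4 : St_D4) (h5 : St_D5) (h6 : St_D6) (h7 : St_D7) (h8 : St_D8) : St_D9 := by
  intro J τ hτ
  set τ1 : ℝ := τ / (8 * 9 ^ J) with hτ1
  have hτ10 : 0 < τ1 := by positivity
  obtain ⟨K, κ, hK, hκ⟩ := h4 τ1 hτ10
  have hK' : (1 : ℝ) ≤ K := by exact_mod_cast hK
  set M : ℝ := 4 * 9 ^ J + (K : ℝ) ^ J * K ^ 2 with hM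
  obtain ⟨d0, hd0⟩ := exists_nat_ge (2 * M / τ)
  refine ⟨K, d0, hK, fun d hd hdd => ⟨nu κ, fun η => ((h5 d K κ τ1 hd hκ).2.1 η).1,
    fun η => ((h5 d K κ τ1 hd hκ).2.1 η).2, (h5 d K κ τ1 hd hκ).2.2, ?_⟩⟩
  intro j hj hjJ
  have hd' : (0 : ℝ) < d := by exact_mod_cast hd
  have H6 := h6 d K κ τ1 hd hK hτ10.le hκ
  obtain ⟨H7, H7'⟩ := h7 d K hd hK
  have hone : ∀ η : Fin d × Fin K → ℤˣ,
      ∫ x, (1 - 2 * (inner ℝ x (yv η) : ℝ) ^ j + ‖yv η‖ ^ (2 * j)) ∂(nu κ η) ≤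
        9 ^ J * ∫ x, ‖x - yv η‖ ^ 2 ∂(nu κ η) + (K : ℝ) ^ J * (‖yv η‖ ^ 2 - 1) ^ 2 := by
    intro η
    obtain ⟨hp, hn⟩ := (h5 d K κ τ1 hd hκ).2.1 η
    have i1 : Integrable (fun x : E d => ‖x - yv η‖ ^ 2) (nu κ η) := by
      refine Integrable.of_bound (by fun_prop) ((1 + ‖yv η‖) ^ 2) ?_
      filter_upwards [hn] with x hx
      rw [Real.norm_of_nonneg (by positivity)]
      have : ‖x - yv η‖ ≤ 1 + ‖yv η‖ := by rw [← hx]; exact norm_sub_le _ _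
      gcongr
    have i2 : Integrable (fun x : E d => 1 - 2 * (inner ℝ x (yv η) : ℝ) ^ j + ‖yv η‖ ^ (2 * j))
        (nu κ η) := by
      refine Integrable.of_bound (by fun_prop) (1 + 2 * ‖yv η‖ ^ j + ‖yv η‖ ^ (2 * j)) ?_
      filter_upwards [hn] with x hx
      have h1 : |(inner ℝ x (yv η) : ℝ)| ≤ ‖yv η‖ := by
        have := abs_real_inner_le_norm x (yv η)
        rwa [hx, one_mul] at this
      have h2 : |(inner ℝ x (yv η) : ℝ) ^ j| ≤ ‖yv η‖ ^ j := by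
        rw [abs_pow]; gcongr
      rw [Real.norm_eq_abs]
      calc |1 - 2 * (inner ℝ x (yv η) : ℝ) ^ j + ‖yv η‖ ^ (2 * j)|
          ≤ |1 - 2 * (inner ℝ x (yv η) : ℝ) ^ j| + |‖yv η‖ ^ (2 * j)| := abs_add_le _ _
        _ ≤ (|(1 : ℝ)| + |2 * (inner ℝ x (yv η) : ℝ) ^ j|) + |‖yv η‖ ^ (2 * j)| := by
            gcongr; exact abs_sub _ _
        _ ≤ 1 + 2 * ‖yv η‖ ^ j + ‖yv η‖ ^ (2 * j) := by
            rw [abs_one, abs_mul, abs_two, abs_of_nonneg (by positivity : 0 ≤ ‖yv η‖ ^ (2 * j))]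
            gcongr
    have i3 : Integrable (fun _ : E d => (K : ℝ) ^ J * (‖yv η‖ ^ 2 - 1) ^ 2) (nu κ η) :=
      integrable_const _
    calc ∫ x, (1 - 2 * (inner ℝ x (yv η) : ℝ) ^ j + ‖yv η‖ ^ (2 * j)) ∂(nu κ η)
        ≤ ∫ x, (9 ^ J * ‖x - yv η‖ ^ 2 + (K : ℝ) ^ J * (‖yv η‖ ^ 2 - 1) ^ 2) ∂(nu κ η) := by
          apply integral_mono_ae i2 ((i1.const_mul _).add i3)
          filter_upwards [hn] with x hx
          exact D9_point h8 K J j hK hj hjJ x (yv η) hx (H7' η)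
      _ = _ := by
          rw [integral_add (i1.const_mul _) i3, integral_const_mul, integral_const]
          simp
  have hfin : ∑ η : Fin d × Fin K → ℤˣ,
      (9 ^ J * ∫ x, ‖x - yv η‖ ^ 2 ∂(nu κ η) + (K : ℝ) ^ J * (‖yv η‖ ^ 2 - 1) ^ 2) ≤
      9 ^ J * (2 ^ (d * K) * (4 / d + 2 * τ1)) + (K : ℝ) ^ J * (2 ^ (d * K) * ((K : ℝ) ^ 2 / d)) := by
    rw [sum_add_distrib, ← mul_sum, ← mul_sum]
    gcongr
  refine (sum_le_sum fun η _ => hone η).trans (hfin.trans ?_)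
  have e1 : 9 ^ J * (2 ^ (d * K) * (4 / d + 2 * τ1)) + (K : ℝ) ^ J * (2 ^ (d * K) * ((K : ℝ) ^ 2 / d))
      = 2 ^ (d * K) * (M / d + τ / 4) := by
    rw [hM, hτ1]
    field_simp
    ring
  rw [e1]
  have e2 : M / d ≤ τ / 2 := by
    have h1 : 2 * M / τ ≤ d := hd0.trans (by exact_mod_cast hdd)
    rw [div_le_iff₀ hτ] at h1
    rw [div_le_iff₀ hd']
    linarith
  gcongr
  linarith

end Pool.Agent.XPS
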