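import Pool.Agent.XPS.St

/-!
# XPS, module EX: points at least as good as the mean
-/

set_option autoImplicit false

namespace Pool.Agent.XPS

open Finset MeasureTheory ProbabilityTheory Filter Topology
open scoped ENNReal

private lemma EX_bdd {d : ℕ} {H : E d → ℝ} (hH : Continuous H) :
    ∃ C : ℝ, ∀ x : E d, ‖x‖ = 1 → ‖H x‖ ≤ C := by
  obtain ⟨C, hC⟩ := (isCompact_sphere (0 : E d) 1).exists_bound_of_continuousOn hH.continuousOn
  exact ⟨C, fun x hx => hC x (by simpa using hx)⟩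

private lemma EX_int {d : ℕ} {μ : Measure (E d)} (hμ : IsProbabilityMeasure μ)
    (h1 : ∀ᵐ x ∂μ, ‖x‖ = 1) {H : E d → ℝ} (hH : Continuous H) : Integrable H μ := by
  obtain ⟨C, hC⟩ := EX_bdd hH
  refine Integrable.of_bound hH.aestronglyMeasurable C ?_
  filter_upwards [h1] with x hx using hC x hx

private lemma EX_int2 {d : ℕ} {μ ν : Measure (E d)} (hμ : IsProbabilityMeasure μ)
    (hν : IsProbabilityMeasure ν) (h1 : ∀ᵐ x ∂μ, ‖x‖ = 1) (h2 : ∀ᵐ x ∂ν, ‖x‖ = 1)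
    {F : ℝ → ℝ} (hF : Continuous F) :
    Integrable (fun p : E d × E d => F (inner ℝ p.1 p.2 : ℝ)) (μ.prod ν) := by
  obtain ⟨C, hC⟩ := (isCompact_Icc (a := (-1 : ℝ)) (b := 1)).exists_bound_of_continuousOn
    hF.continuousOn
  have hc : Continuous (fun p : E d × E d => F (inner ℝ p.1 p.2 : ℝ)) := by fun_prop
  refine Integrable.of_bound hc.aestronglyMeasurable C ?_
  have h3 : ∀ᵐ p ∂(μ.prod ν), ‖p.1‖ = 1 := Measure.quasiMeasurePreserving_fst.ae h1
  have h4 : ∀ᵐ p ∂(μ.prod ν), ‖p.2‖ = 1 := Measure.quasiMeasurePreserving_snd.ae h2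
  filter_upwards [h3, h4] with p hp1 hp2
  refine hC _ ?_
  have h5 := abs_real_inner_le_norm p.1 p.2
  rw [hp1, hp2, mul_one] at h5
  exact ⟨(abs_le.1 h5).1, (abs_le.1 h5).2⟩

private lemma EX_swap {d : ℕ} {μ ν : Measure (E d)} (hμ : IsProbabilityMeasure μ)
    (hν : IsProbabilityMeasure ν) (h1 : ∀ᵐ x ∂μ, ‖x‖ = 1) (h2 : ∀ᵐ x ∂ν, ‖x‖ = 1)
    {F : ℝ → ℝ} (hF : Continuous F) :
    ∫ x, ∫ x', F (inner ℝ x x' : ℝ) ∂ν ∂μ = ∫ x, ∫ x', F (inner ℝ x x' : ℝ) ∂μ ∂ν := by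
  rw [integral_integral_swap (f := fun x x' => F (inner ℝ x x' : ℝ)) (EX_int2 hμ hν h1 h2 hF)]
  refine integral_congr_ae (Eventually.of_forall (fun x => ?_))
  refine integral_congr_ae (Eventually.of_forall (fun y => ?_))
  show F (inner ℝ y x : ℝ) = F (inner ℝ x y : ℝ)
  rw [real_inner_comm]

private lemma EX_sum {N : ℕ} (m : Fin (N + 1) → Fin (N + 1) → ℝ) (hm : ∀ a b, m a b = m b a) :
    (∑ a, ∑ b, if a = b then 0 else m a b) =
      2 * ∑ b : Fin N, m 0 b.succ +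
        ∑ a : Fin N, ∑ b : Fin N, if a = b then 0 else m a.succ b.succ := by
  rw [Fin.sum_univ_succ]
  have h1 : (∑ b, if (0 : Fin (N + 1)) = b then 0 else m 0 b) = ∑ b : Fin N, m 0 b.succ := by
    rw [Fin.sum_univ_succ, if_pos rfl, zero_add]
    refine Finset.sum_congr rfl (fun b _ => ?_)
    rw [if_neg (Fin.succ_ne_zero b).symm]
  have h2 : ∀ a : Fin N, (∑ b, if a.succ = b then 0 else m a.succ b) =
      m 0 a.succ + ∑ b : Fin N, if a = b then 0 else m a.succ b.succ := by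
    intro a
    rw [Fin.sum_univ_succ, if_neg (Fin.succ_ne_zero a), hm a.succ 0]
    congr 1
    refine Finset.sum_congr rfl (fun b _ => ?_)
    simp only [Fin.succ_inj]
  rw [h1, Finset.sum_congr rfl (fun a _ => h2 a), Finset.sum_add_distrib]
  ring

private lemma EX_gen (d : ℕ) (F : ℝ → ℝ) (hF : Continuous F) : ∀ (N : ℕ)
    (μ : Fin N → Measure (E d)) (H : Fin N → E d → ℝ),
    (∀ a, IsProbabilityMeasure (μ a)) → (∀ a, ∀ᵐ x ∂(μ a), ‖x‖ = 1) →
    (∀ a, Continuous (H a)) →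
    ∃ y : Fin N → E d, (∀ a, ‖y a‖ = 1) ∧
      (∑ a, ∑ b, if a = b then 0 else ∫ x, ∫ x', F (inner ℝ x x' : ℝ) ∂(μ b) ∂(μ a)) +
          ∑ a, ∫ x, H a x ∂(μ a)
        ≤ (∑ a, ∑ b, if a = b then 0 else F (inner ℝ (y a) (y b) : ℝ)) + ∑ a, H a (y a) := by
  intro N
  induction N with
  | zero =>
    intro μ H _ _ _
    exact ⟨fun a => a.elim0, fun a => a.elim0, by simp⟩
  | succ N ih =>
    intro μ H hμ h1 hH
    have hi : ∀ b : Fin N, Integrable (fun x => ∫ x', F (inner ℝ x x' : ℝ) ∂(μ b.succ)) (μ 0) :=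
      fun b => (EX_int2 (hμ 0) (hμ b.succ) (h1 0) (h1 b.succ) hF).integral_prod_left
    have hi2 : Integrable (fun x => ∑ b : Fin N, ∫ x', F (inner ℝ x x' : ℝ) ∂(μ b.succ)) (μ 0) :=
      integrable_finset_sum _ (fun b _ => hi b)
    have hi0 : Integrable (H 0) (μ 0) := EX_int (hμ 0) (h1 0) (hH 0)
    have hG : Integrable (fun x => H 0 x +
        2 * ∑ b : Fin N, ∫ x', F (inner ℝ x x' : ℝ) ∂(μ b.succ)) (μ 0) :=
      hi0.add (hi2.const_mul 2)
    have h10 := h1 0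
    rw [ae_iff] at h10
    obtain ⟨y0, hy0, hle⟩ := exists_notMem_null_integral_le hG h10
    have hy1 : ‖y0‖ = 1 := by
      by_contra hc
      exact hy0 hc
    rw [integral_add hi0 (hi2.const_mul 2), integral_const_mul,
      integral_finset_sum _ (fun b _ => hi b)] at hle
    have hc2 : ∀ a : Fin N, Continuous (fun x => 2 * F (inner ℝ y0 x : ℝ)) := fun a => by fun_prop
    obtain ⟨y, hy, hyle⟩ := ih (fun a => μ a.succ)
      (fun a x => H a.succ x + 2 * F (inner ℝ y0 x : ℝ)) (fun a => hμ a.succ)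
      (fun a => h1 a.succ) (fun a => (hH a.succ).add (hc2 a))
    refine ⟨Fin.cons y0 y, ?_, ?_⟩
    · intro a
      refine Fin.cases ?_ (fun b => ?_) a
      · simpa using hy1
      · simpa using hy b
    · rw [EX_sum (fun a b => ∫ x, ∫ x', F (inner ℝ x x' : ℝ) ∂(μ b) ∂(μ a))
          (fun a b => EX_swap (hμ a) (hμ b) (h1 a) (h1 b) hF),
        EX_sum (fun a b => F (inner ℝ ((Fin.cons y0 y : Fin (N + 1) → E d) a)
          ((Fin.cons y0 y : Fin (N + 1) → E d) b) : ℝ))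
          (fun a b => by rw [real_inner_comm]),
        Fin.sum_univ_succ (f := fun a => ∫ x, H a x ∂(μ a)),
        Fin.sum_univ_succ (f := fun a => H a ((Fin.cons y0 y : Fin (N + 1) → E d) a))]
      simp only [Fin.cons_zero, Fin.cons_succ]
      have e1 : ∀ a : Fin N, ∫ x, (H a.succ x + 2 * F (inner ℝ y0 x : ℝ)) ∂(μ a.succ) =
          ∫ x, H a.succ x ∂(μ a.succ) + 2 * ∫ x, F (inner ℝ y0 x : ℝ) ∂(μ a.succ) := by
        intro a
        rw [integral_add (EX_int (hμ _) (h1 _) (hH _)) (EX_int (hμ _) (h1 _) (hc2 a)),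
          integral_const_mul]
      simp only [e1, Finset.sum_add_distrib, ← Finset.mul_sum] at hyle
      linarith

theorem thm_EX : St_EX := by
  intro d N μ F H hμ h1 hF hH
  exact EX_gen d F hF N μ (fun _ => H) hμ h1 (fun _ => hH)

end Pool.Agent.XPS
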