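import Pool.Agent.XPS.St

set_option autoImplicit false

namespace Pool.Agent.XPS

open Finset
open Pool.Agent.XPM (ff)

private lemma FU_deriv (P P' : ℝ → ℝ) (hP : ∀ t, HasDerivAt P (P' t) t) (t : ℝ) (ht : t < 1) :
    HasDerivAt (fun t => P t * (√(1 - t))⁻¹)
      (((1 - t) * P' t + P t / 2) / √(1 - t) ^ 3) t := by
  have h0 : (0 : ℝ) < 1 - t := by linarith
  have hw : 0 < √(1 - t) := Real.sqrt_pos.2 h0
  have hw2 : √(1 - t) ^ 2 = 1 - t := Real.sq_sqrt h0.le
  have h1 : HasDerivAt (fun t : ℝ => 1 - t) (-1) t := by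
    simpa using (hasDerivAt_id t).const_sub 1
  have h2 : HasDerivAt (fun t : ℝ => √(1 - t)) (-1 / (2 * √(1 - t))) t := h1.sqrt h0.ne'
  have h3 : HasDerivAt (fun t : ℝ => (√(1 - t))⁻¹)
      (-(-1 / (2 * √(1 - t))) / √(1 - t) ^ 2) t := h2.fun_inv hw.ne'
  have h4 := (hP t).mul h3
  have h5 : ((1 - t) * P' t + P t / 2) / √(1 - t) ^ 3 =
      P' t * (√(1 - t))⁻¹ + P t * (-(-1 / (2 * √(1 - t))) / √(1 - t) ^ 2) := by
    set w := √(1 - t) with hwdef
    rw [← hw2]
    field_simp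
  rw [h5]
  exact h4

private lemma FU_mono (P P' : ℝ → ℝ) (hP : ∀ t, HasDerivAt P (P' t) t)
    (h1 : ∀ t, 0 ≤ t → t < 1 → 0 ≤ (1 - t) * P' t + P t / 2)
    (h2 : ∀ t, -1 ≤ t → t ≤ 0 → (1 - t) * P' t + P t / 2 ≤ 0) :
    ∀ t, -1 ≤ t → t < 1 → P 0 * √(1 - t) ≤ P t := by
  intro t ht1 ht2
  have hd := FU_deriv P P' hP
  have hw : 0 < √(1 - t) := Real.sqrt_pos.2 (by linarith)
  have key : P 0 * (√(1 - 0))⁻¹ ≤ P t * (√(1 - t))⁻¹ := by
    rcases le_total 0 t with h | h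
    · have hm : MonotoneOn (fun t => P t * (√(1 - t))⁻¹) (Set.Ico 0 1) := by
        refine monotoneOn_of_deriv_nonneg (convex_Ico 0 1)
          (fun x hx => (hd x hx.2).continuousAt.continuousWithinAt) ?_ ?_
        · intro x hx
          rw [interior_Ico] at hx
          exact (hd x hx.2).differentiableAt.differentiableWithinAt
        · intro x hx
          rw [interior_Ico] at hx
          rw [(hd x hx.2).deriv]
          exact div_nonneg (h1 x hx.1.le hx.2) (pow_nonneg (Real.sqrt_nonneg _) 3)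
      exact hm ⟨le_rfl, one_pos⟩ ⟨h, ht2⟩ h
    · have hm : AntitoneOn (fun t => P t * (√(1 - t))⁻¹) (Set.Icc (-1) 0) := by
        refine antitoneOn_of_deriv_nonpos (convex_Icc (-1) 0)
          (fun x hx => (hd x (by linarith [hx.2])).continuousAt.continuousWithinAt) ?_ ?_
        · intro x hx
          rw [interior_Icc] at hx
          exact (hd x (by linarith [hx.2])).differentiableAt.differentiableWithinAt
        · intro x hx
          rw [interior_Icc] at hx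
          rw [(hd x (by linarith [hx.2])).deriv]
          exact div_nonpos_of_nonpos_of_nonneg (h2 x hx.1.le hx.2.le)
            (pow_nonneg (Real.sqrt_nonneg _) 3)
      exact hm ⟨ht1, h⟩ ⟨by norm_num, le_rfl⟩ h
  rw [sub_zero, Real.sqrt_one, inv_one, mul_one] at key
  calc P 0 * √(1 - t) ≤ P t * (√(1 - t))⁻¹ * √(1 - t) :=
        mul_le_mul_of_nonneg_right key hw.le
    _ = P t := by
        field_simp

/-- the derivative of `pp n` -/
private noncomputable def FU_dp (n : ℕ) (t : ℝ) : ℝ :=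
  -∑ j ∈ Icc 1 n, bc j * ((j : ℝ) * t ^ (j - 1))

private lemma FU_hd (n : ℕ) (t : ℝ) : HasDerivAt (pp n) (FU_dp n t) t := by
  have h1 : ∀ j ∈ Icc 1 n, HasDerivAt (fun t : ℝ => bc j * t ^ j)
      (bc j * ((j : ℝ) * t ^ (j - 1))) t := fun j _ => (hasDerivAt_pow j t).const_mul (bc j)
  have h2 : HasDerivAt (fun t : ℝ => ∑ j ∈ Icc 1 n, bc j * t ^ j)
      (∑ j ∈ Icc 1 n, bc j * ((j : ℝ) * t ^ (j - 1))) t := HasDerivAt.fun_sum h1
  exact h2.const_sub 1

private lemma FU_id (hBC : St_BC) (n : ℕ) (hn : 1 ≤ n) (t : ℝ) :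
    (1 - t) * FU_dp n t + pp n t / 2 = ((n : ℝ) - 1 / 2) * bc n * t ^ n := by
  obtain ⟨-, hb1, hbr, -, -, -⟩ := hBC
  induction n, hn using Nat.le_induction with
  | base =>
    unfold FU_dp pp
    simp only [Icc_self, sum_singleton, hb1]
    norm_num
    ring
  | succ n hn ih =>
    unfold FU_dp pp at ih ⊢
    rw [sum_Icc_succ_top (by omega), sum_Icc_succ_top (by omega)]
    have h := hbr n hn
    rw [Nat.add_sub_cancel]
    push_cast
    have e : (1 - t) * -(∑ j ∈ Icc 1 n, bc j * ((j : ℝ) * t ^ (j - 1)) +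
        bc (n + 1) * (((n : ℝ) + 1) * t ^ n)) +
        (1 - (∑ j ∈ Icc 1 n, bc j * t ^ j + bc (n + 1) * t ^ (n + 1))) / 2 =
        ((1 - t) * -∑ j ∈ Icc 1 n, bc j * ((j : ℝ) * t ^ (j - 1)) +
        (1 - ∑ j ∈ Icc 1 n, bc j * t ^ j) / 2) -
        (1 - t) * (bc (n + 1) * (((n : ℝ) + 1) * t ^ n)) - bc (n + 1) * t ^ (n + 1) / 2 := by
      ring
    rw [e, ih, pow_succ]
    linear_combination (-(t ^ n) / 2) * h

private lemma FU_pp0 (n : ℕ) : pp n 0 = 1 := by
  unfold pp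
  rw [sum_eq_zero, sub_zero]
  intro j hj
  rw [zero_pow (by have := (mem_Icc.1 hj).1; omega), mul_zero]

private lemma FU_pp1 (hBC : St_BC) (n : ℕ) : pp n 1 = rr n := by
  unfold pp
  rw [← hBC.2.2.2.2.1 n]
  simp

theorem thm_FU (hBC : St_BC) : St_FU := by
  intro n t hn ht1 ht2
  have hn1 : 1 ≤ n := hn.pos
  have hb : 0 < bc n := hBC.1 n hn1
  have hc : 0 ≤ ((n : ℝ) - 1 / 2) * bc n := by
    have : (1 : ℝ) ≤ n := by exact_mod_cast hn1
    exact mul_nonneg (by linarith) hb.le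
  show √(1 - t) ≤ pp n t
  rcases ht2.lt_or_eq with h | h
  · have h1 := FU_mono (pp n) (FU_dp n) (FU_hd n) (fun x hx _ => by
      rw [FU_id hBC n hn1]
      exact mul_nonneg hc (pow_nonneg hx n)) (fun x _ hx => by
      rw [FU_id hBC n hn1]
      exact mul_nonpos_of_nonneg_of_nonpos hc (hn.pow_nonpos hx)) t ht1 h
    rw [FU_pp0, one_mul] at h1
    exact h1
  · rw [h, sub_self, Real.sqrt_zero, FU_pp1 hBC]
    exact (hBC.2.2.2.1 n).1.le

theorem thm_FL (hBC : St_BC) : St_FL := by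
  intro n t hn ht1 ht2
  have hn1 : 1 ≤ n := hn.pos
  have hr := (hBC.2.2.2.1 n).1
  have hrb := hBC.2.2.2.2.2 n hn1
  have hc : 0 ≤ rr n * ((n : ℝ) + 1 / 2) := mul_nonneg hr.le (by positivity)
  show qq n t ≤ √(1 - t)
  rcases ht2.lt_or_eq with h | h
  · have hd : ∀ t, HasDerivAt (fun t => -qq n t)
        (-(FU_dp n t - rr n * (((n + 1 : ℕ) : ℝ) * t ^ n))) t := by
      intro t
      have h1 := (hasDerivAt_pow (n + 1) t).const_mul (rr n)
      rw [Nat.add_sub_cancel] at h1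
      exact ((FU_hd n t).sub h1).neg
    have hid : ∀ t, (1 - t) * -(FU_dp n t - rr n * (((n + 1 : ℕ) : ℝ) * t ^ n)) + -qq n t / 2 =
        rr n * ((n : ℝ) + 1 / 2) * (1 - t) * t ^ n := by
      intro t
      have h1 := FU_id hBC n hn1 t
      unfold qq
      push_cast
      rw [pow_succ]
      linear_combination (-1) * h1 + (t ^ n / 2) * hrb
    have h1 := FU_mono (fun t => -qq n t)
      (fun t => -(FU_dp n t - rr n * (((n + 1 : ℕ) : ℝ) * t ^ n))) hd (fun x hx hx1 => by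
      show 0 ≤ (1 - x) * -(FU_dp n x - rr n * (((n + 1 : ℕ) : ℝ) * x ^ n)) + -qq n x / 2
      rw [hid]
      exact mul_nonneg (mul_nonneg hc (by linarith)) (pow_nonneg hx n)) (fun x _ hx => by
      show (1 - x) * -(FU_dp n x - rr n * (((n + 1 : ℕ) : ℝ) * x ^ n)) + -qq n x / 2 ≤ 0
      rw [hid]
      exact mul_nonpos_of_nonneg_of_nonpos (mul_nonneg hc (by linarith))
        (hn.pow_nonpos hx)) t ht1 h
    have h2 : qq n 0 = 1 := by
      unfold qq
      rw [FU_pp0, zero_pow (Nat.succ_ne_zero n), mul_zero, sub_zero]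
    have h3 : -qq n 0 * √(1 - t) ≤ -qq n t := h1
    rw [h2] at h3
    linarith
  · rw [h, sub_self, Real.sqrt_zero]
    unfold qq
    rw [FU_pp1 hBC]
    simp

end Pool.Agent.XPS
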