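import Pool.Agent.XPS.St

set_option autoImplicit false

/-! XPS, module IN (helper99): induction over blocks and single points. -/

namespace Pool.Agent.XPS

open Finset MeasureTheory ProbabilityTheory Filter Topology

/-- the off-diagonal sum -/
private noncomputable def IN_F {d N : ℕ} (n : ℕ) (X : Fin N → E d) : ℝ :=
  ∑ a, ∑ b, if a = b then 0 else qq n (inner ℝ (X a) (X b) : ℝ)

private theorem IN_cont (n : ℕ) : Continuous (qq n) := by
  unfold qq pp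
  fun_prop

private theorem IN_append {d M K n : ℕ} (X : Fin M → E d) (Y : Fin K → E d) :
    IN_F n (Fin.append X Y) = IN_F n X + IN_F n Y +
      2 * ∑ i, ∑ a, qq n (inner ℝ (X i) (Y a) : ℝ) := by
  have h1 : ∀ i : Fin M, ∀ a : Fin K, ¬ (Fin.castAdd K i = Fin.natAdd M a) := by
    intro i a h
    have := congrArg Fin.val h
    simp at this
    omega
  have h2 : ∀ i : Fin M, ∀ a : Fin K, ¬ (Fin.natAdd M a = Fin.castAdd K i) := by
    intro i a h
    exact h1 i a h.symm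
  have h3 : ∑ a : Fin K, ∑ i : Fin M, qq n (inner ℝ (Y a) (X i) : ℝ) =
      ∑ i : Fin M, ∑ a : Fin K, qq n (inner ℝ (X i) (Y a) : ℝ) := by
    rw [Finset.sum_comm]
    refine Finset.sum_congr rfl fun i _ => Finset.sum_congr rfl fun a _ => ?_
    rw [real_inner_comm]
  unfold IN_F
  rw [Fin.sum_univ_add]
  simp only [Fin.sum_univ_add, Fin.append_left, Fin.append_right, h1, h2, if_false,
    Fin.castAdd_inj, Fin.natAdd_inj, Finset.sum_add_distrib]
  rw [h3]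
  ring

private theorem IN_append_norm {d M K : ℕ} (X : Fin M → E d) (Y : Fin K → E d)
    (hX : ∀ i, ‖X i‖ = 1) (hY : ∀ i, ‖Y i‖ = 1) : ∀ i, ‖Fin.append X Y i‖ = 1 := by
  intro i
  refine Fin.addCases (fun i => ?_) (fun i => ?_) i
  · rw [Fin.append_left]; exact hX i
  · rw [Fin.append_right]; exact hY i

/-- a single point -/
private theorem IN_point (hS1 : St_S1) (hS2 : St_S2) {d M : ℕ} (n : ℕ) (hd : 1 ≤ d)
    (X : Fin M → E d) (hX : ∀ i, ‖X i‖ = 1) :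
    ∃ y : E d, ‖y‖ = 1 ∧ (M : ℝ) * cq d n ≤ ∑ i, qq n (inner ℝ (X i) y : ℝ) := by
  obtain ⟨hP, hunit, -⟩ := hS1 d hd
  have hc := IN_cont n
  obtain ⟨C, hC⟩ := (isCompact_Icc (a := (-1 : ℝ)) (b := 1)).exists_bound_of_continuousOn
    hc.continuousOn
  have hint : ∀ i, Integrable (fun y : E d => qq n (inner ℝ (X i) y : ℝ)) (sph d) := by
    intro i
    have hcont : Continuous (fun y : E d => qq n (inner ℝ (X i) y : ℝ)) :=
      hc.comp (continuous_const.inner continuous_id)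
    refine Integrable.of_bound hcont.aestronglyMeasurable C ?_
    filter_upwards [hunit] with y hy
    refine hC _ ?_
    have h1 := abs_real_inner_le_norm (X i) y
    rw [hX i, hy, one_mul] at h1
    exact abs_le.1 h1
  have hmean : ∫ y, ∑ i, qq n (inner ℝ (X i) y : ℝ) ∂(sph d) = (M : ℝ) * cq d n := by
    rw [integral_finsetSum _ fun i _ => hint i]
    rw [Finset.sum_congr rfl fun i _ => hS2 d (qq n) (X i) hd hc (hX i)]
    rw [Finset.sum_const, Finset.card_univ, Fintype.card_fin, nsmul_eq_mul]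
    rfl
  obtain ⟨y, hy1, hy2⟩ := exists_notMem_null_integral_le
    (integrable_finsetSum _ fun i _ => hint i : Integrable (fun y : E d =>
      ∑ i, qq n (inner ℝ (X i) y : ℝ)) (sph d)) (ae_iff.1 hunit)
  refine ⟨y, ?_, ?_⟩
  · by_contra h
    exact hy1 h
  · rw [hmean] at hy2
    exact hy2

theorem thm_IN (hS1 : St_S1) (hS2 : St_S2) (hS5 : St_S5) (hBL : St_BL) : St_IN := by
  intro s δ hs hδ
  obtain ⟨C, d0, hC, hB⟩ := hBL s δ hs hδ
  refine ⟨C, d0, hC, ?_⟩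
  intro d N hd hd0
  obtain ⟨N0, hN0, hN0C, hstep⟩ := hB d hd hd0
  set n := 2 * s + 1 with hn
  have hcq : cq d n ≤ 1 := (hS5 d n hd (odd_two_mul_add_one s)).2.2.2
  have hrr : 0 ≤ rr n := by unfold rr; positivity
  -- blocks
  have hblock : ∀ k : ℕ, ∃ X : Fin (k * N0) → E d, (∀ a, ‖X a‖ = 1) ∧
      ((k * N0 : ℕ) : ℝ) ^ 2 * cq d n - (rr n + δ) * ((k * N0 : ℕ) : ℝ) ≤ IN_F n X := by
    intro k
    induction k with
    | zero =>
      rw [Nat.zero_mul]
      refine ⟨fun i => i.elim0, fun i => i.elim0, ?_⟩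
      simp [IN_F]
    | succ k ih =>
      rw [Nat.succ_mul]
      obtain ⟨X, hX, hF⟩ := ih
      obtain ⟨Y, hY, hG⟩ := hstep (k * N0) X hX
      refine ⟨Fin.append X Y, IN_append_norm X Y hX hY, ?_⟩
      rw [IN_append]
      have hG' : (N0 : ℝ) ^ 2 * cq d n - (rr n + δ) * N0 + 2 * ((k * N0 : ℕ) : ℝ) * N0 * cq d n
        ≤ IN_F n Y + 2 * ∑ i, ∑ a, qq n (inner ℝ (X i) (Y a) : ℝ) := hG
      push_cast at hF hG' ⊢
      nlinarith
  -- single points
  have hsingle : ∀ (M : ℕ), (∃ X : Fin M → E d, (∀ a, ‖X a‖ = 1) ∧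
      (M : ℝ) ^ 2 * cq d n - (rr n + δ) * (M : ℝ) ≤ IN_F n X) → ∀ j : ℕ,
      ∃ X : Fin (M + j) → E d, (∀ a, ‖X a‖ = 1) ∧
        ((M + j : ℕ) : ℝ) ^ 2 * cq d n - (rr n + δ) * (M : ℝ) - j ≤ IN_F n X := by
    intro M hM j
    induction j with
    | zero =>
      obtain ⟨X, hX, hF⟩ := hM
      exact ⟨X, hX, by simpa using hF⟩
    | succ j ih =>
      obtain ⟨X, hX, hF⟩ := ih
      obtain ⟨y, hy, hG⟩ := IN_point hS1 hS2 n hd X hX
      refine ⟨(Fin.append X (fun _ : Fin 1 => y) : Fin ((M + j) + 1) → E d),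
        (IN_append_norm X (fun _ : Fin 1 => y) hX (fun _ => hy) :
          ∀ i : Fin ((M + j) + 1), _), ?_⟩
      refine le_of_le_of_eq ?_ (IN_append X (fun _ : Fin 1 => y)).symm
      have h1 : IN_F n (fun _ : Fin 1 => y) = 0 := by
        simp [IN_F]
      have h2 : ∑ i, ∑ a : Fin 1, qq n (inner ℝ (X i) ((fun _ : Fin 1 => y) a) : ℝ) =
          ∑ i, qq n (inner ℝ (X i) y : ℝ) := by
        simp
      rw [h1, h2]
      push_cast at hF hG ⊢
      nlinarith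
  obtain ⟨X, hX, hF⟩ := hsingle (N / N0 * N0) (hblock (N / N0)) (N % N0)
  have hN : N / N0 * N0 + N % N0 = N := Nat.div_add_mod' N N0
  have hmod : ((N % N0 : ℕ) : ℝ) ≤ C * (d : ℝ) ^ s := by
    have h1 : N % N0 < N0 := Nat.mod_lt _ hN0
    have h2 : ((N % N0 : ℕ) : ℝ) ≤ N0 := by exact_mod_cast h1.le
    linarith
  have hle : ((N / N0 * N0 : ℕ) : ℝ) ≤ N := by
    exact_mod_cast Nat.div_mul_le_self N N0
  have hfin : ∀ N' : ℕ, N' = N → (∃ X : Fin N' → E d, (∀ a, ‖X a‖ = 1) ∧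
      (N' : ℝ) ^ 2 * cq d n - (rr n + δ) * ((N / N0 * N0 : ℕ) : ℝ) - ((N % N0 : ℕ) : ℝ) ≤ IN_F n X) →
      ∃ X : Fin N → E d, (∀ a, ‖X a‖ = 1) ∧
      (N : ℝ) ^ 2 * cq d n - (rr n + δ) * ((N / N0 * N0 : ℕ) : ℝ) - ((N % N0 : ℕ) : ℝ) ≤ IN_F n X := by
    rintro N' rfl h
    exact h
  obtain ⟨Z, hZ, hFZ⟩ := hfin _ hN ⟨X, hX, hF⟩
  refine ⟨Z, hZ, ?_⟩
  change _ ≤ IN_F n Z
  refine le_trans ?_ hFZ
  have h3 : (rr n + δ) * ((N / N0 * N0 : ℕ) : ℝ) ≤ (rr n + δ) * N :=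
    mul_le_mul_of_nonneg_left hle (by linarith)
  linarith

end Pool.Agent.XPS
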