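import Pool.Agent.XPS.St

set_option autoImplicit false

namespace Pool.Agent.XPS

open Finset
open Pool.Agent.XPM (ff)

theorem thm_LB (hBC : St_BC) (hFL : St_FL) (h4 : St_S4) (h5 : St_S5) (hIN : St_IN)
    (hPE : Pool.Agent.XPM.St_PE) : St_LB := by
  intro s ε hs hε
  obtain ⟨C1, d0, hC1, hin⟩ := hIN s (ε / 4) hs (by linarith)
  obtain ⟨C', hC', hmu⟩ := h4 (s + 1)
  obtain ⟨-, -, -, hrr, -, -⟩ := hBC
  have hodd : Odd (2 * s + 1) := ⟨s, rfl⟩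
  set C : ℝ := max (max (4 * C1 / ε) (4 * C' / ε)) (max (d0 : ℝ) 1) with hC
  have hCa : 4 * C1 / ε ≤ C := (le_max_left _ _).trans (le_max_left _ _)
  have hCb : 4 * C' / ε ≤ C := (le_max_right _ _).trans (le_max_left _ _)
  have hCc : (d0 : ℝ) ≤ C := (le_max_left _ _).trans (le_max_right _ _)
  have hCd : (1 : ℝ) ≤ C := (le_max_right _ _).trans (le_max_right _ _)
  have hC0 : 0 < C := by linarith
  refine ⟨C, hC0, fun d N hd hN1 hN2 => ?_⟩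
  have hd2 : (2 : ℝ) ≤ d := by exact_mod_cast hd
  have hdpos : (0 : ℝ) < d := by linarith
  have hds : (0 : ℝ) < (d : ℝ) ^ s := by positivity
  have hNpos : (0 : ℝ) < N := lt_of_lt_of_le (by positivity) hN1
  have hCd2 : C ^ 2 ≤ d := by
    have h1 : C ^ 2 * (d : ℝ) ^ s ≤ d * (d : ℝ) ^ s := by
      calc C ^ 2 * (d : ℝ) ^ s = C * (C * (d : ℝ) ^ s) := by ring
        _ ≤ C * N := mul_le_mul_of_nonneg_left hN1 hC0.le
        _ ≤ (d : ℝ) ^ (s + 1) := hN2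
        _ = d * (d : ℝ) ^ s := by ring
    exact le_of_mul_le_mul_right h1 hds
  have hd0 : d0 ≤ d := by
    have : (d0 : ℝ) ≤ d := by nlinarith
    exact_mod_cast this
  obtain ⟨X, hX, hXs⟩ := hin d N (by omega) hd0
  have hC1' : C1 ≤ ε / 4 * C := by
    rw [div_le_iff₀ hε] at hCa
    linarith
  have hC'' : C' ≤ ε / 4 * C := by
    rw [div_le_iff₀ hε] at hCb
    linarith
  have e1 : C1 * (d : ℝ) ^ s ≤ ε / 4 * N := by
    calc C1 * (d : ℝ) ^ s ≤ ε / 4 * C * (d : ℝ) ^ s := mul_le_mul_of_nonneg_right hC1' hds.le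
      _ = ε / 4 * (C * (d : ℝ) ^ s) := by ring
      _ ≤ ε / 4 * N := mul_le_mul_of_nonneg_left hN1 (by positivity)
  have hds1 : (0 : ℝ) < (d : ℝ) ^ (s + 1) := by positivity
  have e2 : (N : ℝ) * (C' / (d : ℝ) ^ (s + 1)) ≤ ε / 4 := by
    rw [← mul_div_assoc, div_le_iff₀ hds1]
    calc (N : ℝ) * C' ≤ N * (ε / 4 * C) := mul_le_mul_of_nonneg_left hC'' hNpos.le
      _ = ε / 4 * (C * N) := by ring
      _ ≤ ε / 4 * (d : ℝ) ^ (s + 1) := mul_le_mul_of_nonneg_left hN2 (by positivity)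
  obtain ⟨-, hcf, -, -⟩ := h5 d (2 * s + 1) (by omega) hodd
  have hr := hrr (2 * s + 1)
  have e3 : cf d - C' / (d : ℝ) ^ (s + 1) ≤ cq d (2 * s + 1) := by
    have h2 := hmu d (by omega)
    have h3 : 2 * (s + 1) = 2 * s + 1 + 1 := by ring
    rw [h3] at h2
    have h4 : (0 : ℝ) ≤ C' / (d : ℝ) ^ (s + 1) := by positivity
    have h5 : rr (2 * s + 1) * mu d (2 * s + 1 + 1) ≤ C' / (d : ℝ) ^ (s + 1) := by
      calc rr (2 * s + 1) * mu d (2 * s + 1 + 1)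
          ≤ rr (2 * s + 1) * (C' / (d : ℝ) ^ (s + 1)) := mul_le_mul_of_nonneg_left h2 hr.1.le
        _ ≤ 1 * (C' / (d : ℝ) ^ (s + 1)) := mul_le_mul_of_nonneg_right hr.2 h4
        _ = C' / (d : ℝ) ^ (s + 1) := one_mul _
    linarith
  have e4 : (N : ℝ) ^ 2 * cf d - ε / 4 * N ≤ (N : ℝ) ^ 2 * cq d (2 * s + 1) := by
    have h2 : (N : ℝ) ^ 2 * (cf d - C' / (d : ℝ) ^ (s + 1)) ≤ (N : ℝ) ^ 2 * cq d (2 * s + 1) :=
      mul_le_mul_of_nonneg_left e3 (by positivity)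
    have h3 : (N : ℝ) * ((N : ℝ) * (C' / (d : ℝ) ^ (s + 1))) ≤ N * (ε / 4) :=
      mul_le_mul_of_nonneg_left e2 hNpos.le
    nlinarith
  have e5 : (∑ a, ∑ b, if a = b then 0 else qq (2 * s + 1) (inner ℝ (X a) (X b) : ℝ))
      ≤ ∑ a, ∑ b, ff (inner ℝ (X a) (X b) : ℝ) := by
    refine Finset.sum_le_sum fun a _ => Finset.sum_le_sum fun b _ => ?_
    split_ifs with hab
    · exact Real.sqrt_nonneg _
    · have h6 := abs_real_inner_le_norm (X a) (X b)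
      rw [hX a, hX b, one_mul] at h6
      exact hFL (2 * s + 1) _ hodd (abs_le.mp h6).1 (abs_le.mp h6).2
  obtain ⟨Y, hYi, hY, hYs⟩ := hPE d N X (ε / 4 * N) hd (by positivity) hX
  refine ⟨Y, hYi, hY, ?_⟩
  have e6 : (rr (2 * s + 1) + ε / 4) * (N : ℝ) = rr (2 * s + 1) * N + ε / 4 * N := by ring
  have e7 : (rr (2 * s + 1) + ε) * (N : ℝ) = rr (2 * s + 1) * N + 4 * (ε / 4 * N) := by ring
  rw [e6] at hXs
  rw [e7]
  linarith

end Pool.Agent.XPS
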