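import Pool.Agent.XPS.St

set_option autoImplicit false

namespace Pool.Agent.XPS

open Finset
open Pool.Agent.XPM (ff)

/-- Some set of distinct unit vectors (with a nonnegative sum). -/
private theorem LX_some (hPE : Pool.Agent.XPM.St_PE) (d N : ℕ) (hd : 2 ≤ d) :
    ∃ Y : Fin N → E d, Function.Injective Y ∧ (∀ i, ‖Y i‖ = 1) ∧
      0 ≤ ∑ a, ∑ b, ff (inner ℝ (Y a) (Y b) : ℝ) := by
  obtain ⟨Y, h1, h2, -⟩ := hPE d N (fun _ => EuclideanSpace.single (⟨0, by omega⟩ : Fin d) (1 : ℝ)) 1 hd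
    one_pos (fun _ => by simp)
  exact ⟨Y, h1, h2, Finset.sum_nonneg fun _ _ => Finset.sum_nonneg fun _ _ => Real.sqrt_nonneg _⟩

/-- **LX.** Lower bound for all `d ≥ 2`, `N`. -/
theorem thm_LX (hBC : St_BC) (hFL : St_FL) (h3 : St_S3) (h4 : St_S4) (h5 : St_S5) (hIN : St_IN)
    (hPE : Pool.Agent.XPM.St_PE) :
    ∀ (s : ℕ) (ε : ℝ), 1 ≤ s → 0 < ε → ∃ C : ℝ, 0 < C ∧ ∀ d N : ℕ, 2 ≤ d →
      ∃ X : Fin N → E d, Function.Injective X ∧ (∀ i, ‖X i‖ = 1) ∧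
        (N : ℝ) ^ 2 * cf d - (rr (2 * s + 1) + ε) * N
            - C * ((d : ℝ) ^ s + (N : ℝ) ^ 2 / (d : ℝ) ^ (s + 1))
          ≤ ∑ a, ∑ b, ff (inner ℝ (X a) (X b) : ℝ) := by
  intro s ε hs hε
  obtain ⟨C1, d0, hC1, hin⟩ := hIN s (ε / 2) hs (by linarith)
  obtain ⟨C', hC', hmu⟩ := h4 (s + 1)
  obtain ⟨-, -, -, hrr, -, -⟩ := hBC
  have hodd : Odd (2 * s + 1) := ⟨s, rfl⟩
  have hr := hrr (2 * s + 1)
  refine ⟨C1 + C' + 2 * (d0 : ℝ) ^ (s + 1), by positivity, fun d N hd => ?_⟩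
  have hd2 : (2 : ℝ) ≤ d := by exact_mod_cast hd
  have hdpos : (0 : ℝ) < d := by linarith
  have hds : (0 : ℝ) < (d : ℝ) ^ s := by positivity
  have hds1 : (0 : ℝ) < (d : ℝ) ^ (s + 1) := by positivity
  have hN0 : (0 : ℝ) ≤ N := Nat.cast_nonneg N
  obtain ⟨-, hcf, -, hcq⟩ := h5 d (2 * s + 1) (by omega) hodd
  have hq : (0 : ℝ) ≤ (N : ℝ) ^ 2 / (d : ℝ) ^ (s + 1) := by positivity
  rcases Nat.lt_or_ge d d0 with hlt | hge
  · obtain ⟨Y, h6, h7, h8⟩ := LX_some hPE d N hd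
    refine ⟨Y, h6, h7, le_trans ?_ h8⟩
    have hmu1 := (h3 d (2 * s + 1 + 1) (by omega)).2.2
    have hmu0 := (h3 d (2 * s + 1 + 1) (by omega)).2.1
    have hcf2 : cf d ≤ 2 := by nlinarith
    have h9 : (N : ℝ) ^ 2 * cf d ≤ 2 * (d0 : ℝ) ^ (s + 1) * ((N : ℝ) ^ 2 / (d : ℝ) ^ (s + 1)) := by
      have h10 : (d : ℝ) ^ (s + 1) ≤ (d0 : ℝ) ^ (s + 1) := by
        apply pow_le_pow_left₀ hdpos.le
        exact_mod_cast hlt.le
      have h11 : (N : ℝ) ^ 2 = (d : ℝ) ^ (s + 1) * ((N : ℝ) ^ 2 / (d : ℝ) ^ (s + 1)) := by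
        field_simp
      calc (N : ℝ) ^ 2 * cf d ≤ (N : ℝ) ^ 2 * 2 := mul_le_mul_of_nonneg_left hcf2 (by positivity)
        _ = 2 * ((d : ℝ) ^ (s + 1) * ((N : ℝ) ^ 2 / (d : ℝ) ^ (s + 1))) := by rw [← h11]; ring
        _ ≤ 2 * ((d0 : ℝ) ^ (s + 1) * ((N : ℝ) ^ 2 / (d : ℝ) ^ (s + 1))) := by
            apply mul_le_mul_of_nonneg_left _ (by norm_num)
            exact mul_le_mul_of_nonneg_right h10 hq
        _ = _ := by ring
    have h12 : 0 ≤ (rr (2 * s + 1) + ε) * (N : ℝ) := mul_nonneg (by linarith) hN0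
    have h13 : 0 ≤ (C1 + C' + 2 * (d0 : ℝ) ^ (s + 1)) * (d : ℝ) ^ s := by positivity
    have h14 : 0 ≤ (C1 + C') * ((N : ℝ) ^ 2 / (d : ℝ) ^ (s + 1)) := by positivity
    nlinarith
  · obtain ⟨X, hX, hXs⟩ := hin d N (by omega) hge
    have e3 : cf d - C' / (d : ℝ) ^ (s + 1) ≤ cq d (2 * s + 1) := by
      have h2 := hmu d (by omega)
      have h3 : 2 * (s + 1) = 2 * s + 1 + 1 := by ring
      rw [h3] at h2
      have h4 : (0 : ℝ) ≤ C' / (d : ℝ) ^ (s + 1) := by positivity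
      have h5 : rr (2 * s + 1) * mu d (2 * s + 1 + 1) ≤ C' / (d : ℝ) ^ (s + 1) := by
        calc rr (2 * s + 1) * mu d (2 * s + 1 + 1)
            ≤ rr (2 * s + 1) * (C' / (d : ℝ) ^ (s + 1)) := mul_le_mul_of_nonneg_left h2 hr.1.le
          _ ≤ 1 * (C' / (d : ℝ) ^ (s + 1)) := mul_le_mul_of_nonneg_right hr.2 h4
          _ = C' / (d : ℝ) ^ (s + 1) := one_mul _
      linarith
    have e4 : (N : ℝ) ^ 2 * cf d - C' * ((N : ℝ) ^ 2 / (d : ℝ) ^ (s + 1))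
        ≤ (N : ℝ) ^ 2 * cq d (2 * s + 1) := by
      have h2 : (N : ℝ) ^ 2 * (cf d - C' / (d : ℝ) ^ (s + 1)) ≤ (N : ℝ) ^ 2 * cq d (2 * s + 1) :=
        mul_le_mul_of_nonneg_left e3 (by positivity)
      have h6 : (N : ℝ) ^ 2 * (cf d - C' / (d : ℝ) ^ (s + 1))
          = (N : ℝ) ^ 2 * cf d - C' * ((N : ℝ) ^ 2 / (d : ℝ) ^ (s + 1)) := by ring
      linarith
    have e5 : (∑ a, ∑ b, if a = b then 0 else qq (2 * s + 1) (inner ℝ (X a) (X b) : ℝ))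
        ≤ ∑ a, ∑ b, ff (inner ℝ (X a) (X b) : ℝ) := by
      refine Finset.sum_le_sum fun a _ => Finset.sum_le_sum fun b _ => ?_
      split_ifs with hab
      · exact Real.sqrt_nonneg _
      · have h6 := abs_real_inner_le_norm (X a) (X b)
        rw [hX a, hX b, one_mul] at h6
        exact hFL (2 * s + 1) _ hodd (abs_le.mp h6).1 (abs_le.mp h6).2
    rcases Nat.eq_zero_or_pos N with hN | hN
    · subst hN
      refine ⟨X, fun a => a.elim0, hX, ?_⟩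
      have : 0 ≤ (C1 + C' + 2 * (d0 : ℝ) ^ (s + 1)) * (d : ℝ) ^ s := by positivity
      simp
      positivity
    · have hNpos : (0 : ℝ) < N := by exact_mod_cast hN
      obtain ⟨Y, hYi, hY, hYs⟩ := hPE d N X (ε / 2 * N) hd (by positivity) hX
      refine ⟨Y, hYi, hY, ?_⟩
      have h20 : 0 ≤ (C' + 2 * (d0 : ℝ) ^ (s + 1)) * (d : ℝ) ^ s := by positivity
      have h21 : 0 ≤ (C1 + 2 * (d0 : ℝ) ^ (s + 1)) * ((N : ℝ) ^ 2 / (d : ℝ) ^ (s + 1)) := by positivity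
      nlinarith

end Pool.Agent.XPS
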