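import Pool.Agent.XPS.St

set_option autoImplicit false

/-! S1: the measure `sph`: probability, unit, invariance (helper78). -/

namespace Pool.Agent.XPS

open Finset MeasureTheory ProbabilityTheory Filter Topology
open scoped ENNReal

private theorem S1_meas (d : ℕ) : Measurable (nrm : E d → E d) := by
  unfold nrm
  exact measurable_norm.inv.smul measurable_id

private theorem S1_zero (d : ℕ) (hd : 1 ≤ d) : stdGaussian (E d) {0} = 0 := by
  rw [← map_pi_eq_stdGaussian, Measure.map_apply (by fun_prop) (measurableSet_singleton _)]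
  have h : (WithLp.toLp 2) ⁻¹' {(0 : E d)} = {(0 : Fin d → ℝ)} := by
    ext x
    simp
  rw [h, Measure.pi_singleton]
  have hn : NullSingletonClass (gaussianReal 0 1) := nullSingletonClass_gaussianReal (by norm_num)
  have hz : (gaussianReal 0 1) {(0 : ℝ)} = 0 := measure_singleton _
  have hd' : (⟨0, hd⟩ : Fin d) ∈ (univ : Finset (Fin d)) := mem_univ _
  exact Finset.prod_eq_zero hd' hz

private theorem S1_comm (d : ℕ) (T : E d ≃ₗᵢ[ℝ] E d) (x : E d) : nrm (T x) = T (nrm x) := by
  unfold nrm
  rw [T.norm_map, map_smul]

theorem thm_S1 : St_S1 := by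
  intro d hd
  have hm := S1_meas d
  refine ⟨?_, ?_, ?_⟩
  · exact Measure.isProbabilityMeasure_map hm.aemeasurable
  · unfold sph
    rw [ae_map_iff hm.aemeasurable (measurableSet_eq_fun measurable_norm measurable_const)]
    have h0 : ∀ᵐ x ∂(stdGaussian (E d)), x ≠ 0 := by
      rw [ae_iff]
      simpa using S1_zero d hd
    filter_upwards [h0] with x hx
    unfold nrm
    rw [norm_smul, norm_inv, norm_norm, inv_mul_cancel₀ (norm_ne_zero_iff.mpr hx)]
  · intro T
    unfold sph
    have hT : Measurable (T : E d → E d) := T.continuous.measurable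
    rw [Measure.map_map hT hm]
    have hc : (T : E d → E d) ∘ nrm = nrm ∘ (T : E d → E d) := by
      funext x
      exact (S1_comm d T x).symm
    rw [hc, ← Measure.map_map hm hT, stdGaussian_map T]

end Pool.Agent.XPS
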