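import Pool.Agent.XPS.St

/-!
# XPS S2: zonal integrals do not depend on the pole
-/

set_option autoImplicit false

namespace Pool.Agent.XPS

open Finset MeasureTheory ProbabilityTheory Filter Topology

/-- the integral of a zonal function is invariant -/
private theorem S2_inv (d : ℕ) (hT : ∀ T : E d ≃ₗᵢ[ℝ] E d, (sph d).map T = sph d)
    (φ : ℝ → ℝ) (u v : E d) (hu : ‖u‖ = 1) (hv : ‖v‖ = 1) :
    ∫ y, φ (inner ℝ v y : ℝ) ∂(sph d) = ∫ y, φ (inner ℝ u y : ℝ) ∂(sph d) := by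
  have hT1 : (Submodule.reflection (ℝ ∙ (v - u))ᗮ) v = u :=
    Submodule.reflection_sub (by rw [hu, hv])
  generalize Submodule.reflection (ℝ ∙ (v - u))ᗮ = T at hT1
  have h2 : ∫ y, φ (inner ℝ u y : ℝ) ∂((sph d).map T) = ∫ y, φ (inner ℝ u (T y) : ℝ) ∂(sph d) :=
    integral_map_equiv T.toHomeomorph.toMeasurableEquiv _
  rw [hT T] at h2
  rw [h2]
  congr 1
  funext y
  rw [← hT1, LinearIsometryEquiv.inner_map_map]

theorem thm_S2 (h : St_S1) : St_S2 := by
  intro d φ u hd _ hu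
  obtain ⟨hp, hae, hT⟩ := h d hd
  have h1 : (fun x => ∫ y, φ (inner ℝ x y : ℝ) ∂(sph d)) =ᵐ[sph d]
      fun _ => ∫ y, φ (inner ℝ u y : ℝ) ∂(sph d) := by
    filter_upwards [hae] with x hx
    exact S2_inv d hT φ u x hu hx
  rw [integral_congr_ae h1, integral_const, probReal_univ, one_smul]

end Pool.Agent.XPS
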