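import Pool.Agent.XPS.St

/-! helper35. Module S3 of XPS: `mu` as a sum of squares. -/

set_option autoImplicit false

namespace Pool.Agent.XPS

open Finset MeasureTheory ProbabilityTheory Filter Topology
open Pool.Agent.XPM (ff)
open scoped ENNReal

private theorem S3_inner_pow (d j : ℕ) (x y : E d) :
    (inner ℝ x y : ℝ) ^ j = ∑ J : Fin j → Fin d, (∏ l, x (J l)) * ∏ l, y (J l) := by
  have h1 : (inner ℝ x y : ℝ) = ∑ i ∈ (univ : Finset (Fin d)), x i * y i := by
    rw [PiLp.inner_apply]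
    refine Finset.sum_congr rfl fun i _ => ?_
    simp [mul_comm]
  rw [h1, Finset.sum_pow']
  simp only [Fintype.piFinset_univ, Finset.prod_mul_distrib]

private theorem S3_coord {d : ℕ} {y : E d} (hy : ‖y‖ = 1) (i : Fin d) : |y i| ≤ 1 := by
  have h := PiLp.norm_apply_le y i
  rw [hy, Real.norm_eq_abs] at h
  exact h

private theorem S3_prod {d j : ℕ} {y : E d} (hy : ‖y‖ = 1) (J : Fin j → Fin d) :
    ‖∏ l, y (J l)‖ ≤ 1 := by
  rw [Real.norm_eq_abs, Finset.abs_prod]
  exact Finset.prod_le_one (fun _ _ => abs_nonneg _) fun l _ => S3_coord hy (J l)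

theorem thm_S3 (hS1 : St_S1) : St_S3 := by
  intro d j hd
  obtain ⟨hP, hn, -⟩ := hS1 d hd
  have := hP
  have hint : ∀ J : Fin j → Fin d, Integrable (fun y : E d => ∏ l, y (J l)) (sph d) := by
    intro J
    refine Integrable.of_bound (C := 1) ?_ ?_
    · exact (by fun_prop : Continuous fun y : E d => ∏ l, y (J l)).aestronglyMeasurable
    · filter_upwards [hn] with y hy
      exact S3_prod hy J
  have heq : mu d j = ∑ J : Fin j → Fin d, (∫ x, ∏ l, x (J l) ∂(sph d)) ^ 2 := by
    unfold mu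
    have h1 : ∀ x : E d, ∫ y, (inner ℝ x y : ℝ) ^ j ∂(sph d) =
        ∑ J : Fin j → Fin d, (∏ l, x (J l)) * ∫ y, ∏ l, y (J l) ∂(sph d) := by
      intro x
      simp_rw [S3_inner_pow]
      rw [integral_finsetSum _ fun J _ => (hint J).const_mul _]
      refine Finset.sum_congr rfl fun J _ => ?_
      rw [integral_const_mul]
    simp_rw [h1]
    rw [integral_finsetSum _ fun J _ => (hint J).mul_const _]
    refine Finset.sum_congr rfl fun J _ => ?_
    rw [integral_mul_const]
    ring
  refine ⟨heq, ?_, ?_⟩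
  · rw [heq]
    exact Finset.sum_nonneg fun J _ => sq_nonneg _
  · have h2 : ∀ x : E d, ‖x‖ = 1 → ‖∫ y, (inner ℝ x y : ℝ) ^ j ∂(sph d)‖ ≤ 1 := by
      intro x hx
      have h3 : ∀ᵐ y ∂(sph d), ‖(inner ℝ x y : ℝ) ^ j‖ ≤ 1 := by
        filter_upwards [hn] with y hy
        rw [norm_pow]
        refine pow_le_one₀ (norm_nonneg _) ?_
        have h4 := norm_inner_le_norm (𝕜 := ℝ) x y
        rw [hx, hy] at h4
        simpa using h4
      have h5 := norm_integral_le_of_norm_le_const h3
      simpa using h5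
    have h6 : ∀ᵐ x ∂(sph d), ‖∫ y, (inner ℝ x y : ℝ) ^ j ∂(sph d)‖ ≤ 1 := by
      filter_upwards [hn] with x hx
      exact h2 x hx
    have h7 := norm_integral_le_of_norm_le_const h6
    have h8 : ‖mu d j‖ ≤ 1 := by
      unfold mu
      simpa using h7
    exact (le_abs_self _).trans h8

end Pool.Agent.XPS
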