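import Pool.Agent.XPS.St

set_option autoImplicit false

/-!
MP_b22a07_co, THEOREM S, module S4: decay of the moments `mu d (2m) ≤ C/d^m`.
-/

namespace Pool.Agent.XPS

open Finset MeasureTheory ProbabilityTheory Filter Topology
open scoped ENNReal

/-- value of a boolean sign -/
private noncomputable def S4_sg (b : Bool) : ℝ := if b then 1 else -1

private theorem S4_sg_sq (b : Bool) : S4_sg b ^ 2 = 1 := by
  cases b <;> simp [S4_sg]

/-- the unit vector of a sign vector -/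
private noncomputable def S4_u (d : ℕ) (ε : Fin d → Bool) : E d :=
  (√(d : ℝ))⁻¹ • (WithLp.toLp 2 (fun i => S4_sg (ε i)) : E d)

private theorem S4_u_norm (d : ℕ) (hd : 1 ≤ d) (ε : Fin d → Bool) : ‖S4_u d ε‖ = 1 := by
  have h0 : (0 : ℝ) < d := by exact_mod_cast hd
  have h1 : (0 : ℝ) < √(d : ℝ) := Real.sqrt_pos.2 h0
  have h2 : ‖(WithLp.toLp 2 (fun i => S4_sg (ε i)) : E d)‖ = √(d : ℝ) := by
    rw [EuclideanSpace.norm_eq]
    congr 1
    have : ∀ i : Fin d, ‖S4_sg (ε i)‖ ^ 2 = 1 := by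
      intro i
      rw [Real.norm_eq_abs, sq_abs, S4_sg_sq]
    rw [Finset.sum_congr rfl (fun i _ => this i)]
    simp
  rw [S4_u, norm_smul, h2, norm_inv, Real.norm_eq_abs, abs_of_pos h1]
  exact inv_mul_cancel₀ h1.ne'

private theorem S4_u_inner (d : ℕ) (ε : Fin d → Bool) (y : E d) :
    (inner ℝ (S4_u d ε) y : ℝ) = (√(d : ℝ))⁻¹ * ∑ i, S4_sg (ε i) * y i := by
  rw [S4_u, real_inner_smul_left, PiLp.inner_apply]
  congr 1
  refine Finset.sum_congr rfl (fun i _ => ?_)
  simp [mul_comm]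

/-- pointwise bound by exponentials -/
private theorem S4_pow (m : ℕ) (t : ℝ) :
    t ^ (2 * m) ≤ ((2 * m).factorial : ℝ) * (Real.exp t + Real.exp (-t)) := by
  have h1 : t ^ (2 * m) = |t| ^ (2 * m) := by
    rw [pow_mul, pow_mul, sq_abs]
  have h2 := Real.pow_div_factorial_le_exp |t| (abs_nonneg t) (2 * m)
  have h3 : (0 : ℝ) < ((2 * m).factorial : ℝ) := by exact_mod_cast Nat.factorial_pos _
  rw [div_le_iff₀ h3] at h2
  have h4 : Real.exp |t| ≤ Real.exp t + Real.exp (-t) := by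
    rcases abs_cases t with ⟨h, _⟩ | ⟨h, _⟩ <;> rw [h]
    · linarith [Real.exp_pos (-t)]
    · linarith [Real.exp_pos t]
  rw [h1]
  calc |t| ^ (2 * m) ≤ Real.exp |t| * ((2 * m).factorial : ℝ) := h2
    _ ≤ (Real.exp t + Real.exp (-t)) * ((2 * m).factorial : ℝ) :=
        mul_le_mul_of_nonneg_right h4 h3.le
    _ = _ := mul_comm _ _

/-- the exponential sum over the signs -/
private theorem S4_exp (d : ℕ) (y : Fin d → ℝ) :
    ∑ ε : Fin d → Bool, Real.exp (∑ i, S4_sg (ε i) * y i)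
      ≤ 2 ^ d * Real.exp ((∑ i, y i ^ 2) / 2) := by
  have h1 : ∑ ε : Fin d → Bool, Real.exp (∑ i, S4_sg (ε i) * y i)
      = ∏ i : Fin d, ∑ b : Bool, Real.exp (S4_sg b * y i) := by
    rw [Finset.prod_univ_sum, Fintype.piFinset_univ]
    refine Finset.sum_congr rfl (fun ε _ => ?_)
    rw [Real.exp_sum]
  have h2 : ∀ i : Fin d, ∑ b : Bool, Real.exp (S4_sg b * y i) = 2 * Real.cosh (y i) := by
    intro i
    rw [Fintype.sum_bool, Real.cosh_eq]
    simp [S4_sg]
    ring
  rw [h1, Finset.prod_congr rfl (fun i _ => h2 i), Finset.prod_mul_distrib, Finset.prod_const,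
    Finset.card_univ, Fintype.card_fin, Finset.sum_div, Real.exp_sum]
  refine mul_le_mul_of_nonneg_left ?_ (by positivity)
  exact Finset.prod_le_prod (fun i _ => (Real.cosh_pos _).le)
    (fun i _ => Real.cosh_le_exp_half_sq (y i))

/-- the pointwise bound of the sum over the signs -/
private theorem S4_bound (d m : ℕ) (y : Fin d → ℝ) (hy : ∑ i, y i ^ 2 = 1) :
    ∑ ε : Fin d → Bool, (∑ i, S4_sg (ε i) * y i) ^ (2 * m)
      ≤ 2 ^ d * (2 * Real.exp (1 / 2) * ((2 * m).factorial : ℝ)) := by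
  have h3 : (0 : ℝ) < ((2 * m).factorial : ℝ) := by exact_mod_cast Nat.factorial_pos _
  have h1 := S4_exp d y
  have h2 := S4_exp d (fun i => - y i)
  have e2 : ∀ ε : Fin d → Bool, ∑ i, S4_sg (ε i) * (- y i) = -∑ i, S4_sg (ε i) * y i := by
    intro ε
    rw [← Finset.sum_neg_distrib]
    exact Finset.sum_congr rfl (fun i _ => by ring)
  have e3 : ∑ i, (- y i) ^ 2 = 1 := by
    rw [← hy]
    exact Finset.sum_congr rfl (fun i _ => by ring)
  simp only [e2, e3] at h2
  rw [hy] at h1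
  calc ∑ ε : Fin d → Bool, (∑ i, S4_sg (ε i) * y i) ^ (2 * m)
      ≤ ∑ ε : Fin d → Bool, ((2 * m).factorial : ℝ) *
          (Real.exp (∑ i, S4_sg (ε i) * y i) + Real.exp (-∑ i, S4_sg (ε i) * y i)) :=
        Finset.sum_le_sum (fun ε _ => S4_pow m _)
    _ = ((2 * m).factorial : ℝ) * (∑ ε : Fin d → Bool, Real.exp (∑ i, S4_sg (ε i) * y i)
          + ∑ ε : Fin d → Bool, Real.exp (-∑ i, S4_sg (ε i) * y i)) := by
        rw [← Finset.mul_sum, Finset.sum_add_distrib]
    _ ≤ ((2 * m).factorial : ℝ) * (2 ^ d * Real.exp (1 / 2) + 2 ^ d * Real.exp (1 / 2)) :=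
        mul_le_mul_of_nonneg_left (add_le_add h1 h2) h3.le
    _ = _ := by ring

/-- decay of the moments -/
theorem thm_S4 (hS1 : St_S1) (hS2 : St_S2) : St_S4 := by
  intro m
  have h3 : (0 : ℝ) < ((2 * m).factorial : ℝ) := by exact_mod_cast Nat.factorial_pos _
  refine ⟨2 * Real.exp (1 / 2) * ((2 * m).factorial : ℝ), by positivity, ?_⟩
  intro d hd
  obtain ⟨hp, hn, -⟩ := hS1 d hd
  have hd0 : (0 : ℝ) < d := by exact_mod_cast hd
  have key : ∀ ε : Fin d → Bool,
      ∫ y, (inner ℝ (S4_u d ε) y : ℝ) ^ (2 * m) ∂(sph d) = mu d (2 * m) := by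
    intro ε
    exact hS2 d (fun t => t ^ (2 * m)) (S4_u d ε) hd (by fun_prop) (S4_u_norm d hd ε)
  have hint : ∀ ε : Fin d → Bool,
      Integrable (fun y : E d => (inner ℝ (S4_u d ε) y : ℝ) ^ (2 * m)) (sph d) := by
    intro ε
    refine Integrable.of_bound (C := 1) ?_ ?_
    · exact (Continuous.pow (continuous_const.inner continuous_id) _).aestronglyMeasurable
    · filter_upwards [hn] with y hy
      rw [norm_pow]
      refine pow_le_one₀ (norm_nonneg _) ?_
      have := norm_inner_le_norm (𝕜 := ℝ) (S4_u d ε) y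
      rw [S4_u_norm d hd ε, hy, one_mul] at this
      exact this
  have hsum : ∑ ε : Fin d → Bool, ∫ y, (inner ℝ (S4_u d ε) y : ℝ) ^ (2 * m) ∂(sph d)
      = 2 ^ d * mu d (2 * m) := by
    rw [Finset.sum_congr rfl (fun ε _ => key ε), Finset.sum_const, Finset.card_univ]
    simp
  rw [← integral_finsetSum _ (fun ε _ => hint ε)] at hsum
  have hb : ∫ y, ∑ ε : Fin d → Bool, (inner ℝ (S4_u d ε) y : ℝ) ^ (2 * m) ∂(sph d)
      ≤ ∫ _y : E d, (2 ^ d * (2 * Real.exp (1 / 2) * ((2 * m).factorial : ℝ) / (d : ℝ) ^ m))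
        ∂(sph d) := by
    refine integral_mono_ae (integrable_finsetSum _ (fun ε _ => hint ε))
      (integrable_const _) ?_
    filter_upwards [hn] with y hy
    have hy2 : ∑ i, y i ^ 2 = 1 := by
      have h5 := EuclideanSpace.norm_sq_eq y
      rw [hy] at h5
      simp only [Real.norm_eq_abs, sq_abs, one_pow] at h5
      exact h5.symm
    have h6 := S4_bound d m (fun i => y i) hy2
    have h7 : ∀ ε : Fin d → Bool, (inner ℝ (S4_u d ε) y : ℝ) ^ (2 * m)
        = (∑ i, S4_sg (ε i) * y i) ^ (2 * m) / (d : ℝ) ^ m := by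
      intro ε
      have h8 : ((√(d : ℝ))⁻¹) ^ (2 * m) = ((d : ℝ) ^ m)⁻¹ := by
        rw [pow_mul, inv_pow, Real.sq_sqrt hd0.le, inv_pow]
      rw [S4_u_inner, mul_pow, h8]
      ring
    rw [Finset.sum_congr rfl (fun ε _ => h7 ε), ← Finset.sum_div, ← mul_div_assoc]
    exact div_le_div_of_nonneg_right h6 (by positivity)
  rw [hsum, integral_const] at hb
  simp only [probReal_univ, one_smul] at hb
  exact le_of_mul_le_mul_left hb (by positivity)

end Pool.Agent.XPS
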