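import Pool.Agent.XPS.St

/-!
# XPS, module S5: linearity of the means
-/

set_option autoImplicit false

namespace Pool.Agent.XPS

open Finset MeasureTheory ProbabilityTheory Filter Topology
open Pool.Agent.XPM (ff)
open scoped ENNReal

private noncomputable def S5_L (d : ℕ) (φ : ℝ → ℝ) : ℝ :=
  ∫ x, ∫ y, φ (inner ℝ x y : ℝ) ∂(sph d) ∂(sph d)

private theorem S5_bd {φ : ℝ → ℝ} (hφ : Continuous φ) : ∃ B : ℝ, ∀ t : ℝ, |t| ≤ 1 → ‖φ t‖ ≤ B := by
  obtain ⟨B, hB⟩ := (isCompact_Icc (a := (-1 : ℝ)) (b := 1)).exists_bound_of_continuousOn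
    hφ.continuousOn
  exact ⟨B, fun t ht => hB t (abs_le.1 ht)⟩

private theorem S5_inner {d : ℕ} {x y : E d} (hx : ‖x‖ = 1) (hy : ‖y‖ = 1) :
    |(inner ℝ x y : ℝ)| ≤ 1 := by
  have := abs_real_inner_le_norm x y
  rwa [hx, hy, mul_one] at this

private theorem S5_int1 {d : ℕ} (hp : IsProbabilityMeasure (sph d)) (hu : ∀ᵐ x ∂(sph d), ‖x‖ = 1)
    {φ : ℝ → ℝ} (hφ : Continuous φ) {x : E d} (hx : ‖x‖ = 1) :
    Integrable (fun y => φ (inner ℝ x y : ℝ)) (sph d) := by
  obtain ⟨B, hB⟩ := S5_bd hφ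
  refine Integrable.of_bound (C := B) ?_ ?_
  · exact (hφ.comp (continuous_const.inner continuous_id)).aestronglyMeasurable
  · filter_upwards [hu] with y hy
    exact hB _ (S5_inner hx hy)

private theorem S5_int2 {d : ℕ} (hp : IsProbabilityMeasure (sph d)) (hu : ∀ᵐ x ∂(sph d), ‖x‖ = 1)
    {φ : ℝ → ℝ} (hφ : Continuous φ) :
    Integrable (fun x => ∫ y, φ (inner ℝ x y : ℝ) ∂(sph d)) (sph d) := by
  obtain ⟨B, hB⟩ := S5_bd hφ
  refine Integrable.of_bound (C := B) ?_ ?_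
  · have h1 : Continuous (Function.uncurry fun (x y : E d) => φ (inner ℝ x y : ℝ)) :=
      hφ.comp (continuous_fst.inner continuous_snd)
    exact (StronglyMeasurable.integral_prod_right (ν := sph d) h1.stronglyMeasurable).aestronglyMeasurable
  · filter_upwards [hu] with x hx
    refine (norm_integral_le_of_norm_le_const (C := B) ?_).trans ?_
    · filter_upwards [hu] with y hy
      exact hB _ (S5_inner hx hy)
    · simp

private theorem S5_sub {d : ℕ} (hp : IsProbabilityMeasure (sph d)) (hu : ∀ᵐ x ∂(sph d), ‖x‖ = 1)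
    {φ ψ : ℝ → ℝ} (hφ : Continuous φ) (hψ : Continuous ψ) :
    S5_L d (fun t => φ t - ψ t) = S5_L d φ - S5_L d ψ := by
  unfold S5_L
  rw [← integral_sub (S5_int2 hp hu hφ) (S5_int2 hp hu hψ)]
  refine integral_congr_ae ?_
  filter_upwards [hu] with x hx
  exact integral_sub (S5_int1 hp hu hφ hx) (S5_int1 hp hu hψ hx)

private theorem S5_add {d : ℕ} (hp : IsProbabilityMeasure (sph d)) (hu : ∀ᵐ x ∂(sph d), ‖x‖ = 1)
    {φ ψ : ℝ → ℝ} (hφ : Continuous φ) (hψ : Continuous ψ) :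
    S5_L d (fun t => φ t + ψ t) = S5_L d φ + S5_L d ψ := by
  unfold S5_L
  rw [← integral_add (S5_int2 hp hu hφ) (S5_int2 hp hu hψ)]
  refine integral_congr_ae ?_
  filter_upwards [hu] with x hx
  exact integral_add (S5_int1 hp hu hφ hx) (S5_int1 hp hu hψ hx)

private theorem S5_mul (d : ℕ) (c : ℝ) (φ : ℝ → ℝ) :
    S5_L d (fun t => c * φ t) = c * S5_L d φ := by
  unfold S5_L
  simp only [integral_const_mul]

private theorem S5_const {d : ℕ} (hp : IsProbabilityMeasure (sph d)) (c : ℝ) :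
    S5_L d (fun _ => c) = c := by
  unfold S5_L
  simp

private theorem S5_pow (d j : ℕ) : S5_L d (fun t => t ^ j) = mu d j := rfl

private theorem S5_mono {d : ℕ} (hp : IsProbabilityMeasure (sph d)) (hu : ∀ᵐ x ∂(sph d), ‖x‖ = 1)
    {φ ψ : ℝ → ℝ} (hφ : Continuous φ) (hψ : Continuous ψ)
    (h : ∀ t : ℝ, -1 ≤ t → t ≤ 1 → φ t ≤ ψ t) : S5_L d φ ≤ S5_L d ψ := by
  refine integral_mono_ae (S5_int2 hp hu hφ) (S5_int2 hp hu hψ) ?_
  filter_upwards [hu] with x hx
  refine integral_mono_ae (S5_int1 hp hu hφ hx) (S5_int1 hp hu hψ hx) ?_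
  filter_upwards [hu] with y hy
  have := abs_le.1 (S5_inner hx hy)
  exact h _ this.1 this.2

private theorem S5_sum {d : ℕ} (hp : IsProbabilityMeasure (sph d)) (hu : ∀ᵐ x ∂(sph d), ‖x‖ = 1)
    (s : Finset ℕ) (c : ℕ → ℝ) :
    S5_L d (fun t => ∑ j ∈ s, c j * t ^ j) = ∑ j ∈ s, c j * mu d j := by
  classical
  induction s using Finset.induction_on with
  | empty => simp only [Finset.sum_empty]; exact S5_const hp 0
  | insert a s ha ih =>
    rw [Finset.sum_insert ha]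
    have h1 : (fun t : ℝ => ∑ j ∈ insert a s, c j * t ^ j) =
        fun t => (c a * t ^ a) + ∑ j ∈ s, c j * t ^ j := by
      ext t
      rw [Finset.sum_insert ha]
    rw [h1, S5_add hp hu (by fun_prop) (by fun_prop), ih, S5_mul, S5_pow]

theorem thm_S5 (hBC : St_BC) (hFU : St_FU) (hFL : St_FL) (hS1 : St_S1) (hS3 : St_S3) : St_S5 := by
  intro d n hd hn
  obtain ⟨hp, hu, _⟩ := hS1 d hd
  obtain ⟨hb1, _, _, hr, _, _⟩ := hBC
  have hff : Continuous ff := by
    unfold ff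
    fun_prop
  have hpp : Continuous (pp n) := by
    unfold pp
    fun_prop
  have hqq : Continuous (qq n) := by
    unfold qq
    fun_prop
  have hcq : cq d n = S5_L d (qq n) := rfl
  have hcf : cf d = S5_L d ff := rfl
  have hLpp : S5_L d (pp n) = 1 - ∑ j ∈ Icc 1 n, bc j * mu d j := by
    have h1 : pp n = fun t => (1 : ℝ) - ∑ j ∈ Icc 1 n, bc j * t ^ j := by
      ext t
      rfl
    rw [h1, S5_sub hp hu (φ := fun _ => (1 : ℝ)) continuous_const (by fun_prop), S5_const hp,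
      S5_sum hp hu]
  have hLr : S5_L d (fun t => rr n * t ^ (n + 1)) = rr n * mu d (n + 1) := by
    rw [S5_mul, S5_pow]
  have h1 : cq d n = 1 - (∑ j ∈ Icc 1 n, bc j * mu d j) - rr n * mu d (n + 1) := by
    rw [hcq]
    have h2 : qq n = fun t => pp n t - rr n * t ^ (n + 1) := by
      ext t
      rfl
    rw [h2, S5_sub hp hu hpp (by fun_prop), hLpp, hLr]
  refine ⟨h1, ?_, ?_, ?_⟩
  · rw [hcq, hcf, ← hLr, ← S5_sub hp hu hff (by fun_prop)]
    refine S5_mono hp hu (by fun_prop) hqq ?_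
    intro t ht1 ht2
    have := hFU n t hn ht1 ht2
    have h3 : qq n t = pp n t - rr n * t ^ (n + 1) := rfl
    rw [h3]
    linarith
  · rw [hcq, hcf]
    exact S5_mono hp hu hqq hff fun t ht1 ht2 => hFL n t hn ht1 ht2
  · rw [h1]
    have h4 : 0 ≤ ∑ j ∈ Icc 1 n, bc j * mu d j := by
      refine Finset.sum_nonneg fun j hj => ?_
      exact mul_nonneg (hb1 j (Finset.mem_Icc.1 hj).1).le (hS3 d j hd).2.1
    have h5 : 0 ≤ rr n * mu d (n + 1) := mul_nonneg (hr n).1.le (hS3 d (n + 1) hd).2.1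
    linarith

end Pool.Agent.XPS
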