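import Pool.Agent.XPS.St

/-!
# XPS SF: the surface measure against the law `sph`
-/

set_option autoImplicit false

namespace Pool.Agent.XPS

open Finset MeasureTheory ProbabilityTheory Filter Topology
open Pool.Agent.XPM (ff)
open scoped ENNReal Pointwise

/-- the surface measure on the ambient space -/
private noncomputable def SF_tau (n : ℕ) : Measure (E n) :=
  ((volume : Measure (E n)).toSphere).map Subtype.val

private instance SF_fin (n : ℕ) : IsFiniteMeasure (SF_tau n) := by
  unfold SF_tau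
  infer_instance

private theorem SF_unit (n : ℕ) : ∀ᵐ y ∂(SF_tau n), ‖y‖ = 1 := by
  unfold SF_tau
  rw [ae_map_iff measurable_subtype_coe.aemeasurable (measurableSet_eq_fun measurable_norm
    measurable_const)]
  refine ae_of_all _ fun x => ?_
  have := x.2
  rw [mem_sphere_zero_iff_norm] at this
  exact this

/-- invariance -/
private theorem SF_map (n : ℕ) (T : E n ≃ₗᵢ[ℝ] E n) : (SF_tau n).map T = SF_tau n := by
  ext A hA
  have hTm : Measurable (T : E n → E n) := T.continuous.measurable
  have hA' : MeasurableSet (T ⁻¹' A) := hTm hA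
  unfold SF_tau
  rw [Measure.map_apply hTm hA, Measure.map_apply measurable_subtype_coe hA',
    Measure.map_apply measurable_subtype_coe hA,
    Measure.toSphere_apply' _ (measurable_subtype_coe hA'),
    Measure.toSphere_apply' _ (measurable_subtype_coe hA)]
  congr 1
  have hset : (Set.Ioo (0 : ℝ) 1 • ((Subtype.val : Metric.sphere (0 : E n) 1 → E n) ''
      (Subtype.val ⁻¹' (T ⁻¹' A)))) = T ⁻¹' (Set.Ioo (0 : ℝ) 1 •
      ((Subtype.val : Metric.sphere (0 : E n) 1 → E n) '' (Subtype.val ⁻¹' A))) := by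
    ext z
    simp only [Set.mem_preimage, Set.mem_smul, Set.mem_image, Subtype.exists,
      mem_sphere_zero_iff_norm]
    constructor
    · rintro ⟨r, hr, b, ⟨x, hx, hxA, rfl⟩, rfl⟩
      exact ⟨r, hr, T x, ⟨T x, by rw [T.norm_map]; exact hx, hxA, rfl⟩, (map_smul T r x).symm⟩
    · rintro ⟨r, hr, b, ⟨x, hx, hxA, rfl⟩, hz⟩
      refine ⟨r, hr, T.symm x, ⟨T.symm x, by rw [T.symm.norm_map]; exact hx, ?_, rfl⟩, ?_⟩
      · rw [T.apply_symm_apply]; exact hxA
      · apply T.injective
        rw [map_smul, T.apply_symm_apply]; exact hz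
  rw [hset]
  have hmp : MeasurePreserving (T.toHomeomorph.toMeasurableEquiv : E n → E n) volume volume :=
    T.measurePreserving
  exact hmp.measure_preimage_equiv _

private theorem SF_inv (n : ℕ) (φ : ℝ → ℝ) (u v : E n) (hu : ‖u‖ = 1) (hv : ‖v‖ = 1) :
    ∫ y, φ (inner ℝ v y : ℝ) ∂(SF_tau n) = ∫ y, φ (inner ℝ u y : ℝ) ∂(SF_tau n) := by
  have hT1 : (Submodule.reflection (ℝ ∙ (v - u))ᗮ) v = u :=
    Submodule.reflection_sub (by rw [hu, hv])
  generalize Submodule.reflection (ℝ ∙ (v - u))ᗮ = T at hT1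
  have h2 : ∫ y, φ (inner ℝ u y : ℝ) ∂((SF_tau n).map T) =
      ∫ y, φ (inner ℝ u (T y) : ℝ) ∂(SF_tau n) :=
    integral_map_equiv T.toHomeomorph.toMeasurableEquiv _
  rw [SF_map n T] at h2
  rw [h2]
  congr 1
  funext y
  rw [← hT1, LinearIsometryEquiv.inner_map_map]

private theorem SF_dist {n : ℕ} (x y : E n) (hx : ‖x‖ = 1) (hy : ‖y‖ = 1) :
    dist x y = √2 * ff (inner ℝ x y : ℝ) := by
  unfold ff
  rw [← Real.sqrt_mul (by norm_num), dist_eq_norm]
  have h1 : ‖x - y‖ ^ 2 = 2 * (1 - (inner ℝ x y : ℝ)) := by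
    rw [norm_sub_sq_real, hx, hy]; ring
  rw [← h1, Real.sqrt_sq (norm_nonneg _)]

private theorem SF_cont : Continuous ff := by
  unfold ff
  fun_prop

theorem thm_SF (h1 : St_S1) (h2 : St_S2) : St_SF := by
  intro k
  have hn : 1 ≤ k + 1 := by omega
  obtain ⟨hp, hae, _⟩ := h1 (k + 1) hn
  set e : E (k + 1) := EuclideanSpace.single (0 : Fin (k + 1)) (1 : ℝ) with he
  have hen : ‖e‖ = 1 := by rw [he]; simp
  set G : E (k + 1) → ℝ := fun u => ∫ y, ff (inner ℝ u y : ℝ) ∂(SF_tau (k + 1)) with hG
  have hGu : ∀ u : E (k + 1), ‖u‖ = 1 → G u = G e := fun u hu =>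
    SF_inv (k + 1) ff e u hen hu
  -- the integral over the sphere
  have hI : (∫ x : Metric.sphere (0 : E (k + 1)) 1, dist e (x : E (k + 1))
      ∂((volume : Measure (E (k + 1))).toSphere)) = √2 * G e := by
    have h3 : ∀ x : Metric.sphere (0 : E (k + 1)) 1, dist e (x : E (k + 1)) =
        √2 * ff (inner ℝ e (x : E (k + 1)) : ℝ) := by
      intro x
      have hx := x.2
      rw [mem_sphere_zero_iff_norm] at hx
      exact SF_dist _ _ hen hx
    simp_rw [h3]
    rw [integral_const_mul]
    congr 1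
    show _ = ∫ y, ff (inner ℝ e y : ℝ) ∂(((volume : Measure (E (k + 1))).toSphere).map Subtype.val)
    rw [integral_map measurable_subtype_coe.aemeasurable]
    exact (SF_cont.comp (by fun_prop)).aestronglyMeasurable
  -- Fubini
  have hint : Integrable (Function.uncurry fun (u y : E (k + 1)) => ff (inner ℝ u y : ℝ))
      ((sph (k + 1)).prod (SF_tau (k + 1))) := by
    refine Integrable.of_bound (C := √2) ?_ ?_
    · refine Continuous.aestronglyMeasurable ?_
      show Continuous fun p : E (k + 1) × E (k + 1) => ff (inner ℝ p.1 p.2 : ℝ)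
      exact SF_cont.comp (continuous_fst.inner continuous_snd)
    · have ha : ∀ᵐ p ∂((sph (k + 1)).prod (SF_tau (k + 1))), ‖p.1‖ = 1 :=
        Measure.quasiMeasurePreserving_fst.ae hae
      have hb : ∀ᵐ p ∂((sph (k + 1)).prod (SF_tau (k + 1))), ‖p.2‖ = 1 :=
        Measure.quasiMeasurePreserving_snd.ae (SF_unit (k + 1))
      filter_upwards [ha, hb] with p hp1 hp2
      show ‖ff (inner ℝ p.1 p.2 : ℝ)‖ ≤ √2
      unfold ff
      rw [Real.norm_of_nonneg (Real.sqrt_nonneg _)]
      apply Real.sqrt_le_sqrt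
      have := abs_real_inner_le_norm p.1 p.2
      rw [hp1, hp2, mul_one] at this
      linarith [neg_abs_le (inner ℝ p.1 p.2 : ℝ)]
  have hF : ∫ u, G u ∂(sph (k + 1)) = G e := by
    have h3 : G =ᵐ[sph (k + 1)] fun _ => G e := by
      filter_upwards [hae] with u hu
      exact hGu u hu
    rw [integral_congr_ae h3, integral_const, probReal_univ, one_smul]
  have hS : ∫ u, G u ∂(sph (k + 1)) = (SF_tau (k + 1)).real Set.univ * cf (k + 1) := by
    rw [hG]
    rw [integral_integral_swap hint]
    have h3 : (fun y : E (k + 1) => ∫ u, ff (inner ℝ u y : ℝ) ∂(sph (k + 1))) =ᵐ[SF_tau (k + 1)]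
        fun _ => cf (k + 1) := by
      filter_upwards [SF_unit (k + 1)] with y hy
      have h4 := h2 (k + 1) ff y hn SF_cont hy
      unfold cf
      rw [← h4]
      congr 1
      funext u
      rw [real_inner_comm]
    rw [integral_congr_ae h3, integral_const, smul_eq_mul]
  have hu : (SF_tau (k + 1)).real Set.univ =
      ((volume : Measure (E (k + 1))).toSphere).real Set.univ := by
    unfold SF_tau
    rw [map_measureReal_apply measurable_subtype_coe MeasurableSet.univ, Set.preimage_univ]
  have hpos : ((volume : Measure (E (k + 1))).toSphere).real Set.univ ≠ 0 := by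
    have : Nontrivial (E (k + 1)) := ⟨⟨e, 0, by
      intro h0
      rw [h0, norm_zero] at hen
      exact zero_ne_one hen⟩⟩
    have h0 := (volume : Measure (E (k + 1))).toSphere_ne_zero
    rw [Measure.real, ENNReal.toReal_ne_zero]
    exact ⟨by rwa [Ne, Measure.measure_univ_eq_zero], measure_ne_top _ _⟩
  rw [hI, ← hF, hS, hu]
  have hs : √2 * √2 = (2 : ℝ) := Real.mul_self_sqrt (by norm_num)
  have hs0 : √2 ≠ (0 : ℝ) := by positivity
  rw [div_eq_div_iff (by positivity) hs0]
  linear_combination ((volume : Measure (E (k + 1))).toSphere.real Set.univ * cf (k + 1)) * hs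

end Pool.Agent.XPS
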