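import Mathlib
import Pool.Agent.XPM.St

set_option autoImplicit false

/-!
MP_b22a07_co, THEOREM S: for every `s ≥ 1` the maximal sum of distances of `N` points of `S^k` is
`c_0(k) N^2 - κ_s N + o(N)`, `κ_s = centralBinom (2s+1) / (4^(2s+1) √2)`, when `k^s ≪ N ≪ k^(s+1)`.
Every statement below has its proof in the docstring.
-/

namespace Pool.Agent.XPS

open Finset MeasureTheory ProbabilityTheory Filter Topology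
open Pool.Agent.XPM (ff)
open scoped ENNReal

/-- `ℝ^d`. -/
abbrev E (d : ℕ) : Type := EuclideanSpace ℝ (Fin d)

/-! ## A. Functions -/

/-- `√(1-t) = 1 - ∑_{j ≥ 1} bc j t^j`. -/
noncomputable def bc (j : ℕ) : ℝ := (Nat.centralBinom j : ℝ) / (4 ^ j * (2 * (j : ℝ) - 1))

/-- `rr n = 1 - ∑_{1 ≤ j ≤ n} bc j`. -/
noncomputable def rr (n : ℕ) : ℝ := (Nat.centralBinom n : ℝ) / 4 ^ n

/-- Taylor polynomial of degree `n` of `√(1-t)`. -/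
noncomputable def pp (n : ℕ) (t : ℝ) : ℝ := 1 - ∑ j ∈ Icc 1 n, bc j * t ^ j

/-- The lower polynomial, `qq n 1 = 0`. -/
noncomputable def qq (n : ℕ) (t : ℝ) : ℝ := pp n t - rr n * t ^ (n + 1)

/-- **BC.** `(j+1) centralBinom (j+1) = 2 (2j+1) centralBinom j` (`Nat.succ_mul_centralBinom_succ`), so
`bc (j+1) (2j+2) = centralBinom j / 4^j = bc j (2j-1)` and `rr (n+1) = rr n (2n+1)/(2n+2)`, `rr n - rr (n+1)
= rr n/(2n+2) = bc (n+1)`; induction gives the sum. `rr 0 = 1`, `rr` is decreasing and positive. -/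
def St_BC : Prop := (∀ j : ℕ, 1 ≤ j → 0 < bc j) ∧ bc 1 = 1 / 2 ∧
  (∀ j : ℕ, 1 ≤ j → bc (j + 1) * (2 * (j : ℝ) + 2) = bc j * (2 * (j : ℝ) - 1)) ∧
  (∀ n : ℕ, 0 < rr n ∧ rr n ≤ 1) ∧ (∀ n : ℕ, 1 - ∑ j ∈ Icc 1 n, bc j = rr n) ∧
  (∀ n : ℕ, 1 ≤ n → rr n = (2 * (n : ℝ) - 1) * bc n)

/-- **FU** (uses BC). Put `h = pp n t - √(1-t)`, `h 0 = 0`. For `t < 1`:
`(1-t) h' + h/2 = 1/2 - ∑_{j≤n} j bc j t^(j-1) + ∑_{j≤n} (j-1/2) bc j t^j = (n-1/2) bc n t^n` (telescoping by the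
recurrence `(j+1) bc (j+1) = (j-1/2) bc j`, `bc 1 = 1/2`). Hence `(h/√(1-t))' = (n-1/2) bc n t^n/(1-t)^(3/2)`,
which for odd `n` has the sign of `t`: `h/√(1-t)` is antitone on `[-1,0]`, monotone on `[0,1)`, so
`h ≥ 0` on `[-1,1)`. At `t = 1`: `h = rr n > 0`. -/
def St_FU : Prop := ∀ (n : ℕ) (t : ℝ), Odd n → -1 ≤ t → t ≤ 1 → ff t ≤ pp n t

/-- **FL** (uses BC). Put `k = √(1-t) - qq n t = rr n t^(n+1) - h` (`h` as in FU), `k 0 = 0`. For `t < 1`: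
`(1-t) k' + k/2 = rr n ((n+1) t^n (1-t) + t^(n+1)/2) - (n-1/2) bc n t^n = rr n (n+1/2) t^n (1-t)` because
`(n-1/2) bc n = rr n/2`. Hence `(k/√(1-t))' = rr n (n+1/2) t^n/√(1-t)`, sign of `t` for odd `n`. At `t = 1`:
`k = 0` (`pp n 1 = rr n`). -/
def St_FL : Prop := ∀ (n : ℕ) (t : ℝ), Odd n → -1 ≤ t → t ≤ 1 → qq n t ≤ ff t

/-! ## B. The sphere -/

/-- Radial projection. -/
noncomputable def nrm {d : ℕ} (x : E d) : E d := ‖x‖⁻¹ • x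

/-- The uniform distribution on the unit sphere of `ℝ^d` (law of `g/|g|`). -/
noncomputable def sph (d : ℕ) : Measure (E d) := (stdGaussian (E d)).map nrm

/-- Moments. -/
noncomputable def mu (d j : ℕ) : ℝ := ∫ x, ∫ y, (inner ℝ x y : ℝ) ^ j ∂(sph d) ∂(sph d)

/-- `√2 c_0(d-1)`. -/
noncomputable def cf (d : ℕ) : ℝ := ∫ x, ∫ y, ff (inner ℝ x y : ℝ) ∂(sph d) ∂(sph d)

/-- Mean of `qq`. -/
noncomputable def cq (d n : ℕ) : ℝ := ∫ x, ∫ y, qq n (inner ℝ x y : ℝ) ∂(sph d) ∂(sph d)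

/-- **S1.** `stdGaussian` is a probability measure without atom at `0` for `d ≥ 1` (a coordinate is
`gaussianReal 0 1`, which has no atoms; or `map_pi_eq_stdGaussian`), and `‖nrm x‖ = 1` for `x ≠ 0`.
Invariance: `stdGaussian_map` and `nrm (T x) = T (nrm x)`. -/
def St_S1 : Prop := ∀ d : ℕ, 1 ≤ d → IsProbabilityMeasure (sph d) ∧ (∀ᵐ x ∂(sph d), ‖x‖ = 1) ∧
  ∀ T : E d ≃ₗᵢ[ℝ] E d, (sph d).map T = sph d

/-- **S2** (uses S1). For unit vectors `u`, `v` there is a linear isometry `T` with `T u = v` (a reflection,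
`reflection_sub`), so `∫ φ⟨v,y⟩ = ∫ φ⟨T u, T y⟩ = ∫ φ⟨u,y⟩` by invariance. Integrate over `v`
(probability measure, a.e. unit). -/
def St_S2 : Prop := ∀ (d : ℕ) (φ : ℝ → ℝ) (u : E d), 1 ≤ d → Continuous φ → ‖u‖ = 1 →
  ∫ y, φ (inner ℝ u y : ℝ) ∂(sph d) = ∫ x, ∫ y, φ (inner ℝ x y : ℝ) ∂(sph d) ∂(sph d)

/-- **S3** (uses S1). `⟨x,y⟩^j = ∑_{J : Fin j → Fin d} x_J y_J`, `x_J = ∏_l x_{J l}` (`Finset.sum_pow'` or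
`Finset.prod_univ_sum`), integrate (all functions are bounded a.e.). -/
def St_S3 : Prop := ∀ d j : ℕ, 1 ≤ d →
  mu d j = ∑ J : Fin j → Fin d, (∫ x, ∏ l, x (J l) ∂(sph d)) ^ 2 ∧ 0 ≤ mu d j ∧ mu d j ≤ 1

/-- **S4** (uses S1, S2). `C = 2 (2m)!`. For every sign vector `ε`, `u = ε/√d` is a unit vector, so by S2
`mu d (2m) = d^(-m) ∫ (∑ ε_i y_i)^(2m) dsph`. Average over `ε`: `t^(2m)/(2m)! ≤ cosh t ≤ exp t + exp (-t)`..., more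
precisely `t^(2m)/(2m)! ≤ cosh t` and `2^(-d) ∑_ε cosh (∑ ε_i y_i) = 2^(-d) ∑_ε exp (∑ ε_i y_i) = ∏ cosh y_i
≤ ∏ exp (y_i^2/2) = exp (1/2) ≤ 2` (`Real.cosh_le_exp_half_sq`). -/
def St_S4 : Prop := ∀ m : ℕ, ∃ C : ℝ, 0 < C ∧ ∀ d : ℕ, 1 ≤ d → mu d (2 * m) ≤ C / (d : ℝ) ^ m

/-- **S5** (uses BC, FU, FL, S1, S3). Linearity of the integral (all functions are continuous, bounded on the
a.e. unit vectors) gives the first formula. FU: `ff t - rr n t^(n+1) ≤ qq n t` on `[-1,1]`; FL: `pp n t ≤ ff t + rr n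
t^(n+1)`. `cq ≤ 1` because `bc`, `rr`, `mu` are nonnegative. -/
def St_S5 : Prop := ∀ d n : ℕ, 1 ≤ d → Odd n →
  cq d n = 1 - (∑ j ∈ Icc 1 n, bc j * mu d j) - rr n * mu d (n + 1) ∧
  cf d - rr n * mu d (n + 1) ≤ cq d n ∧ cq d n ≤ cf d ∧ cq d n ≤ 1

/-- **UM** (uses S2, S3). `∑_ab ⟨x_a,x_b⟩^j = ∑_J S_J^2` with `S_J = ∑_a x_{a,J}` and `mu d j = ∑_J Q_J^2` with
`Q_J = ∫ x_J dsph` (S3). By S2 `∑_J S_J Q_J = ∑_a ∫ ⟨x_a,y⟩^j dsph(y) = N mu d j`. So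
`0 ≤ ∑_J (S_J - N Q_J)^2 = ∑_J S_J^2 - N^2 mu d j`. -/
def St_UM : Prop := ∀ (d N j : ℕ) (x : Fin N → E d), 1 ≤ d → (∀ i, ‖x i‖ = 1) →
  (N : ℝ) ^ 2 * mu d j ≤ ∑ a, ∑ b, (inner ℝ (x a) (x b) : ℝ) ^ j

/-- **UB** (uses BC, FU, S4, S5, UM). `n = 2s+1`. As `ff 1 = 0` and `pp n 1 = rr n`:
`∑_ab ff ≤ ∑_ab pp n - rr n N`, and `∑_ab pp n = N^2 - ∑_j bc j ∑_ab t^j ≤ N^2 (1 - ∑_j bc j mu d j)
= N^2 (cq d n + rr n mu d (n+1)) ≤ N^2 cf d + N^2 mu d (2s+2)` (UM, S5). `mu d (2s+2) ≤ C'/d^(s+1)`, so with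
`C = C'/ε` the last term is `≤ C' N (N/d^(s+1)) ≤ ε N`. -/
def St_UB : Prop := ∀ (s : ℕ) (ε : ℝ), 0 < ε → ∃ C : ℝ, 0 < C ∧ ∀ (d N : ℕ) (x : Fin N → E d),
  1 ≤ d → C * N ≤ (d : ℝ) ^ (s + 1) → (∀ i, ‖x i‖ = 1) →
  ∑ a, ∑ b, ff (inner ℝ (x a) (x b) : ℝ) ≤ (N : ℝ) ^ 2 * cf d - (rr (2 * s + 1) - ε) * N

/-- **SF** (uses S1, S2). The surface measure `surf = volume.toSphere` is invariant under linear isometries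
`T` (`Measure.toSphere_apply'`: it is `dim * volume (Ioo 0 1 • A)`, and `T` preserves the volume,
`LinearIsometryEquiv.measurePreserving`). So (reflections, as in S2) `x ↦ ∫ ‖x-y‖ dsurf(y)` is a constant `a` on the
unit sphere. Integrate over `x` with respect to `sph` and use Fubini and S2 (`‖x-y‖ = √2 ff ⟨x,y⟩`,
so `∫ ‖x-y‖ dsph(x) = √2 cf`): `a = √2 cf (k+1) surf(univ)`. -/
def St_SF : Prop := ∀ k : ℕ,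
  (∫ x : Metric.sphere (0 : E (k + 1)) 1, dist (EuclideanSpace.single (0 : Fin (k + 1)) (1 : ℝ)) (x : E (k + 1))
      ∂((volume : Measure (E (k + 1))).toSphere))
    / (2 * ((volume : Measure (E (k + 1))).toSphere).real Set.univ) = cf (k + 1) / √2

/-! ## C. Codes -/

/-- Value of a sign. -/
def sv (e : ℤˣ) : ℝ := ((e : ℤ) : ℝ)

/-- Characters of the cube. -/
def chi {I : Type} (A : Finset I) (η : I → ℤˣ) : ℝ := ∏ i ∈ A, sv (η i)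

/-- Nontrivial additive character with values `±1`. -/
def IsCh {F : Type} [Add F] (ψ : F → ℤˣ) : Prop := (∀ x y, ψ (x + y) = ψ x * ψ y) ∧ ∃ x, ψ x ≠ 1

/-- The odd power vector `(x, x^3, ..., x^(2n-1))`. -/
def hv {F : Type} [Field F] (n : ℕ) (x : F) : Fin n → F := fun j => x ^ (2 * (j : ℕ) + 1)

/-- **C0.** A field `F` of characteristic 2 is a nonzero vector space over `ZMod 2` (`ZMod.algebra F 2`); take a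
nonzero linear functional `f` (for example a coordinate of a basis, or the trace) and `ψ x = 1` if `f x = 0`, `-1` else. -/
def St_C0 : Prop := ∀ (F : Type) [Field F] [Fintype F] [CharP F 2], ∃ ψ : F → ℤˣ, IsCh ψ

/-- **CO.** Orthogonality. `v = 0`: `ψ 0 = 1` (as `ψ 0 = ψ 0 ^ 2`). If `v_l ≠ 0`: replace `a` by `a + c e_l` with
`ψ (c v_l) = -1`: the sum `S` satisfies `S = -S`. -/
def St_CO : Prop := ∀ (F : Type) [Field F] [Fintype F] [DecidableEq F] (ψ : F → ℤˣ) (n : ℕ) (v : Fin n → F),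
  IsCh ψ → ∑ a : Fin n → F, sv (ψ (∑ j, a j * v j)) = if v = 0 then (Fintype.card F : ℝ) ^ n else 0

/-- **CM** (uses CO). Expand the power as a sum over `x : Fin m → F` with values in `U`; the product of signs is
`ψ (∑_j a_j (v_j + ∑_i hv n (x i) j))`; sum over `a` by CO; in characteristic 2, `v + w = 0` iff `w = v`. -/
def St_CM : Prop := ∀ (F : Type) [Field F] [Fintype F] [DecidableEq F] [CharP F 2] (ψ : F → ℤˣ)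
  (U : Finset F) (n m : ℕ) (v : Fin n → F), IsCh ψ →
  ∑ a : Fin n → F, sv (ψ (∑ j, a j * v j)) * (∑ x ∈ U, sv (ψ (∑ j, a j * hv n x j))) ^ m
    = (Fintype.card F : ℝ) ^ n
      * ((univ : Finset (Fin m → F)).filter (fun x => (∀ i, x i ∈ U) ∧ ∑ i, hv n (x i) = v)).card

/-- **C1.** (BCH) All power sums `p_k = ∑_{x ∈ A} x^k`, `1 ≤ k ≤ 2n`, vanish: the odd ones by hypothesis, and
`p_{2k} = p_k^2` in characteristic 2. If `x0 ∈ A`, let `P = X ∏_{y ∈ A, y ≠ x0} (X - y)`: degree `|A| ≤ 2n`, zero constant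
coefficient, so `∑_{x ∈ A} P(x) = ∑_k coeff_k p_k = 0`, but the sum is `P(x0) ≠ 0`. -/
def St_C1 : Prop := ∀ (F : Type) [Field F] [DecidableEq F] [CharP F 2] (n : ℕ) (A : Finset F),
  A.card ≤ 2 * n → (0 : F) ∉ A → ∑ x ∈ A, hv n x = 0 → A = ∅

/-- **C2** (uses C1). Let `x : Fin (2n) → F` with `∑_i hv n (x i) = 0`. The set `A` of the `y ≠ 0` which occur an odd
number of times among the `x i` has at most `2n` elements and `∑_{y∈A} hv n y = ∑_i hv n (x i) = 0` (characteristic 2), so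
`A = ∅`: all nonzero values, hence (the length is even) also the value `0`, occur an even number of times,
so at least twice, and `x` has at most `n` different values. Such an `x` is `g ∘ f` with
`g : Fin n → F`, `f : Fin (2n) → Fin n`: at most `q^n n^(2n)` of them. (`n = 0`: one function, `1 ≤ 1`.) -/
def St_C2 : Prop := ∀ (F : Type) [Field F] [Fintype F] [DecidableEq F] [CharP F 2] (n : ℕ),
  ((univ : Finset (Fin (2 * n) → F)).filter (fun x => ∑ i, hv n (x i) = 0)).card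
    ≤ n ^ (2 * n) * Fintype.card F ^ n

/-- Weil type sums. -/
def SS {F : Type} [Field F] [Fintype F] (ψ : F → ℤˣ) (n : ℕ) (a : Fin n → F) : ℝ :=
  ∑ x : F, sv (ψ (∑ j, a j * hv n x j))

/-- **C3** (uses CM, C2). Let `a ≠ 0`, `a_l ≠ 0`. For `c ≠ 0` let `a^c_j = a_j c^(2j+1)`; `SS a^c = SS a` (replace `x` by
`c x`). The map `c ↦ a^c` takes every value at most `2l+1 ≤ 2n-1` times (roots of `X^(2l+1) - t`). So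
`(q-1) (SS a)^(2n) = ∑_{c≠0} (SS a^c)^(2n) ≤ (2n-1) ∑_b (SS b)^(2n) = (2n-1) q^n #{x : ∑ hv = 0}
≤ (2n-1) n^(2n) q^(2n)` (CM with `U = univ`, `v = 0`, `m = 2n`; C2). -/
def St_C3 : Prop := ∀ (F : Type) [Field F] [Fintype F] [DecidableEq F] [CharP F 2] (ψ : F → ℤˣ) (n : ℕ)
  (a : Fin n → F), IsCh ψ → 1 ≤ n → a ≠ 0 →
  ((Fintype.card F : ℝ) - 1) * SS ψ n a ^ (2 * n)
    ≤ (2 * (n : ℝ) - 1) * (n : ℝ) ^ (2 * n) * (Fintype.card F : ℝ) ^ (2 * n)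

/-- **C4** (uses C3). `q0` with `(2n-1) n^(2n) / (q0 - 1) ≤ δ^(2n)`: then `(SS a)^(2n) ≤ (δ q)^(2n)`. -/
def St_C4 : Prop := ∀ (n : ℕ) (δ : ℝ), 1 ≤ n → 0 < δ → ∃ q0 : ℕ, ∀ (F : Type) [Field F] [Fintype F]
  [DecidableEq F] [CharP F 2] (ψ : F → ℤˣ) (a : Fin n → F), q0 ≤ Fintype.card F → IsCh ψ → a ≠ 0 →
  |SS ψ n a| ≤ δ * Fintype.card F

/-- **C5** (uses C0, CM, C2, C4). With `U = univ`, `m = 2n+2` in CM: `q^n #{x : ∑ hv = v} = ∑_a ψ(a·v) (SS a)^(2n+2)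
≤ q^(2n+2) + max_{a≠0} (SS a)^2 ∑_a (SS a)^(2n) ≤ q^(2n+2) + (δ' q)^2 q^n n^(2n) q^n`; take `δ'^2 n^(2n) ≤ δ`. -/
def St_C5 : Prop := ∀ (n : ℕ) (δ : ℝ), 1 ≤ n → 0 < δ → ∃ q0 : ℕ, ∀ (F : Type) [Field F] [Fintype F]
  [DecidableEq F] [CharP F 2] (v : Fin n → F), q0 ≤ Fintype.card F →
  (((univ : Finset (Fin (2 * n + 2) → F)).filter (fun x => ∑ i, hv n (x i) = v)).card : ℝ)
    ≤ (1 + δ) * (Fintype.card F : ℝ) ^ (n + 2)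

/-- **C6.** Choose `B ⊆ A`, `|B| = b`. An embedding `z` with zero sum is determined by its restriction to the complement
of `B` (an embedding, `(X)_(D-b)` of them, `X = |F|`, `D = |I|`, falling factorials) and its restriction to `B`,
a function `B → F` with a prescribed value of `∑_B h`: at most `T` of them. So the number is at most
`T (X)_(D-b)`, and `(X)_D = (X)_(D-b) ∏_{D-b ≤ i < D} (X - i) ≥ (X)_(D-b) (X-D)^b`. (`Fintype.card_embedding_eq`,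
`Nat.descFactorial`.) -/
def St_C6 : Prop := ∀ (F V I : Type) [Fintype F] [DecidableEq F] [AddCommGroup V] [DecidableEq V] [Fintype I]
  [DecidableEq I] (h : F → V) (b T : ℕ) (A : Finset I), b ≤ A.card → Fintype.card I ≤ Fintype.card F →
  (∀ v : V, ((univ : Finset (Fin b → F)).filter (fun x => ∑ i, h (x i) = v)).card ≤ T) →
  ((univ : Finset (I ↪ F)).filter (fun z => ∑ i ∈ A, h (z i) = 0)).card
      * (Fintype.card F - Fintype.card I) ^ b ≤ T * Fintype.card (I ↪ F)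

/-- **C7** (uses C0, CO, C1, C5, C6). `F = GaloisField 2 m`, `q = 2^m` (`m ≥ 1` as `2^m ≥ L ≥ 2`), `Z = I ↪ Fˣ` (nonempty: `|I| ≤ q/L
≤ q - 1`), `f z a i = ψ (∑_j a_j hv s (z i) j)`, `a ∈ F^s ≃ Fin (q^s)`. `χ_A (f z a) = ψ (∑_j a_j (∑_{i∈A} hv s (z i)) j)`, so (CO)
`∑_a χ_A (f z a) = q^s` if `∑_{i∈A} hv s (z i) = 0`, else `0`. If `1 ≤ |A| ≤ 2s` the sum is not `0` by C1 (the `z i` are
different and nonzero). If `|A| ≥ 2s+2`: C6 with `b = 2s+2`, `T = ⌊(1+δ1) q^(s+2)⌋` (C5; the functions with values in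
`Fˣ` are some of those with values in `F`), `X = q-1`, `D = |I|`, `X - D ≥ q (1 - 2/L)` (as `D ≤ q/L`, `1 ≤ q/L`):
`#{z : sum 0} ≤ (1+δ1) q^(s+2) |Z| / (q (1-2/L))^(2s+2)`, and `∑_z (∑_a χ_A)^2 = q^(2s) #{z : sum 0}
≤ (1+δ1) (1-2/L)^(-(2s+2)) q^s |Z| ≤ (1+δ) q^s |Z|` for `δ1` small, `L` large, `L ≥ q0`, `L ≥ 4`. -/
def St_C7 : Prop := ∀ (s : ℕ) (δ : ℝ), 1 ≤ s → 0 < δ → ∃ L : ℕ, 2 ≤ L ∧
  ∀ (m : ℕ) (I : Type) [Fintype I] [DecidableEq I] [Nonempty I], L * Fintype.card I ≤ 2 ^ m →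
  ∃ (Z : Type) (_ : Fintype Z) (_ : Nonempty Z) (f : Z → Fin ((2 ^ m) ^ s) → I → ℤˣ), ∀ A : Finset I,
    (A.Nonempty → A.card ≤ 2 * s → ∀ z, ∑ a, chi A (f z a) = 0) ∧
    (2 * s + 2 ≤ A.card → ∑ z, (∑ a, chi A (f z a)) ^ 2
      ≤ (1 + δ) * (((2 ^ m) ^ s : ℕ) : ℝ) * Fintype.card Z)

/-- **C8** (uses C0, CM, C2, C4). `F = GaloisField 2 m`, `m` large, `q = 2^m`, `ψ` from C0, `S1 = S + 1`,
`U0 = {u ≠ 0 : ψ (u^(2S+1)) = 1}`, `U1 = {u : ψ (u^(2S+1)) = -1}` (so `0 ∉ U1`). Put `V_b(γ) = ∑_{u ∈ U_b} ψ (∑_j γ_j hv S u j)`,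
`γ ∈ F^S`. As `1_{U0}(u) = (1 + ψ(u^(2S+1)))/2 - 1_{u=0}`, `1_{U1} = (1 - ψ(u^(2S+1)))/2`:
`V_0 = (SS(γ,0) + SS(γ,1))/2 - 1`, `V_1 = (SS(γ,0) - SS(γ,1))/2`, `SS` for `n = S+1` with `(γ,e) = Fin.snoc γ e`
(`hv (S+1) u` has last coordinate `u^(2S+1)`). By C4 with `δ1`, for `q ≥ q0`, `q ≥ 8/δ1`, `δ1 ≤ 1/4`:
`|V_b(γ)| ≤ δ1 q + 1 ≤ 2 δ1 q` for `γ ≠ 0` (both vectors `(γ,0)`, `(γ,1)` are nonzero), and
`|U_b| = V_b(0) ≥ q/2 - δ1 q/2 - 1 ≥ q/4` (`SS(0,0) = q`). The count: expanding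
`(V_0(γ) V_1(γ))^(S+1)` and by CO/CM-type orthogonality
`q^S #{w : ...} = ∑_γ ψ(γ·v) (V_0 V_1)^(S+1) ≤ (|U0||U1|)^(S+1) + ∑_{γ≠0} (V_0^(2S+2) + V_1^(2S+2))/2`, and
`∑_{γ≠0} V_b^(2S+2) ≤ (2 δ1 q)^2 ∑_γ V_b^(2S) ≤ 4 δ1^2 q^2 q^S S^(2S) q^S` (CM with `U = U_b`, `v = 0`, `m = 2S`, and C2).
So it suffices that `4 δ1^2 S^(2S) q^(2S+2) ≤ δ (q^2/16)^(S+1)`. -/
def St_C8 : Prop := ∀ (S : ℕ) (δ : ℝ), 1 ≤ S → 0 < δ → ∃ (F : Type) (_ : Field F) (_ : Fintype F)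
  (_ : DecidableEq F) (_ : CharP F 2) (U0 U1 : Finset F), U0.Nonempty ∧ U1.Nonempty ∧ Disjoint U0 U1 ∧
  (0 : F) ∉ U0 ∧ (0 : F) ∉ U1 ∧ ∀ v : Fin S → F,
  (Fintype.card F : ℝ) ^ S * ((univ : Finset (Fin (S + 1) → U0 × U1)).filter
      (fun w => ∑ i, (hv S ((w i).1 : F) + hv S ((w i).2 : F)) = v)).card
    ≤ (1 + δ) * ((U0.card : ℝ) * U1.card) ^ (S + 1)

/-- **C9** (uses C0, CO, C1, C8). `S = 2s+1`, `F`, `U0`, `U1` from C8, `W = U0 × U1`, `c(u,u') = hv S u + hv S u'`, `Z = I → W`,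
`G = q^S`, `f z γ i = ψ (∑_j γ_j c(z i)_j)`, `γ ∈ F^S ≃ Fin (q^S)`. `∑_γ χ_A (f z γ) = G` if `∑_{i∈A} c(z i) = 0`, else `0` (CO).
If `|A| = 2s+1 = S`: suppose `∑_{i∈A} c(z i) = 0`. The set of the elements which occur an odd number of times among the
`2S` elements `(z i).1`, `(z i).2`, `i ∈ A`, has at most `2S` elements, does not contain `0`, and its `hv S`-sum is `0`
(characteristic 2), so it is empty by C1; the elements of `U0` occur only among the `(z i).1`, so each of them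
occurs there an even number of times and `|A|` is even, a contradiction. If `|A| ≥ 2s+2`: choose `B ⊆ A` with
`|B| = S+1`; for fixed values outside `B` there are at most `(1+δ)|W|^(S+1)/G` choices of `z|B` with zero sum, so
`#{z : sum 0} ≤ (1+δ) |Z|/G` and `∑_z (∑_γ χ_A)^2 = G^2 #{..} ≤ (1+δ) G |Z|`. -/
def St_C9 : Prop := ∀ (s : ℕ) (δ : ℝ), 0 < δ → ∃ G : ℕ, 1 ≤ G ∧
  ∀ (I : Type) [Fintype I] [DecidableEq I],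
  ∃ (Z : Type) (_ : Fintype Z) (_ : Nonempty Z) (f : Z → Fin G → I → ℤˣ), ∀ A : Finset I,
    (A.card = 2 * s + 1 → ∀ z, ∑ a, chi A (f z a) = 0) ∧
    (2 * s + 2 ≤ A.card → ∑ z, (∑ a, chi A (f z a)) ^ 2 ≤ (1 + δ) * G * Fintype.card Z)

/-- **CD** (uses C7, C9). `δ'` with `(1+δ')^2 ≤ 1+δ`; `L`, `G` from C7, C9; `I = Fin d × Fin K`; `m` with `L d K ≤ 2^m ≤ 2 L d K`;
`N0 = (2^m)^s G ≤ (2 L K d)^s G = C d^s`. Product family: `Z × Z'`, index `Fin (M * G) ≃ Fin M × Fin G`, signs multiplied;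
`∑_{(a,b)} χ_A(f a * g b) = (∑_a χ_A (f a)) (∑_b χ_A (g b))`. `1 ≤ |A| ≤ 2s`: the first factor is `0`; `|A| = 2s+1`: the
second; `|A| ≥ 2s+2`: the sum over `Z × Z'` of the product of the squares is the product of the sums. -/
def St_CD : Prop := ∀ (s K : ℕ) (δ : ℝ), 1 ≤ s → 1 ≤ K → 0 < δ → ∃ C : ℝ, 0 < C ∧ ∀ d : ℕ, 1 ≤ d →
  ∃ N0 : ℕ, 1 ≤ N0 ∧ (N0 : ℝ) ≤ C * (d : ℝ) ^ s ∧
  ∃ (Z : Type) (_ : Fintype Z) (_ : Nonempty Z) (f : Z → Fin N0 → (Fin d × Fin K) → ℤˣ),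
  ∀ A : Finset (Fin d × Fin K), A.Nonempty →
    (A.card ≤ 2 * s + 1 → ∑ z, (∑ a, chi A (f z a)) ^ 2 = 0) ∧
    ∑ z, (∑ a, chi A (f z a)) ^ 2 ≤ (1 + δ) * N0 * Fintype.card Z

/-! ## D. Kernels -/

/-- Normalised sum of signs. -/
noncomputable def BB {K : ℕ} (e : Fin K → ℤˣ) : ℝ := (∑ k, sv (e k)) / √K

/-- Approximate coupling of `K` signs and a Gaussian variable. -/
def Coup (K : ℕ) (κ : (Fin K → ℤˣ) → Measure ℝ) (τ : ℝ) : Prop :=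
  (∀ e, IsProbabilityMeasure (κ e)) ∧ (∑ e, κ e = (2 : ℝ≥0∞) ^ K • gaussianReal 0 1) ∧
  ∑ e, ∫⁻ g, ENNReal.ofReal ((BB e - g) ^ 2) ∂(κ e) ≤ ENNReal.ofReal (2 ^ K * τ)

/-- **D1.** Central limit theorem for signs: `ProbabilityTheory.tendstoInDistribution_inv_sqrt_mul_sum`, or the characteristic
functions `cos(t/√K)^K → exp(-t^2/2)` (`tendsto_charFun_inv_sqrt_mul_pow`, `ProbabilityMeasure.tendsto_iff_tendsto_charFun`),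
and the portmanteau theorem (the boundary `{a}` of `Iic a` is a null set of the Gaussian). -/
def St_D1 : Prop := ∀ a : ℝ, Tendsto
  (fun K : ℕ => (((univ : Finset (Fin K → ℤˣ)).filter (fun e => BB e ≤ a)).card : ℝ) / 2 ^ K) atTop
  (𝓝 ((gaussianReal 0 1).real (Set.Iic a)))

/-- **D2.** Moments. `∑_e (∑ e_k)^2 = K 2^K`, `∑_e (∑ e_k)^4 ≤ 3 K^2 2^K` (induction, or `Pool.Agent.XPM.thm_SG` in
`Pool/Agent/XPM/SG.lean` after the bijection Bool - signs). `∫ g^4 = 3` and `g^2 ≤ g^4/R^2` for `|g| ≥ R`. -/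
def St_D2 : Prop := (∀ K : ℕ, 1 ≤ K → ∑ e : Fin K → ℤˣ, BB e ^ 2 = 2 ^ K) ∧
  (∀ K : ℕ, 1 ≤ K → ∑ e : Fin K → ℤˣ, BB e ^ 4 ≤ 3 * 2 ^ K) ∧
  (∀ R : ℝ, 0 < R → ∫⁻ g in {g : ℝ | R ≤ |g|}, ENNReal.ofReal (g ^ 2) ∂(gaussianReal 0 1)
    ≤ ENNReal.ofReal (3 / R ^ 2))

/-- **D3** (uses D2). `γ = gaussianReal 0 1`, `J_i = cell⁻¹ i`, `q_i = γ(J_i)`, `γ_i = γ[·|J_i]` (`ProbabilityTheory.cond`),
`p_i = 2^(-K) #{e : BB e ∈ J_i}`, `κ e = α γ_{i(e)} + ∑_i (q_i - α p_i) γ_i`, `i(e) = cell (BB e)` (the total mass is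
`α + 1 - α = 1` because `∑ q_i = ∑ p_i = 1`). `∑_e κ e = 2^K (α ∑ p_i γ_i + ∑ (q_i - α p_i) γ_i) = 2^K ∑ q_i γ_i = 2^K γ`.
Error, divided by `2^K`. First part `α avg_e ∫ (BB e - g)^2 dγ_{i(e)}`: the `e` with an inner cell contribute at most `w^2`;
the others at most `avg_e 1_{|BB e| ≥ R} 2 (BB e)^2 + 2 ∑_{i not inner} α p_i ∫ g^2 dγ_i ≤ 6/R^2 + 2 ∑_{i not inner} q_i ∫ g^2 dγ_i
≤ 6/R^2 + 6/R^2` (D2; `B^2 ≤ B^4/R^2`; `q_i γ_i = γ` on `J_i`). Second part: `avg_e ∑_i (q_i - α p_i) ∫ (BB e - g)^2 dγ_i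
≤ 2 (1-α) + 2 ∑_i (q_i - α p_i) ∫ g^2 dγ_i ≤ 2(1-α) + 2 R^2 (1-α) + 6/R^2` (inner cells: `g^2 ≤ R^2`; the others: `≤ 2 ∑ q_i ∫ g^2 dγ_i
≤ 6/R^2`). -/
def St_D3 : Prop := ∀ (K : ℕ) (R w α : ℝ) (m : ℕ) (cell : ℝ → Fin m) (inn : Fin m → Prop), 1 ≤ K → 0 < R →
  0 < w → 0 < α → α < 1 → Measurable cell →
  (∀ x y, cell x = cell y → inn (cell x) → |x - y| ≤ w ∧ |x| ≤ R) → (∀ x, ¬ inn (cell x) → R ≤ |x|) →
  (∀ i, 0 < (gaussianReal 0 1).real (cell ⁻¹' {i})) →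
  (∀ i, α * ((univ : Finset (Fin K → ℤˣ)).filter (fun e => cell (BB e) = i)).card
    ≤ 2 ^ K * (gaussianReal 0 1).real (cell ⁻¹' {i})) →
  ∃ κ : (Fin K → ℤˣ) → Measure ℝ, Coup K κ (w ^ 2 + 18 / R ^ 2 + (2 + 2 * R ^ 2) * (1 - α))

/-- **D4** (uses D1, D3). `R` an integer with `18/R^2 ≤ τ/3`, `w = 1/r` with `w^2 ≤ τ/3`, cells: `(-∞,-R]`, `(-R + i w, -R + (i+1) w]`,
`i < 2 R r`, and `(R,∞)` (last one and first one not inner); all have positive Gaussian measure (open interval inside). `α < 1` with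
`(2 + 2R^2)(1-α) ≤ τ/3`. By D1 `2^(-K) #{e : cell (BB e) = i} → γ(J_i) > 0` for the finitely many `i`, so the
last hypothesis of D3 holds for large `K`. -/
def St_D4 : Prop := ∀ τ : ℝ, 0 < τ → ∃ (K : ℕ) (κ : (Fin K → ℤˣ) → Measure ℝ), 1 ≤ K ∧ Coup K κ τ

/-- The sign vector point. -/
noncomputable def yv {d K : ℕ} (η : Fin d × Fin K → ℤˣ) : E d :=
  WithLp.toLp 2 (fun i => BB (fun k => η (i, k)) / √d)

/-- The Gaussian product measure before projection. -/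
noncomputable def gm {d K : ℕ} (κ : (Fin K → ℤˣ) → Measure ℝ) (η : Fin d × Fin K → ℤˣ) :
    Measure (Fin d → ℝ) := Measure.pi (fun i => κ (fun k => η (i, k)))

/-- Kernel from sign vectors to the sphere. -/
noncomputable def nu {d K : ℕ} (κ : (Fin K → ℤˣ) → Measure ℝ) (η : Fin d × Fin K → ℤˣ) : Measure (E d) :=
  (gm κ η).map (fun x => nrm (WithLp.toLp 2 x))

/-- **D5** (uses S1). `∑_η ⨂_i κ(η_i) = ⨂_i ∑_e κ e = ⨂_i 2^K γ = 2^(dK) ⨂_i γ`: check on boxes (`Measure.pi_eq`):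
`∑_η ∏_i κ(η_i)(s_i) = ∏_i ∑_e κ e (s_i)` (`Finset.prod_univ_sum`, currying `Fin d × Fin K → ℤˣ`). Then map
(`map_pi_eq_stdGaussian`). The vectors are a.e. unit for `sph d` (S1), hence for each `nu κ η ≤ ∑_η nu κ η`. -/
def St_D5 : Prop := ∀ (d K : ℕ) (κ : (Fin K → ℤˣ) → Measure ℝ) (τ : ℝ), 1 ≤ d → Coup K κ τ →
  (∑ η : Fin d × Fin K → ℤˣ, gm κ η = (2 : ℝ≥0∞) ^ (d * K) • Measure.pi (fun _ : Fin d => gaussianReal 0 1)) ∧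
  (∀ η : Fin d × Fin K → ℤˣ, IsProbabilityMeasure (nu κ η) ∧ ∀ᵐ x ∂(nu κ η), ‖x‖ = 1) ∧
  ∑ η : Fin d × Fin K → ℤˣ, nu κ η = (2 : ℝ≥0∞) ^ (d * K) • sph d

/-- **D6** (uses D5). `x = g/|g|`, `y = yv η`: `‖x - y‖^2 ≤ 2 ‖g/|g| - g/√d‖^2 + 2 ‖g/√d - y‖^2`; the first norm is `|1 - |g|/√d|
≤ |1 - |g|^2/d|`, and `∑_η ∫ (1 - |g|^2/d)^2 dgm = 2^(dK) ∫ (1 - |g|^2/d)^2 dγ^d = 2^(dK) 2/d` (D5; `|g|^2 - d` is a sum of `d`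
independent variables `g_i^2 - 1` of mean `0` and variance `2`; `∫ g^4 = 3`). The second is `(1/d) ∑_i (g_i - BB η_i)^2`, and
`∑_η ∫ (g_i - BB η_i)^2 dgm = 2^(K(d-1)) ∑_e ∫ (g - BB e)^2 dκ e ≤ 2^(dK) τ`. -/
def St_D6 : Prop := ∀ (d K : ℕ) (κ : (Fin K → ℤˣ) → Measure ℝ) (τ : ℝ), 1 ≤ d → 1 ≤ K → 0 ≤ τ → Coup K κ τ →
  ∑ η : Fin d × Fin K → ℤˣ, ∫ x, ‖x - yv η‖ ^ 2 ∂(nu κ η) ≤ 2 ^ (d * K) * (4 / d + 2 * τ)

/-- **D7.** `‖yv η‖^2 - 1 = (1/d) ∑_i (B_i^2 - 1)`, `B_i = BB η_i`, `0 ≤ B_i^2 ≤ K`, mean of `B_i^2` equal to `1`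
(`∑_e (∑ e_k)^2 = K 2^K`); the mixed terms `i ≠ i'` vanish, and `(B_i^2 - 1)^2 ≤ K^2`. The second claim is `B_i^2 ≤ K`. -/
def St_D7 : Prop := ∀ d K : ℕ, 1 ≤ d → 1 ≤ K →
  ∑ η : Fin d × Fin K → ℤˣ, (‖yv η‖ ^ 2 - 1) ^ 2 ≤ 2 ^ (d * K) * ((K : ℝ) ^ 2 / d) ∧
  ∀ η : Fin d × Fin K → ℤˣ, ‖yv η‖ ^ 2 ≤ K

/-- **D8.** Put `s_j = 1 - 2 ρ^j + u^(2j)`. `s_{j+1} = u^2 s_j + s_1 + 2 (1-ρ^j)(ρ-u^2)`, `(1-ρ^j)^2 ≤ s_j` and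
`(ρ-u^2)^2 ≤ u^2 s_1` (both from `ρ^2 ≤ u^2`), so `2 (1-ρ^j)(ρ-u^2) ≤ u^2 s_j + s_1` (AM-GM) and `s_{j+1} ≤ 2 s_1 + 2 u^2 s_j`.
`s_1 ≥ (1-ρ)^2 ≥ 0`. If `u^2 ≤ 4`: `s_{j+1} ≤ 2 s_1 + 8 s_j`, so `s_j ≤ 9^j s_1` by induction. If `u^2 > 4`: `s_j ≤ (1+u^j)^2 ≤ 4 u^(2j) ≤ 4 K^j ≤
K^j (u^2-1)^2`. -/
def St_D8 : Prop := ∀ (j K : ℕ) (ρ u : ℝ), 1 ≤ j → 0 ≤ u → ρ ^ 2 ≤ u ^ 2 → u ^ 2 ≤ K →
  1 - 2 * ρ ^ j + u ^ (2 * j) ≤ 9 ^ j * (1 - 2 * ρ + u ^ 2) + (K : ℝ) ^ j * (u ^ 2 - 1) ^ 2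

/-- **D9** (uses D4, D5, D6, D7, D8). `τ1 = τ/(8 · 9^J)`, `K`, `κ` from D4 for `τ1`, `ν = nu κ`. For a.e. `x`: `‖x‖ = 1`, D8 with
`ρ = ⟨x, yv η⟩`, `u = ‖yv η‖` (Cauchy-Schwarz) and `1 - 2ρ + u^2 = ‖x - y‖^2`. Sum over `η`:
`≤ 2^(dK) (9^J (4/d + 2 τ1) + K^J K^2/d) ≤ 2^(dK) τ` for large `d`. -/
def St_D9 : Prop := ∀ (J : ℕ) (τ : ℝ), 0 < τ → ∃ K d0 : ℕ, 1 ≤ K ∧ ∀ d : ℕ, 1 ≤ d → d0 ≤ d →
  ∃ ν : (Fin d × Fin K → ℤˣ) → Measure (E d),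
    (∀ η, IsProbabilityMeasure (ν η)) ∧ (∀ η, ∀ᵐ x ∂(ν η), ‖x‖ = 1) ∧
    (∑ η, ν η = (2 : ℝ≥0∞) ^ (d * K) • sph d) ∧
    ∀ j, 1 ≤ j → j ≤ J →
      ∑ η, ∫ x, (1 - 2 * (inner ℝ x (yv η) : ℝ) ^ j + ‖yv η‖ ^ (2 * j)) ∂(ν η) ≤ 2 ^ (d * K) * τ

/-! ## Weights -/

/-- Fourier coefficient on the cube. -/
noncomputable def fh {I : Type} [Fintype I] [DecidableEq I] (f : (I → ℤˣ) → ℝ) (A : Finset I) : ℝ :=
  (∑ η, f η * chi A η) / 2 ^ Fintype.card I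

/-- **W0.** `f = ∑_A fh f A χ_A` (`∑_A χ_A(η) χ_A(η') = ∏_i (1 + η_i η'_i) = 2^|I| 1_{η=η'}`), `χ_A(σ η) = χ_A σ χ_A η`,
`∑_σ χ_A σ χ_B σ = 2^|I| 1_{A=B}`. Second claim: the first with `η = η' = 1`, `A ↦ (fh f A - fh y A)^2 ≥ 0`:
`∑_{|A|≤j} fh f A ^ 2 ≥ ∑_{|A|≤j} (2 fh f A fh y A - fh y A ^2) = ∑_A (...) = 2^(-|I|) ∑_η (2 f y - y^2)`. -/
def St_W0 : Prop := ∀ (I : Type) [Fintype I] [DecidableEq I],
  (∀ (f g : (I → ℤˣ) → ℝ) (η η' : I → ℤˣ), ∑ σ : I → ℤˣ, f (σ * η) * g (σ * η')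
    = 2 ^ Fintype.card I * ∑ A : Finset I, fh f A * fh g A * (chi A η * chi A η')) ∧
  (∀ (f y : (I → ℤˣ) → ℝ) (j : ℕ), (∀ A : Finset I, j < A.card → fh y A = 0) →
    (∑ η, (2 * f η * y η - y η ^ 2)) / 2 ^ Fintype.card I
      ≤ ∑ A ∈ (univ : Finset (Finset I)).filter (fun A => A.card ≤ j), fh f A ^ 2)

/-- The weights: sum over tuples `J` of the squares of the Fourier coefficients of `η ↦ ∫ x_J dν_η`. -/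
noncomputable def ww {d : ℕ} {I : Type} [Fintype I] [DecidableEq I] (ν : (I → ℤˣ) → Measure (E d)) (j : ℕ)
    (A : Finset I) : ℝ :=
  ∑ J : Fin j → Fin d, fh (fun η => ∫ x, ∏ l, x (J l) ∂(ν η)) A ^ 2

/-- **W1** (uses W0, S1). `∫∫ ⟨x,x'⟩^j dν_η dν_η' = ∑_J V_J(η) V_J(η')`, `V_J(η) = ∫ x_J dν_η` (a.e. unit vectors: all bounded); W0
for each `J` gives the formula. Sum of the formula over `η'` (or W0 for `A = ∅`): `fh V_J ∅ = 2^(-|I|) ∑_η ∫ x_J dν_η = ∫ x_J dsph`, so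
`ww ∅ = ∑_J (∫ x_J dsph)^2 = ∫∫ ⟨x,y⟩^j = mu d j`. The formula for `η = η' = 1`: `∑_A ww A = avg_σ ∫∫ ⟨x,x'⟩^j ≤ 1`. -/
def St_W1 : Prop := ∀ (d : ℕ) (I : Type) [Fintype I] [DecidableEq I] (ν : (I → ℤˣ) → Measure (E d)) (j : ℕ),
  1 ≤ d → (∀ η, IsProbabilityMeasure (ν η)) → (∀ η, ∀ᵐ x ∂(ν η), ‖x‖ = 1) →
  (∑ η, ν η = (2 : ℝ≥0∞) ^ Fintype.card I • sph d) →
  (∀ η η' : I → ℤˣ, ∑ σ : I → ℤˣ, ∫ x, ∫ x', (inner ℝ x x' : ℝ) ^ j ∂(ν (σ * η')) ∂(ν (σ * η))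
    = 2 ^ Fintype.card I * ∑ A : Finset I, ww ν j A * (chi A η * chi A η')) ∧
  ww ν j ∅ = mu d j ∧ ∑ A : Finset I, ww ν j A ≤ 1

/-- **W2** (uses W0). For each `J` the function `y_J(η) = ∏_l (yv η)_{J l}` is a combination of products of `j` signs
`∏_l η(J l, k_l)`; if `|A| > j` some `p ∈ A` is none of the `(J l, k_l)`, and flipping the sign `η p` shows that the
Fourier coefficient at `A` is `0`. W0 with `f = V_J`, `y = y_J`, sum over `J`: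
`∑_{|A|≤j} ww A ≥ 2^(-dK) ∑_η (2 ∫ ⟨x,y⟩^j dν_η - ‖y‖^(2j)) = 1 - 2^(-dK) ∑_η ∫ (1 - 2⟨x,y⟩^j + ‖y‖^(2j)) dν_η`. -/
def St_W2 : Prop := ∀ (d K : ℕ) (ν : (Fin d × Fin K → ℤˣ) → Measure (E d)) (j : ℕ),
  (∀ η, IsProbabilityMeasure (ν η)) → (∀ η, ∀ᵐ x ∂(ν η), ‖x‖ = 1) →
  1 - (∑ η, ∫ x, (1 - 2 * (inner ℝ x (yv η) : ℝ) ^ j + ‖yv η‖ ^ (2 * j)) ∂(ν η)) / 2 ^ (d * K)
    ≤ ∑ A ∈ (univ : Finset (Finset (Fin d × Fin K))).filter (fun A => A.card ≤ j), ww ν j A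

/-! ## E. Assembly -/

/-- **EX.** Choose the points one after the other (induction on `N`, with a general family of functions `H_a`; the
function `x ↦ ∫ F⟨x,x'⟩ dμ(x')` is continuous) or use `Measure.pi μ`: some point is at least the mean, and a.e.
point has unit coordinates. -/
def St_EX : Prop := ∀ (d N : ℕ) (μ : Fin N → Measure (E d)) (F : ℝ → ℝ) (H : E d → ℝ),
  (∀ a, IsProbabilityMeasure (μ a)) → (∀ a, ∀ᵐ x ∂(μ a), ‖x‖ = 1) → Continuous F → Continuous H →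
  ∃ y : Fin N → E d, (∀ a, ‖y a‖ = 1) ∧
    (∑ a, ∑ b, if a = b then 0 else ∫ x, ∫ x', F (inner ℝ x x' : ℝ) ∂(μ b) ∂(μ a)) + ∑ a, ∫ x, H x ∂(μ a)
      ≤ (∑ a, ∑ b, if a = b then 0 else F (inner ℝ (y a) (y b) : ℝ)) + ∑ a, H (y a)

/-- **BJ** (uses W1). Let `S_A(z) = ∑_a χ_A (f z a)`. By W1 `∑_σ ∑_{a,b} ∫∫ = 2^(dK) ∑_A ww A S_A(z)^2`. Sum over `z`: `A = ∅` gives
`2^(dK) mu d j N0^2 |Z|`; `1 ≤ |A| ≤ 2s+1` gives `0`; the other `A` at most `2^(dK) (1+δ) N0 |Z| ww A`. The diagonal `a = b` is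
`2^(dK) N0 |Z| ∑_A ww A` (`χ_A^2 = 1`). So the off-diagonal sum is at most
`2^(dK) |Z| (mu N0^2 + δ N0 ∑_{|A|>2s+1} ww A - N0 ∑_{|A|≤2s+1} ww A)`, and `∑ ww A ≤ 1`, `ww ≥ 0`. -/
def St_BJ : Prop := ∀ (d K s N0 : ℕ) (δ : ℝ) (Z : Type) [Fintype Z] (f : Z → Fin N0 → (Fin d × Fin K) → ℤˣ)
  (ν : (Fin d × Fin K → ℤˣ) → Measure (E d)) (j : ℕ), 1 ≤ d → 0 < δ →
  (∀ A : Finset (Fin d × Fin K), A.Nonempty →
    (A.card ≤ 2 * s + 1 → ∑ z, (∑ a, chi A (f z a)) ^ 2 = 0) ∧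
    ∑ z, (∑ a, chi A (f z a)) ^ 2 ≤ (1 + δ) * N0 * Fintype.card Z) →
  (∀ η, IsProbabilityMeasure (ν η)) → (∀ η, ∀ᵐ x ∂(ν η), ‖x‖ = 1) →
  (∑ η, ν η = (2 : ℝ≥0∞) ^ (d * K) • sph d) →
  ∑ z, ∑ σ : (Fin d × Fin K) → ℤˣ, ∑ a, ∑ b, (if a = b then 0 else
      ∫ x, ∫ x', (inner ℝ x x' : ℝ) ^ j ∂(ν (σ * f z b)) ∂(ν (σ * f z a)))
    ≤ Fintype.card Z * 2 ^ (d * K) * (mu d j * (N0 : ℝ) ^ 2 + δ * N0
      - N0 * ∑ A ∈ (univ : Finset (Finset (Fin d × Fin K))).filter (fun A => A.card ≤ 2 * s + 1), ww ν j A)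

/-- **BL** (uses BC, S1, S2, S3, S5, CD, D9, W2, EX, BJ). `n = 2s+1`, `τ = δ/3`, `J = 2s+1`; `K`, `d0` from D9; `C` and the family from CD with
`δ' = δ/3`. For `z`, `σ` apply EX to `μ a = ν (σ * f z a)`, `F = qq n`, `H(y) = 2 ∑_i qq n ⟨X i, y⟩`; it suffices that the sum over
`z`, `σ` of the expectations is at least `|Z| 2^(dK)` times the claimed value. `H`: `∑_σ ∫ H dν(σ f z a) = 2^(dK) ∫ H dsph
= 2^(dK) 2 M cq` (S2). `F`: `qq n t = 1 - ∑_j bc j t^j - rr n t^(n+1)`; for `1 ≤ j ≤ 2s+1` BJ and W2, D9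
(`∑_{|A|≤2s+1} ww ≥ ∑_{|A|≤j} ww ≥ 1 - τ`) bound the mean of `∑_{a≠b} t^j` by `mu_j N0^2 + δ' N0 - (1-τ) N0`; for `j = 2s+2` by
`mu N0^2 + δ' N0`. So the mean of `∑_{a≠b} qq n` is at least `N0^2 - N0 - ∑_j bc j (mu_j N0^2 + δ' N0 - (1-τ) N0)
- rr n (mu_{n+1} N0^2 + δ' N0) = N0^2 cq - N0 (1 - (1-τ)(1 - rr n) + δ')` (with `∑ bc j = 1 - rr n`), and
`1 - (1-τ)(1-rr n) ≤ rr n + τ`. -/
def St_BL : Prop := ∀ (s : ℕ) (δ : ℝ), 1 ≤ s → 0 < δ → ∃ (C : ℝ) (d0 : ℕ), 0 < C ∧ ∀ d : ℕ, 1 ≤ d → d0 ≤ d →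
  ∃ N0 : ℕ, 1 ≤ N0 ∧ (N0 : ℝ) ≤ C * (d : ℝ) ^ s ∧
  ∀ (M : ℕ) (X : Fin M → E d), (∀ i, ‖X i‖ = 1) → ∃ Y : Fin N0 → E d, (∀ a, ‖Y a‖ = 1) ∧
    (N0 : ℝ) ^ 2 * cq d (2 * s + 1) - (rr (2 * s + 1) + δ) * N0 + 2 * M * N0 * cq d (2 * s + 1)
      ≤ (∑ a, ∑ b, if a = b then 0 else qq (2 * s + 1) (inner ℝ (Y a) (Y b) : ℝ))
        + 2 * ∑ i, ∑ a, qq (2 * s + 1) (inner ℝ (X i) (Y a) : ℝ)

/-- **IN** (uses S1, S2, S5, BL). Induction. First blocks: from `M` points with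
`F(M) = ∑_{a≠b} qq ≥ M^2 cq - (rr+δ) M`, BL gives `M + N0` points with `F ≥ (M+N0)^2 cq - (rr+δ)(M+N0)`. Then fewer than
`N0` single points: the mean over `y ∈ sph d` of `2 ∑_i qq⟨X i,y⟩` is `2 M cq` (S2), so some unit `y` gives
`F(M+1) ≥ F(M) + 2 M cq`; with `(M+1)^2 = M^2 + 2M + 1` and `cq ≤ 1` each step loses at most `1` (and `(rr+δ)` is only
better). -/
def St_IN : Prop := ∀ (s : ℕ) (δ : ℝ), 1 ≤ s → 0 < δ → ∃ (C : ℝ) (d0 : ℕ), 0 < C ∧ ∀ d N : ℕ, 1 ≤ d → d0 ≤ d →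
  ∃ X : Fin N → E d, (∀ a, ‖X a‖ = 1) ∧
    (N : ℝ) ^ 2 * cq d (2 * s + 1) - (rr (2 * s + 1) + δ) * N - C * (d : ℝ) ^ s
      ≤ ∑ a, ∑ b, if a = b then 0 else qq (2 * s + 1) (inner ℝ (X a) (X b) : ℝ)

/-- **LB** (uses BC, FL, S4, S5, IN, `Pool.Agent.XPM.St_PE`). `δ = ε/4`, `C1`, `d0` from IN, `C'` from S4 (`m = s+1`); `C = max (4 C1/ε, 4 C'/ε, d0, 1)`.
`C^2 d^s ≤ C N ≤ d^(s+1)`, so `C^2 ≤ d`, `d ≥ C ≥ d0`. `C1 d^s ≤ (C1/C) N ≤ ε N/4`. `cq ≥ cf - rr mu_{2s+2} ≥ cf - C'/d^(s+1)`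
(S5, `rr ≤ 1`) and `N^2 C'/d^(s+1) ≤ (C'/C) N ≤ ε N/4`. `qq ≤ ff` (FL), `ff 1 = 0` on the diagonal. Distinct points: PE with
`η = ε N/4` (`N ≥ C d^s > 0`). -/
def St_LB : Prop := ∀ (s : ℕ) (ε : ℝ), 1 ≤ s → 0 < ε → ∃ C : ℝ, 0 < C ∧ ∀ d N : ℕ, 2 ≤ d →
  C * (d : ℝ) ^ s ≤ N → C * N ≤ (d : ℝ) ^ (s + 1) →
  ∃ X : Fin N → E d, Function.Injective X ∧ (∀ i, ‖X i‖ = 1) ∧
    (N : ℝ) ^ 2 * cf d - (rr (2 * s + 1) + ε) * N ≤ ∑ a, ∑ b, ff (inner ℝ (X a) (X b) : ℝ)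

end Pool.Agent.XPS
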