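import Mathlib
import Pool.Agent.XPS.St

set_option autoImplicit false

namespace Pool.Agent.XPS

open Finset MeasureTheory ProbabilityTheory Filter Topology
open Pool.Agent.XPM (ff)
open scoped ENNReal

private theorem UB_ff_one : ff 1 = 0 := by
  unfold ff
  simp

private theorem UB_pp_one (hBC : St_BC) (n : ℕ) : pp n 1 = rr n := by
  unfold pp
  have h := hBC.2.2.2.2.1 n
  rw [← h]
  congr 1
  refine Finset.sum_congr rfl (fun j _ => ?_)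
  rw [one_pow, mul_one]

/-- Pointwise bound, with the diagonal term. -/
private theorem UB_point (hBC : St_BC) (hFU : St_FU) {d N : ℕ} (n : ℕ) (hn : Odd n)
    (x : Fin N → E d) (hx : ∀ i, ‖x i‖ = 1) (a b : Fin N) :
    ff (inner ℝ (x a) (x b) : ℝ) ≤ pp n (inner ℝ (x a) (x b) : ℝ) - (if a = b then rr n else 0) := by
  by_cases hab : a = b
  · subst hab
    have h1 : (inner ℝ (x a) (x a) : ℝ) = 1 := by
      rw [real_inner_self_eq_norm_sq, hx a, one_pow]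
    rw [h1, UB_ff_one, UB_pp_one hBC n, if_pos rfl, sub_self]
  · rw [if_neg hab, sub_zero]
    have h1 : |(inner ℝ (x a) (x b) : ℝ)| ≤ 1 := by
      have := abs_real_inner_le_norm (x a) (x b)
      rwa [hx a, hx b, one_mul] at this
    have h2 := abs_le.mp h1
    exact hFU n _ hn h2.1 h2.2

private theorem UB_sum_pp {d N : ℕ} (n : ℕ) (x : Fin N → E d) :
    ∑ a, ∑ b, pp n (inner ℝ (x a) (x b) : ℝ)
      = (N : ℝ) ^ 2 - ∑ j ∈ Icc 1 n, bc j * ∑ a, ∑ b, (inner ℝ (x a) (x b) : ℝ) ^ j := by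
  unfold pp
  simp only [Finset.sum_sub_distrib, Finset.sum_const, Finset.card_univ, Fintype.card_fin,
    nsmul_eq_mul, mul_one]
  have h1 : ∑ a, ∑ b, ∑ j ∈ Icc 1 n, bc j * (inner ℝ (x a) (x b) : ℝ) ^ j
      = ∑ j ∈ Icc 1 n, bc j * ∑ a, ∑ b, (inner ℝ (x a) (x b) : ℝ) ^ j := by
    have h2 : ∀ a : Fin N, ∑ b, ∑ j ∈ Icc 1 n, bc j * (inner ℝ (x a) (x b) : ℝ) ^ j
        = ∑ j ∈ Icc 1 n, bc j * ∑ b, (inner ℝ (x a) (x b) : ℝ) ^ j := by
      intro a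
      rw [Finset.sum_comm]
      refine Finset.sum_congr rfl (fun j _ => ?_)
      rw [Finset.mul_sum]
    rw [Finset.sum_congr rfl (fun a _ => h2 a), Finset.sum_comm]
    refine Finset.sum_congr rfl (fun j _ => ?_)
    rw [Finset.mul_sum]
  rw [h1, pow_two]

theorem thm_UB (hBC : St_BC) (hFU : St_FU) (hS4 : St_S4) (hS5 : St_S5) (hUM : St_UM) : St_UB := by
  intro s ε hε
  obtain ⟨C', hC'0, hC'⟩ := hS4 (s + 1)
  refine ⟨C' / ε, div_pos hC'0 hε, ?_⟩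
  intro d N x hd hCN hx
  have hodd : Odd (2 * s + 1) := ⟨s, rfl⟩
  set n := 2 * s + 1 with hn
  obtain ⟨hS5a, _, hS5c, _⟩ := hS5 d n hd hodd
  have hdpos : (0 : ℝ) < (d : ℝ) ^ (s + 1) := by
    have : (0 : ℝ) < (d : ℝ) := by exact_mod_cast hd
    positivity
  have hN0 : (0 : ℝ) ≤ (N : ℝ) := Nat.cast_nonneg N
  -- step 1 and 2
  have h12 : ∑ a, ∑ b, ff (inner ℝ (x a) (x b) : ℝ)
      ≤ ∑ a, ∑ b, pp n (inner ℝ (x a) (x b) : ℝ) - (N : ℝ) * rr n := by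
    calc ∑ a, ∑ b, ff (inner ℝ (x a) (x b) : ℝ)
        ≤ ∑ a, ∑ b, (pp n (inner ℝ (x a) (x b) : ℝ) - (if a = b then rr n else 0)) :=
          Finset.sum_le_sum (fun a _ => Finset.sum_le_sum (fun b _ =>
            UB_point hBC hFU n hodd x hx a b))
      _ = ∑ a, ∑ b, pp n (inner ℝ (x a) (x b) : ℝ) - (N : ℝ) * rr n := by
          simp only [Finset.sum_sub_distrib, Finset.sum_ite_eq, Finset.mem_univ, if_true,
            Finset.sum_const, Finset.card_univ, Fintype.card_fin, nsmul_eq_mul]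
  -- step 3 and 4
  have h34 : ∑ a, ∑ b, pp n (inner ℝ (x a) (x b) : ℝ)
      ≤ (N : ℝ) ^ 2 * (1 - ∑ j ∈ Icc 1 n, bc j * mu d j) := by
    rw [UB_sum_pp n x]
    have h1 : (N : ℝ) ^ 2 * ∑ j ∈ Icc 1 n, bc j * mu d j
        ≤ ∑ j ∈ Icc 1 n, bc j * ∑ a, ∑ b, (inner ℝ (x a) (x b) : ℝ) ^ j := by
      rw [Finset.mul_sum]
      refine Finset.sum_le_sum (fun j hj => ?_)
      have hb : 0 < bc j := hBC.1 j (Finset.mem_Icc.mp hj).1
      have hu := hUM d N j x hd hx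
      calc (N : ℝ) ^ 2 * (bc j * mu d j) = bc j * ((N : ℝ) ^ 2 * mu d j) := by ring
        _ ≤ bc j * ∑ a, ∑ b, (inner ℝ (x a) (x b) : ℝ) ^ j :=
          mul_le_mul_of_nonneg_left hu hb.le
    rw [mul_sub, mul_one]
    linarith
  -- step 5
  have h5 : 1 - ∑ j ∈ Icc 1 n, bc j * mu d j ≤ cf d + rr n * mu d (n + 1) := by
    linarith
  -- step 6
  have h6 : rr n * mu d (n + 1) ≤ C' / (d : ℝ) ^ (s + 1) := by
    have hr := hBC.2.2.2.1 n
    have hm : mu d (n + 1) ≤ C' / (d : ℝ) ^ (s + 1) := by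
      have := hC' d hd
      have he : 2 * (s + 1) = n + 1 := by omega
      rwa [he] at this
    have hq : 0 ≤ C' / (d : ℝ) ^ (s + 1) := (div_pos hC'0 hdpos).le
    calc rr n * mu d (n + 1) ≤ rr n * (C' / (d : ℝ) ^ (s + 1)) :=
          mul_le_mul_of_nonneg_left hm hr.1.le
      _ ≤ 1 * (C' / (d : ℝ) ^ (s + 1)) := mul_le_mul_of_nonneg_right hr.2 hq
      _ = C' / (d : ℝ) ^ (s + 1) := one_mul _
  -- step 7
  have h7 : (N : ℝ) ^ 2 * (C' / (d : ℝ) ^ (s + 1)) ≤ ε * N := by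
    have h1 : C' * (N : ℝ) ≤ ε * (d : ℝ) ^ (s + 1) := by
      have h2 : C' / ε * (N : ℝ) * ε ≤ (d : ℝ) ^ (s + 1) * ε :=
        mul_le_mul_of_nonneg_right hCN hε.le
      have h3 : C' / ε * (N : ℝ) * ε = C' * N := by
        field_simp
      rw [h3] at h2
      linarith
    have h4 : C' * (N : ℝ) / (d : ℝ) ^ (s + 1) ≤ ε := by
      rw [div_le_iff₀ hdpos]
      exact h1
    calc (N : ℝ) ^ 2 * (C' / (d : ℝ) ^ (s + 1))
        = (N : ℝ) * (C' * (N : ℝ) / (d : ℝ) ^ (s + 1)) := by ring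
      _ ≤ (N : ℝ) * ε := mul_le_mul_of_nonneg_left h4 hN0
      _ = ε * N := mul_comm _ _
  have hN2 : (0 : ℝ) ≤ (N : ℝ) ^ 2 := by positivity
  have h8 : (N : ℝ) ^ 2 * (1 - ∑ j ∈ Icc 1 n, bc j * mu d j)
      ≤ (N : ℝ) ^ 2 * cf d + ε * N := by
    calc (N : ℝ) ^ 2 * (1 - ∑ j ∈ Icc 1 n, bc j * mu d j)
        ≤ (N : ℝ) ^ 2 * (cf d + C' / (d : ℝ) ^ (s + 1)) :=
          mul_le_mul_of_nonneg_left (by linarith) hN2
      _ = (N : ℝ) ^ 2 * cf d + (N : ℝ) ^ 2 * (C' / (d : ℝ) ^ (s + 1)) := by ring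
      _ ≤ (N : ℝ) ^ 2 * cf d + ε * N := by linarith
  calc ∑ a, ∑ b, ff (inner ℝ (x a) (x b) : ℝ)
      ≤ ∑ a, ∑ b, pp n (inner ℝ (x a) (x b) : ℝ) - (N : ℝ) * rr n := h12
    _ ≤ (N : ℝ) ^ 2 * cf d - (rr n - ε) * N := by linarith

end Pool.Agent.XPS
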