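import Pool.Agent.XPS.St

/-!
# XPS, module UM (helper81): the moment inequality for point sets
-/

set_option autoImplicit false

namespace Pool.Agent.XPS

open Finset MeasureTheory ProbabilityTheory Filter Topology
open scoped ENNReal

theorem UM_nrm_measurable {d : ℕ} : Measurable (nrm : E d → E d) := by
  unfold nrm
  exact (measurable_norm.inv).smul measurable_id

theorem UM_nrm_le {d : ℕ} (x : E d) : ‖nrm x‖ ≤ 1 := by
  unfold nrm
  rw [norm_smul, norm_inv, norm_norm]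
  by_cases h : ‖x‖ = 0
  · rw [h, mul_zero]
    exact zero_le_one
  · rw [inv_mul_cancel₀ h]

theorem UM_ae (d : ℕ) : ∀ᵐ y ∂(sph d), ‖y‖ ≤ 1 := by
  unfold sph
  rw [ae_map_iff UM_nrm_measurable.aemeasurable (measurableSet_le measurable_norm measurable_const)]
  exact Filter.Eventually.of_forall fun x => UM_nrm_le x

theorem UM_finite (d : ℕ) : IsFiniteMeasure (sph d) := by
  unfold sph
  infer_instance

theorem UM_integrable (d j : ℕ) (J : Fin j → Fin d) :
    Integrable (fun y : E d => ∏ l, y (J l)) (sph d) := by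
  haveI := UM_finite d
  refine Integrable.of_bound (C := 1) ?_ ?_
  · refine Continuous.aestronglyMeasurable ?_
    exact continuous_finsetProd _ fun l _ => by fun_prop
  · filter_upwards [UM_ae d] with y hy
    rw [norm_prod]
    exact Finset.prod_le_one (fun l _ => norm_nonneg _)
      fun l _ => (PiLp.norm_apply_le y (J l)).trans hy

theorem UM_inner_pow {d : ℕ} (j : ℕ) (u y : E d) :
    (inner ℝ u y : ℝ) ^ j = ∑ J : Fin j → Fin d, (∏ l, u (J l)) * ∏ l, y (J l) := by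
  have h1 : (inner ℝ u y : ℝ) = ∑ i, u i * y i := by
    rw [PiLp.inner_apply]
    refine Finset.sum_congr rfl fun i _ => ?_
    simp [mul_comm]
  rw [h1, Fintype.sum_pow]
  exact Finset.sum_congr rfl fun J _ => Finset.prod_mul_distrib

theorem thm_UM (hS2 : St_S2) (hS3 : St_S3) : St_UM := by
  intro d N j x hd hx
  obtain ⟨Q, hQ⟩ : ∃ Q : (Fin j → Fin d) → ℝ, Q = fun J => ∫ y, ∏ l, y (J l) ∂(sph d) := ⟨_, rfl⟩
  obtain ⟨S, hS⟩ : ∃ S : (Fin j → Fin d) → ℝ, S = fun J => ∑ a, ∏ l, x a (J l) := ⟨_, rfl⟩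
  have h1 : mu d j = ∑ J, Q J ^ 2 := by
    rw [hQ]
    exact (hS3 d j hd).1
  have h2 : ∀ a, ∑ J : Fin j → Fin d, (∏ l, x a (J l)) * Q J = mu d j := by
    intro a
    have h3 : ∫ y, (inner ℝ (x a) y : ℝ) ^ j ∂(sph d) = mu d j :=
      hS2 d (fun t => t ^ j) (x a) hd (continuous_pow j) (hx a)
    rw [← h3, hQ]
    simp only [UM_inner_pow]
    rw [integral_finsetSum _ fun J _ => (UM_integrable d j J).const_mul _]
    exact Finset.sum_congr rfl fun J _ => (integral_const_mul _ _).symm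
  have h4 : ∑ J, S J * Q J = N * mu d j := by
    calc ∑ J, S J * Q J = ∑ J, ∑ a, (∏ l, x a (J l)) * Q J := by
          rw [hS]
          exact Finset.sum_congr rfl fun J _ => Finset.sum_mul _ _ _
      _ = ∑ a, ∑ J, (∏ l, x a (J l)) * Q J := Finset.sum_comm
      _ = ∑ a : Fin N, mu d j := Finset.sum_congr rfl fun a _ => h2 a
      _ = N * mu d j := by simp
  have h5 : ∑ a, ∑ b, (inner ℝ (x a) (x b) : ℝ) ^ j = ∑ J, S J ^ 2 := by
    calc ∑ a, ∑ b, (inner ℝ (x a) (x b) : ℝ) ^ j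
        = ∑ a, ∑ b, ∑ J : Fin j → Fin d, (∏ l, x a (J l)) * ∏ l, x b (J l) := by
          simp only [UM_inner_pow]
      _ = ∑ a, ∑ J : Fin j → Fin d, ∑ b, (∏ l, x a (J l)) * ∏ l, x b (J l) :=
          Finset.sum_congr rfl fun a _ => Finset.sum_comm
      _ = ∑ J : Fin j → Fin d, ∑ a, ∑ b, (∏ l, x a (J l)) * ∏ l, x b (J l) := Finset.sum_comm
      _ = ∑ J, S J ^ 2 := by
          refine Finset.sum_congr rfl fun J _ => ?_
          rw [hS, sq, Finset.sum_mul_sum]
  rw [h5]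
  have h6 : 0 ≤ ∑ J, (S J - N * Q J) ^ 2 := Finset.sum_nonneg fun J _ => sq_nonneg _
  have h7 : ∑ J, (S J - N * Q J) ^ 2 = ∑ J, S J ^ 2 - 2 * N * ∑ J, S J * Q J
      + (N : ℝ) ^ 2 * ∑ J, Q J ^ 2 := by
    rw [Finset.mul_sum, Finset.mul_sum, ← Finset.sum_sub_distrib, ← Finset.sum_add_distrib]
    exact Finset.sum_congr rfl fun J _ => by ring
  rw [h7, h4, ← h1] at h6
  nlinarith [h6]

end Pool.Agent.XPS
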