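import Pool.Agent.XPS.St

/-! Module W0 of XPS (MP_b22a07_co): Fourier analysis on the cube. -/

set_option autoImplicit false

namespace Pool.Agent.XPS

open Finset

theorem W0_sv_mul (a b : ℤˣ) : sv (a * b) = sv a * sv b := by
  simp [sv]

theorem W0_sv_sq (a : ℤˣ) : sv a * sv a = 1 := by
  rw [← W0_sv_mul, Int.units_mul_self]
  simp [sv]

theorem W0_sv_one : sv 1 = 1 := by
  simp [sv]

theorem W0_sv_neg : sv (-1) = -1 := by
  simp [sv]

variable {I : Type} [Fintype I] [DecidableEq I]

omit [Fintype I] [DecidableEq I] in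
theorem W0_chi_mul (A : Finset I) (η η' : I → ℤˣ) : chi A (η * η') = chi A η * chi A η' := by
  unfold chi
  rw [← Finset.prod_mul_distrib]
  exact Finset.prod_congr rfl fun i _ => W0_sv_mul _ _

omit [Fintype I] [DecidableEq I] in
theorem W0_chi_one (A : Finset I) : chi A (1 : I → ℤˣ) = 1 :=
  Finset.prod_eq_one fun _ _ => W0_sv_one

omit [DecidableEq I] in
/-- completeness -/
theorem W0_comp (η : I → ℤˣ) :
    ∑ A : Finset I, chi A η = if η = 1 then (2 : ℝ) ^ Fintype.card I else 0 := by
  have h1 : ∑ A : Finset I, chi A η = ∏ i : I, (1 + sv (η i)) := by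
    rw [Finset.prod_one_add]
    rw [Finset.powerset_univ]
    rfl
  rw [h1]
  split_ifs with h
  · rw [h]
    have h2 : ∀ i ∈ (univ : Finset I), (1 + sv ((1 : I → ℤˣ) i)) = 2 := by
      intro i _
      rw [Pi.one_apply, W0_sv_one]
      norm_num
    rw [Finset.prod_congr rfl h2, Finset.prod_const, Finset.card_univ]
  · have h2 : ∃ i, η i ≠ 1 := by
      by_contra hc
      push Not at hc
      exact h (funext hc)
    obtain ⟨i, hi⟩ := h2
    have h3 : η i = -1 := (Int.units_eq_one_or (η i)).resolve_left hi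
    refine Finset.prod_eq_zero (Finset.mem_univ i) ?_
    rw [h3, W0_sv_neg]
    norm_num

/-- inversion -/
theorem W0_inv (f : (I → ℤˣ) → ℝ) (η : I → ℤˣ) : f η = ∑ A : Finset I, fh f A * chi A η := by
  have h1 : ∑ A : Finset I, fh f A * chi A η =
      (∑ η' : I → ℤˣ, f η' * ∑ A : Finset I, chi A (η' * η)) / 2 ^ Fintype.card I := by
    have h2 : ∀ A : Finset I, fh f A * chi A η =
        (∑ η' : I → ℤˣ, f η' * chi A (η' * η)) / 2 ^ Fintype.card I := by
      intro A
      unfold fh
      rw [div_mul_eq_mul_div, Finset.sum_mul]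
      congr 1
      refine Finset.sum_congr rfl fun η' _ => ?_
      rw [W0_chi_mul, mul_assoc]
    rw [Finset.sum_congr rfl fun A _ => h2 A, ← Finset.sum_div, Finset.sum_comm]
    congr 1
    exact Finset.sum_congr rfl fun η' _ => (Finset.mul_sum _ _ _).symm
  rw [h1]
  have h3 : ∑ η' : I → ℤˣ, f η' * ∑ A : Finset I, chi A (η' * η) =
      f η * (2 : ℝ) ^ Fintype.card I := by
    rw [Finset.sum_eq_single η]
    · rw [W0_comp, if_pos]
      funext i
      exact Int.units_mul_self (η i)
    · intro η' _ hne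
      rw [W0_comp, if_neg, mul_zero]
      intro h4
      apply hne
      funext i
      have h5 := congrFun h4 i
      rw [Pi.mul_apply, Pi.one_apply] at h5
      calc η' i = η' i * (η i * η i) := by rw [Int.units_mul_self, mul_one]
        _ = η' i * η i * η i := (mul_assoc _ _ _).symm
        _ = η i := by rw [h5, one_mul]
    · intro h
      exact absurd (Finset.mem_univ _) h
  rw [h3, mul_div_assoc, div_self (by positivity), mul_one]

/-- orthogonality -/
theorem W0_orth (A B : Finset I) :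
    ∑ σ : I → ℤˣ, chi A σ * chi B σ = if A = B then (2 : ℝ) ^ Fintype.card I else 0 := by
  have h1 : ∀ σ : I → ℤˣ, chi A σ * chi B σ =
      ∏ i : I, (fun (i : I) (e : ℤˣ) => (if i ∈ A then sv e else 1) * (if i ∈ B then sv e else 1))
        i (σ i) := by
    intro σ
    show _ = ∏ i : I, (if i ∈ A then sv (σ i) else 1) * (if i ∈ B then sv (σ i) else 1)
    rw [Finset.prod_mul_distrib, Finset.prod_ite_mem, Finset.prod_ite_mem, Finset.univ_inter,
      Finset.univ_inter]
    rfl
  rw [Finset.sum_congr rfl fun σ _ => h1 σ]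
  have h2 := Finset.prod_univ_sum (fun _ : I => (univ : Finset ℤˣ))
    (fun (i : I) (e : ℤˣ) => (if i ∈ A then sv e else 1) * (if i ∈ B then sv e else 1))
  rw [Fintype.piFinset_univ] at h2
  rw [← h2]
  have h3 : ∀ i : I, ∑ e : ℤˣ, (if i ∈ A then sv e else 1) * (if i ∈ B then sv e else 1) =
      if (i ∈ A ↔ i ∈ B) then (2 : ℝ) else 0 := by
    intro i
    have h4 : (univ : Finset ℤˣ) = {1, -1} := rfl
    rw [h4, Finset.sum_pair (by decide), W0_sv_one, W0_sv_neg]
    by_cases ha : i ∈ A <;> by_cases hb : i ∈ B <;> simp [ha, hb] <;> norm_num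
  rw [Finset.prod_congr rfl fun i _ => h3 i]
  split_ifs with h
  · rw [h]
    simp
  · have h4 : ∃ i, ¬ (i ∈ A ↔ i ∈ B) := by
      by_contra hc
      push Not at hc
      exact h (Finset.ext hc)
    obtain ⟨i, hi⟩ := h4
    exact Finset.prod_eq_zero (Finset.mem_univ i) (if_neg hi)

/-- first part -/
theorem W0_first (f g : (I → ℤˣ) → ℝ) (η η' : I → ℤˣ) :
    ∑ σ : I → ℤˣ, f (σ * η) * g (σ * η') =
      2 ^ Fintype.card I * ∑ A : Finset I, fh f A * fh g A * (chi A η * chi A η') := by
  have h1 : ∀ σ : I → ℤˣ, f (σ * η) * g (σ * η') = ∑ A : Finset I, ∑ B : Finset I,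
      (fh f A * fh g B * (chi A η * chi B η')) * (chi A σ * chi B σ) := by
    intro σ
    rw [W0_inv f (σ * η), W0_inv g (σ * η'), Finset.sum_mul_sum]
    refine Finset.sum_congr rfl fun A _ => Finset.sum_congr rfl fun B _ => ?_
    rw [W0_chi_mul, W0_chi_mul]
    ring
  rw [Finset.sum_congr rfl fun σ _ => h1 σ, Finset.sum_comm, Finset.mul_sum]
  refine Finset.sum_congr rfl fun A _ => ?_
  rw [Finset.sum_comm]
  have h2 : ∀ B : Finset I, ∑ σ : I → ℤˣ,
      (fh f A * fh g B * (chi A η * chi B η')) * (chi A σ * chi B σ) =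
      (fh f A * fh g B * (chi A η * chi B η')) * if A = B then (2 : ℝ) ^ Fintype.card I else 0 := by
    intro B
    rw [← Finset.mul_sum, W0_orth]
  rw [Finset.sum_congr rfl fun B _ => h2 B, Finset.sum_eq_single A]
  · rw [if_pos rfl, mul_comm]
  · intro B _ hB
    rw [if_neg (Ne.symm hB), mul_zero]
  · intro h
    exact absurd (Finset.mem_univ _) h

theorem W0_par (f g : (I → ℤˣ) → ℝ) :
    ∑ σ : I → ℤˣ, f σ * g σ = 2 ^ Fintype.card I * ∑ A : Finset I, fh f A * fh g A := by
  have h := W0_first f g 1 1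
  simp only [mul_one, W0_chi_one] at h
  exact h

theorem thm_W0 : St_W0 := by
  intro I _ _
  refine ⟨fun f g η η' => W0_first f g η η', ?_⟩
  intro f y j hy
  have h1 : (∑ η, (2 * f η * y η - y η ^ 2)) / 2 ^ Fintype.card I =
      ∑ A : Finset I, (2 * (fh f A * fh y A) - fh y A * fh y A) := by
    have h2 : ∑ η, (2 * f η * y η - y η ^ 2) =
        2 * ∑ η, f η * y η - ∑ η, y η * y η := by
      rw [Finset.mul_sum, ← Finset.sum_sub_distrib]
      exact Finset.sum_congr rfl fun η _ => by ring
    rw [h2, W0_par, W0_par, Finset.sum_sub_distrib, ← Finset.mul_sum]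
    field_simp
  rw [h1]
  have h3 : ∑ A ∈ (univ : Finset (Finset I)).filter (fun A => A.card ≤ j),
      (2 * (fh f A * fh y A) - fh y A * fh y A) =
      ∑ A : Finset I, (2 * (fh f A * fh y A) - fh y A * fh y A) := by
    refine Finset.sum_subset (Finset.filter_subset _ _) fun A _ hA => ?_
    have h4 : j < A.card := by
      by_contra hc
      exact hA (Finset.mem_filter.2 ⟨Finset.mem_univ _, not_lt.1 hc⟩)
    rw [hy A h4]
    ring
  rw [← h3]
  refine Finset.sum_le_sum fun A _ => ?_
  nlinarith [sq_nonneg (fh f A - fh y A)]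

end Pool.Agent.XPS
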