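import Pool.Agent.XPS.St

/-!
# W1 : the weights
-/

set_option autoImplicit false

namespace Pool.Agent.XPS

open Finset MeasureTheory ProbabilityTheory Filter Topology
open scoped ENNReal

private theorem W1_cont {d j : ℕ} (J : Fin j → Fin d) :
    Continuous fun x : E d => ∏ l, x (J l) := by
  fun_prop

private theorem W1_bound {d j : ℕ} (J : Fin j → Fin d) {x : E d} (hx : ‖x‖ = 1) :
    ‖∏ l, x (J l)‖ ≤ 1 := by
  rw [norm_prod]
  refine prod_le_one (fun _ _ => norm_nonneg _) fun l _ => ?_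
  rw [← hx]
  exact PiLp.norm_apply_le x (J l)

private theorem W1_int {d j : ℕ} (J : Fin j → Fin d) (μ : Measure (E d)) [IsProbabilityMeasure μ]
    (h : ∀ᵐ x ∂μ, ‖x‖ = 1) : Integrable (fun x : E d => ∏ l, x (J l)) μ := by
  refine Integrable.of_bound (W1_cont J).aestronglyMeasurable 1 ?_
  filter_upwards [h] with x hx
  exact W1_bound J hx

private theorem W1_inner {d : ℕ} (j : ℕ) (x y : E d) :
    (inner ℝ x y : ℝ) ^ j = ∑ J : Fin j → Fin d, (∏ l, x (J l)) * ∏ l, y (J l) := by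
  have h : (inner ℝ x y : ℝ) = ∑ i, x i * y i := by
    rw [PiLp.inner_apply]
    refine sum_congr rfl fun i _ => ?_
    simp [mul_comm]
  rw [h, Fintype.sum_pow]
  exact sum_congr rfl fun J _ => prod_mul_distrib

private theorem W1_double {d : ℕ} (j : ℕ) (μ μ' : Measure (E d)) [IsProbabilityMeasure μ]
    [IsProbabilityMeasure μ'] (h : ∀ᵐ x ∂μ, ‖x‖ = 1) (h' : ∀ᵐ x ∂μ', ‖x‖ = 1) :
    ∫ x, ∫ y, (inner ℝ x y : ℝ) ^ j ∂μ' ∂μ =
      ∑ J : Fin j → Fin d, (∫ x, ∏ l, x (J l) ∂μ) * ∫ x, ∏ l, x (J l) ∂μ' := by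
  have h1 : ∀ x : E d, ∫ y, (inner ℝ x y : ℝ) ^ j ∂μ' =
      ∑ J : Fin j → Fin d, (∏ l, x (J l)) * ∫ y, ∏ l, y (J l) ∂μ' := by
    intro x
    simp only [W1_inner]
    rw [integral_finsetSum _ fun J _ => (W1_int J μ' h').const_mul _]
    exact sum_congr rfl fun J _ => integral_const_mul _ _
  simp only [h1]
  rw [integral_finsetSum _ fun J _ => (W1_int J μ h).mul_const _]
  exact sum_congr rfl fun J _ => integral_mul_const _ _

private theorem W1_le {d : ℕ} (j : ℕ) (μ μ' : Measure (E d)) [IsProbabilityMeasure μ]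
    [IsProbabilityMeasure μ'] (h : ∀ᵐ x ∂μ, ‖x‖ = 1) (h' : ∀ᵐ x ∂μ', ‖x‖ = 1) :
    ∫ x, ∫ y, (inner ℝ x y : ℝ) ^ j ∂μ' ∂μ ≤ 1 := by
  have h1 : ∀ᵐ x ∂μ, ‖∫ y, (inner ℝ x y : ℝ) ^ j ∂μ'‖ ≤ 1 := by
    filter_upwards [h] with x hx
    have h2 : ∀ᵐ y ∂μ', ‖(inner ℝ x y : ℝ) ^ j‖ ≤ 1 := by
      filter_upwards [h'] with y hy
      rw [norm_pow]
      refine pow_le_one₀ (norm_nonneg _) ?_
      have h3 := norm_inner_le_norm (𝕜 := ℝ) x y
      rwa [hx, hy, one_mul] at h3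
    have h4 := norm_integral_le_of_norm_le_const h2
    simpa using h4
  have h5 := norm_integral_le_of_norm_le_const h1
  have h6 : ‖∫ x, ∫ y, (inner ℝ x y : ℝ) ^ j ∂μ' ∂μ‖ ≤ 1 := by simpa using h5
  exact (le_abs_self _).trans h6

theorem thm_W1 (h0 : St_W0) (hS : St_S1) : St_W1 := by
  intro d I _ _ ν j hd hp hu hsum
  have := hp
  have hform : ∀ η η' : I → ℤˣ, ∑ σ : I → ℤˣ,
      ∫ x, ∫ x', (inner ℝ x x' : ℝ) ^ j ∂(ν (σ * η')) ∂(ν (σ * η))
        = 2 ^ Fintype.card I * ∑ A : Finset I, ww ν j A * (chi A η * chi A η') := by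
    intro η η'
    have h1 : ∀ σ : I → ℤˣ, ∫ x, ∫ x', (inner ℝ x x' : ℝ) ^ j ∂(ν (σ * η')) ∂(ν (σ * η)) =
        ∑ J : Fin j → Fin d, (fun η => ∫ x, ∏ l, x (J l) ∂(ν η)) (σ * η) *
          (fun η => ∫ x, ∏ l, x (J l) ∂(ν η)) (σ * η') := fun σ =>
      W1_double j _ _ (hu _) (hu _)
    rw [sum_congr rfl fun σ _ => h1 σ, sum_comm]
    rw [sum_congr rfl fun J _ => (h0 I).1 (fun η => ∫ x, ∏ l, x (J l) ∂(ν η))
      (fun η => ∫ x, ∏ l, x (J l) ∂(ν η)) η η']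
    rw [← mul_sum, sum_comm]
    congr 1
    refine sum_congr rfl fun A _ => ?_
    unfold ww
    rw [sum_mul]
    exact sum_congr rfl fun J _ => by ring
  obtain ⟨hs1, hs2, _⟩ := hS d hd
  have := hs1
  refine ⟨hform, ?_, ?_⟩
  · unfold ww mu
    rw [W1_double j _ _ hs2 hs2]
    refine sum_congr rfl fun J _ => ?_
    rw [sq]
    have h2 : fh (fun η => ∫ x, ∏ l, x (J l) ∂(ν η)) ∅ = ∫ x, ∏ l, x (J l) ∂(sph d) := by
      unfold fh chi
      simp only [prod_empty, mul_one]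
      rw [← integral_finsetSum_measure fun η _ => W1_int J (ν η) (hu η), hsum,
        integral_smul_measure]
      have h3 : ((2 : ℝ≥0∞) ^ Fintype.card I).toReal = 2 ^ Fintype.card I := by
        simp
      rw [h3, smul_eq_mul]
      field_simp
    rw [h2]
  · have h4 := hform 1 1
    have h5 : ∀ A : Finset I, chi A (1 : I → ℤˣ) = 1 := by
      intro A
      simp [chi, sv]
    simp only [h5, mul_one] at h4
    have h6 : ∑ σ : I → ℤˣ, ∫ x, ∫ x', (inner ℝ x x' : ℝ) ^ j ∂(ν σ) ∂(ν σ) ≤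
        2 ^ Fintype.card I := by
      refine (sum_le_card_nsmul _ _ 1 fun σ _ => W1_le j _ _ (hu σ) (hu σ)).trans (le_of_eq ?_)
      simp
    rw [h4] at h6
    have h7 : (0 : ℝ) < 2 ^ Fintype.card I := by positivity
    nlinarith

end Pool.Agent.XPS
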