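import Pool.Agent.XPS.St

/-! MP_b22a07_co, XPS: module W2 (weights, lower bound). -/

set_option autoImplicit false

namespace Pool.Agent.XPS

open Finset MeasureTheory ProbabilityTheory Filter Topology

private lemma W2_sv_mul (a b : ℤˣ) : sv (a * b) = sv a * sv b := by
  simp [sv]

private lemma W2_chi_mul {I : Type} (A : Finset I) (σ η : I → ℤˣ) :
    chi A (σ * η) = chi A σ * chi A η := by
  simp only [chi, Pi.mul_apply, W2_sv_mul, Finset.prod_mul_distrib]

private lemma W2_chi_flip {I : Type} [DecidableEq I] (A : Finset I) (p : I) (hp : p ∈ A) :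
    chi A (Pi.mulSingle p (-1 : ℤˣ)) = -1 := by
  unfold chi
  rw [Finset.prod_eq_single_of_mem p hp]
  · simp [sv]
  · intro b _ hb
    simp [sv, Pi.mulSingle_eq_of_ne hb]

/-- products of fewer signs are orthogonal to larger characters -/
private lemma W2_zero {I : Type} [Fintype I] [DecidableEq I] (j : ℕ) (q : Fin j → I) (A : Finset I)
    (hA : j < A.card) : ∑ η : I → ℤˣ, (∏ l, sv (η (q l))) * chi A η = 0 := by
  classical
  have hex : ∃ p ∈ A, ∀ l, q l ≠ p := by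
    by_contra hcon
    push Not at hcon
    have hsub : A ⊆ (univ : Finset (Fin j)).image q := by
      intro p hp
      obtain ⟨l, hl⟩ := hcon p hp
      exact Finset.mem_image.2 ⟨l, Finset.mem_univ _, hl⟩
    have h1 := Finset.card_le_card hsub
    have h2 : ((univ : Finset (Fin j)).image q).card ≤ j := by
      have := Finset.card_image_le (s := (univ : Finset (Fin j))) (f := q)
      simpa using this
    omega
  obtain ⟨p, hpA, hp⟩ := hex
  have key := Equiv.sum_comp (Equiv.mulLeft (Pi.mulSingle p (-1 : ℤˣ) : I → ℤˣ))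
    (fun η : I → ℤˣ => (∏ l, sv (η (q l))) * chi A η)
  have h2 : ∀ η : I → ℤˣ, (∏ l, sv ((Equiv.mulLeft (Pi.mulSingle p (-1 : ℤˣ) : I → ℤˣ) η) (q l)))
      * chi A (Equiv.mulLeft (Pi.mulSingle p (-1 : ℤˣ) : I → ℤˣ) η)
      = - ((∏ l, sv (η (q l))) * chi A η) := by
    intro η
    rw [Equiv.coe_mulLeft, W2_chi_mul, W2_chi_flip A p hpA]
    have h3 : ∏ l, sv (((Pi.mulSingle p (-1 : ℤˣ) : I → ℤˣ) * η) (q l)) = ∏ l, sv (η (q l)) := by
      refine Finset.prod_congr rfl fun l _ => ?_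
      rw [Pi.mul_apply, Pi.mulSingle_eq_of_ne (hp l), one_mul]
    rw [h3]
    ring
  simp only [h2, Finset.sum_neg_distrib] at key
  linarith

private lemma W2_fh_zero {d K : ℕ} (j : ℕ) (J : Fin j → Fin d) (A : Finset (Fin d × Fin K))
    (hA : j < A.card) : fh (fun η : Fin d × Fin K → ℤˣ => ∏ l, (yv η) (J l)) A = 0 := by
  classical
  unfold fh
  have h1 : ∀ η : Fin d × Fin K → ℤˣ, ∏ l, (yv η) (J l)
      = ((1 / √(K : ℝ) / √(d : ℝ)) ^ j) * ∑ k : Fin j → Fin K, ∏ l, sv (η (J l, k l)) := by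
    intro η
    have h2 : ∀ l, (yv η) (J l) = (1 / √(K : ℝ) / √(d : ℝ)) * ∑ k, sv (η (J l, k)) := by
      intro l
      simp only [yv, BB]
      ring
    simp only [h2, Finset.prod_mul_distrib, Finset.prod_const, Finset.card_univ, Fintype.card_fin]
    congr 1
    rw [Finset.prod_univ_sum]
    simp
  simp only [h1, mul_assoc]
  rw [← Finset.mul_sum]
  simp only [Finset.sum_mul]
  rw [Finset.sum_comm]
  have h3 : ∀ k : Fin j → Fin K, ∑ η : Fin d × Fin K → ℤˣ,
      (∏ l, sv (η (J l, k l))) * chi A η = 0 := fun k => W2_zero j (fun l => (J l, k l)) A hA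
  simp [h3]

private lemma W2_coord {d : ℕ} (x : E d) (hx : ‖x‖ = 1) (i : Fin d) : |x i| ≤ 1 := by
  have := EuclideanSpace.norm_eq x
  have h1 : ‖x i‖ ≤ ‖x‖ := PiLp.norm_apply_le x i
  rw [hx] at h1
  simpa using h1

private lemma W2_int {d : ℕ} (μ : Measure (E d)) [IsProbabilityMeasure μ] (hμ : ∀ᵐ x ∂μ, ‖x‖ = 1)
    {j : ℕ} (J : Fin j → Fin d) : Integrable (fun x : E d => ∏ l, x (J l)) μ := by
  refine Integrable.of_bound (C := 1) ?_ ?_
  · exact (Continuous.aestronglyMeasurable (by fun_prop))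
  · filter_upwards [hμ] with x hx
    rw [Real.norm_eq_abs, Finset.abs_prod]
    exact Finset.prod_le_one (fun _ _ => abs_nonneg _) (fun l _ => W2_coord x hx _)

private lemma W2_inner {d : ℕ} (x y : E d) (j : ℕ) :
    (inner ℝ x y : ℝ) ^ j = ∑ J : Fin j → Fin d, (∏ l, x (J l)) * ∏ l, y (J l) := by
  have h1 : (inner ℝ x y : ℝ) = ∑ i, x i * y i := by
    rw [PiLp.inner_apply]
    refine Finset.sum_congr rfl fun i _ => ?_
    simp [mul_comm]
  rw [h1, Fintype.sum_pow]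
  refine Finset.sum_congr rfl fun J _ => ?_
  rw [Finset.prod_mul_distrib]

private lemma W2_norm {d : ℕ} (y : E d) (j : ℕ) :
    ‖y‖ ^ (2 * j) = ∑ J : Fin j → Fin d, (∏ l, y (J l)) ^ 2 := by
  rw [pow_mul, ← real_inner_self_eq_norm_sq, W2_inner]
  refine Finset.sum_congr rfl fun J _ => ?_
  rw [sq]

private lemma W2_V {d : ℕ} (μ : Measure (E d)) [IsProbabilityMeasure μ] (hμ : ∀ᵐ x ∂μ, ‖x‖ = 1)
    (y : E d) (j : ℕ) :
    ∫ x, (1 - 2 * (inner ℝ x y : ℝ) ^ j + ‖y‖ ^ (2 * j)) ∂μ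
      = 1 - ∑ J : Fin j → Fin d, (2 * (∫ x, ∏ l, x (J l) ∂μ) * (∏ l, y (J l)) - (∏ l, y (J l)) ^ 2) := by
  have hI : Integrable (fun x : E d => (inner ℝ x y : ℝ) ^ j) μ := by
    simp only [W2_inner]
    exact integrable_finsetSum _ fun J _ => (W2_int μ hμ J).mul_const _
  have h1 : ∫ x, (inner ℝ x y : ℝ) ^ j ∂μ
      = ∑ J : Fin j → Fin d, (∫ x, ∏ l, x (J l) ∂μ) * ∏ l, y (J l) := by
    simp only [W2_inner]
    rw [integral_finsetSum _ fun J _ => (W2_int μ hμ J).mul_const _]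
    refine Finset.sum_congr rfl fun J _ => ?_
    rw [integral_mul_const]
  have h2 : ∫ x, (1 - 2 * (inner ℝ x y : ℝ) ^ j + ‖y‖ ^ (2 * j)) ∂μ
      = 1 - 2 * (∫ x, (inner ℝ x y : ℝ) ^ j ∂μ) + ‖y‖ ^ (2 * j) := by
    have h3 : Integrable (fun x : E d => 1 - 2 * (inner ℝ x y : ℝ) ^ j) μ :=
      (integrable_const _).sub (hI.const_mul 2)
    rw [integral_add h3 (integrable_const _), integral_sub (integrable_const _) (hI.const_mul 2),
      integral_const_mul]
    simp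
  rw [h2, h1, W2_norm, Finset.sum_sub_distrib]
  simp only [mul_assoc]
  rw [← Finset.mul_sum]
  ring

/-- **W2.** -/
theorem thm_W2 (h : St_W0) : St_W2 := by
  intro d K ν j hν hu
  classical
  have hcard : Fintype.card (Fin d × Fin K) = d * K := by simp
  have hpos : (0 : ℝ) < 2 ^ (d * K) := by positivity
  have hnum : (Fintype.card (Fin d × Fin K → ℤˣ) : ℝ) = 2 ^ (d * K) := by
    rw [Fintype.card_fun, hcard]
    norm_num
  set V : (Fin j → Fin d) → (Fin d × Fin K → ℤˣ) → ℝ := fun J η => ∫ x, ∏ l, x (J l) ∂(ν η) with hV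
  set Y : (Fin j → Fin d) → (Fin d × Fin K → ℤˣ) → ℝ := fun J η => ∏ l, (yv η) (J l) with hY
  have h0 : ∀ J : Fin j → Fin d, (∑ η, (2 * V J η * Y J η - Y J η ^ 2)) / 2 ^ (d * K)
      ≤ ∑ A ∈ (univ : Finset (Finset (Fin d × Fin K))).filter (fun A => A.card ≤ j), fh (V J) A ^ 2 := by
    intro J
    have := (h (Fin d × Fin K)).2 (V J) (Y J) j (fun A hA => W2_fh_zero j J A hA)
    rwa [hcard] at this
  have h1 : ∑ η, ∫ x, (1 - 2 * (inner ℝ x (yv η) : ℝ) ^ j + ‖yv η‖ ^ (2 * j)) ∂(ν η)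
      = 2 ^ (d * K) - ∑ J : Fin j → Fin d, ∑ η, (2 * V J η * Y J η - Y J η ^ 2) := by
    rw [Finset.sum_comm, ← hnum]
    have h2 : ∀ η, ∫ x, (1 - 2 * (inner ℝ x (yv η) : ℝ) ^ j + ‖yv η‖ ^ (2 * j)) ∂(ν η)
        = 1 - ∑ J : Fin j → Fin d, (2 * V J η * Y J η - Y J η ^ 2) := by
      intro η
      have := hν η
      exact W2_V (ν η) (hu η) (yv η) j
    rw [Finset.sum_congr rfl fun η _ => h2 η, Finset.sum_sub_distrib]
    simp
  have h3 : ∑ A ∈ (univ : Finset (Finset (Fin d × Fin K))).filter (fun A => A.card ≤ j), ww ν j A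
      = ∑ J : Fin j → Fin d,
        ∑ A ∈ (univ : Finset (Finset (Fin d × Fin K))).filter (fun A => A.card ≤ j), fh (V J) A ^ 2 := by
    unfold ww
    rw [Finset.sum_comm]
  rw [h1, h3]
  have h4 := Finset.sum_le_sum fun (J : Fin j → Fin d) (_ : J ∈ univ) => h0 J
  rw [← Finset.sum_div] at h4
  have h5 : 1 - (2 ^ (d * K) - ∑ J : Fin j → Fin d, ∑ η, (2 * V J η * Y J η - Y J η ^ 2)) / 2 ^ (d * K)
      = (∑ J : Fin j → Fin d, ∑ η, (2 * V J η * Y J η - Y J η ^ 2)) / 2 ^ (d * K) := by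
    field_simp
    ring
  rw [h5]
  exact h4

end Pool.Agent.XPS
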