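import Pool.Agent.XPS.BC
import Pool.Agent.XPS.FU
import Pool.Agent.XPS.S1
import Pool.Agent.XPS.S2
import Pool.Agent.XPS.S3
import Pool.Agent.XPS.S4
import Pool.Agent.XPS.S5
import Pool.Agent.XPS.UM
import Pool.Agent.XPS.UB
import Pool.Agent.XPS.SF
import Pool.Agent.XPS.C0
import Pool.Agent.XPS.CM
import Pool.Agent.XPS.C1
import Pool.Agent.XPS.C2
import Pool.Agent.XPS.C3
import Pool.Agent.XPS.C4
import Pool.Agent.XPS.C6
import Pool.Agent.XPS.C7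
import Pool.Agent.XPS.C8
import Pool.Agent.XPS.C9
import Pool.Agent.XPS.CD
import Pool.Agent.XPS.D1
import Pool.Agent.XPS.D2
import Pool.Agent.XPS.D3
import Pool.Agent.XPS.D4
import Pool.Agent.XPS.D5
import Pool.Agent.XPS.D6
import Pool.Agent.XPS.D7
import Pool.Agent.XPS.D8
import Pool.Agent.XPS.D9
import Pool.Agent.XPS.W0
import Pool.Agent.XPS.W1
import Pool.Agent.XPS.W2
import Pool.Agent.XPS.EX
import Pool.Agent.XPS.BJ
import Pool.Agent.XPS.BL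
import Pool.Agent.XPS.IN
import Pool.Agent.XPS.LB
import Pool.Agent.XPM.PE
import Pool.Agent.XPS.UX
import Pool.Agent.XPS.LX

set_option autoImplicit false

/-! Assembly of Theorem S (MP_b22a07_co). -/

namespace Pool.Agent.XPS

theorem all_FU : St_FU := thm_FU thm_BC
theorem all_FL : St_FL := thm_FL thm_BC
theorem all_S2 : St_S2 := thm_S2 thm_S1
theorem all_S3 : St_S3 := thm_S3 thm_S1
theorem all_S4 : St_S4 := thm_S4 thm_S1 all_S2
theorem all_S5 : St_S5 := thm_S5 thm_BC all_FU all_FL thm_S1 all_S3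
theorem all_UM : St_UM := thm_UM all_S2 all_S3
theorem all_UB : St_UB := thm_UB thm_BC all_FU all_S4 all_S5 all_UM
theorem all_SF : St_SF := thm_SF thm_S1 all_S2
theorem all_CM : St_CM := thm_CM thm_CO
theorem all_C2 : St_C2 := thm_C2 thm_C1
theorem all_C3 : St_C3 := thm_C3 all_CM all_C2
theorem all_C4 : St_C4 := thm_C4 all_C3
theorem all_C5 : St_C5 := thm_C5 thm_C0 all_CM all_C2 all_C4
theorem all_C7 : St_C7 := thm_C7 thm_C0 thm_CO thm_C1 all_C5 thm_C6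
theorem all_C8 : St_C8 := thm_C8 thm_C0 all_CM all_C2 all_C4
theorem all_C9 : St_C9 := thm_C9 thm_C0 thm_CO thm_C1 all_C8
theorem all_CD : St_CD := thm_CD all_C7 all_C9
theorem all_D3 : St_D3 := thm_D3 thm_D2
theorem all_D4 : St_D4 := thm_D4 thm_D1 all_D3
theorem all_D5 : St_D5 := thm_D5 thm_S1
theorem all_D6 : St_D6 := thm_D6 all_D5
theorem all_D9 : St_D9 := thm_D9 all_D4 all_D5 all_D6 thm_D7 thm_D8
theorem all_W1 : St_W1 := thm_W1 thm_W0 thm_S1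
theorem all_W2 : St_W2 := thm_W2 thm_W0
theorem all_BJ : St_BJ := thm_BJ all_W1
theorem all_BL : St_BL := thm_BL thm_BC all_S2 all_S5 all_CD all_D9 all_W2 thm_EX all_BJ
theorem all_IN : St_IN := thm_IN thm_S1 all_S2 all_S5 all_BL
theorem all_LB : St_LB := thm_LB thm_BC all_FL all_S4 all_S5 all_IN Pool.Agent.XPM.thm_PE


theorem all_UX : ∀ s : ℕ, ∃ C : ℝ, 0 < C ∧ ∀ (d N : ℕ) (x : Fin N → E d), 1 ≤ d → (∀ i, ‖x i‖ = 1) →
    ∑ a, ∑ b, Pool.Agent.XPM.ff (inner ℝ (x a) (x b) : ℝ)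
      ≤ (N : ℝ) ^ 2 * cf d - rr (2 * s + 1) * N + C * (N : ℝ) ^ 2 / (d : ℝ) ^ (s + 1) :=
  thm_UX thm_BC all_FU all_S4 all_S5 all_UM

theorem all_LX : ∀ (s : ℕ) (ε : ℝ), 1 ≤ s → 0 < ε → ∃ C : ℝ, 0 < C ∧ ∀ d N : ℕ, 2 ≤ d →
    ∃ X : Fin N → E d, Function.Injective X ∧ (∀ i, ‖X i‖ = 1) ∧
      (N : ℝ) ^ 2 * cf d - (rr (2 * s + 1) + ε) * N
          - C * ((d : ℝ) ^ s + (N : ℝ) ^ 2 / (d : ℝ) ^ (s + 1))
        ≤ ∑ a, ∑ b, Pool.Agent.XPM.ff (inner ℝ (X a) (X b) : ℝ) :=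
  thm_LX thm_BC all_FL all_S3 all_S4 all_S5 all_IN Pool.Agent.XPM.thm_PE

end Pool.Agent.XPS
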