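import Pool.Agent.XPS.St

/-! Module BC of XPS (MP_b22a07_co): the coefficients of `√(1 - t)`. -/

set_option autoImplicit false

namespace Pool.Agent.XPS

open Finset

theorem BC_cb (j : ℕ) : ((j : ℝ) + 1) * (Nat.centralBinom (j + 1) : ℝ) =
    2 * (2 * (j : ℝ) + 1) * (Nat.centralBinom j : ℝ) := by
  have h := Nat.succ_mul_centralBinom_succ j
  exact_mod_cast h

theorem BC_cbpos (j : ℕ) : (0 : ℝ) < (Nat.centralBinom j : ℝ) := by
  exact_mod_cast Nat.centralBinom_pos j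

theorem BC_two (j : ℕ) (hj : 1 ≤ j) : (0 : ℝ) < 2 * (j : ℝ) - 1 := by
  have : (1 : ℝ) ≤ (j : ℝ) := by exact_mod_cast hj
  linarith

/-- `rr n = (2 n - 1) bc n` -/
theorem BC_rr (n : ℕ) (hn : 1 ≤ n) : rr n = (2 * (n : ℝ) - 1) * bc n := by
  have h1 := BC_two n hn
  unfold rr bc
  field_simp

/-- `rr (n + 1) (2 n + 2) = rr n (2 n + 1)` -/
theorem BC_rs (n : ℕ) : rr (n + 1) * (2 * (n : ℝ) + 2) = rr n * (2 * (n : ℝ) + 1) := by
  have h1 := BC_cb n
  have h2 : (4 : ℝ) ^ n ≠ 0 := by positivity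
  have h3 : rr (n + 1) = (Nat.centralBinom (n + 1) : ℝ) / (4 * 4 ^ n) := by
    unfold rr
    rw [pow_succ, mul_comm]
  have h4 : rr n = (Nat.centralBinom n : ℝ) / 4 ^ n := rfl
  rw [h3, h4, div_mul_eq_mul_div, div_mul_eq_mul_div, div_eq_div_iff (by positivity) h2]
  linear_combination (2 * (4 : ℝ) ^ n) * h1

/-- `bc (n + 1) (2 n + 2) = rr n` -/
theorem BC_br (n : ℕ) : bc (n + 1) * (2 * (n : ℝ) + 2) = rr n := by
  have h1 := BC_rr (n + 1) (Nat.succ_le_succ (Nat.zero_le n))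
  have h2 := BC_rs n
  push_cast at h1
  have h3 : (0 : ℝ) < 2 * (n : ℝ) + 1 := by positivity
  have h4 : (2 * (n : ℝ) + 1) * (bc (n + 1) * (2 * (n : ℝ) + 2)) = (2 * (n : ℝ) + 1) * rr n := by
    rw [h1] at h2
    linear_combination h2
  exact mul_left_cancel₀ h3.ne' h4

theorem thm_BC : St_BC := by
  have hrpos : ∀ n : ℕ, 0 < rr n := fun n => div_pos (BC_cbpos n) (by positivity)
  have hr0 : rr 0 = 1 := by simp [rr]
  have hbpos : ∀ j : ℕ, 1 ≤ j → 0 < bc j := fun j hj =>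
    div_pos (BC_cbpos j) (mul_pos (by positivity) (BC_two j hj))
  have hstep : ∀ n : ℕ, rr n - bc (n + 1) = rr (n + 1) := by
    intro n
    have h1 := BC_rr (n + 1) (Nat.succ_le_succ (Nat.zero_le n))
    have h2 := BC_br n
    push_cast at h1
    linear_combination (-1 : ℝ) * h1 - h2
  have hsum : ∀ n : ℕ, 1 - ∑ j ∈ Icc 1 n, bc j = rr n := by
    intro n
    induction n with
    | zero => simp [hr0]
    | succ n ih =>
      rw [Finset.sum_Icc_succ_top (Nat.succ_le_succ (Nat.zero_le n)), ← hstep n, ← ih]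
      ring
  refine ⟨hbpos, ?_, ?_, ?_, hsum, BC_rr⟩
  · have h1 := BC_br 0
    rw [hr0] at h1
    norm_num at h1
    linarith
  · intro j hj
    rw [BC_br, BC_rr j hj, mul_comm]
  · intro n
    refine ⟨hrpos n, ?_⟩
    rw [← hsum n]
    have h1 : 0 ≤ ∑ j ∈ Icc 1 n, bc j :=
      Finset.sum_nonneg fun j hj => (hbpos j (Finset.mem_Icc.1 hj).1).le
    linarith

end Pool.Agent.XPS
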