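import Pool.Agent.XPS.St

set_option autoImplicit false

/-!
MP_b22a07_co, module BL (helper96): the block lemma.
-/

namespace Pool.Agent.XPS

open Finset MeasureTheory ProbabilityTheory Filter Topology
open scoped ENNReal

private theorem BL_qqc (n : ℕ) : Continuous (qq n) := by
  unfold qq pp
  refine Continuous.sub (Continuous.sub continuous_const ?_) (by fun_prop)
  exact continuous_finsetSum _ fun j _ => by fun_prop

private theorem BL_bd (φ : ℝ → ℝ) (hφ : Continuous φ) :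
    ∃ B : ℝ, ∀ t ∈ Set.Icc (-1 : ℝ) 1, ‖φ t‖ ≤ B :=
  isCompact_Icc.exists_bound_of_continuousOn hφ.continuousOn

private theorem BL_inn {d : ℕ} {x y : E d} (hx : ‖x‖ = 1) (hy : ‖y‖ = 1) :
    (inner ℝ x y : ℝ) ∈ Set.Icc (-1 : ℝ) 1 := by
  have h := abs_real_inner_le_norm x y
  rw [hx, hy, one_mul] at h
  exact abs_le.1 h

private theorem BL_i1 {d : ℕ} (ν : Measure (E d)) [IsProbabilityMeasure ν]
    (hν : ∀ᵐ x ∂ν, ‖x‖ = 1) (φ : ℝ → ℝ) (hφ : Continuous φ) (x : E d) (hx : ‖x‖ = 1) :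
    Integrable (fun y => φ (inner ℝ x y : ℝ)) ν := by
  obtain ⟨B, hB⟩ := BL_bd φ hφ
  refine Integrable.of_bound (C := B) ?_ ?_
  · exact (hφ.comp (by fun_prop)).aestronglyMeasurable
  · filter_upwards [hν] with y hy
    exact hB _ (BL_inn hx hy)

private theorem BL_i2 {d : ℕ} (μ ν : Measure (E d)) [IsProbabilityMeasure μ]
    [IsProbabilityMeasure ν] (hμ : ∀ᵐ x ∂μ, ‖x‖ = 1) (hν : ∀ᵐ x ∂ν, ‖x‖ = 1) (φ : ℝ → ℝ)
    (hφ : Continuous φ) : Integrable (fun x => ∫ y, φ (inner ℝ x y : ℝ) ∂ν) μ := by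
  obtain ⟨B, hB⟩ := BL_bd φ hφ
  refine Integrable.of_bound (C := B) ?_ ?_
  · have hc : Continuous (fun p : E d × E d => φ (inner ℝ p.1 p.2 : ℝ)) :=
      hφ.comp (by fun_prop)
    exact (hc.stronglyMeasurable.integral_prod_right').aestronglyMeasurable
  · filter_upwards [hμ] with x hx
    have h := norm_integral_le_of_norm_le_const (μ := ν) (f := fun y => φ (inner ℝ x y : ℝ))
      (C := B) (hν.mono fun y hy => hB _ (BL_inn hx hy))
    simpa using h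

private theorem BL_one {d : ℕ} (n : ℕ) (ν : Measure (E d)) [IsProbabilityMeasure ν]
    (hν : ∀ᵐ x ∂ν, ‖x‖ = 1) (x : E d) (hx : ‖x‖ = 1) :
    ∫ y, qq n (inner ℝ x y : ℝ) ∂ν = 1 - (∑ j ∈ Icc 1 n, bc j * ∫ y, (inner ℝ x y : ℝ) ^ j ∂ν)
      - rr n * ∫ y, (inner ℝ x y : ℝ) ^ (n + 1) ∂ν := by
  have hi : ∀ j : ℕ, Integrable (fun y => (inner ℝ x y : ℝ) ^ j) ν := fun j =>
    BL_i1 ν hν (fun t => t ^ j) (by fun_prop) x hx
  unfold qq pp
  have h1 : Integrable (fun y => ∑ j ∈ Icc 1 n, bc j * (inner ℝ x y : ℝ) ^ j) ν :=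
    integrable_finsetSum _ fun j _ => (hi j).const_mul _
  have h2 : Integrable (fun y => 1 - ∑ j ∈ Icc 1 n, bc j * (inner ℝ x y : ℝ) ^ j) ν :=
    (integrable_const _).sub h1
  rw [integral_sub h2 ((hi (n + 1)).const_mul _), integral_sub (integrable_const _) h1,
    integral_finsetSum _ fun j _ => (hi j).const_mul _, integral_const_mul]
  simp [integral_const_mul]

private theorem BL_two {d : ℕ} (n : ℕ) (μ ν : Measure (E d)) [IsProbabilityMeasure μ]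
    [IsProbabilityMeasure ν] (hμ : ∀ᵐ x ∂μ, ‖x‖ = 1) (hν : ∀ᵐ x ∂ν, ‖x‖ = 1) :
    ∫ x, ∫ y, qq n (inner ℝ x y : ℝ) ∂ν ∂μ
      = 1 - (∑ j ∈ Icc 1 n, bc j * ∫ x, ∫ y, (inner ℝ x y : ℝ) ^ j ∂ν ∂μ)
      - rr n * ∫ x, ∫ y, (inner ℝ x y : ℝ) ^ (n + 1) ∂ν ∂μ := by
  have hi : ∀ j : ℕ, Integrable (fun x => ∫ y, (inner ℝ x y : ℝ) ^ j ∂ν) μ := fun j =>
    BL_i2 μ ν hμ hν (fun t => t ^ j) (by fun_prop)
  rw [integral_congr_ae (hμ.mono fun x hx => BL_one n ν hν x hx)]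
  have h1 : Integrable (fun x => ∑ j ∈ Icc 1 n, bc j * ∫ y, (inner ℝ x y : ℝ) ^ j ∂ν) μ :=
    integrable_finsetSum _ fun j _ => (hi j).const_mul _
  have h2 : Integrable (fun x => 1 - ∑ j ∈ Icc 1 n, bc j * ∫ y, (inner ℝ x y : ℝ) ^ j ∂ν) μ :=
    (integrable_const _).sub h1
  rw [integral_sub h2 ((hi (n + 1)).const_mul _), integral_sub (integrable_const _) h1,
    integral_finsetSum _ fun j _ => (hi j).const_mul _, integral_const_mul]
  simp [integral_const_mul]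

/-- the linear part -/
private theorem BL_lin (hS2 : St_S2) {d K : ℕ} (n : ℕ) (hd : 1 ≤ d)
    (ν : (Fin d × Fin K → ℤˣ) → Measure (E d)) (hp : ∀ η, IsProbabilityMeasure (ν η))
    (hu : ∀ η, ∀ᵐ x ∂(ν η), ‖x‖ = 1) (hs : ∑ η, ν η = (2 : ℝ≥0∞) ^ (d * K) • sph d)
    (g : Fin d × Fin K → ℤˣ) (u : E d) (hx : ‖u‖ = 1) :
    ∑ σ : Fin d × Fin K → ℤˣ, ∫ x, qq n (inner ℝ u x : ℝ) ∂(ν (σ * g))
      = 2 ^ (d * K) * cq d n := by
  have h0 : ∑ σ : Fin d × Fin K → ℤˣ, ∫ x, qq n (inner ℝ u x : ℝ) ∂(ν (σ * g))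
      = ∑ σ : Fin d × Fin K → ℤˣ, ∫ x, qq n (inner ℝ u x : ℝ) ∂(ν σ) :=
    Fintype.sum_equiv (Equiv.mulRight g) _ _ fun _ => rfl
  rw [h0, ← integral_finsetSum_measure
    (fun η _ => BL_i1 (ν η) (hu η) (qq n) (BL_qqc n) u hx), hs, integral_smul_measure,
    hS2 d (qq n) u hd (BL_qqc n) hx]
  simp [cq]

private theorem BL_cnt (N : ℕ) :
    (∑ a : Fin N, ∑ b : Fin N, if a = b then (0 : ℝ) else 1) = (N : ℝ) ^ 2 - N := by
  have h : ∀ a : Fin N, (∑ b : Fin N, if a = b then (0 : ℝ) else 1) = (N : ℝ) - 1 := by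
    intro a
    have h1 : ∀ b : Fin N, (if a = b then (0 : ℝ) else 1) = 1 - if a = b then (1 : ℝ) else 0 := by
      intro b
      split_ifs <;> simp
    simp only [h1, Finset.sum_sub_distrib]
    simp
  simp only [h]
  simp
  ring

/-- **BL** -/
theorem thm_BL (hBC : St_BC) (hS2 : St_S2) (hS5 : St_S5) (hCD : St_CD) (hD9 : St_D9)
    (hW2 : St_W2) (hEX : St_EX) (hBJ : St_BJ) : St_BL := by
  intro s δ hs hδ
  obtain ⟨K, d0, hK, hν⟩ := hD9 (2 * s + 1) (δ / 3) (by positivity)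
  obtain ⟨C, hC, hcode⟩ := hCD s K (δ / 3) hs hK (by positivity)
  refine ⟨C, d0, hC, fun d hd hdd => ?_⟩
  obtain ⟨N0, hN0, hN1, Z, iZ, nZ, f, hf⟩ := hcode d hd
  obtain ⟨ν, hp, hu, hsum, hj⟩ := hν d hd hdd
  refine ⟨N0, hN0, hN1, fun M X hX => ?_⟩
  set n : ℕ := 2 * s + 1 with hn
  have hodd : Odd n := ⟨s, hn⟩
  obtain ⟨hbpos, -, -, hr, hsb, -⟩ := hBC
  obtain ⟨hcq, -, -, -⟩ := hS5 d n hd hodd
  -- the expectations
  set G : Z → (Fin d × Fin K → ℤˣ) → ℝ := fun z σ =>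
    (∑ a, ∑ b, if a = b then 0 else
      ∫ x, ∫ x', qq n (inner ℝ x x' : ℝ) ∂(ν (σ * f z b)) ∂(ν (σ * f z a)))
      + ∑ a, ∫ x, (2 * ∑ i, qq n (inner ℝ (X i) x : ℝ)) ∂(ν (σ * f z a)) with hG
  set T : ℝ := (N0 : ℝ) ^ 2 * cq d n - (rr n + δ) * N0 + 2 * M * N0 * cq d n with hT
  -- sums of powers
  set Q : ℕ → ℝ := fun j => ∑ z, ∑ σ : (Fin d × Fin K) → ℤˣ, ∑ a, ∑ b, (if a = b then 0 else
      ∫ x, ∫ x', (inner ℝ x x' : ℝ) ^ j ∂(ν (σ * f z b)) ∂(ν (σ * f z a))) with hQ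
  set P : ℝ := Fintype.card Z * 2 ^ (d * K) with hP
  have hPpos : 0 < P := by
    have : 0 < (Fintype.card Z : ℝ) := by exact_mod_cast Fintype.card_pos
    positivity
  have hQ1 : ∀ j, Q j ≤ P * (mu d j * (N0 : ℝ) ^ 2 + δ / 3 * N0
      - N0 * ∑ A ∈ (univ : Finset (Finset (Fin d × Fin K))).filter (fun A => A.card ≤ 2 * s + 1),
        ww ν j A) := fun j =>
    hBJ d K s N0 (δ / 3) Z f ν j hd (by positivity) hf hp hu hsum
  have hww : ∀ j A, 0 ≤ ww ν j A := fun j A => Finset.sum_nonneg fun _ _ => sq_nonneg _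
  have hQ2 : ∀ j ∈ Icc 1 n, Q j ≤ P * (mu d j * (N0 : ℝ) ^ 2 + δ / 3 * N0 - N0 * (1 - δ / 3)) := by
    intro j hjm
    rw [Finset.mem_Icc] at hjm
    refine (hQ1 j).trans (mul_le_mul_of_nonneg_left ?_ hPpos.le)
    have h1 := hW2 d K ν j hp hu
    have h2 := hj j hjm.1 hjm.2
    have h3 : (∑ η, ∫ x, (1 - 2 * (inner ℝ x (yv η) : ℝ) ^ j + ‖yv η‖ ^ (2 * j)) ∂(ν η))
        / 2 ^ (d * K) ≤ δ / 3 := by
      rw [div_le_iff₀ (by positivity)]
      linarith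
    have h4 : ∑ A ∈ (univ : Finset (Finset (Fin d × Fin K))).filter (fun A => A.card ≤ j), ww ν j A
        ≤ ∑ A ∈ (univ : Finset (Finset (Fin d × Fin K))).filter (fun A => A.card ≤ 2 * s + 1),
          ww ν j A := by
      refine Finset.sum_le_sum_of_subset_of_nonneg ?_ fun A _ _ => hww j A
      intro A hA
      rw [Finset.mem_filter] at hA ⊢
      exact ⟨hA.1, hA.2.trans hjm.2⟩
    have h5 : (0 : ℝ) ≤ N0 := Nat.cast_nonneg _
    nlinarith [mul_le_mul_of_nonneg_left (show 1 - δ / 3 ≤ ∑ A ∈ (univ : Finset (Finset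
      (Fin d × Fin K))).filter (fun A => A.card ≤ 2 * s + 1), ww ν j A by linarith) h5]
  have hQ3 : Q (n + 1) ≤ P * (mu d (n + 1) * (N0 : ℝ) ^ 2 + δ / 3 * N0) := by
    refine (hQ1 (n + 1)).trans (mul_le_mul_of_nonneg_left ?_ hPpos.le)
    have h5 : (0 : ℝ) ≤ N0 := Nat.cast_nonneg _
    have h6 : 0 ≤ ∑ A ∈ (univ : Finset (Finset (Fin d × Fin K))).filter
        (fun A => A.card ≤ 2 * s + 1), ww ν (n + 1) A := Finset.sum_nonneg fun A _ => hww _ A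
    have := mul_nonneg h5 h6
    linarith
  -- the quadratic part
  have hF : ∑ z, ∑ σ : (Fin d × Fin K) → ℤˣ, (∑ a, ∑ b, if a = b then 0 else
      ∫ x, ∫ x', qq n (inner ℝ x x' : ℝ) ∂(ν (σ * f z b)) ∂(ν (σ * f z a)))
      = P * ((N0 : ℝ) ^ 2 - N0) - (∑ j ∈ Icc 1 n, bc j * Q j) - rr n * Q (n + 1) := by
    have e1 : ∀ (z : Z) (σ : (Fin d × Fin K) → ℤˣ) (a b : Fin N0), (if a = b then 0 else
        ∫ x, ∫ x', qq n (inner ℝ x x' : ℝ) ∂(ν (σ * f z b)) ∂(ν (σ * f z a)))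
        = (if a = b then (0 : ℝ) else 1) - (∑ j ∈ Icc 1 n, bc j * (if a = b then 0 else
          ∫ x, ∫ x', (inner ℝ x x' : ℝ) ^ j ∂(ν (σ * f z b)) ∂(ν (σ * f z a))))
          - rr n * (if a = b then 0 else
          ∫ x, ∫ x', (inner ℝ x x' : ℝ) ^ (n + 1) ∂(ν (σ * f z b)) ∂(ν (σ * f z a))) := by
      intro z σ a b
      by_cases hab : a = b
      · simp [hab]
      · simp only [hab, if_false]
        have := hp (σ * f z a)
        have := hp (σ * f z b)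
        exact BL_two n _ _ (hu _) (hu _)
    simp only [e1, Finset.sum_sub_distrib, BL_cnt]
    have e2 : ∀ j, (∑ z, ∑ σ : (Fin d × Fin K) → ℤˣ, ∑ a, ∑ b, bc j * (if a = b then 0 else
        ∫ x, ∫ x', (inner ℝ x x' : ℝ) ^ j ∂(ν (σ * f z b)) ∂(ν (σ * f z a)))) = bc j * Q j := by
      intro j
      simp only [hQ, Finset.mul_sum]
    have e3 : (∑ z, ∑ σ : (Fin d × Fin K) → ℤˣ, ∑ a, ∑ b, ∑ j ∈ Icc 1 n, bc j * (if a = b then 0 else
        ∫ x, ∫ x', (inner ℝ x x' : ℝ) ^ j ∂(ν (σ * f z b)) ∂(ν (σ * f z a))))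
        = ∑ j ∈ Icc 1 n, bc j * Q j := by
      have e5 : ∑ j ∈ Icc 1 n, bc j * Q j = ∑ j ∈ Icc 1 n, ∑ z, ∑ σ : (Fin d × Fin K) → ℤˣ,
          ∑ a, ∑ b, bc j * (if a = b then 0 else
          ∫ x, ∫ x', (inner ℝ x x' : ℝ) ^ j ∂(ν (σ * f z b)) ∂(ν (σ * f z a))) :=
        Finset.sum_congr rfl fun j _ => (e2 j).symm
      rw [e5]
      symm
      refine Finset.sum_comm.trans (Finset.sum_congr rfl fun z _ => ?_)
      refine Finset.sum_comm.trans (Finset.sum_congr rfl fun σ _ => ?_)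
      refine Finset.sum_comm.trans (Finset.sum_congr rfl fun a _ => ?_)
      exact Finset.sum_comm
    have e4 : (∑ z, ∑ σ : (Fin d × Fin K) → ℤˣ, ∑ a, ∑ b, rr n * (if a = b then 0 else
        ∫ x, ∫ x', (inner ℝ x x' : ℝ) ^ (n + 1) ∂(ν (σ * f z b)) ∂(ν (σ * f z a))))
        = rr n * Q (n + 1) := by
      simp only [hQ, Finset.mul_sum]
    rw [e3, e4]
    simp [hP, Fintype.card_pi]
    ring
  -- the linear part
  have hH : ∑ z, ∑ σ : (Fin d × Fin K) → ℤˣ,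
      (∑ a, ∫ x, (2 * ∑ i, qq n (inner ℝ (X i) x : ℝ)) ∂(ν (σ * f z a)))
      = P * (2 * M * N0 * cq d n) := by
    have e1 : ∀ (z : Z), ∑ σ : (Fin d × Fin K) → ℤˣ,
        (∑ a, ∫ x, (2 * ∑ i, qq n (inner ℝ (X i) x : ℝ)) ∂(ν (σ * f z a)))
        = N0 * (2 * (M * (2 ^ (d * K) * cq d n))) := by
      intro z
      rw [Finset.sum_comm]
      have e2 : ∀ a : Fin N0, ∑ σ : (Fin d × Fin K) → ℤˣ,
          ∫ x, (2 * ∑ i, qq n (inner ℝ (X i) x : ℝ)) ∂(ν (σ * f z a))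
          = 2 * (M * (2 ^ (d * K) * cq d n)) := by
        intro a
        have e3 : ∀ σ : (Fin d × Fin K) → ℤˣ,
            ∫ x, (2 * ∑ i, qq n (inner ℝ (X i) x : ℝ)) ∂(ν (σ * f z a))
            = 2 * ∑ i, ∫ x, qq n (inner ℝ (X i) x : ℝ) ∂(ν (σ * f z a)) := by
          intro σ
          have := hp (σ * f z a)
          rw [integral_const_mul, integral_finsetSum _ fun i _ =>
            BL_i1 _ (hu _) (qq n) (BL_qqc n) (X i) (hX i)]
        simp only [e3]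
        rw [← Finset.mul_sum, Finset.sum_comm]
        simp only [BL_lin hS2 n hd ν hp hu hsum (f z a) _ (hX _)]
        simp
      simp only [e2]
      simp
    simp only [e1]
    simp [hP]
    ring
  have hGs : ∑ z, ∑ σ : (Fin d × Fin K) → ℤˣ, G z σ
      = P * ((N0 : ℝ) ^ 2 - N0) - (∑ j ∈ Icc 1 n, bc j * Q j) - rr n * Q (n + 1)
        + P * (2 * M * N0 * cq d n) := by
    rw [← hF, ← hH]
    simp only [hG, Finset.sum_add_distrib]
  have hrn := hr n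
  have hN : (0 : ℝ) ≤ N0 := Nat.cast_nonneg _
  have hlow : P * T ≤ ∑ z, ∑ σ : (Fin d × Fin K) → ℤˣ, G z σ := by
    rw [hGs]
    have h1 : ∑ j ∈ Icc 1 n, bc j * Q j ≤ ∑ j ∈ Icc 1 n, bc j *
        (P * (mu d j * (N0 : ℝ) ^ 2 + δ / 3 * N0 - N0 * (1 - δ / 3))) :=
      Finset.sum_le_sum fun j hjm => mul_le_mul_of_nonneg_left (hQ2 j hjm)
        (hbpos j (Finset.mem_Icc.1 hjm).1).le
    have h2 : rr n * Q (n + 1) ≤ rr n * (P * (mu d (n + 1) * (N0 : ℝ) ^ 2 + δ / 3 * N0)) :=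
      mul_le_mul_of_nonneg_left hQ3 hrn.1.le
    have h3 : ∑ j ∈ Icc 1 n, bc j *
        (P * (mu d j * (N0 : ℝ) ^ 2 + δ / 3 * N0 - N0 * (1 - δ / 3)))
        = P * (N0 : ℝ) ^ 2 * (∑ j ∈ Icc 1 n, bc j * mu d j)
          + P * (δ / 3 * N0 - N0 * (1 - δ / 3)) * ∑ j ∈ Icc 1 n, bc j := by
      rw [Finset.mul_sum, Finset.mul_sum, ← Finset.sum_add_distrib]
      refine Finset.sum_congr rfl fun j _ => ?_
      ring
    have h4 : ∑ j ∈ Icc 1 n, bc j = 1 - rr n := by linarith [hsb n]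
    rw [h3, h4] at h1
    have h5 : 0 ≤ P * N0 * (δ / 3 * rr n + δ / 3) := by
      have := hrn.1
      positivity
    have h6 : P * T = P * (N0 : ℝ) ^ 2 * cq d n - P * (rr n + δ) * N0
        + P * (2 * M * N0 * cq d n) := by
      rw [hT]
      ring
    have h7 : P * (N0 : ℝ) ^ 2 * cq d n = P * (N0 : ℝ) ^ 2
        - P * (N0 : ℝ) ^ 2 * (∑ j ∈ Icc 1 n, bc j * mu d j)
        - P * (N0 : ℝ) ^ 2 * (rr n * mu d (n + 1)) := by
      rw [hcq]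
      ring
    rw [h6, h7]
    nlinarith [h1, h2, h5]
  -- choice of z and σ
  obtain ⟨z, σ, hzσ⟩ : ∃ (z : Z) (σ : (Fin d × Fin K) → ℤˣ), T ≤ G z σ := by
    by_contra hcon
    push Not at hcon
    have h1 : ∑ z, ∑ σ : (Fin d × Fin K) → ℤˣ, G z σ < ∑ z : Z, ∑ σ : (Fin d × Fin K) → ℤˣ, T := by
      refine Finset.sum_lt_sum_of_nonempty Finset.univ_nonempty fun z _ => ?_
      exact Finset.sum_lt_sum_of_nonempty Finset.univ_nonempty fun σ _ => hcon z σ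
    have h2 : ∑ z : Z, ∑ σ : (Fin d × Fin K) → ℤˣ, T = P * T := by
      simp [hP, Fintype.card_pi]
      ring
    linarith
  obtain ⟨y, hy, hyv⟩ := hEX d N0 (fun a => ν (σ * f z a)) (qq n)
    (fun x => 2 * ∑ i, qq n (inner ℝ (X i) x : ℝ)) (fun a => hp _) (fun a => hu _) (BL_qqc n)
    (by
      refine continuous_const.mul (continuous_finsetSum _ fun i _ => ?_)
      exact (BL_qqc n).comp (by fun_prop))
  refine ⟨y, hy, ?_⟩
  have h8 : ∑ a, (2 * ∑ i, qq n (inner ℝ (X i) (y a) : ℝ))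
      = 2 * ∑ i, ∑ a, qq n (inner ℝ (X i) (y a) : ℝ) := by
    rw [← Finset.mul_sum, Finset.sum_comm]
  rw [← h8]
  exact hzσ.trans hyv

end Pool.Agent.XPS
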