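import Pool.Agent.XPS.St

set_option autoImplicit false

namespace Pool.Agent.XPS

open Finset Filter Topology

private theorem C7_psi_zero {F : Type} [Field F] (ψ : F → ℤˣ) (h : IsCh ψ) : ψ 0 = 1 := by
  have h0 := h.1 0 0
  rw [add_zero] at h0
  exact left_eq_mul.mp h0

private theorem C7_psi_sum {F ι : Type} [Field F] [DecidableEq ι] (ψ : F → ℤˣ) (h : IsCh ψ)
    (g : ι → F) (A : Finset ι) : ψ (∑ i ∈ A, g i) = ∏ i ∈ A, ψ (g i) := by
  induction A using Finset.induction_on with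
  | empty => simpa using C7_psi_zero ψ h
  | insert a A ha ih => rw [Finset.sum_insert ha, Finset.prod_insert ha, h.1, ih]

private theorem C7_sv_prod {ι : Type} (e : ι → ℤˣ) (A : Finset ι) :
    sv (∏ i ∈ A, e i) = ∏ i ∈ A, sv (e i) := by
  unfold sv
  push_cast
  rfl

private theorem C7_chi {F I : Type} [Field F] [DecidableEq I] (ψ : F → ℤˣ) (h : IsCh ψ) (s : ℕ)
    (a : Fin s → F) (z : I → F) (A : Finset I) :
    chi A (fun i => ψ (∑ j, a j * hv s (z i) j)) = sv (ψ (∑ j, a j * (∑ i ∈ A, hv s (z i)) j)) := by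
  unfold chi
  rw [← C7_sv_prod, ← C7_psi_sum ψ h, Finset.sum_comm]
  have : (∑ y : Fin s, ∑ x ∈ A, a y * hv s (z x) y) = ∑ j, a j * (∑ i ∈ A, hv s (z i)) j := by
    refine Finset.sum_congr rfl fun j _ => ?_
    rw [Finset.sum_apply, Finset.mul_sum]
  rw [this]

/-- The family over a field of `2^m` elements. -/
private theorem C7_core (hCO : St_CO) (h1 : St_C1) (h6 : St_C6) (s : ℕ) (δ δ1 θ : ℝ)
    (q : ℕ) (hδ1 : 0 < δ1) (hθ : 0 < θ)
    (hL : 1 + δ1 ≤ (1 + δ) * θ ^ (2 * s + 2))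
    (F : Type) [Field F] [Fintype F] [DecidableEq F] [CharP F 2] (hq : Fintype.card F = q)
    (hC5 : ∀ v : Fin s → F,
      (((univ : Finset (Fin (2 * s + 2) → F)).filter (fun x => ∑ i, hv s (x i) = v)).card : ℝ)
      ≤ (1 + δ1) * (Fintype.card F : ℝ) ^ (s + 2))
    (ψ : F → ℤˣ) (hψ : IsCh ψ)
    (I : Type) [Fintype I] [DecidableEq I] (hI : Fintype.card I + 1 ≤ q)
    (hθq : (q : ℝ) * θ ≤ q - 1 - Fintype.card I) :
    ∃ (Z : Type) (_ : Fintype Z) (_ : Nonempty Z) (f : Z → Fin (q ^ s) → I → ℤˣ), ∀ A : Finset I,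
    (A.Nonempty → A.card ≤ 2 * s → ∀ z, ∑ a, chi A (f z a) = 0) ∧
    (2 * s + 2 ≤ A.card → ∑ z, (∑ a, chi A (f z a)) ^ 2
      ≤ (1 + δ) * ((q ^ s : ℕ) : ℝ) * Fintype.card Z) := by
  have hcardU : Fintype.card Fˣ = q - 1 := by rw [Fintype.card_units, hq]
  have hIU : Fintype.card I ≤ Fintype.card Fˣ := by omega
  have hcardV : Fintype.card (Fin s → F) = q ^ s := by
    rw [Fintype.card_fun, Fintype.card_fin, hq]
  let e : Fin (q ^ s) ≃ (Fin s → F) := (Fintype.equivFinOfCardEq hcardV).symm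
  have hqpos : (0 : ℝ) < q := by
    have : 0 < q := by omega
    exact_mod_cast this
  refine ⟨I ↪ Fˣ, inferInstance, Function.Embedding.nonempty_of_card_le hIU,
    fun z a i => ψ (∑ j, e a j * hv s ((z i : Fˣ) : F) j), ?_⟩
  have hsum : ∀ (A : Finset I) (z : I ↪ Fˣ),
      ∑ a, chi A (fun i => ψ (∑ j, e a j * hv s ((z i : Fˣ) : F) j))
        = if (∑ i ∈ A, hv s ((z i : Fˣ) : F)) = 0 then (q : ℝ) ^ s else 0 := by
    intro A z
    have h2 : ∀ a : Fin (q ^ s), chi A (fun i => ψ (∑ j, e a j * hv s ((z i : Fˣ) : F) j))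
        = (fun b : Fin s → F => sv (ψ (∑ j, b j * (∑ i ∈ A, hv s ((z i : Fˣ) : F)) j))) (e a) := by
      intro a
      exact C7_chi ψ hψ s (e a) (fun i => ((z i : Fˣ) : F)) A
    rw [Finset.sum_congr rfl (fun a _ => h2 a), Equiv.sum_comp e
      (fun b : Fin s → F => sv (ψ (∑ j, b j * (∑ i ∈ A, hv s ((z i : Fˣ) : F)) j))),
      hCO F ψ s _ hψ, hq]
  intro A
  refine ⟨fun hA hAc z => ?_, fun hAc => ?_⟩
  · rw [hsum A z, if_neg]
    intro h0
    have hinj : Function.Injective (fun i : I => ((z i : Fˣ) : F)) := by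
      intro i j hij
      exact z.injective (Units.ext hij)
    have h3 := h1 F s (A.image (fun i : I => ((z i : Fˣ) : F)))
      (Finset.card_image_le.trans hAc)
      (by
        intro h4
        obtain ⟨i, _, hi⟩ := Finset.mem_image.mp h4
        exact (z i).ne_zero hi)
      (by
        rw [Finset.sum_image (fun i _ j _ hij => hinj hij)]
        exact h0)
    obtain ⟨i, hi⟩ := hA
    have h5 : ((z i : Fˣ) : F) ∈ A.image (fun i : I => ((z i : Fˣ) : F)) :=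
      Finset.mem_image_of_mem _ hi
    rw [h3] at h5
    exact absurd h5 (Finset.notMem_empty _)
  · have hT : ∀ v : Fin s → F, ((univ : Finset (Fin (2 * s + 2) → Fˣ)).filter
        (fun x => ∑ i, hv s ((x i : Fˣ) : F) = v)).card ≤ ⌊(1 + δ1) * (q : ℝ) ^ (s + 2)⌋₊ := by
      intro v
      refine Nat.le_floor ?_
      have h7 := hC5 v
      rw [hq] at h7
      refine le_trans ?_ h7
      norm_cast
      refine Finset.card_le_card_of_injOn (fun x i => ((x i : Fˣ) : F)) ?_ ?_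
      · intro x hx
        have hx' := (Finset.mem_filter.mp hx).2
        exact Finset.mem_filter.mpr ⟨Finset.mem_univ _, hx'⟩
      · intro x _ y _ hxy
        funext i
        exact Units.ext (congrFun hxy i)
    have h6' := h6 Fˣ (Fin s → F) I (fun x => hv s (x : F)) (2 * s + 2)
      ⌊(1 + δ1) * (q : ℝ) ^ (s + 2)⌋₊ A hAc hIU hT
    set n : ℕ := ((univ : Finset (I ↪ Fˣ)).filter
      (fun z => ∑ i ∈ A, hv s ((z i : Fˣ) : F) = 0)).card with hn
    have hsq : ∑ z : I ↪ Fˣ, (∑ a, chi A (fun i => ψ (∑ j, e a j * hv s ((z i : Fˣ) : F) j))) ^ 2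
        = ((q : ℝ) ^ s) ^ 2 * n := by
      have h8 : ∀ z : I ↪ Fˣ,
          (∑ a, chi A (fun i => ψ (∑ j, e a j * hv s ((z i : Fˣ) : F) j))) ^ 2
            = if (∑ i ∈ A, hv s ((z i : Fˣ) : F)) = 0 then ((q : ℝ) ^ s) ^ 2 else 0 := by
        intro z
        rw [hsum A z]
        split_ifs
        · rfl
        · simp
      rw [Finset.sum_congr rfl (fun z _ => h8 z), ← Finset.sum_filter, Finset.sum_const,
        nsmul_eq_mul, mul_comm, hn]
    rw [hsq]
    have h6r : (n : ℝ) * ((q : ℝ) - 1 - Fintype.card I) ^ (2 * s + 2)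
        ≤ (1 + δ1) * (q : ℝ) ^ (s + 2) * Fintype.card (I ↪ Fˣ) := by
      have hfl : ((⌊(1 + δ1) * (q : ℝ) ^ (s + 2)⌋₊ : ℕ) : ℝ) ≤ (1 + δ1) * (q : ℝ) ^ (s + 2) :=
        Nat.floor_le (by positivity)
      have h9 : ((n * (Fintype.card Fˣ - Fintype.card I) ^ (2 * s + 2) : ℕ) : ℝ)
          ≤ ((⌊(1 + δ1) * (q : ℝ) ^ (s + 2)⌋₊ * Fintype.card (I ↪ Fˣ) : ℕ) : ℝ) := by
        exact_mod_cast h6'
      rw [Nat.cast_mul, Nat.cast_mul, Nat.cast_pow, Nat.cast_sub hIU, hcardU,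
        Nat.cast_sub (by omega : 1 ≤ q), Nat.cast_one] at h9
      refine h9.trans ?_
      exact mul_le_mul_of_nonneg_right hfl (Nat.cast_nonneg _)
    have hn0 : (0 : ℝ) ≤ n := Nat.cast_nonneg _
    have hZ0 : (0 : ℝ) ≤ Fintype.card (I ↪ Fˣ) := Nat.cast_nonneg _
    have hqθ : 0 < (q : ℝ) * θ := by positivity
    have h10 : (n : ℝ) * ((q : ℝ) * θ) ^ (2 * s + 2)
        ≤ (1 + δ1) * (q : ℝ) ^ (s + 2) * Fintype.card (I ↪ Fˣ) := by
      refine le_trans (mul_le_mul_of_nonneg_left ?_ hn0) h6r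
      exact pow_le_pow_left₀ hqθ.le hθq _
    have h11 : (n : ℝ) * ((q : ℝ) * θ) ^ (2 * s + 2)
        ≤ ((1 + δ) * θ ^ (2 * s + 2)) * (q : ℝ) ^ (s + 2) * Fintype.card (I ↪ Fˣ) := by
      refine h10.trans ?_
      have : (0 : ℝ) ≤ (q : ℝ) ^ (s + 2) := by positivity
      exact mul_le_mul_of_nonneg_right (mul_le_mul_of_nonneg_right hL this) hZ0
    have hc : 0 < ((q : ℝ) * θ) ^ (2 * s + 2) := by positivity
    refine le_of_mul_le_mul_right ?_ hc
    calc ((q : ℝ) ^ s) ^ 2 * n * ((q : ℝ) * θ) ^ (2 * s + 2)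
        = ((q : ℝ) ^ s) ^ 2 * (n * ((q : ℝ) * θ) ^ (2 * s + 2)) := by ring
      _ ≤ ((q : ℝ) ^ s) ^ 2 * (((1 + δ) * θ ^ (2 * s + 2)) * (q : ℝ) ^ (s + 2)
            * Fintype.card (I ↪ Fˣ)) :=
          mul_le_mul_of_nonneg_left h11 (by positivity)
      _ = (1 + δ) * ((q ^ s : ℕ) : ℝ) * Fintype.card (I ↪ Fˣ)
            * ((q : ℝ) * θ) ^ (2 * s + 2) := by
          push_cast
          ring

theorem thm_C7 (h0 : St_C0) (hCO : St_CO) (h1 : St_C1) (h5 : St_C5) (h6 : St_C6) : St_C7 := by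
  intro s δ hs hδ
  obtain ⟨q0, hq0⟩ := h5 s (δ / 2) hs (half_pos hδ)
  have hlim : Tendsto (fun L : ℕ => (1 + δ) * (1 - 2 / (L : ℝ)) ^ (2 * s + 2)) atTop
      (𝓝 ((1 + δ) * (1 - 0) ^ (2 * s + 2))) := by
    refine Tendsto.const_mul _ (Tendsto.pow (Tendsto.const_sub _ ?_) _)
    exact tendsto_const_div_atTop_nhds_zero_nat 2
  have hev := hlim.eventually_const_lt
    (show 1 + δ / 2 < (1 + δ) * (1 - 0) ^ (2 * s + 2) by
      rw [sub_zero, one_pow, mul_one]; linarith)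
  obtain ⟨L1, hL1⟩ := Filter.eventually_atTop.mp hev
  refine ⟨max (max L1 q0) 4, by omega, ?_⟩
  set L : ℕ := max (max L1 q0) 4 with hLdef
  have hL4 : 4 ≤ L := le_max_right _ _
  have hLL1 : L1 ≤ L := (le_max_left _ _).trans (le_max_left _ _)
  have hLq0 : q0 ≤ L := (le_max_right _ _).trans (le_max_left _ _)
  intro m I _ _ _ hLI
  have hIpos : 1 ≤ Fintype.card I := Fintype.card_pos
  have hL2m : L ≤ 2 ^ m := by
    calc L = L * 1 := (mul_one L).symm
      _ ≤ L * Fintype.card I := Nat.mul_le_mul_left _ hIpos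
      _ ≤ 2 ^ m := hLI
  have hm : m ≠ 0 := by
    rintro rfl
    rw [pow_zero] at hL2m
    omega
  have : Fact (Nat.Prime 2) := ⟨Nat.prime_two⟩
  classical
  let : Fintype (GaloisField 2 m) := Fintype.ofFinite _
  have hcard : Fintype.card (GaloisField 2 m) = 2 ^ m := by
    rw [← Nat.card_eq_fintype_card]
    exact GaloisField.card 2 m hm
  obtain ⟨ψ, hψ⟩ := h0 (GaloisField 2 m)
  have hLr : (4 : ℝ) ≤ L := by exact_mod_cast hL4
  have hLpos : (0 : ℝ) < L := by linarith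
  have hθ : 0 < 1 - 2 / (L : ℝ) := by
    rw [sub_pos, div_lt_one hLpos]
    linarith
  have hLIr : (L : ℝ) * Fintype.card I ≤ ((2 ^ m : ℕ) : ℝ) := by exact_mod_cast hLI
  have hIr : (1 : ℝ) ≤ Fintype.card I := by exact_mod_cast hIpos
  refine C7_core hCO h1 h6 s δ (δ / 2) (1 - 2 / (L : ℝ)) (2 ^ m) (half_pos hδ) hθ
    (hL1 L hLL1).le (GaloisField 2 m) hcard
    (fun v => hq0 (GaloisField 2 m) v (by rw [hcard]; exact hLq0.trans hL2m)) ψ hψ I ?_ ?_
  · have : 4 * Fintype.card I ≤ L * Fintype.card I := Nat.mul_le_mul_right _ hL4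
    omega
  · have h12 : (2 : ℝ) / L * ((2 ^ m : ℕ) : ℝ) ≥ 2 * Fintype.card I := by
      rw [ge_iff_le, div_mul_eq_mul_div, le_div_iff₀ hLpos]
      nlinarith
    nlinarith

end Pool.Agent.XPS
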